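import Mathlib

/-! # A Markov basis generates the toric ideal of permutation matrices (MP_697f4c_co) -/

namespace Pool.Agent.Work.MP_697f4c_co.Toric

open Finset Equiv

variable {X : Type*} [Fintype X] (k : Type*) [CommRing k]

variable (X) in
/-- The ring map `x_σ ↦ ∏ i, t_{i, σ(i)}`. -/
noncomputable def toricMap : MvPolynomial (Perm X) k →ₐ[k] MvPolynomial (X × X) k :=
  MvPolynomial.aeval fun σ : Perm X => ∏ i : X, MvPolynomial.X (i, σ i)

variable [DecidableEq X]

/-- The binomial `∏ x_σ ^ (g⁺ σ) - ∏ x_σ ^ (g⁻ σ)` of a vector `g`. -/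
noncomputable def binomial (g : Perm X → ℤ) : MvPolynomial (Perm X) k :=
  (∏ σ : Perm X, MvPolynomial.X σ ^ (g σ).toNat) - ∏ σ : Perm X, MvPolynomial.X σ ^ (-g σ).toNat

/-- The first-order summary. -/
def sm (f : Perm X → ℕ) (i j : X) : ℕ := ∑ σ : Perm X, if σ i = j then f σ else 0

/-- The monomial of a survey. -/
noncomputable def mon (f : Perm X → ℕ) : MvPolynomial (Perm X) k :=
  ∏ σ : Perm X, MvPolynomial.X σ ^ f σ

omit [DecidableEq X] in
/-- The monomial of a summary. -/
noncomputable def tmon (S : X → X → ℕ) : MvPolynomial (X × X) k :=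
  ∏ i : X, ∏ j : X, MvPolynomial.X (i, j) ^ S i j

lemma mon_add (f g : Perm X → ℕ) : mon k (f + g) = mon k f * mon k g := by
  unfold mon
  rw [← prod_mul_distrib]
  exact prod_congr rfl fun σ _ => by rw [Pi.add_apply, pow_add]

lemma toric_mon (f : Perm X → ℕ) : toricMap X k (mon k f) = tmon k (sm f) := by
  unfold toricMap mon tmon sm
  rw [map_prod]
  have h1 : ∀ σ : Perm X, (MvPolynomial.aeval (R := k)
      fun σ : Perm X => ∏ i : X, (MvPolynomial.X (i, σ i) : MvPolynomial (X × X) k))
        (MvPolynomial.X σ ^ f σ)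
      = ∏ i : X, ∏ j : X, MvPolynomial.X (i, j) ^ (if σ i = j then f σ else 0) := by
    intro σ
    rw [map_pow, MvPolynomial.aeval_X, ← prod_pow]
    refine prod_congr rfl fun i _ => ?_
    rw [prod_eq_single (σ i)]
    · simp
    · intro j _ hj
      rw [if_neg (Ne.symm hj), pow_zero]
    · intro h
      exact absurd (mem_univ _) h
  rw [prod_congr rfl fun σ _ => h1 σ, prod_comm]
  refine prod_congr rfl fun i _ => ?_
  rw [prod_comm]
  refine prod_congr rfl fun j _ => ?_
  rw [prod_pow_eq_pow_sum]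

lemma binomial_eq (g : Perm X → ℤ) :
    binomial k g = mon k (fun σ => (g σ).toNat) - mon k (fun σ => (-g σ).toNat) := rfl

lemma sm_parts {g : Perm X → ℤ}
    (hg : ∀ i j : X, ∑ σ : Perm X, (if σ i = j then g σ else 0) = 0) (i j : X) :
    sm (fun σ => (g σ).toNat) i j = sm (fun σ => (-g σ).toNat) i j := by
  have h1 : ((sm (fun σ => (g σ).toNat) i j : ℕ) : ℤ)
      - (sm (fun σ => (-g σ).toNat) i j : ℕ) = 0 := by
    rw [← hg i j]
    unfold sm
    push_cast
    rw [← sum_sub_distrib]
    refine sum_congr rfl fun σ _ => ?_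
    split_ifs
    · omega
    · rfl
  omega

lemma binomial_mem_ker {g : Perm X → ℤ}
    (hg : ∀ i j : X, ∑ σ : Perm X, (if σ i = j then g σ else 0) = 0) :
    binomial k g ∈ RingHom.ker (toricMap X k) := by
  rw [RingHom.mem_ker, binomial_eq, map_sub, toric_mon, toric_mon,
    show sm (fun σ => (g σ).toNat) = sm (fun σ => (-g σ).toNat) from
      funext fun i => funext fun j => sm_parts hg i j, sub_self]

/-- If `f' - f = g` then `x^f' - x^f` is a multiple of the binomial of `g`. -/
lemma mon_sub {f f' : Perm X → ℕ} {g : Perm X → ℤ} (h : (fun σ => (f' σ : ℤ) - f σ) = g) :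
    mon k f' - mon k f = mon k (fun σ => min (f σ) (f' σ)) * binomial k g := by
  rw [binomial_eq, mul_sub, ← mon_add, ← mon_add]
  congr 2
  · funext σ
    have := congrFun h σ
    simp only [Pi.add_apply] at *
    omega
  · funext σ
    have := congrFun h σ
    simp only [Pi.add_apply] at *
    omega

lemma mon_congr {B : Set (Perm X → ℤ)} {f f' : Perm X → ℕ}
    (h : ∃ (n : ℕ) (F : ℕ → Perm X → ℕ), F 0 = f ∧ F n = f' ∧
      ∀ t < n, (fun σ => (F (t + 1) σ : ℤ) - F t σ) ∈ B ∨
        (fun σ => (F t σ : ℤ) - F (t + 1) σ) ∈ B) :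
    mon k f' - mon k f ∈ Ideal.span {b | ∃ g ∈ B, b = binomial k g} := by
  obtain ⟨n, F, h0, hn, hst⟩ := h
  have key : ∀ t ≤ n, mon k (F t) - mon k f ∈ Ideal.span {b | ∃ g ∈ B, b = binomial k g} := by
    intro t
    induction t with
    | zero =>
      intro _
      rw [h0, sub_self]
      exact Ideal.zero_mem _
    | succ t ih =>
      intro ht
      have h1 := ih (by omega)
      have h2 : mon k (F (t + 1)) - mon k (F t)
          ∈ Ideal.span {b | ∃ g ∈ B, b = binomial k g} := by
        rcases hst t (by omega) with hs | hs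
        · rw [mon_sub k rfl]
          exact Ideal.mul_mem_left _ _ (Ideal.subset_span ⟨_, hs, rfl⟩)
        · rw [← neg_sub, mon_sub k rfl]
          exact (Ideal.neg_mem_iff _).mpr
            (Ideal.mul_mem_left _ _ (Ideal.subset_span ⟨_, hs, rfl⟩))
      have := Ideal.add_mem _ h2 h1
      rwa [sub_add_sub_cancel] at this
  rw [← hn]
  exact key n le_rfl

lemma mon_eq_monomial (m : Perm X →₀ ℕ) : mon k (m : Perm X → ℕ) = MvPolynomial.monomial m 1 := by
  unfold mon
  rw [MvPolynomial.monomial_eq, map_one, one_mul, Finsupp.prod_fintype]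
  intro σ
  rw [pow_zero]

omit [DecidableEq X] in
lemma tmon_eq_monomial (S : X → X → ℕ) : tmon k S
    = MvPolynomial.monomial (Finsupp.equivFunOnFinite.symm fun q : X × X => S q.1 q.2) 1 := by
  unfold tmon
  rw [MvPolynomial.monomial_eq, map_one, one_mul, Finsupp.prod_fintype, Fintype.prod_prod_type]
  · rfl
  · intro q
    rw [pow_zero]

/-- The binomials of a Markov basis generate the toric ideal. -/
theorem span_eq_ker {B : Set (Perm X → ℤ)}
    (hB : ∀ g ∈ B, ∀ i j : X, ∑ σ : Perm X, (if σ i = j then g σ else 0) = 0)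
    (hpath : ∀ f f' : Perm X → ℕ,
      (∀ i j : X, (∑ σ : Perm X, if σ i = j then f σ else 0)
        = ∑ σ : Perm X, if σ i = j then f' σ else 0) →
      ∃ (n : ℕ) (F : ℕ → Perm X → ℕ), F 0 = f ∧ F n = f' ∧
        ∀ t < n, (fun σ => (F (t + 1) σ : ℤ) - F t σ) ∈ B ∨
          (fun σ => (F t σ : ℤ) - F (t + 1) σ) ∈ B) :
    Ideal.span {b | ∃ g ∈ B, b = binomial k g} = RingHom.ker (toricMap X k) := by
  classical
  apply le_antisymm
  · rw [Ideal.span_le]
    rintro b ⟨g, hg, rfl⟩
    exact binomial_mem_ker k (hB g hg)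
  · intro P hP
    set I := Ideal.span {b | ∃ g ∈ B, b = binomial k g} with hI
    let ρ : ((X × X) →₀ ℕ) → (Perm X → ℕ) := fun e =>
      if h : ∃ f : Perm X → ℕ, ∀ i j, sm f i j = e (i, j) then h.choose else 0
    have hρ : ∀ (e : (X × X) →₀ ℕ) (f : Perm X → ℕ), (∀ i j, sm f i j = e (i, j)) →
        ∀ i j, sm (ρ e) i j = sm f i j := by
      intro e f hf i j
      have h : ∃ f : Perm X → ℕ, ∀ i j, sm f i j = e (i, j) := ⟨f, hf⟩
      simp only [ρ, dif_pos h]
      rw [h.choose_spec i j, hf i j]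
    let ψ : MvPolynomial (X × X) k →ₗ[k] MvPolynomial (Perm X) k ⧸ I :=
      (MvPolynomial.basisMonomials (X × X) k).constr k fun e =>
        Ideal.Quotient.mkₐ k I (mon k (ρ e))
    have hcomp : ψ ∘ₗ (toricMap X k).toLinearMap = (Ideal.Quotient.mkₐ k I).toLinearMap := by
      refine (MvPolynomial.basisMonomials (Perm X) k).ext fun m => ?_
      rw [MvPolynomial.coe_basisMonomials, LinearMap.comp_apply, AlgHom.toLinearMap_apply,
        AlgHom.toLinearMap_apply]
      change ψ (toricMap X k (MvPolynomial.monomial m 1))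
        = Ideal.Quotient.mkₐ k I (MvPolynomial.monomial m 1)
      rw [← mon_eq_monomial, toric_mon, tmon_eq_monomial]
      have h1 : ∀ e : (X × X) →₀ ℕ, ψ (MvPolynomial.monomial e 1)
          = Ideal.Quotient.mkₐ k I (mon k (ρ e)) := by
        intro e
        have := (MvPolynomial.basisMonomials (X × X) k).constr_basis k
          (fun e => Ideal.Quotient.mkₐ k I (mon k (ρ e))) e
        rw [MvPolynomial.coe_basisMonomials] at this
        exact this
      rw [h1, Ideal.Quotient.mkₐ_eq_mk]
      refine (Ideal.Quotient.eq.mpr ?_)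
      have h2 := hρ (Finsupp.equivFunOnFinite.symm fun q : X × X => sm (m : Perm X → ℕ) q.1 q.2)
        m (fun i j => rfl)
      exact mon_congr k (hpath _ _ fun i j => (h2 i j).symm)
    have h3 : Ideal.Quotient.mkₐ k I P = 0 := by
      have h4 := congrArg (fun L => L P) hcomp
      simp only [LinearMap.comp_apply, AlgHom.toLinearMap_apply] at h4
      rw [← h4, (RingHom.mem_ker).mp hP, map_zero]
    rw [Ideal.Quotient.mkₐ_eq_mk] at h3
    exact Ideal.Quotient.eq_zero_iff_mem.mp h3

end Pool.Agent.Work.MP_697f4c_co.Toric
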