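import Pool.Agent.Work.MP_697f4c_co.Toric

/-!
MP_697f4c_co, work file: multiples of the elements of the toric ideal.
-/

namespace Birk

open Finset Equiv Pool.Agent.Work.MP_697f4c_co.Toric

variable {X : Type*} [Fintype X] (k : Type*) [CommRing k] [DecidableEq X]

/-- If `c (x^f' - x^f)` lies in `I` whenever `f` and `f'` have the same summary, then `c P` lies in
`I` for every `P` in the toric ideal. -/
theorem mul_mem_of {I : Ideal (MvPolynomial (Perm X) k)} {c : MvPolynomial (Perm X) k}
    (h : ∀ f f' : Perm X → ℕ, (∀ i j, sm f i j = sm f' i j) → c * (mon k f' - mon k f) ∈ I)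
    {P : MvPolynomial (Perm X) k} (hP : P ∈ RingHom.ker (toricMap X k)) : c * P ∈ I := by
  classical
  let ρ : ((X × X) →₀ ℕ) → (Perm X → ℕ) := fun e =>
    if h : ∃ f : Perm X → ℕ, ∀ i j, sm f i j = e (i, j) then h.choose else 0
  have hρ : ∀ (e : (X × X) →₀ ℕ) (f : Perm X → ℕ), (∀ i j, sm f i j = e (i, j)) →
      ∀ i j, sm (ρ e) i j = sm f i j := by
    intro e f hf i j
    have h : ∃ f : Perm X → ℕ, ∀ i j, sm f i j = e (i, j) := ⟨f, hf⟩
    simp only [ρ, dif_pos h]
    rw [h.choose_spec i j, hf i j]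
  let ψ : MvPolynomial (X × X) k →ₗ[k] MvPolynomial (Perm X) k ⧸ I :=
    (MvPolynomial.basisMonomials (X × X) k).constr k fun e =>
      Ideal.Quotient.mkₐ k I (c * mon k (ρ e))
  have hcomp : ψ ∘ₗ (toricMap X k).toLinearMap
      = (Ideal.Quotient.mkₐ k I).toLinearMap ∘ₗ LinearMap.mulLeft k c := by
    refine (MvPolynomial.basisMonomials (Perm X) k).ext fun m => ?_
    rw [MvPolynomial.coe_basisMonomials, LinearMap.comp_apply, AlgHom.toLinearMap_apply,
      LinearMap.comp_apply, AlgHom.toLinearMap_apply, LinearMap.mulLeft_apply]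
    change ψ (toricMap X k (MvPolynomial.monomial m 1))
      = Ideal.Quotient.mkₐ k I (c * MvPolynomial.monomial m 1)
    rw [← mon_eq_monomial, toric_mon, tmon_eq_monomial]
    have h1 : ∀ e : (X × X) →₀ ℕ, ψ (MvPolynomial.monomial e 1)
        = Ideal.Quotient.mkₐ k I (c * mon k (ρ e)) := by
      intro e
      have := (MvPolynomial.basisMonomials (X × X) k).constr_basis k
        (fun e => Ideal.Quotient.mkₐ k I (c * mon k (ρ e))) e
      rw [MvPolynomial.coe_basisMonomials] at this
      exact this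
    rw [h1, Ideal.Quotient.mkₐ_eq_mk]
    refine (Ideal.Quotient.eq.mpr ?_)
    have h2 := hρ (Finsupp.equivFunOnFinite.symm fun q : X × X => sm (m : Perm X → ℕ) q.1 q.2)
      m (fun i j => rfl)
    rw [← mul_sub]
    exact h _ _ fun i j => (h2 i j).symm
  have h3 : Ideal.Quotient.mkₐ k I (c * P) = 0 := by
    have h4 := congrArg (fun L => L P) hcomp
    simp only [LinearMap.comp_apply, AlgHom.toLinearMap_apply, LinearMap.mulLeft_apply] at h4
    rw [← h4, (RingHom.mem_ker).mp hP, map_zero]
  rw [Ideal.Quotient.mkₐ_eq_mk] at h3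
  exact Ideal.Quotient.eq_zero_iff_mem.mp h3

end Birk
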