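import Pool.Agent.Work.MP_697f4c_co.Count

/-!
MP_697f4c_co, work file: counting, multisets of rankings and surveys.
-/

open Equiv Finset

namespace Birk

theorem cover_card {β ι : Type*} {S : Set β} (T : Finset ι) (R : ι → β → Prop)
    (hR : ∀ t x y, R t x → R t y → x = y) (hS : ∀ x ∈ S, ∃ t ∈ T, R t x) :
    S.Finite ∧ S.ncard ≤ T.card := by
  classical
  rcases S.eq_empty_or_nonempty with rfl | ⟨x0, hx0⟩
  · simp
  haveI : Nonempty ι := ⟨(hS x0 hx0).choose⟩
  choose! t ht using hS
  have maps : ∀ x ∈ S, t x ∈ (T : Set ι) := fun x hx => (ht x hx).1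
  have inj : Set.InjOn t S := by
    intro x hx y hy hxy
    have h1 := (ht x hx).2
    have h2 := (ht y hy).2
    rw [← hxy] at h2
    exact hR _ _ _ h1 h2
  refine ⟨Set.Finite.of_injOn maps inj T.finite_toSet, ?_⟩
  have := Set.ncard_le_ncard_of_injOn t maps inj T.finite_toSet
  rwa [Set.ncard_coe_finset] at this

variable {α : Type*} [DecidableEq α]

theorem up_iff (u v w z : α) : ({u, v} : Multiset α) = {w, z} ↔ UP u v w z := by
  constructor
  · intro h
    apply up_of_ind
    intro y
    have h1 := congrArg (Multiset.count y) h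
    simp only [Multiset.insert_eq_cons, Multiset.count_cons, Multiset.count_singleton] at h1
    simp only [eq_comm (a := y)] at h1
    split_ifs at h1 ⊢ <;> omega
  · rintro (⟨rfl, rfl⟩ | ⟨rfl, rfl⟩)
    · rfl
    · exact Multiset.pair_comm _ _

theorem sum_of_up {a b a' b' : Perm α} (h : ∀ x, UP (a' x) (b' x) (a x) (b x)) (x y : α) :
    pm a x y + pm b x y = pm a' x y + pm b' x y := by
  unfold pm
  rcases h x with h1 | h1
  · rw [h1.1, h1.2]
  · rw [h1.1, h1.2, add_comm]

theorem sum3_iff (a b s a' b' s' : Perm α) :
    (∀ x, ({a x, b x, s x} : Multiset α) = {a' x, b' x, s' x}) ↔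
    ∀ x y, pm a x y + pm b x y + pm s x y = pm a' x y + pm b' x y + pm s' x y := by
  constructor
  · intro h x y
    have h1 := congrArg (Multiset.count y) (h x)
    simp only [Multiset.insert_eq_cons, Multiset.count_cons, Multiset.count_singleton] at h1
    simp only [eq_comm (a := y)] at h1
    unfold pm
    split_ifs at h1 ⊢ <;> omega
  · intro h x
    ext y
    have h1 := h x y
    unfold pm at h1
    simp only [Multiset.insert_eq_cons, Multiset.count_cons, Multiset.count_singleton]
    simp only [eq_comm (a := y)]
    split_ifs at h1 ⊢ <;> omega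

variable [Fintype α]

theorem tot_eq_sum (W : Multiset (Perm α)) (x y : α) :
    tot W x y = ∑ σ : Perm α, if σ x = y then (W.count σ : ℤ) else 0 := by
  induction W using Multiset.induction_on with
  | empty => rw [tot_zero]; simp
  | cons s W ih =>
    rw [tot_cons, ih]
    have e : ∀ σ : Perm α, (if σ x = y then ((s ::ₘ W).count σ : ℤ) else 0)
        = (if σ x = y then (W.count σ : ℤ) else 0) + (if σ = s then pm s x y else 0) := by
      intro σ
      rw [Multiset.count_cons]
      unfold pm
      by_cases h1 : σ = s
      · subst h1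
        by_cases h2 : σ x = y
        · simp [h2]
        · simp [h2]
      · simp [h1]
    rw [sum_congr rfl fun σ _ => e σ, sum_add_distrib, sum_ite_eq' univ s]
    simp only [mem_univ, if_true]
    ring

/-- the multiset of the ballots of a survey -/
def ms (f : Perm α → ℕ) : Multiset (Perm α) := ∑ σ, Multiset.replicate (f σ) σ

theorem count_ms (f : Perm α → ℕ) (σ : Perm α) : (ms f).count σ = f σ := by
  unfold ms
  rw [Multiset.count_sum', sum_eq_single σ]
  · rw [Multiset.count_replicate, if_pos rfl]
  · intro τ _ h
    rw [Multiset.count_replicate, if_neg h]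
  · intro h; exact absurd (mem_univ _) h

theorem card_ms (f : Perm α → ℕ) : Multiset.card (ms f) = ∑ σ, f σ := by
  unfold ms
  rw [Multiset.card_sum]
  simp

theorem cnt_inj {U V : Multiset (Perm α)} (h : ∀ σ, U.count σ = V.count σ) : U = V :=
  Multiset.ext.2 h

end Birk
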