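import Pool.Agent.Work.MP_697f4c_co.Trans

/-!
MP_697f4c_co, work file: the walk which turns a ranking of a survey into a prescribed ranking.
-/

open Equiv Finset

namespace Birk

/-- at most `n` steps -/
inductive Reach {β : Type*} (R : β → β → Prop) : ℕ → β → β → Prop
  | refl (n : ℕ) (u : β) : Reach R n u u
  | step {n : ℕ} {u v w : β} : R u v → Reach R n v w → Reach R (n + 1) u w

theorem Reach.mono {β : Type*} {R : β → β → Prop} {n : ℕ} {u v : β} (h : Reach R n u v) :
    ∀ {m : ℕ}, n ≤ m → Reach R m u v := by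
  induction h with
  | refl n u => intro m _; exact Reach.refl m u
  | step hr _ ih =>
    intro m hm
    obtain ⟨k, rfl⟩ : ∃ k, m = k + 1 := ⟨m - 1, by omega⟩
    exact Reach.step hr (ih (by omega))

theorem Reach.trans {β : Type*} {R : β → β → Prop} {n m : ℕ} {u v w : β} (h : Reach R n u v)
    (h2 : Reach R m v w) : Reach R (n + m) u w := by
  induction h with
  | refl n u => exact h2.mono (by omega)
  | step hr _ ih =>
    have := ih h2
    rw [show ∀ a b : ℕ, a + 1 + b = a + b + 1 from fun a b => by omega]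
    exact Reach.step hr this

variable {α : Type*} [DecidableEq α] [Fintype α]

/-- the number of missing pairs of `τ` -/
def df (τ : Perm α) (h : α → α → ℤ) : ℕ := (univ.filter fun x => h x (τ x) ≤ 0).card

/-- a state of the walk -/
structure St (τ : Perm α) (x0 : α) (h : α → α → ℤ) (r : Perm α) : Prop where
  row : ∀ x, ∑ y, h x y = 1
  col : ∀ y, ∑ x, h x y = 1
  nn : ∀ x y, (x ≠ x0 ∨ y ≠ r x0) → 0 ≤ h x y
  ge : -1 ≤ h x0 (r x0)
  nxt : ∃ x1, x1 ≠ x0 ∧ 1 ≤ h x1 (r x0) ∧ τ x1 ≠ r x0

/-- entries of a nonnegative row with sum one -/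
theorem row_one {g : α → ℤ} (h0 : ∀ y, 0 ≤ g y) (hs : ∑ y, g y = 1) {y1 : α} (h1 : 1 ≤ g y1) :
    ∀ y, g y = if y = y1 then 1 else 0 := by
  intro y
  by_cases hy : y = y1
  · subst hy
    rw [if_pos rfl]
    have := single_le_sum (f := g) (fun y _ => h0 y) (mem_univ y)
    omega
  · rw [if_neg hy]
    have h2 : g y + g y1 ≤ ∑ y, g y := by
      rw [← sum_pair hy]
      exact sum_le_sum_of_subset_of_nonneg (subset_univ _) fun y _ _ => h0 y
    have := h0 y
    omega

/-- in an improper state there is a next point -/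
theorem nxt_of {τ : Perm α} {x0 x1 y1 : α} {h : α → α → ℤ} (hrow : ∀ x, ∑ y, h x y = 1)
    (hcol : ∀ y, ∑ x, h x y = 1) (hnn : ∀ x y, (x ≠ x0 ∨ y ≠ y1) → 0 ≤ h x y)
    (hneg : h x0 y1 = -1) (hx : x1 ≠ x0) (ht : τ x1 = y1) :
    ∃ x2, x2 ≠ x0 ∧ 1 ≤ h x2 y1 ∧ τ x2 ≠ y1 := by
  by_contra hcon
  push Not at hcon
  have h2 : ∀ x, x ≠ x0 → x ≠ x1 → h x y1 = 0 := by
    intro x h0 h1
    have h3 := hnn x y1 (Or.inl h0)
    by_contra hne
    have h4 := hcon x h0 (by omega)
    exact h1 (τ.injective (by rw [h4, ht]))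
  have h3 : h x1 y1 ≤ 1 := by
    have := single_le_sum (f := fun y => h x1 y) (fun y _ => hnn x1 y (Or.inl hx)) (mem_univ y1)
    rw [hrow x1] at this
    exact this
  have h4 := hcol y1
  rw [← sum_subset (subset_univ {x0, x1}) (fun x _ hx' => by
    simp only [mem_insert, mem_singleton, not_or] at hx'
    exact h2 x hx'.1 hx'.2), sum_pair (Ne.symm hx), hneg] at h4
  omega

theorem tr {τ : Perm α} {x0 : α} {h : α → α → ℤ} {r a b : Perm α} {W : Multiset (Perm α)}
    (st : St τ x0 h r) (hab : ∀ x y, pm a x y + pm b x y = h x y + pm r x y)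
    (hcan : Can a b r x0)
    (hcov : ∀ x, 1 ≤ h x (τ x) + pm r x (τ x) + tot W x (τ x)) :
    ∃ (h' : α → α → ℤ) (r' : Perm α) (W' : Multiset (Perm α)),
      (∀ x, ∑ y, h' x y = 1) ∧ (∀ y, ∑ x, h' x y = 1) ∧
      (∀ x y, (x ≠ x0 ∨ y ≠ r' x0) → 0 ≤ h' x y) ∧ -1 ≤ h' x0 (r' x0) ∧
      (∀ x y, h' x y + pm r' x y + tot W' x y = h x y + pm r x y + tot W x y) ∧
      (∃ x1, x1 ≠ x0 ∧ τ x1 = r' x0) ∧
      df τ h' + 1 ≤ df τ h ∧
      (τ x0 = r x0 → h x0 (r x0) = 0 → df τ h' + 2 ≤ df τ h) ∧
      (∀ a' b' : Perm α, (∀ x y, pm a' x y + pm b' x y = h' x y + pm r' x y) →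
        Can a' b' r' x0 →
        (a ::ₘ b ::ₘ W = a' ::ₘ b' ::ₘ W') ∨ Rm (a ::ₘ b ::ₘ W) (a' ::ₘ b' ::ₘ W')) := by
  obtain ⟨x1, hx1, h1, ht⟩ := st.nxt
  set y0 := r x0 with hy0
  set y1 := τ x1 with hy1
  -- the row of `x1`
  have hrow1 : ∀ y, h x1 y = if y = y0 then 1 else 0 :=
    row_one (fun y => st.nn x1 y (Or.inl hx1)) (st.row x1) h1
  have hab1 : UP (a x1) (b x1) (r x0) (r x1) := by
    apply up_of_ind
    intro y
    have h2 := hab x1 y
    rw [hrow1 y] at h2
    unfold pm at h2
    rw [h2, ← hy0]
    congr 1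
    by_cases hh : y = y0
    · rw [if_pos hh, if_pos hh.symm]
    · rw [if_neg hh, if_neg (Ne.symm hh)]
  -- the new matrix
  set h' : α → α → ℤ := fun x y => h x y + rect x0 x1 y0 y1 x y with hh'
  have row' : ∀ x, ∑ y, h' x y = 1 := by
    intro x; simp only [hh']; rw [sum_add_distrib, st.row, rect_row]; norm_num
  have col' : ∀ y, ∑ x, h' x y = 1 := by
    intro y; simp only [hh']; rw [sum_add_distrib, st.col, rect_col]; norm_num
  have nn' : ∀ x y, (x ≠ x0 ∨ y ≠ y1) → 0 ≤ h' x y := by
    intro x y hxy
    simp only [hh']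
    unfold rect mu
    by_cases c0 : x = x0
    · subst c0
      have hy : y ≠ y1 := by
        rcases hxy with h2 | h2
        · exact absurd rfl h2
        · exact h2
      simp only [true_and, Ne.symm hx1, false_and, if_false, hy]
      by_cases hyy : y = y0
      · have := st.ge
        rw [hyy, if_pos rfl]
        rw [← hy0] at this
        omega
      · rw [if_neg hyy]
        have := st.nn x y (Or.inr hyy)
        omega
    · by_cases c1 : x = x1
      · subst c1
        simp only [true_and, c0, false_and, if_false]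
        rw [hrow1 y]
        split_ifs <;> omega
      · simp only [c0, c1, false_and, if_false]
        have := st.nn x y (Or.inl c0)
        omega
  have ge' : -1 ≤ h' x0 y1 := by
    simp only [hh']
    unfold rect mu
    have h2 := st.nn x0 y1 (Or.inr ht)
    simp only [true_and, Ne.symm hx1, false_and, if_false, ht, if_true]
    omega
  have e1 : 1 ≤ h' x1 (τ x1) := by
    simp only [hh']
    unfold rect mu
    have h2 := st.nn x1 y1 (Or.inl hx1)
    rw [← hy1]
    simp only [true_and, hx1, false_and, if_false, ht, if_true]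
    omega
  have ex : ∀ x, x ≠ x1 → h x (τ x) ≤ h' x (τ x) := by
    intro x hx
    simp only [hh']
    unfold rect mu
    have h2 : τ x ≠ y1 := fun h3 => hx (τ.injective h3)
    simp only [hx, h2, false_and, and_false, if_false]
    have : (0 : ℤ) ≤ if x = x0 ∧ τ x = y0 then 1 else 0 := by split_ifs <;> norm_num
    omega
  have hx1z : h x1 (τ x1) = 0 := by rw [hrow1, if_neg ht]
  have df1 : df τ h' + 1 ≤ df τ h := by
    unfold df
    have hsub : (univ.filter fun x => h' x (τ x) ≤ 0)
        ⊆ (univ.filter fun x => h x (τ x) ≤ 0).erase x1 := by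
      intro x hx
      simp only [mem_filter, mem_univ, true_and] at hx
      simp only [mem_erase, mem_filter, mem_univ, true_and]
      have hne : x ≠ x1 := by rintro rfl; omega
      exact ⟨hne, by have := ex x hne; omega⟩
    have h2 := card_le_card hsub
    have hm : x1 ∈ univ.filter fun x => h x (τ x) ≤ 0 := by
      simp only [mem_filter, mem_univ, true_and]; omega
    rw [card_erase_of_mem hm] at h2
    have h3 : 0 < (univ.filter fun x => h x (τ x) ≤ 0).card := card_pos.2 ⟨_, hm⟩
    omega
  have df2 : τ x0 = y0 → h x0 y0 = 0 → df τ h' + 2 ≤ df τ h := by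
    intro ht0 h00
    have e0 : 1 ≤ h' x0 (τ x0) := by
      simp only [hh']
      unfold rect mu
      rw [ht0]
      simp only [true_and, Ne.symm hx1, false_and, if_false, if_true, Ne.symm ht, h00]
      omega
    unfold df
    have hsub : (univ.filter fun x => h' x (τ x) ≤ 0)
        ⊆ ((univ.filter fun x => h x (τ x) ≤ 0).erase x1).erase x0 := by
      intro x hx
      simp only [mem_filter, mem_univ, true_and] at hx
      simp only [mem_erase, mem_filter, mem_univ, true_and]
      have hne : x ≠ x1 := by rintro rfl; omega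
      have hne0 : x ≠ x0 := by rintro rfl; omega
      exact ⟨hne0, hne, by have := ex x hne; omega⟩
    have h2 := card_le_card hsub
    have hm : x1 ∈ univ.filter fun x => h x (τ x) ≤ 0 := by
      simp only [mem_filter, mem_univ, true_and]; omega
    have hm0 : x0 ∈ (univ.filter fun x => h x (τ x) ≤ 0).erase x1 := by
      simp only [mem_erase, mem_filter, mem_univ, true_and]
      exact ⟨Ne.symm hx1, by rw [ht0]; omega⟩
    rw [card_erase_of_mem hm0, card_erase_of_mem hm] at h2
    have h3 : 0 < (univ.filter fun x => h x (τ x) ≤ 0).card := card_pos.2 ⟨_, hm⟩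
    have h4 : 0 < ((univ.filter fun x => h x (τ x) ≤ 0).erase x1).card := card_pos.2 ⟨_, hm0⟩
    rw [card_erase_of_mem hm] at h4
    omega
  by_cases hr1 : r x1 = y1
  · -- the entry is in `r`
    have pmr : ∀ x y, pm (r * swap x0 x1) x y = pm r x y - rect x0 x1 y0 y1 x y := by
      intro x y
      unfold pm rect mu
      rw [Perm.mul_apply]
      by_cases c0 : x = x0
      · subst c0
        rw [swap_apply_left, hr1, ← hy0]
        simp only [true_and, Ne.symm hx1, false_and, if_false]
        by_cases ha : y = y0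
        · subst ha
          simp only [if_true, if_neg ht, if_neg (Ne.symm ht)]; ring
        · rw [if_neg (Ne.symm ha), if_neg ha]
          by_cases hb : y = y1
          · subst hb; simp
          · rw [if_neg (Ne.symm hb), if_neg hb]; ring
      · by_cases c1 : x = x1
        · subst c1
          rw [swap_apply_right, hr1, ← hy0]
          simp only [true_and, c0, false_and, if_false]
          by_cases ha : y = y0
          · subst ha
            simp only [if_true, if_neg ht, if_neg (Ne.symm ht)]; ring
          · rw [if_neg (Ne.symm ha), if_neg ha]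
            by_cases hb : y = y1
            · subst hb; simp
            · rw [if_neg (Ne.symm hb), if_neg hb]; ring
        · rw [swap_apply_of_ne_of_ne c0 c1]
          simp only [c0, c1, false_and, if_false]; ring
    have hr'0 : (r * swap x0 x1) x0 = y1 := by rw [Perm.mul_apply, swap_apply_left, hr1]
    refine ⟨h', r * swap x0 x1, W, row', col', ?_, ?_, ?_, ⟨x1, hx1, ?_⟩, df1, df2, ?_⟩
    · rw [hr'0]; exact nn'
    · rw [hr'0]; exact ge'
    · intro x y
      rw [pmr]
      simp only [hh']; ring
    · rw [hr'0]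
    · intro a' b' hab' hcan'
      -- `a, b` is canonical with respect to the new ranking, too
      have hsum : ∀ x y, pm a x y + pm b x y = pm a' x y + pm b' x y := by
        intro x y
        rw [hab, hab', pmr]
        simp only [hh']; ring
      have hcyc1 : (a⁻¹ * b).SameCycle x0 x1 := by
        by_contra hns
        -- the cycle of `x1`
        set Z := univ.filter fun x => (a⁻¹ * b).SameCycle x1 x with hZ
        have hx0Z : x0 ∉ Z := by
          simp only [hZ, mem_filter, mem_univ, true_and]
          exact fun hh => hns hh.symm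
        have hx1Z : x1 ∈ Z := by
          simp only [hZ, mem_filter, mem_univ, true_and]
          exact Perm.SameCycle.refl _ _
        have hb : ∀ x ∈ Z, b x ∈ Z.image a := by
          intro x hx
          simp only [hZ, mem_filter, mem_univ, true_and] at hx
          refine mem_image.2 ⟨a⁻¹ (b x), ?_, by simp⟩
          simp only [hZ, mem_filter, mem_univ, true_and]
          have : (a⁻¹ * b) x = a⁻¹ (b x) := by rw [Perm.mul_apply]
          rw [← this]
          exact Perm.sameCycle_apply_right.2 hx
        have hrZ : Z.image r ⊆ Z.image a := by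
          intro y hy
          obtain ⟨x, hx, rfl⟩ := mem_image.1 hy
          have hne : x ≠ x0 := by rintro rfl; exact hx0Z hx
          rcases hcan.1 x hne with h2 | h2
          · rw [h2]; exact mem_image_of_mem _ hx
          · rw [h2]; exact hb x hx
        have heq : Z.image r = Z.image a := by
          apply eq_of_subset_of_card_le hrZ
          rw [card_image_of_injective _ a.injective, card_image_of_injective _ r.injective]
        have hy0Z : y0 ∈ Z.image a := by
          rcases hab1 with h2 | h2
          · rw [hy0, ← h2.1]; exact mem_image_of_mem _ hx1Z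
          · rw [hy0, ← h2.2]; exact hb x1 hx1Z
        rw [← heq] at hy0Z
        obtain ⟨x, hx, hxe⟩ := mem_image.1 hy0Z
        rw [hy0] at hxe
        have := r.injective hxe
        rw [this] at hx
        exact hx0Z hx
      have hcan2 : Can a b (r * swap x0 x1) x0 := by
        refine ⟨fun x hx => ?_, fun x hx => ?_⟩
        · by_cases c1 : x = x1
          · rw [c1, Perm.mul_apply, swap_apply_right]
            rcases hab1 with h2 | h2
            · left; exact h2.1.symm
            · right; exact h2.2.symm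
          · rw [Perm.mul_apply, swap_apply_of_ne_of_ne hx c1]
            exact hcan.1 x hx
        · have c0 : x ≠ x0 := by rintro rfl; exact hx (Perm.SameCycle.refl _ _)
          have c1 : x ≠ x1 := by rintro rfl; exact hx hcyc1
          rw [Perm.mul_apply, swap_apply_of_ne_of_ne c0 c1]
          exact hcan.2 x hx
      rcases switch_or_eq hsum hcan2 hcan' with h2 | h2
      · left; rw [h2.1, h2.2]
      · right; left
        exact ⟨W, a, b, a', b', ⟨hsum, h2.2⟩, rfl, rfl⟩
  · -- the entry is in some other ranking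
    have hs : 0 < tot W x1 (τ x1) := by
      have h2 := hcov x1
      rw [hx1z] at h2
      have h3 : pm r x1 (τ x1) = 0 := by unfold pm; rw [if_neg hr1]
      rw [h3] at h2
      omega
    obtain ⟨s, hsW, hsx⟩ := exists_of_tot hs
    obtain ⟨W1, rfl⟩ := Multiset.exists_cons_of_mem hsW
    obtain ⟨r', s', hsum, hr0, hs0, hup1, hup, hcyc⟩ := exch r s hx1 (by rw [hsx]; exact ht)
      (by rw [hsx]; exact hr1)
    rw [hsx, ← hy0] at hsum
    have hr'0 : r' x0 = y1 := by rw [hr0, hsx]
    refine ⟨h', r', s' ::ₘ W1, row', col', ?_, ?_, ?_, ⟨x1, hx1, ?_⟩, df1, df2, ?_⟩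
    · rw [hr'0]; exact nn'
    · rw [hr'0]; exact ge'
    · intro x y
      rw [tot_cons, tot_cons]
      have := hsum x y
      simp only [hh']
      linarith
    · rw [hr'0]
    · intro a' b' hab' hcan'
      right; right
      refine ⟨W1, a, b, s, a', b', s', ⟨?_, r, r', x0, x1, Ne.symm hx1, hcan, hcan', hab1,
        by rw [hsx]; exact ht, by rw [hsx]; exact Ne.symm hr1, hr0, hs0, hup1, hup, hcyc⟩,
        rfl, rfl⟩
      intro x y
      have h2 := hsum x y
      have h3 := hab x y
      have h4 := hab' x y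
      simp only [hh'] at h4
      linarith

theorem run (τ : Perm α) : ∀ n : ℕ,
    (∀ (x0 : α) (h : α → α → ℤ) (r a b : Perm α) (W : Multiset (Perm α)), St τ x0 h r →
      df τ h ≤ n → (∀ x y, pm a x y + pm b x y = h x y + pm r x y) → Can a b r x0 →
      (∀ x, 1 ≤ h x (τ x) + pm r x (τ x) + tot W x (τ x)) →
      ∃ V, Reach Rm n (a ::ₘ b ::ₘ W) V ∧ τ ∈ V) ∧
    (∀ (σ : Perm α) (W : Multiset (Perm α)), df τ (pm σ) ≤ n + 1 →
      (∀ x, 1 ≤ pm σ x (τ x) + tot W x (τ x)) → ∃ V, Reach Rm n (σ ::ₘ W) V ∧ τ ∈ V) := by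
  intro n
  -- the start of a run
  have start : ∀ (σ : Perm α) (W : Multiset (Perm α)),
      (∀ x, 1 ≤ pm σ x (τ x) + tot W x (τ x)) → σ ≠ τ →
      ∃ (x0 : α) (r : Perm α) (W1 : Multiset (Perm α)), W = r ::ₘ W1 ∧ St τ x0 (pm σ) r ∧
        τ x0 = r x0 ∧ pm σ x0 (r x0) = 0 := by
    intro σ W hcov hne
    obtain ⟨x0, hx0⟩ : ∃ x, σ x ≠ τ x := by
      by_contra hcon
      push Not at hcon
      exact hne (Perm.ext hcon)
    have h0 : pm σ x0 (τ x0) = 0 := by unfold pm; rw [if_neg hx0]
    have h1 : 0 < tot W x0 (τ x0) := by have := hcov x0; omega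
    obtain ⟨r, hrW, hrx⟩ := exists_of_tot h1
    obtain ⟨W1, rfl⟩ := Multiset.exists_cons_of_mem hrW
    refine ⟨x0, r, W1, rfl, ⟨pm_row σ, pm_col σ, fun x y _ => pm_nonneg σ x y, ?_, ?_⟩, hrx.symm,
      by rw [hrx]; exact h0⟩
    · have := pm_nonneg σ x0 (r x0); omega
    · refine ⟨σ⁻¹ (τ x0), ?_, ?_, ?_⟩
      · intro h
        apply hx0
        calc σ x0 = σ (σ⁻¹ (τ x0)) := by rw [h]
          _ = τ x0 := by simp
      · rw [hrx]
        have : σ (σ⁻¹ (τ x0)) = τ x0 := by simp
        unfold pm; rw [if_pos this]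
      · rw [hrx]
        intro h
        have h2 := τ.injective h
        apply hx0
        calc σ x0 = σ (σ⁻¹ (τ x0)) := by rw [h2]
          _ = τ x0 := by simp
  induction n with
  | zero =>
    constructor
    · intro x0 h r a b W st hdf hab hcan hcov
      obtain ⟨h', r', W', _, _, _, _, _, _, h2, _⟩ := tr st hab hcan hcov
      omega
    · intro σ W hdf hcov
      by_cases hst : σ = τ
      · exact ⟨_, Reach.refl _ _, by rw [hst]; exact Multiset.mem_cons_self _ _⟩
      · exfalso
        obtain ⟨x0, r, W1, rfl, st, ht, h0⟩ := start σ W hcov hst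
        have hcov' : ∀ x, 1 ≤ pm σ x (τ x) + pm r x (τ x) + tot W1 x (τ x) := by
          intro x
          have := hcov x
          rw [tot_cons] at this
          omega
        obtain ⟨h', r', W', _, _, _, _, _, _, _, h2, _⟩ := tr st
          (fun x y => by rw [add_comm]) (can_self r σ x0) hcov'
        have := h2 ht h0
        omega
  | succ m ih =>
    -- the continuation after one transition
    have cont : ∀ (x0 : α) (h h' : α → α → ℤ) (r r' a b : Perm α) (W W' : Multiset (Perm α)),
        (∀ x, ∑ y, h' x y = 1) → (∀ y, ∑ x, h' x y = 1) →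
        (∀ x y, (x ≠ x0 ∨ y ≠ r' x0) → 0 ≤ h' x y) → -1 ≤ h' x0 (r' x0) →
        (∀ x y, h' x y + pm r' x y + tot W' x y = h x y + pm r x y + tot W x y) →
        (∃ x1, x1 ≠ x0 ∧ τ x1 = r' x0) → df τ h' ≤ m →
        (∀ a' b' : Perm α, (∀ x y, pm a' x y + pm b' x y = h' x y + pm r' x y) →
          Can a' b' r' x0 →
          (a ::ₘ b ::ₘ W = a' ::ₘ b' ::ₘ W') ∨ Rm (a ::ₘ b ::ₘ W) (a' ::ₘ b' ::ₘ W')) →
        (∀ x, 1 ≤ h x (τ x) + pm r x (τ x) + tot W x (τ x)) →
        ∃ V, Reach Rm (m + 1) (a ::ₘ b ::ₘ W) V ∧ τ ∈ V := by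
      intro x0 h h' r r' a b W W' row' col' nn' ge' htot hx1 hdf hstep hcov
      have hcov' : ∀ x, 1 ≤ h' x (τ x) + pm r' x (τ x) + tot W' x (τ x) := by
        intro x
        rw [htot]; exact hcov x
      have fin : ∀ a' b' : Perm α, (∀ x y, pm a' x y + pm b' x y = h' x y + pm r' x y) →
          Can a' b' r' x0 → (∃ V, Reach Rm m (a' ::ₘ b' ::ₘ W') V ∧ τ ∈ V) →
          ∃ V, Reach Rm (m + 1) (a ::ₘ b ::ₘ W) V ∧ τ ∈ V := by
        rintro a' b' hab' hcan' ⟨V, hV, hτ⟩
        rcases hstep a' b' hab' hcan' with h2 | h2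
        · rw [h2]; exact ⟨V, hV.mono (by omega), hτ⟩
        · exact ⟨V, Reach.step h2 hV, hτ⟩
      by_cases hneg : 0 ≤ h' x0 (r' x0)
      · -- a closed state
        have nn2 : ∀ x y, 0 ≤ h' x y := by
          intro x y
          by_cases hxy : x ≠ x0 ∨ y ≠ r' x0
          · exact nn' x y hxy
          · push Not at hxy
            rw [hxy.1, hxy.2]; exact hneg
        obtain ⟨σ', hσ'⟩ := konig1 h' nn2 row' col'
        have e : h' = pm σ' := by funext x y; exact hσ' x y
        apply fin r' σ' (fun x y => by rw [hσ' x y, add_comm]) (can_self r' σ' x0)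
        have h3 := ih.2 σ' (r' ::ₘ W') (by rw [← e]; omega) (by
          intro x
          rw [tot_cons, ← hσ' x (τ x)]
          have := hcov' x
          omega)
        rw [Multiset.cons_swap]
        exact h3
      · -- an improper state
        have hneg' : h' x0 (r' x0) = -1 := by omega
        obtain ⟨x1, hx1, ht1⟩ := hx1
        have hn := nxt_of (τ := τ) row' col' nn' hneg' hx1 ht1
        have st' : St τ x0 h' r' := ⟨row', col', nn', ge', hn⟩
        have M0 : ∀ x y, 0 ≤ h' x y + pm r' x y := by
          intro x y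
          by_cases hxy : x ≠ x0 ∨ y ≠ r' x0
          · have := nn' x y hxy
            have := pm_nonneg r' x y
            omega
          · push Not at hxy
            rw [hxy.1, hxy.2, pm_self]; omega
        obtain ⟨a', b', hab', hcan'⟩ := can_exists (fun x y => h' x y + pm r' x y) h' r' x0
          (fun x y => rfl) M0 (by
            intro x
            rw [sum_add_distrib, row', pm_row]; norm_num) (by
            intro y
            rw [sum_add_distrib, col', pm_col]; norm_num)
          (fun x hx y => nn' x y (Or.inl hx))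
        exact fin a' b' hab' hcan' (ih.1 x0 h' r' a' b' W' st' hdf hab' hcan' hcov')
    constructor
    · intro x0 h r a b W st hdf hab hcan hcov
      obtain ⟨h', r', W', row', col', nn', ge', htot, hx1, h2, _, hstep⟩ := tr st hab hcan hcov
      exact cont x0 h h' r r' a b W W' row' col' nn' ge' htot hx1 (by omega) hstep hcov
    · intro σ W hdf hcov
      by_cases hst : σ = τ
      · exact ⟨_, Reach.refl _ _, by rw [hst]; exact Multiset.mem_cons_self _ _⟩
      · obtain ⟨x0, r, W1, rfl, st, ht, h0⟩ := start σ W hcov hst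
        have hcov' : ∀ x, 1 ≤ pm σ x (τ x) + pm r x (τ x) + tot W1 x (τ x) := by
          intro x
          have := hcov x
          rw [tot_cons] at this
          omega
        obtain ⟨h', r', W', row', col', nn', ge', htot, hx1, _, h2, hstep⟩ := tr st
          (fun x y => by rw [add_comm]) (can_self r σ x0) hcov'
        have h3 := h2 ht h0
        rw [Multiset.cons_swap]
        exact cont x0 (pm σ) h' r r' r σ W1 W' row' col' nn' ge' htot hx1 (by omega) hstep hcov'

end Birk
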