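import Pool.Agent.Work.MP_697f4c_co.Flip2
import Pool.Agent.Work.MP_697f4c_co.Run
import Pool.Agent.Work.MP_697f4c_co.Count2

/-!
MP_697f4c_co, work file: change of the absorbing ranking of an improper matrix.
-/

open Equiv Equiv.Perm Finset

namespace Birk

variable {M : Type*} [AddCommMonoid M] {α : Type*} [DecidableEq α] [Fintype α]

/-- a matrix with one negative entry -/
structure Imp (h : α → α → ℤ) (x0 y0 : α) : Prop where
  row : ∀ x, ∑ y, h x y = 1
  col : ∀ y, ∑ x, h x y = 1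
  nn : ∀ x y, (x ≠ x0 ∨ y ≠ y0) → 0 ≤ h x y
  neg : h x0 y0 = -1

/-- `a, b` is a decomposition of `h + r` -/
def Dec (h : α → α → ℤ) (r a b : Perm α) : Prop :=
  ∀ x y, pm a x y + pm b x y = h x y + pm r x y

theorem Imp.le_one {h : α → α → ℤ} {x0 y0 : α} (hi : Imp h x0 y0) {x : α} (hx : x ≠ x0) (y : α) :
    h x y ≤ 1 := by
  have := single_le_sum (f := fun y => h x y) (fun y _ => hi.nn x y (Or.inl hx)) (mem_univ y)
  rw [hi.row x] at this
  exact this

theorem imp_pts {h : α → α → ℤ} {x0 y0 : α} (hi : Imp h x0 y0) :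
    ∃ xc xd, xc ≠ xd ∧ xc ≠ x0 ∧ xd ≠ x0 ∧ h xc y0 = 1 ∧ h xd y0 = 1 ∧
      ∀ x, x ≠ x0 → x ≠ xc → x ≠ xd → h x y0 = 0 := by
  have h1 : ∑ x ∈ univ.erase x0, h x y0 = 2 := by
    have h2 := hi.col y0
    rw [← add_sum_erase _ _ (mem_univ x0), hi.neg] at h2
    omega
  have h2 : ∀ x ∈ univ.erase x0, h x y0 = if h x y0 = 1 then 1 else 0 := by
    intro x hx
    have hx0 : x ≠ x0 := (mem_erase.1 hx).1
    have h3 := hi.le_one hx0 y0
    have h4 := hi.nn x y0 (Or.inl hx0)
    split_ifs with h5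
    · exact h5
    · omega
  rw [sum_congr rfl h2, ← sum_filter, sum_const, nsmul_eq_mul, mul_one] at h1
  have h3 : ((univ.erase x0).filter fun x => h x y0 = 1).card = 2 := by exact_mod_cast h1
  obtain ⟨xc, xd, hne, hS⟩ := card_eq_two.1 h3
  have hc : xc ∈ (univ.erase x0).filter fun x => h x y0 = 1 := by rw [hS]; simp
  have hd : xd ∈ (univ.erase x0).filter fun x => h x y0 = 1 := by rw [hS]; simp
  rw [mem_filter, mem_erase] at hc hd
  refine ⟨xc, xd, hne, hc.1.1, hd.1.1, hc.2, hd.2, fun x h0 h1 h2' => ?_⟩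
  by_contra hne0
  have h3 := hi.le_one h0 y0
  have h4 := hi.nn x y0 (Or.inl h0)
  have : x ∈ (univ.erase x0).filter fun x => h x y0 = 1 := by
    rw [mem_filter, mem_erase]
    exact ⟨⟨h0, mem_univ _⟩, by omega⟩
  rw [hS, mem_insert, mem_singleton] at this
  rcases this with h5 | h5
  · exact h1 h5
  · exact h2' h5

/-- sum over the other rankings -/
def Ax (F : Perm α → M) (r : Perm α) : M := ∑ σ ∈ univ.erase r, F σ

theorem ax_add (F : Perm α → M) (r : Perm α) : F r + Ax F r = ∑ σ, F σ :=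
  add_sum_erase _ F (mem_univ r)

theorem ax_two (F : Perm α → M) {r r1 : Perm α} (h : r1 ≠ r) : ∃ Z : M,
    Ax F r = F r1 + Z ∧ Ax F r1 = F r + Z := by
  refine ⟨∑ σ ∈ (univ.erase r).erase r1, F σ, ?_, ?_⟩
  · unfold Ax
    rw [add_sum_erase]
    exact mem_erase.2 ⟨h, mem_univ _⟩
  · unfold Ax
    rw [erase_right_comm, add_sum_erase]
    exact mem_erase.2 ⟨Ne.symm h, mem_univ _⟩

/-- quadratic relations in the context `C` -/
def QC (F : Perm α → M) (C : M) : Prop := ∀ a b a' b' : Perm α,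
  (∀ x y, pm a x y + pm b x y = pm a' x y + pm b' x y) → F a + F b + C = F a' + F b' + C

/-- canonical absorber -/
def CanAbs (h : α → α → ℤ) (x0 y0 : α) (r : Perm α) : Prop :=
  r x0 = y0 ∧ ∀ x, x ≠ x0 → h x y0 = 0 → h x (r x) = 1

theorem red {F : Perm α → M} {h : α → α → ℤ} {x0 y0 : α} (hi : Imp h x0 y0) : ∀ n : ℕ,
    ∀ r a b : Perm α, r x0 = y0 → Dec h r a b →
    (univ.filter fun x => x ≠ x0 ∧ h x y0 = 0 ∧ h x (r x) ≠ 1).card ≤ n →
    ∃ r' a' b' : Perm α, CanAbs h x0 y0 r' ∧ Dec h r' a' b' ∧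
      ∀ C : M, QC F C → F a + F b + Ax F r + C = F a' + F b' + Ax F r' + C := by
  intro n
  induction n with
  | zero =>
    intro r a b hr hdec hcard
    refine ⟨r, a, b, ⟨hr, fun x h0 h1 => ?_⟩, hdec, fun C _ => rfl⟩
    by_contra hne
    have : x ∈ univ.filter fun x => x ≠ x0 ∧ h x y0 = 0 ∧ h x (r x) ≠ 1 := by
      rw [mem_filter]; exact ⟨mem_univ _, h0, h1, hne⟩
    have h2 := card_pos.2 ⟨x, this⟩
    omega
  | succ n ih =>
    intro r a b hr hdec hcard
    by_cases hall : ∀ x, x ≠ x0 → h x y0 = 0 → h x (r x) = 1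
    · exact ⟨r, a, b, ⟨hr, hall⟩, hdec, fun C _ => rfl⟩
    push Not at hall
    obtain ⟨x, hx0, hx1, hx2⟩ := hall
    -- the row of `x`
    obtain ⟨y, hy⟩ : ∃ y, h x y = 1 := by
      by_contra hcon
      push Not at hcon
      have : ∑ y, h x y = 0 := by
        apply sum_eq_zero
        intro y _
        have h3 := hi.le_one hx0 y
        have h4 := hi.nn x y (Or.inl hx0)
        have h5 := hcon y
        omega
      rw [hi.row x] at this
      omega
    have hrow : ∀ v, h x v = if v = y then 1 else 0 :=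
      row_one (fun v => hi.nn x v (Or.inl hx0)) (hi.row x) (by omega)
    have hy0 : y ≠ y0 := by rintro rfl; omega
    have hyr : y ≠ r x := by rintro rfl; exact hx2 hy
    set z := r⁻¹ y with hz
    have hrz : r z = y := by simp [hz]
    have hzx : z ≠ x := by rintro h2; rw [h2] at hrz; exact hyr hrz.symm
    have hz0 : z ≠ x0 := by
      intro h2
      rw [h2, hr] at hrz
      exact hy0 hrz.symm
    set r1 := r * swap x z with hr1
    have r1x : r1 x = y := by rw [hr1, Perm.mul_apply, swap_apply_left, hrz]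
    have r1z : r1 z = r x := by rw [hr1, Perm.mul_apply, swap_apply_right]
    have r1o : ∀ t, t ≠ x → t ≠ z → r1 t = r t := by
      intro t h1 h2; rw [hr1, Perm.mul_apply, swap_apply_of_ne_of_ne h1 h2]
    have hr10 : r1 x0 = y0 := by rw [r1o x0 (Ne.symm hx0) (Ne.symm hz0), hr]
    have hr1r : r1 ≠ r := by
      intro h2
      rw [h2] at r1x
      exact hyr r1x.symm
    -- choose the names of the two rankings
    obtain ⟨a2, b2, hdec2, ha2, hb2, hsum⟩ : ∃ a2 b2 : Perm α, Dec h r a2 b2 ∧ a2 x = r x ∧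
        b2 x = y ∧ F a + F b = F a2 + F b2 := by
      have hup : UP (a x) (b x) (r x) y := by
        apply up_of_ind
        intro v
        have h3 := hdec x v
        rw [hrow v] at h3
        unfold pm at h3
        rw [h3, add_comm]
        congr 1
        by_cases hv : v = y
        · rw [if_pos hv, if_pos hv.symm]
        · rw [if_neg hv, if_neg (Ne.symm hv)]
      rcases hup with h3 | h3
      · exact ⟨a, b, hdec, h3.1, h3.2, rfl⟩
      · refine ⟨b, a, fun u v => ?_, h3.2, h3.1, add_comm _ _⟩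
        rw [add_comm]; exact hdec u v
    have ha2z : a2 z = y := by
      have h3 := hdec2 z y
      have h4 := hi.nn z y (Or.inl hz0)
      have h5 : pm r z y = 1 := by unfold pm; rw [if_pos hrz]
      have h6 : pm b2 z y = 0 := by
        unfold pm
        rw [if_neg]
        intro h7
        exact hzx (b2.injective (by rw [h7, hb2]))
      rw [h5, h6] at h3
      exact pm_pos (by omega)
    set a1 := a2 * swap x z with ha1
    have a1x : a1 x = y := by rw [ha1, Perm.mul_apply, swap_apply_left, ha2z]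
    have a1z : a1 z = r x := by rw [ha1, Perm.mul_apply, swap_apply_right, ha2]
    have a1o : ∀ t, t ≠ x → t ≠ z → a1 t = a2 t := by
      intro t h1 h2; rw [ha1, Perm.mul_apply, swap_apply_of_ne_of_ne h1 h2]
    have hq : ∀ u v, pm a2 u v + pm r1 u v = pm a1 u v + pm r u v := by
      intro u v
      apply sum_of_up (x := u) (y := v) (a := a2) (b := r1) (a' := a1) (b' := r)
      intro t
      by_cases htx : t = x
      · right; rw [htx, a1x, r1x, ha2]; exact ⟨rfl, rfl⟩
      by_cases htz : t = z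
      · right; rw [htz, a1z, r1z, ha2z, hrz]; exact ⟨rfl, rfl⟩
      · left; exact ⟨a1o t htx htz, (r1o t htx htz).symm⟩
    have hdec1 : Dec h r1 a1 b2 := by
      intro u v
      have h3 := hdec2 u v
      have h4 := hq u v
      omega
    have hcard1 : (univ.filter fun t => t ≠ x0 ∧ h t y0 = 0 ∧ h t (r1 t) ≠ 1).card ≤ n := by
      have hsub : (univ.filter fun t => t ≠ x0 ∧ h t y0 = 0 ∧ h t (r1 t) ≠ 1)
          ⊆ (univ.filter fun t => t ≠ x0 ∧ h t y0 = 0 ∧ h t (r t) ≠ 1).erase x := by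
        intro t ht
        rw [mem_filter] at ht
        rw [mem_erase, mem_filter]
        obtain ⟨-, t1, t2, t3⟩ := ht
        have htx : t ≠ x := by rintro rfl; rw [r1x] at t3; exact t3 hy
        refine ⟨htx, mem_univ _, t1, t2, ?_⟩
        by_cases htz : t = z
        · rw [htz, hrz]
          intro h3
          -- two ones in the column `y`
          have h4 := hi.col y
          have h6 : ∑ t ∈ ({x, z} : Finset α), h t y = h x y + h z y := sum_pair (Ne.symm hzx)
          have h5 : ∑ t ∈ ({x, z} : Finset α), h t y ≤ ∑ t, h t y :=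
            sum_le_sum_of_subset_of_nonneg (subset_univ _) fun t _ _ => hi.nn t y (Or.inr hy0)
          omega
        · rw [r1o t htx htz] at t3; exact t3
      have h3 := card_le_card hsub
      have hm : x ∈ univ.filter fun t => t ≠ x0 ∧ h t y0 = 0 ∧ h t (r t) ≠ 1 := by
        rw [mem_filter]; exact ⟨mem_univ _, hx0, hx1, hx2⟩
      rw [card_erase_of_mem hm] at h3
      omega
    obtain ⟨r', a', b', hc, hd, hE⟩ := ih r1 a1 b2 hr10 hdec1 hcard1
    refine ⟨r', a', b', hc, hd, fun C hC => ?_⟩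
    rw [← hE C hC]
    obtain ⟨Z, z1, z2⟩ := ax_two F hr1r
    have hq2 := hC a2 r1 a1 r hq
    rw [hsum, z1, z2]
    calc F a2 + F b2 + (F r1 + Z) + C = (F a2 + F r1 + C) + F b2 + Z := by abel
      _ = (F a1 + F r + C) + F b2 + Z := by rw [hq2]
      _ = F a1 + F b2 + (F r + Z) + C := by abel

theorem canX {h : α → α → ℤ} {x0 y0 xc xd : α} (hi : Imp h x0 y0) {r : Perm α}
    (hr : CanAbs h x0 y0 r) (hcd : xc ≠ xd) (hc0 : xc ≠ x0) (hd0 : xd ≠ x0)
    (hc : h xc y0 = 1) (hd : h xd y0 = 1)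
    (ho : ∀ x, x ≠ x0 → x ≠ xc → x ≠ xd → h x y0 = 0) :
    Dec h r (r * swap x0 xc) (r * swap x0 xd) := by
  have rows : ∀ x, x ≠ x0 → ∀ y, pm (r * swap x0 xc) x y + pm (r * swap x0 xd) x y
      = h x y + pm r x y := by
    intro x hx y
    by_cases hxc : x = xc
    · subst hxc
      have h1 : ∀ v, h x v = if v = y0 then 1 else 0 :=
        row_one (fun v => hi.nn x v (Or.inl hx)) (hi.row x) (by omega)
      rw [h1]
      unfold pm
      rw [Perm.mul_apply, Perm.mul_apply, swap_apply_right, hr.1,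
        swap_apply_of_ne_of_ne hx hcd]
      by_cases hy : y = y0
      · rw [if_pos hy, if_pos hy.symm]
      · rw [if_neg hy, if_neg (Ne.symm hy)]
    by_cases hxd : x = xd
    · subst hxd
      have h1 : ∀ v, h x v = if v = y0 then 1 else 0 :=
        row_one (fun v => hi.nn x v (Or.inl hx)) (hi.row x) (by omega)
      rw [h1]
      unfold pm
      rw [Perm.mul_apply, Perm.mul_apply, swap_apply_right, hr.1,
        swap_apply_of_ne_of_ne hx (Ne.symm hcd)]
      by_cases hy : y = y0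
      · rw [if_pos hy, if_pos hy.symm]; ring
      · rw [if_neg hy, if_neg (Ne.symm hy)]; ring
    · have h2 := hr.2 x hx (ho x hx hxc hxd)
      have h1 : ∀ v, h x v = if v = r x then 1 else 0 :=
        row_one (fun v => hi.nn x v (Or.inl hx)) (hi.row x) (by omega)
      rw [h1]
      unfold pm
      rw [Perm.mul_apply, Perm.mul_apply, swap_apply_of_ne_of_ne hx hxc,
        swap_apply_of_ne_of_ne hx hxd]
      by_cases hy : y = r x
      · rw [if_pos hy, if_pos hy.symm]
      · rw [if_neg hy, if_neg (Ne.symm hy)]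
  intro x y
  by_cases hx : x = x0
  · subst hx
    have e1 : ∑ t, (pm (r * swap x xc) t y + pm (r * swap x xd) t y) = 2 := by
      rw [sum_add_distrib, pm_col, pm_col]; norm_num
    have e2 : ∑ t, (h t y + pm r t y) = 2 := by
      rw [sum_add_distrib, hi.col, pm_col]; norm_num
    rw [← add_sum_erase _ _ (mem_univ x)] at e1 e2
    have e3 : ∑ t ∈ univ.erase x, (pm (r * swap x xc) t y + pm (r * swap x xd) t y)
        = ∑ t ∈ univ.erase x, (h t y + pm r t y) :=
      sum_congr rfl fun t ht => rows t (mem_erase.1 ht).1 y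
    omega
  · exact rows x hx y

theorem can_two {h : α → α → ℤ} {x0 y0 xc xd : α} (hi : Imp h x0 y0) {r1 r2 : Perm α}
    (h1 : CanAbs h x0 y0 r1) (h2 : CanAbs h x0 y0 r2) (hcd : xc ≠ xd)
    (ho : ∀ x, x ≠ x0 → x ≠ xc → x ≠ xd → h x y0 = 0) :
    r2 = r1 ∨ r2 = r1 * swap xc xd := by
  have agree : ∀ x, x ≠ xc → x ≠ xd → r2 x = r1 x := by
    intro x hc hd
    by_cases hx : x = x0
    · rw [hx, h1.1, h2.1]
    · have e1 := h1.2 x hx (ho x hx hc hd)
      have e2 := h2.2 x hx (ho x hx hc hd)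
      have hrow : ∀ v, h x v = if v = r1 x then 1 else 0 :=
        row_one (fun v => hi.nn x v (Or.inl hx)) (hi.row x) (by omega)
      rw [hrow] at e2
      by_contra hne
      rw [if_neg hne] at e2
      omega
  have key : ∀ u, (u = xc ∨ u = xd) → r2 u = r1 xc ∨ r2 u = r1 xd := by
    intro u hu
    by_contra hne
    push Not at hne
    set t := r1⁻¹ (r2 u) with ht
    have hrt : r1 t = r2 u := by simp [ht]
    have htc : t ≠ xc := by rintro h3; rw [h3] at hrt; exact hne.1 hrt.symm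
    have htd : t ≠ xd := by rintro h3; rw [h3] at hrt; exact hne.2 hrt.symm
    have h4 := agree t htc htd
    rw [hrt] at h4
    have h5 := r2.injective h4
    rcases hu with h6 | h6
    · exact htc (h5.trans h6)
    · exact htd (h5.trans h6)
  by_cases hc : r2 xc = r1 xc
  · left
    ext x
    by_cases hxc : x = xc
    · rw [hxc, hc]
    by_cases hxd : x = xd
    · rcases key xd (Or.inr rfl) with h3 | h3
      · exfalso
        rw [← hc] at h3
        exact hcd (r2.injective h3).symm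
      · rw [hxd, h3]
    · exact agree x hxc hxd
  · right
    have hc2 : r2 xc = r1 xd := by
      rcases key xc (Or.inl rfl) with h3 | h3
      · exact absurd h3 hc
      · exact h3
    have hd2 : r2 xd = r1 xc := by
      rcases key xd (Or.inr rfl) with h3 | h3
      · exact h3
      · exfalso
        rw [← hc2] at h3
        exact hcd (r2.injective h3).symm
    ext x
    rw [Perm.mul_apply]
    by_cases hxc : x = xc
    · rw [hxc, swap_apply_left, hc2]
    by_cases hxd : x = xd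
    · rw [hxd, swap_apply_right, hd2]
    · rw [swap_apply_of_ne_of_ne hxc hxd]; exact agree x hxc hxd

/-- the two contexts -/
def Ctx (F : Perm α → M) (Ω : M) (e : Bool) : M := if e then Ω else ∑ σ, F σ + ∑ σ, F σ

/-- change of the absorbing ranking -/
theorem absorb (hα : 4 ≤ Fintype.card α) {F : Perm α → M} (hQ : EQ F) {Ω : M} (ρ0 : Perm α)
    {u0 v0 w0 : α} (g1 : u0 ≠ v0) (g2 : v0 ≠ w0) (g3 : u0 ≠ w0) (hΩ : Ω = Phi F ρ0 u0 v0 w0)
    (hC : ∀ e, QC F (Ctx F Ω e)) {h : α → α → ℤ} {x0 y0 : α} (hi : Imp h x0 y0)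
    {r1 a1 b1 r2 a2 b2 : Perm α} (hr1 : r1 x0 = y0) (hr2 : r2 x0 = y0) (hd1 : Dec h r1 a1 b1)
    (hd2 : Dec h r2 a2 b2) (e : Bool) : ∃ d : Bool,
    F a1 + F b1 + Ax F r1 + Ctx F Ω e = F a2 + F b2 + Ax F r2 + Ctx F Ω d := by
  obtain ⟨c1, p1, q1, hc1, hd1', hE1⟩ := red (F := F) hi _ r1 a1 b1 hr1 hd1 le_rfl
  obtain ⟨c2, p2, q2, hc2, hd2', hE2⟩ := red (F := F) hi _ r2 a2 b2 hr2 hd2 le_rfl
  obtain ⟨xc, xd, hcd, hc0, hd0, hc, hd, ho⟩ := imp_pts hi
  rcases can_two hi hc1 hc2 hcd ho with h3 | h3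
  · refine ⟨e, ?_⟩
    rw [hE1 _ (hC e), hE2 _ (hC e), h3]
    have hq := hC e p1 q1 p2 q2 (fun x y => by
      have e1 := hd1' x y
      have e2 := hd2' x y
      rw [h3] at e2
      rw [e1, e2])
    calc F p1 + F q1 + Ax F c1 + Ctx F Ω e = (F p1 + F q1 + Ctx F Ω e) + Ax F c1 := by abel
      _ = (F p2 + F q2 + Ctx F Ω e) + Ax F c1 := by rw [hq]
      _ = _ := by abel
  · refine ⟨!e, ?_⟩
    rw [hE1 _ (hC e), hE2 _ (hC (!e))]
    have hne : c2 ≠ c1 := by
      rw [h3]
      exact (ne_of_mul_one xc (by rw [swap_apply_left]; exact Ne.symm hcd)).symm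
    obtain ⟨Z, z1, z2⟩ := ax_two F hne
    have k1 := canX hi hc1 hcd hc0 hd0 hc hd ho
    have k2 := canX hi hc2 hcd hc0 hd0 hc hd ho
    have hq1 := hC e p1 q1 _ _ (fun x y => (hd1' x y).trans (k1 x y).symm)
    have hq2 := hC (!e) p2 q2 _ _ (fun x y => (hd2' x y).trans (k2 x y).symm)
    -- the two three-cycles
    have t1 : c2 * swap x0 xc = c1 * (swap x0 xd * swap xd xc) := by
      rw [h3, mul_assoc, rot (i := x0) (j := xd) (k := xc) (Ne.symm hd0) (Ne.symm hc0),
        swap_comm xd xc, swap_comm xc x0]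
    have t2 : c2 * swap x0 xd = c1 * (swap x0 xc * swap xc xd) := by
      rw [h3, mul_assoc, rot (i := x0) (j := xc) (k := xd) (Ne.symm hc0) (Ne.symm hd0),
        swap_comm xd x0]
    have fl := flips hα hQ ρ0 g1 g2 g3 hΩ c1 (x := x0) (y := xc) (z := xd) (Ne.symm hc0) hcd
      (Ne.symm hd0)
    rw [sum_s1 F c1 (Ne.symm hc0) hcd (Ne.symm hd0),
      sum_s2 F c1 (Ne.symm hc0) hcd (Ne.symm hd0)] at fl
    have fl2 : F (c1 * swap x0 xc) + F (c1 * swap xc xd) + F (c1 * swap x0 xd) + Ctx F Ω e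
        = F c1 + F (c1 * (swap x0 xc * swap xc xd)) + F (c1 * (swap x0 xd * swap xd xc))
          + Ctx F Ω (!e) := by
      cases e
      · show _ + (∑ σ, F σ + ∑ σ, F σ) = _ + Ω
        exact fl.2.symm
      · show _ + Ω = _ + (∑ σ, F σ + ∑ σ, F σ)
        exact fl.1
    calc F p1 + F q1 + Ax F c1 + Ctx F Ω e
        = (F p1 + F q1 + Ctx F Ω e) + (F c2 + Z) := by rw [z1]; abel
      _ = (F (c1 * swap x0 xc) + F (c1 * swap x0 xd) + Ctx F Ω e) + (F (c1 * swap xc xd) + Z) := by
          rw [hq1, ← h3]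
      _ = (F (c1 * swap x0 xc) + F (c1 * swap xc xd) + F (c1 * swap x0 xd) + Ctx F Ω e) + Z := by
          abel
      _ = (F c1 + F (c1 * (swap x0 xc * swap xc xd)) + F (c1 * (swap x0 xd * swap xd xc))
          + Ctx F Ω (!e)) + Z := by rw [fl2]
      _ = (F (c2 * swap x0 xc) + F (c2 * swap x0 xd) + Ctx F Ω (!e)) + (F c1 + Z) := by
          rw [t1, t2]; abel
      _ = (F p2 + F q2 + Ctx F Ω (!e)) + Ax F c2 := by rw [hq2, z2]
      _ = F p2 + F q2 + Ax F c2 + Ctx F Ω (!e) := by abel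

end Birk
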