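import Pool.Agent.Work.MP_697f4c_co.Psi
import Pool.Agent.Work.MP_697f4c_co.Absorb

/-!
MP_697f4c_co, work file: change of the absorbing ranking with one layer of rankings.
-/

open Equiv Equiv.Perm Finset

namespace Birk

variable {M : Type*} [AddCommMonoid M] {α : Type*} [DecidableEq α] [Fintype α]

/-- the contexts without `r` -/
def Cx (F : Perm α → M) (o1 o2 o3 : α) (e : Bool) (r : Perm α) : M :=
  if e then Psi F r r o1 o2 o3 else Ax F r

theorem three_pts {u : α} (hα : 4 ≤ Fintype.card α) : ∃ x y z : α, x ≠ y ∧ y ≠ z ∧ x ≠ z ∧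
    u ≠ x ∧ u ≠ y ∧ u ≠ z := by
  obtain ⟨x, hx⟩ := other_pt (s := ({u} : Finset α)) (by rw [card_singleton]; omega)
  obtain ⟨y, hy⟩ := other_pt (s := ({u, x} : Finset α))
    (lt_of_le_of_lt Finset.card_le_two (by omega))
  obtain ⟨z, hz⟩ := other_pt (s := ({u, x, y} : Finset α))
    (lt_of_le_of_lt Finset.card_le_three (by omega))
  simp only [mem_insert, mem_singleton, not_or] at hx hy hz
  exact ⟨x, y, z, Ne.symm hy.2, Ne.symm hz.2.2, Ne.symm hz.2.1, Ne.symm hx, Ne.symm hy.1,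
    Ne.symm hz.1⟩

section ctx

variable (hα : 4 ≤ Fintype.card α) {F : Perm α → M} (hQ : EQ F) {o1 o2 o3 : α} (g1 : o1 ≠ o2)
  (g2 : o2 ≠ o3) (g3 : o1 ≠ o3)

include hα hQ g1 g2 g3

theorem cx_two (e : Bool) {r r1 : Perm α} (h : r1 ≠ r) : ∃ Z : M,
    Cx F o1 o2 o3 e r = F r1 + Z ∧ Cx F o1 o2 o3 e r1 = F r + Z := by
  cases e
  · exact ax_two F h
  · show ∃ Z : M, Psi F r r o1 o2 o3 = F r1 + Z ∧ Psi F r1 r1 o1 o2 o3 = F r + Z
    obtain ⟨u, hu⟩ : ∃ u, r1 u ≠ r u := by
      by_contra hcon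
      push Not at hcon
      exact h (Perm.ext hcon)
    obtain ⟨x, y, z, hxy, hyz, hxz, ux, uy, uz⟩ := three_pts (u := u) hα
    have n1 : r ∉ s2 r x y z := sign_ok rfl hxy hyz hxz
    have n2 : r1 ∉ s2 r x y z := by
      intro hm
      unfold s2 at hm
      rw [mem_insert, mem_insert, mem_singleton] at hm
      apply hu
      rcases hm with hm | hm | hm
      · rw [hm, Perm.mul_apply, swap_apply_of_ne_of_ne ux uy]
      · rw [hm, Perm.mul_apply, swap_apply_of_ne_of_ne uy uz]
      · rw [hm, Perm.mul_apply, swap_apply_of_ne_of_ne ux uz]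
    rw [← psi_star hα hQ hxy hyz hxz g1 g2 g3 n1, ← psi_star hα hQ hxy hyz hxz g1 g2 g3 n2]
    refine ⟨∑ σ ∈ s1 r x y z, F σ + ∑ σ ∈ (insert r1 (insert r (s2 r x y z)))ᶜ, F σ, ?_, ?_⟩
    · unfold Psi
      rw [compl_split F (S := insert r (s2 r x y z)) (a := r1)]
      · abel
      · rw [mem_insert, not_or]; exact ⟨h, n2⟩
    · unfold Psi
      rw [compl_split F (S := insert r1 (s2 r x y z)) (a := r), Finset.insert_comm]
      · abel
      · rw [mem_insert, not_or]; exact ⟨Ne.symm h, n1⟩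

theorem cx_tot (e : Bool) (r r1 : Perm α) :
    F r + Cx F o1 o2 o3 e r = F r1 + Cx F o1 o2 o3 e r1 := by
  by_cases h : r1 = r
  · rw [h]
  obtain ⟨Z, z1, z2⟩ := cx_two hα hQ g1 g2 g3 e h
  rw [z1, z2]; abel

theorem cx_flip_aux (c : Perm α) {x y z : α} (hxy : x ≠ y) (hyz : y ≠ z) (hxz : x ≠ z) :
    F (c * swap x y) + F (c * swap x z) + Cx F o1 o2 o3 false c
      = F (c * swap y z * swap x y) + F (c * swap y z * swap x z)
        + Cx F o1 o2 o3 true (c * swap y z) := by
  set c2 := c * swap y z with hc2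
  have r1 : ∀ σ : Perm α, s1 σ y z x = s1 σ x y z := fun σ => by
    rw [s1_swap' σ y x z, s1_swap σ hxy hyz hxz]
  have r2 : ∀ σ : Perm α, s2 σ y z x = s2 σ x y z := fun σ => by
    rw [s2_swap' σ y x z, s2_swap]
  have b1 : s1 c2 x y z = s2 c x y z := by
    rw [hc2, ← r1, s1_base c hyz (Ne.symm hxz) (Ne.symm hxy), r2]
  have b2 : s2 c2 x y z = s1 c x y z := by
    rw [hc2, ← r2, s2_base c hyz (Ne.symm hxz) (Ne.symm hxy), r1]
  have t1 : c2 * swap x y = c * (swap x z * swap z y) := by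
    rw [hc2, mul_assoc, rot (i := x) (j := z) (k := y) hxz hxy, swap_comm z y, swap_comm y x]
  have t2 : c2 * swap x z = c * (swap x y * swap y z) := by
    rw [hc2, mul_assoc, rot (i := x) (j := y) (k := z) hxy hxz, swap_comm z x]
  have hne : c2 ≠ c := by
    rw [hc2]
    exact (ne_of_mul_one y (by rw [swap_apply_left]; exact Ne.symm hyz)).symm
  -- the left side
  have e1 : Cx F o1 o2 o3 false c = F c2 + ∑ σ ∈ (insert c2 {c})ᶜ, F σ := by
    show Ax F c = _
    unfold Ax
    rw [← compl_split F (S := {c}) (a := c2) (by rw [mem_singleton]; exact hne)]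
    congr 1
    ext σ
    simp
  -- the right side
  have e2 : Cx F o1 o2 o3 true c2 = Psi F c2 c2 x y z :=
    (psi_star hα hQ hxy hyz hxz g1 g2 g3 (sign_ok rfl hxy hyz hxz)).symm
  have e3 : ∑ σ ∈ (insert c2 {c})ᶜ, F σ = F (c * (swap x y * swap y z))
      + F (c * (swap x z * swap z y)) + ∑ σ ∈ (insert c2 (s1 c x y z))ᶜ, F σ := by
    have hs1 := sum_s1 F c hxy hyz hxz
    have m1 : c * (swap x y * swap y z) ∉ (insert c2 {c} : Finset (Perm α)) := by
      rw [mem_insert, mem_singleton, not_or]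
      constructor
      · rw [hc2]
        apply ne_of_mul x
        rw [c1x hxy hxz, swap_apply_of_ne_of_ne hxy hxz]; exact Ne.symm hxy
      · apply (ne_of_mul_one x _).symm
        rw [c1x hxy hxz]; exact Ne.symm hxy
    have m2 : c * (swap x z * swap z y) ∉
        insert (c * (swap x y * swap y z)) (insert c2 {c} : Finset (Perm α)) := by
      rw [mem_insert, mem_insert, mem_singleton, not_or, not_or]
      refine ⟨?_, ?_, ?_⟩
      · apply ne_of_mul x
        rw [c1x hxy hxz, c1x hxz hxy]; exact Ne.symm hyz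
      · rw [hc2]
        apply ne_of_mul x
        rw [c1x hxz hxy, swap_apply_of_ne_of_ne hxy hxz]; exact Ne.symm hxz
      · apply (ne_of_mul_one x _).symm
        rw [c1x hxz hxy]; exact Ne.symm hxz
    rw [compl_split F m1, compl_split F m2, ← add_assoc]
    congr 2
    unfold s1
    ext σ
    simp only [mem_compl, mem_insert, mem_singleton]
    tauto
  rw [e1, e2, t1, t2, e3]
  unfold Psi
  rw [b1, b2, sum_s2 F c hxy hyz hxz, ← hc2]
  abel

theorem cx_flip (e : Bool) (c : Perm α) {x y z : α} (hxy : x ≠ y) (hyz : y ≠ z) (hxz : x ≠ z) :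
    F (c * swap x y) + F (c * swap x z) + Cx F o1 o2 o3 e c
      = F (c * swap y z * swap x y) + F (c * swap y z * swap x z)
        + Cx F o1 o2 o3 (!e) (c * swap y z) := by
  cases e
  · exact cx_flip_aux hα hQ g1 g2 g3 c hxy hyz hxz
  · have h := cx_flip_aux hα hQ g1 g2 g3 (c * swap y z) hxy hyz hxz
    have h2 : c * swap y z * swap y z = c := by rw [mul_assoc, swap_mul_self, mul_one]
    rw [h2] at h
    exact h.symm

end ctx

end Birk
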