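import Pool.Agent.Work.MP_697f4c_co.Dual

/-!
MP_697f4c_co, work file: the dual form of the lattice theorem.
-/

open Equiv Equiv.Perm Finset

namespace Birk

variable {α : Type*} [DecidableEq α] [Fintype α] {A : Type*} [AddCommGroup A]

theorem qrel_sum (ψ : α → α → A) : QRel (fun σ : Perm α => ∑ u, ψ u (σ u)) := by
  intro σ i j k l h
  obtain ⟨h1, h2, h3, h4, h5, h6⟩ := h
  simp only [← Finset.sum_add_distrib]
  refine Finset.sum_congr rfl fun u _ => ?_
  simp only [Perm.mul_apply]
  by_cases hu : u = i ∨ u = j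
  · have hk : u ≠ k := by rcases hu with rfl | rfl <;> assumption
    have hl : u ≠ l := by rcases hu with rfl | rfl <;> assumption
    rw [swap_apply_of_ne_of_ne hk hl, add_comm]
  · push Not at hu
    have e1 : swap i j u = u := swap_apply_of_ne_of_ne hu.1 hu.2
    have e2 : swap i j (swap k l u) = swap k l u := by
      by_cases huk : u = k
      · subst huk; rw [swap_apply_left, swap_apply_of_ne_of_ne (Ne.symm h3) (Ne.symm h5)]
      by_cases hul : u = l
      · subst hul; rw [swap_apply_right, swap_apply_of_ne_of_ne (Ne.symm h2) (Ne.symm h4)]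
      rw [swap_apply_of_ne_of_ne huk hul, e1]
    rw [e1, e2]

theorem cub_sum (ψ : α → α → A) {o i j : α} (hi : i ≠ o) (hj : j ≠ o) (hij : i ≠ j) :
    cub (fun σ : Perm α => ∑ u, ψ u (σ u)) o i j = 0 := by
  unfold cub
  simp only [← Finset.sum_add_distrib, ← Finset.sum_sub_distrib]
  refine Finset.sum_eq_zero fun u _ => ?_
  simp only [Perm.mul_apply, Perm.one_apply]
  by_cases huo : u = o
  · subst huo
    rw [swap_apply_of_ne_of_ne (Ne.symm hi) (Ne.symm hj), swap_apply_left,
      swap_apply_of_ne_of_ne (Ne.symm hj) (Ne.symm hi), swap_apply_left]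
    abel
  by_cases hui : u = i
  · subst hui
    rw [swap_apply_left, swap_apply_of_ne_of_ne hj (Ne.symm hij), swap_apply_right,
      swap_apply_right, swap_apply_right, swap_apply_of_ne_of_ne hi hij]
    abel
  by_cases huj : u = j
  · subst huj
    rw [swap_apply_right, swap_apply_right, swap_apply_left, swap_apply_of_ne_of_ne hi hij,
      swap_apply_of_ne_of_ne huo hui, swap_apply_right]
    abel
  rw [swap_apply_of_ne_of_ne hui huj, swap_apply_of_ne_of_ne huj hui,
    swap_apply_of_ne_of_ne huo hui, swap_apply_of_ne_of_ne huo huj]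
  abel

/-- the potential of a function which is additive on disjoint transpositions -/
def psi (F : Perm α → A) (o i j : α) : A :=
  if i = o then (if j = o then F 1 else F (swap o j))
  else if j = o ∨ j = i then 0 else F (swap o i * swap i j) - F (swap o i)

theorem eq_sum {P : Perm α → Prop} (hP4 : ∀ σ : Perm α, σ.support.card ≤ 4 → P σ)
    (hPs : ∀ σ τ : Perm α, P σ → τ.support ⊆ σ.support → P τ)
    (o : α) {F : Perm α → A} (hQ : QRelOn P F)
    (hC : ∀ i j, i ≠ o → j ≠ o → i ≠ j → cub F o i j = 0) (σ : Perm α) (hσ : P σ) :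
    F σ = ∑ u, psi F o u (σ u) := by
  rw [← sub_eq_zero]
  refine vanish hP4 hPs (H := fun σ => F σ - ∑ u, psi F o u (σ u)) o ?_ ?_ ?_ ?_ ?_ σ hσ
  · intro σ i j k l h P1 P2 P3 P4
    have a := hQ σ i j k l h P1 P2 P3 P4
    have b := qrel_sum (psi F o) σ i j k l h
    beta_reduce at b ⊢
    rw [sub_add_sub_comm, sub_add_sub_comm, a, b]
  · have : ∑ u, psi F o u ((1 : Perm α) u) = F 1 := by
      rw [Finset.sum_eq_single o]
      · simp [psi]
      · intro u _ hu; simp [psi, hu]
      · intro h; exact absurd (Finset.mem_univ _) h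
    simp only [this, sub_self]
  · intro i hi
    have : ∑ u, psi F o u ((swap o i : Perm α) u) = F (swap o i) := by
      rw [Finset.sum_eq_single o]
      · simp [psi, hi]
      · intro u _ hu
        by_cases hui : u = i
        · subst hui; simp [psi, hu]
        · rw [swap_apply_of_ne_of_ne hu hui]; simp [psi, hu]
      · intro h; exact absurd (Finset.mem_univ _) h
    simp only [this, sub_self]
  · intro i j hi hj hij
    have : ∑ u, psi F o u ((swap o i * swap i j : Perm α) u) = F (swap o i * swap i j) := by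
      rw [← Finset.sum_subset (Finset.subset_univ {o, i})]
      · rw [Finset.sum_pair (Ne.symm hi)]
        simp only [Perm.mul_apply]
        rw [swap_apply_of_ne_of_ne (Ne.symm hi) (Ne.symm hj), swap_apply_left,
          swap_apply_left, swap_apply_of_ne_of_ne hj (Ne.symm hij)]
        simp [psi, hi, hj, Ne.symm hij]
      · intro u _ hu
        simp only [Finset.mem_insert, Finset.mem_singleton, not_or] at hu
        simp only [Perm.mul_apply]
        by_cases huj : u = j
        · subst huj; simp [psi, hu.1]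
        · rw [swap_apply_of_ne_of_ne hu.2 huj, swap_apply_of_ne_of_ne hu.1 hu.2]
          simp [psi, hu.1]
    simp only [this, sub_self]
  · intro i j hi hj hij
    have a := hC i j hi hj hij
    have b := cub_sum (psi F o) hi hj hij
    have : cub (fun σ => F σ - ∑ u, psi F o u (σ u)) o i j
        = cub F o i j - cub (fun σ : Perm α => ∑ u, psi F o u (σ u)) o i j := by
      unfold cub; beta_reduce; abel
    rw [this, a, b, sub_zero]

/-- the dual form for a class `P` of permutations -/
theorem dual_on (hα : 4 ≤ Fintype.card α) {P : Perm α → Prop}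
    (hP4 : ∀ σ : Perm α, σ.support.card ≤ 4 → P σ)
    (hPs : ∀ σ τ : Perm α, P σ → τ.support ⊆ σ.support → P τ)
    (F : Perm α → A) (hQ : QRelOn P F) : ∃ (ψ : α → α → A) (e : A), e + e = 0 ∧
      ∀ σ : Perm α, P σ → F σ = ∑ u, ψ u (σ u) + (if sign σ = 1 then 0 else e) := by
  obtain ⟨o⟩ : Nonempty α := Fintype.card_pos_iff.1 (by omega)
  -- other points
  have other : ∀ s : Finset α, s.card ≤ 3 → ∃ x, x ∉ s := by
    intro s hs
    by_contra h
    push Not at h
    have : s = Finset.univ := Finset.eq_univ_iff_forall.2 h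
    rw [this, Finset.card_univ] at hs
    omega
  obtain ⟨a, ha⟩ := other {o} (by simp)
  obtain ⟨b, hb⟩ := other {o, a} (le_trans Finset.card_le_two (by norm_num))
  simp only [Finset.mem_singleton] at ha
  simp only [Finset.mem_insert, Finset.mem_singleton, not_or] at hb
  set e := cub F o a b with he
  have sym : ∀ x y, cub F o x y = cub F o y x := by
    intro x y
    unfold cub
    rw [swap_comm y x]
    abel
  have step : ∀ x y z, x ≠ o → y ≠ o → z ≠ o → x ≠ y → x ≠ z → cub F o x y = cub F o x z := by
    intro x y z hx hy hz hxy hxz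
    rcases eq_or_ne y z with rfl | hyz
    · rfl
    exact cub_swap hQ ⟨Ne.symm hx, Ne.symm hy, Ne.symm hz, hxy, hxz, hyz⟩
      (fun ρ => hP4 _ (via_card _ ρ))
  have all : ∀ x y, x ≠ o → y ≠ o → x ≠ y → cub F o x y = e := by
    intro x y hx hy hxy
    by_cases hxa : x = a
    · subst hxa; exact step x y b hx hy hb.1 hxy (Ne.symm hb.2)
    · rw [step x y a hx hy ha hxy hxa, sym x a]
      exact step a x b ha hx hb.1 (Ne.symm hxa) (Ne.symm hb.2)
  obtain ⟨c, hc⟩ := other {o, a, b} (Finset.card_le_three)
  simp only [Finset.mem_insert, Finset.mem_singleton, not_or] at hc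
  have h2 : e + e = 0 := cub_two hQ (w := o) (x := a) (y := b) (z := c)
    ⟨Ne.symm ha, Ne.symm hb.1, Ne.symm hc.1, Ne.symm hb.2, Ne.symm hc.2.1, Ne.symm hc.2.2⟩
    (fun ρ => hP4 _ (via_card _ ρ))
  -- the function without the sign term
  have s1 : ∀ (σ : Perm α) (i j : α), i ≠ j → sign (σ * swap i j) = - sign σ := by
    intro σ i j hij
    rw [Perm.sign_mul, sign_swap hij, mul_neg, mul_one]
  let G : Perm α → A := fun σ => F σ - (if sign σ = 1 then 0 else e)
  have hQG : QRelOn P G := by
    intro σ i j k l h P1 P2 P3 P4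
    have q := hQ σ i j k l h P1 P2 P3 P4
    have t1 := s1 σ i j h.1
    have t2 := s1 σ k l h.2.2.2.2.2
    have t3 := s1 (σ * swap i j) k l h.2.2.2.2.2
    rw [t1, neg_neg] at t3
    simp only [G, t1, t2, t3]
    rcases Int.units_eq_one_or (sign σ) with hs | hs
    · rw [hs]
      simp only [if_true, sub_zero]
      rw [if_neg (by decide), q]
      have : F (σ * swap i j) - e + (F (σ * swap k l) - e)
          = F (σ * swap i j) + F (σ * swap k l) - (e + e) := by abel
      rw [this, h2, sub_zero]
    · rw [hs]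
      simp only [neg_neg, if_true, sub_zero]
      rw [if_neg (by decide), ← q]
      have : F σ - e + (F (σ * swap i j * swap k l) - e)
          = F σ + F (σ * swap i j * swap k l) - (e + e) := by abel
      rw [this, h2, sub_zero]
  have hCG : ∀ i j, i ≠ o → j ≠ o → i ≠ j → cub G o i j = 0 := by
    intro i j hi hj hij
    have q := all i j hi hj hij
    have t0 : sign (1 : Perm α) = 1 := sign_one
    have t1 : sign (swap o i : Perm α) = -1 := sign_swap (Ne.symm hi)
    have t2 : sign (swap o j : Perm α) = -1 := sign_swap (Ne.symm hj)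
    have t3 : sign (swap i j : Perm α) = -1 := sign_swap hij
    have t4 : sign (swap j i : Perm α) = -1 := sign_swap (Ne.symm hij)
    have t5 : sign (swap o i * swap i j : Perm α) = 1 := by rw [Perm.sign_mul, t1, t3]; decide
    have t6 : sign (swap o j * swap j i : Perm α) = 1 := by rw [Perm.sign_mul, t2, t4]; decide
    have n1 : ¬ ((-1 : ℤˣ) = 1) := by decide
    have : cub G o i j = cub F o i j + e + (e + e) := by
      unfold cub
      simp only [G, t0, t1, t2, t3, t5, t6, if_true, if_neg n1, sub_zero]
      abel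
    rw [this, q, h2, add_zero]
  refine ⟨psi G o, e, h2, fun σ hσ => ?_⟩
  rw [← eq_sum hP4 hPs o hQG hCG σ hσ]
  simp [G]

/-- the dual form: a function with values in an abelian group which is additive on pairs of
disjoint transpositions is a sum `∑ u, ψ u (σ u)`, up to a sign term of order two -/
theorem dual (hα : 4 ≤ Fintype.card α) (F : Perm α → A) :
    QRel F ↔ ∃ (ψ : α → α → A) (e : A), e + e = 0 ∧
      ∀ σ : Perm α, F σ = ∑ u, ψ u (σ u) + (if sign σ = 1 then 0 else e) := by
  constructor
  · intro hQ
    obtain ⟨ψ, e, he, h⟩ := dual_on hα (P := fun _ => True) (fun _ _ => trivial)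
      (fun _ _ _ _ => trivial) F (hQ.on _)
    exact ⟨ψ, e, he, fun σ => h σ trivial⟩
  · rintro ⟨ψ, e, h2, hF⟩ σ i j k l h
    have q := qrel_sum ψ σ i j k l h
    have s1 : ∀ (σ : Perm α) (i j : α), i ≠ j → sign (σ * swap i j) = - sign σ := by
      intro σ i j hij
      rw [Perm.sign_mul, sign_swap hij, mul_neg, mul_one]
    have t1 := s1 σ i j h.1
    have t2 := s1 σ k l h.2.2.2.2.2
    have t3 := s1 (σ * swap i j) k l h.2.2.2.2.2
    rw [t1, neg_neg] at t3
    have n1 : ¬ ((-1 : ℤˣ) = 1) := by decide
    rw [hF σ, hF (σ * swap i j * swap k l), hF (σ * swap i j), hF (σ * swap k l), t1, t2, t3]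
    rcases Int.units_eq_one_or (sign σ) with hs | hs
    · rw [hs, if_pos rfl, if_neg n1, add_zero, add_zero]
      have : ∑ u, ψ u ((σ * swap i j) u) + e + (∑ u, ψ u ((σ * swap k l) u) + e)
          = ∑ u, ψ u ((σ * swap i j) u) + ∑ u, ψ u ((σ * swap k l) u) + (e + e) := by abel
      rw [this, h2, add_zero]
      exact q
    · rw [hs, neg_neg, if_pos rfl, if_neg n1, add_zero, add_zero]
      have : ∑ u, ψ u (σ u) + e + (∑ u, ψ u ((σ * swap i j * swap k l) u) + e)
          = ∑ u, ψ u (σ u) + ∑ u, ψ u ((σ * swap i j * swap k l) u) + (e + e) := by abel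
      rw [this, h2, add_zero]
      exact q

end Birk
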