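import Mathlib

/-! # Surveys and their first-order summary (MP_697f4c_co) -/

namespace Pool.Agent.Work.MP_697f4c_co

open Finset Function Equiv

variable {X : Type*} [Fintype X] [LinearOrder X]

/-- The survey with the single ballot `σ`. -/
def one (σ : Perm X) : Perm X → ℕ := Pi.single σ 1

/-- Number of voters of a survey. -/
def voters (f : Perm X → ℕ) : ℕ := ∑ σ : Perm X, f σ

/-- The first-order summary: how many voters put candidate `i` in position `j`. -/
def summ (f : Perm X → ℕ) (i j : X) : ℕ := ∑ σ : Perm X, if σ i = j then f σ else 0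

lemma summ_add (f g : Perm X → ℕ) (i j : X) : summ (f + g) i j = summ f i j + summ g i j := by
  unfold summ
  rw [← sum_add_distrib]
  refine sum_congr rfl fun σ _ => ?_
  by_cases h : σ i = j <;> simp [h]

lemma summ_one (σ : Perm X) (i j : X) : summ (one σ) i j = if σ i = j then 1 else 0 := by
  unfold summ one
  rw [sum_eq_single σ]
  · simp
  · intro τ _ hτ
    simp [Pi.single_eq_of_ne hτ]
  · intro h
    exact absurd (mem_univ σ) h

/-- A ballot contained in a survey can be split off. -/
lemma split_one {f : Perm X → ℕ} {σ : Perm X} (h : 1 ≤ f σ) : ∃ g, f = g + one σ := by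
  refine ⟨f - one σ, ?_⟩
  funext τ
  simp only [Pi.add_apply, Pi.sub_apply, one]
  by_cases hτ : τ = σ
  · subst hτ
    simp only [Pi.single_eq_same]
    omega
  · simp [Pi.single_eq_of_ne hτ]

lemma voters_add (f g : Perm X → ℕ) : voters (f + g) = voters f + voters g := by
  simp [voters, sum_add_distrib]

lemma voters_one (σ : Perm X) : voters (one σ) = 1 := by
  unfold voters one
  rw [sum_eq_single σ]
  · simp
  · intro τ _ hτ
    simp [Pi.single_eq_of_ne hτ]
  · intro h
    exact absurd (mem_univ σ) h

lemma voters_eq_summ (f : Perm X → ℕ) (i : X) : voters f = ∑ j : X, summ f i j := by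
  unfold voters summ
  rw [sum_comm]
  refine sum_congr rfl fun σ _ => ?_
  rw [sum_ite_eq]
  simp

lemma exists_of_voters {f : Perm X → ℕ} (h : 1 ≤ voters f) : ∃ σ : Perm X, 1 ≤ f σ := by
  by_contra hcon
  push Not at hcon
  have : voters f = 0 := sum_eq_zero fun σ _ => by have := hcon σ; omega
  omega

/-- Ballots present in a survey. -/
def supp (f : Perm X → ℕ) : Finset (Perm X) := univ.filter fun σ => 1 ≤ f σ

lemma supp_card (f : Perm X → ℕ) : (supp f).card ≤ voters f := by
  unfold supp voters
  rw [card_filter]
  refine sum_le_sum fun σ _ => ?_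
  split_ifs <;> omega

end Pool.Agent.Work.MP_697f4c_co
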