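import Pool.Agent.Work.MP_697f4c_co.Main

/-! # The chain moves form a Markov basis (MP_697f4c_co) -/

namespace Pool.Agent.Work.MP_697f4c_co

open Finset Function Equiv

variable {X : Type*} [Fintype X] [LinearOrder X]

lemma dis_le (P : X → X) (τ : Perm X) : dis P τ ≤ Fintype.card X := by
  unfold dis
  exact card_le_univ _

theorem connect [Nonempty X] : ∀ (N : ℕ) (f f' : Perm X → ℕ), voters f = N →
    (∀ i j, summ f i j = summ f' i j) → Reach ((N - 1) * (Fintype.card X - 1)) f f' := by
  intro N
  induction N with
  | zero =>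
    intro f f' hf hs
    obtain ⟨i⟩ := (inferInstance : Nonempty X)
    have hf' : voters f' = 0 := by
      rw [voters_eq_summ f' i, ← hf, voters_eq_summ f i]
      exact sum_congr rfl fun j _ => (hs i j).symm
    have e : ∀ g : Perm X → ℕ, voters g = 0 → g = 0 := by
      intro g hg
      funext σ
      have := (sum_eq_zero_iff.mp hg) σ (mem_univ σ)
      simpa using this
    rw [e f hf, e f' hf']
    exact Reach.refl _ _
  | succ N ih =>
    intro f f' hf hs
    obtain ⟨i⟩ := (inferInstance : Nonempty X)
    have hf' : voters f' = N + 1 := by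
      rw [voters_eq_summ f' i, ← hf, voters_eq_summ f i]
      exact sum_congr rfl fun j _ => (hs i j).symm
    obtain ⟨τ, hτ⟩ := exists_of_voters (f := f') (by omega)
    obtain ⟨r, hr⟩ := exists_of_voters (f := f) (by omega)
    obtain ⟨g', hg'⟩ := split_one hτ
    have hav : Avail τ f := by
      intro x
      rw [hs, hg', summ_add, summ_one, if_pos rfl]
      omega
    rcases Nat.eq_zero_or_pos N with rfl | hN
    · -- one voter
      obtain ⟨g, hg⟩ := split_one hr
      have hg0 : voters g = 0 := by
        have := congrArg voters hg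
        rw [voters_add, voters_one, hf] at this
        omega
      have hg0' : voters g' = 0 := by
        have := congrArg voters hg'
        rw [voters_add, voters_one, hf'] at this
        omega
      have e : ∀ g : Perm X → ℕ, voters g = 0 → g = 0 := by
        intro g hg
        funext σ
        have := (sum_eq_zero_iff.mp hg) σ (mem_univ σ)
        simpa using this
      rw [e g hg0, zero_add] at hg
      rw [e g' hg0', zero_add] at hg'
      have : r = τ := by
        ext x
        have h1 := hav x
        rw [hg, summ_one] at h1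
        by_contra hne
        rw [if_neg hne] at h1
        omega
      rw [hg, hg', this]
      exact Reach.refl _ _
    · obtain ⟨f1, h1, h2⟩ := (process τ (dis r τ)).1 f r hr hav rfl
      obtain ⟨g, hg⟩ := split_one h2
      have hgN : voters g = N := by
        have h3 : voters f1 = N + 1 := by
          rw [voters_eq_summ f1 i, ← hf, voters_eq_summ f i]
          exact sum_congr rfl fun j _ => (h1.summ_eq i j).symm
        have := congrArg voters hg
        rw [voters_add, voters_one] at this
        omega
      have hsum : ∀ i j, summ g i j = summ g' i j := by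
        intro i j
        have h3 := h1.summ_eq i j
        have h4 := hs i j
        rw [hg, summ_add] at h3
        rw [hg', summ_add] at h4
        omega
      have h5 := (ih g g' hgN hsum).add (one τ)
      rw [add_comm (one τ) g, add_comm (one τ) g', ← hg, ← hg'] at h5
      refine (h1.trans h5).mono ?_
      have h6 := dis_le (r : X → X) τ
      have h7 : N + 1 - 1 = (N - 1) + 1 := by omega
      rw [h7, Nat.add_mul, one_mul]
      omega

lemma Reach.path {k : ℕ} {f f' : Perm X → ℕ} (h : Reach k f f') :
    ∃ j ≤ k, ∃ F : ℕ → (Perm X → ℕ), F 0 = f ∧ F j = f' ∧ ∀ t < j, Step (F t) (F (t + 1)) := by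
  induction h with
  | refl k f => exact ⟨0, Nat.zero_le _, fun _ => f, rfl, rfl, fun t ht => absurd ht (by omega)⟩
  | @cons k f g h hs _ ih =>
    obtain ⟨j, hj, F, h0, hF, hst⟩ := ih
    refine ⟨j + 1, by omega, fun t => if t = 0 then f else F (t - 1), by simp, by simp [hF], ?_⟩
    intro t ht
    rcases Nat.eq_zero_or_pos t with rfl | h0t
    · simp [h0, hs]
    · have h1 : t ≠ 0 := by omega
      have h2 : t + 1 ≠ 0 := by omega
      simp only [h1, if_false, h2]
      have := hst (t - 1) (by omega)
      have e : t - 1 + 1 = t + 1 - 1 := by omega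
      rwa [e] at this

theorem succ_card (f : Perm X → ℕ) :
    {f' | Step f f'}.Finite ∧
    {f' | Step f f'}.ncard ≤ 2 * Fintype.card X ^ 2 * voters f ^ 3
      + Fintype.card X * voters f ^ 2 := by
  classical
  let n := Fintype.card X
  let Φ : X × Perm X × Perm X → (Perm X → ℕ) := fun q =>
    (f - one q.2.1 - one q.2.2) + one (quad q.1 (q.2.1, q.2.2)).1 + one (quad q.1 (q.2.1, q.2.2)).2
  let Ψ : X × Fin n × Bool × Perm X × Perm X × Perm X → (Perm X → ℕ) := fun q =>
    (f - one q.2.2.2.1 - one q.2.2.2.2.1 - one q.2.2.2.2.2)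
      + one (cub q.1 q.2.1 q.2.2.1 (q.2.2.2.1, q.2.2.2.2.1, q.2.2.2.2.2)).1
      + one (cub q.1 q.2.1 q.2.2.1 (q.2.2.2.1, q.2.2.2.2.1, q.2.2.2.2.2)).2.1
      + one (cub q.1 q.2.1 q.2.2.1 (q.2.2.2.1, q.2.2.2.2.1, q.2.2.2.2.2)).2.2
  let A : Finset (Perm X → ℕ) := ((univ : Finset X) ×ˢ supp f ×ˢ supp f).image Φ
  let B : Finset (Perm X → ℕ) :=
    ((univ : Finset X) ×ˢ (univ : Finset (Fin n)) ×ˢ (univ : Finset Bool) ×ˢ
      supp f ×ˢ supp f ×ˢ supp f).image Ψ
  have hsub : {f' | Step f f'} ⊆ ((A ∪ B : Finset (Perm X → ℕ)) : Set (Perm X → ℕ)) := by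
    rintro f' (⟨h, u, r, a, hf, hf'⟩ | ⟨h, u, m, b, r, a, c, hm, hf, hf'⟩)
    · rw [coe_union]
      left
      have hr : r ∈ supp f := by
        rw [supp, mem_filter]
        refine ⟨mem_univ _, ?_⟩
        rw [hf]
        simp only [Pi.add_apply, one, Pi.single_eq_same]
        omega
      have ha : a ∈ supp f := by
        rw [supp, mem_filter]
        refine ⟨mem_univ _, ?_⟩
        rw [hf]
        simp only [Pi.add_apply, one, Pi.single_eq_same]
        omega
      refine mem_coe.mpr (mem_image.mpr ⟨(u, r, a), ?_, ?_⟩)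
      · simp [hr, ha]
      · have hh : f - one r - one a = h := by
          rw [hf]
          funext σ
          simp only [Pi.sub_apply, Pi.add_apply]
          omega
        change (f - one r - one a) + one (quad u (r, a)).1 + one (quad u (r, a)).2 = f'
        rw [hh, hf']
    · rw [coe_union]
      right
      have hr : r ∈ supp f := by
        rw [supp, mem_filter]
        refine ⟨mem_univ _, ?_⟩
        rw [hf]
        simp only [Pi.add_apply, one, Pi.single_eq_same]
        omega
      have ha : a ∈ supp f := by
        rw [supp, mem_filter]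
        refine ⟨mem_univ _, ?_⟩
        rw [hf]
        simp only [Pi.add_apply, one, Pi.single_eq_same]
        omega
      have hc : c ∈ supp f := by
        rw [supp, mem_filter]
        refine ⟨mem_univ _, ?_⟩
        rw [hf]
        simp only [Pi.add_apply, one, Pi.single_eq_same]
        omega
      refine mem_coe.mpr (mem_image.mpr ⟨(u, ⟨m, hm⟩, b, r, a, c), ?_, ?_⟩)
      · simp [hr, ha, hc]
      · have hh : f - one r - one a - one c = h := by
          rw [hf]
          funext σ
          simp only [Pi.sub_apply, Pi.add_apply]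
          omega
        change (f - one r - one a - one c) + one (cub u m b (r, a, c)).1
          + one (cub u m b (r, a, c)).2.1 + one (cub u m b (r, a, c)).2.2 = f'
        rw [hh, hf']
  refine ⟨(A ∪ B).finite_toSet.subset hsub, ?_⟩
  have hA : A.card ≤ Fintype.card X * voters f ^ 2 := by
    refine card_image_le.trans ?_
    rw [card_product, card_product, card_univ, pow_two]
    exact Nat.mul_le_mul le_rfl (Nat.mul_le_mul (supp_card f) (supp_card f))
  have hB : B.card ≤ 2 * Fintype.card X ^ 2 * voters f ^ 3 := by
    refine card_image_le.trans ?_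
    rw [card_product, card_product, card_product, card_product, card_product, card_univ,
      card_univ, card_univ, Fintype.card_fin, Fintype.card_bool]
    have h3 : (supp f).card * ((supp f).card * (supp f).card) ≤ voters f ^ 3 := by
      rw [pow_three]
      exact Nat.mul_le_mul (supp_card f) (Nat.mul_le_mul (supp_card f) (supp_card f))
    calc Fintype.card X * (n * (2 * ((supp f).card * ((supp f).card * (supp f).card))))
        = 2 * Fintype.card X ^ 2 * ((supp f).card * ((supp f).card * (supp f).card)) := by
          simp only [n]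
          ring
      _ ≤ _ := Nat.mul_le_mul le_rfl h3
  calc {f' | Step f f'}.ncard ≤ ((A ∪ B : Finset (Perm X → ℕ)) : Set (Perm X → ℕ)).ncard :=
        Set.ncard_le_ncard hsub (A ∪ B).finite_toSet
    _ = (A ∪ B).card := Set.ncard_coe_finset _
    _ ≤ A.card + B.card := card_union_le _ _
    _ ≤ _ := by omega

lemma chainMoves_finite : (chainMoves X).Finite := by
  have h1 : (Set.range fun q : X × Perm X × Perm X => quadVec q.1 q.2.1 q.2.2).Finite :=
    Set.finite_range _
  have h2 : (Set.range fun q : X × Fin (Fintype.card X) × Bool × Perm X × Perm X × Perm X =>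
      cubVec q.1 q.2.1 q.2.2.1 q.2.2.2.1 q.2.2.2.2.1 q.2.2.2.2.2).Finite := Set.finite_range _
  refine (h1.union h2).subset ?_
  rintro g (⟨u, r, a, rfl⟩ | ⟨u, m, b, r, a, c, hm, rfl⟩)
  · exact Or.inl ⟨(u, r, a), rfl⟩
  · exact Or.inr ⟨(u, ⟨m, hm⟩, b, r, a, c), rfl⟩

lemma Step.diff {f f' : Perm X → ℕ} (h : Step f f') :
    (fun σ => (f' σ : ℤ) - f σ) ∈ chainMoves X := by
  rcases h with ⟨h, u, r, a, rfl, rfl⟩ | ⟨h, u, m, b, r, a, c, hm, rfl, rfl⟩
  · left
    refine ⟨u, r, a, ?_⟩
    funext σ
    simp only [quadVec, Pi.add_apply]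
    push_cast
    ring
  · right
    refine ⟨u, m, b, r, a, c, hm, ?_⟩
    funext σ
    simp only [cubVec, Pi.add_apply]
    push_cast
    ring

lemma sum_one_int (σ : Perm X) : ∑ τ : Perm X, |(one σ τ : ℤ)| = 1 := by
  have h1 : ∀ τ, |(one σ τ : ℤ)| = (one σ τ : ℤ) := fun τ => abs_of_nonneg (by positivity)
  simp only [h1]
  have := voters_one σ
  unfold voters at this
  exact_mod_cast this

lemma degree_le {g : Perm X → ℤ} (hg : g ∈ chainMoves X) : ∑ σ : Perm X, |g σ| ≤ 6 := by
  rcases hg with ⟨u, r, a, rfl⟩ | ⟨u, m, b, r, a, c, hm, rfl⟩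
  · set s := (quad u (r, a)).1
    set t := (quad u (r, a)).2
    have : ∀ σ, |quadVec u r a σ| ≤ |(one s σ : ℤ)| + |(one t σ : ℤ)| + |(one r σ : ℤ)|
        + |(one a σ : ℤ)| := by
      intro σ
      have h1 := abs_sub ((one s σ : ℤ) + one t σ - one r σ) (one a σ)
      have h2 := abs_sub ((one s σ : ℤ) + one t σ) (one r σ)
      have h3 := abs_add_le (one s σ : ℤ) (one t σ)
      change |(one s σ : ℤ) + one t σ - one r σ - one a σ| ≤ _
      linarith
    refine (sum_le_sum fun σ _ => this σ).trans ?_
    rw [sum_add_distrib, sum_add_distrib, sum_add_distrib, sum_one_int, sum_one_int, sum_one_int,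
      sum_one_int]
    norm_num
  · set s := (cub u m b (r, a, c)).1
    set t := (cub u m b (r, a, c)).2.1
    set w := (cub u m b (r, a, c)).2.2
    have : ∀ σ, |cubVec u m b r a c σ| ≤ |(one s σ : ℤ)| + |(one t σ : ℤ)| + |(one w σ : ℤ)|
        + |(one r σ : ℤ)| + |(one a σ : ℤ)| + |(one c σ : ℤ)| := by
      intro σ
      have h1 := abs_sub ((one s σ : ℤ) + one t σ + one w σ - one r σ - one a σ) (one c σ)
      have h2 := abs_sub ((one s σ : ℤ) + one t σ + one w σ - one r σ) (one a σ)
      have h3 := abs_sub ((one s σ : ℤ) + one t σ + one w σ) (one r σ)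
      have h4 := abs_add_le ((one s σ : ℤ) + one t σ) (one w σ)
      have h5 := abs_add_le (one s σ : ℤ) (one t σ)
      change |(one s σ : ℤ) + one t σ + one w σ - one r σ - one a σ - one c σ| ≤ _
      linarith
    refine (sum_le_sum fun σ _ => this σ).trans ?_
    rw [sum_add_distrib, sum_add_distrib, sum_add_distrib, sum_add_distrib, sum_add_distrib,
      sum_one_int, sum_one_int, sum_one_int, sum_one_int, sum_one_int, sum_one_int]
    norm_num

lemma sum_one_ite (σ : Perm X) (i j : X) :
    ∑ τ : Perm X, (if τ i = j then (one σ τ : ℤ) else 0) = if σ i = j then 1 else 0 := by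
  have := summ_one σ i j
  unfold summ at this
  have h2 := congrArg (Nat.cast : ℕ → ℤ) this
  push_cast at h2
  rw [← h2]

/-- Every chain vector is a move: its first-order summary is zero. -/
lemma chain_summ {g : Perm X → ℤ} (hg : g ∈ chainMoves X) (i j : X) :
    ∑ σ : Perm X, (if σ i = j then g σ else 0) = 0 := by
  rcases hg with ⟨u, r, a, rfl⟩ | ⟨u, m, b, r, a, c, hm, rfl⟩
  · have h0 : ∀ σ : Perm X, (if σ i = j then quadVec u r a σ else 0)
        = (if σ i = j then (one (quad u (r, a)).1 σ : ℤ) else 0)
          + (if σ i = j then (one (quad u (r, a)).2 σ : ℤ) else 0)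
          - (if σ i = j then (one r σ : ℤ) else 0) - (if σ i = j then (one a σ : ℤ) else 0) := by
      intro σ
      unfold quadVec
      split_ifs <;> ring
    rw [sum_congr rfl fun σ _ => h0 σ, sum_sub_distrib, sum_sub_distrib, sum_add_distrib,
      sum_one_ite, sum_one_ite, sum_one_ite, sum_one_ite]
    have := congrArg (Nat.cast : ℕ → ℤ) (ind_quad u r a i j)
    push_cast at this
    linarith
  · have h0 : ∀ σ : Perm X, (if σ i = j then cubVec u m b r a c σ else 0)
        = (if σ i = j then (one (cub u m b (r, a, c)).1 σ : ℤ) else 0)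
          + (if σ i = j then (one (cub u m b (r, a, c)).2.1 σ : ℤ) else 0)
          + (if σ i = j then (one (cub u m b (r, a, c)).2.2 σ : ℤ) else 0)
          - (if σ i = j then (one r σ : ℤ) else 0) - (if σ i = j then (one a σ : ℤ) else 0)
          - (if σ i = j then (one c σ : ℤ) else 0) := by
      intro σ
      unfold cubVec
      split_ifs <;> ring
    rw [sum_congr rfl fun σ _ => h0 σ, sum_sub_distrib, sum_sub_distrib, sum_sub_distrib,
      sum_add_distrib, sum_add_distrib, sum_one_ite, sum_one_ite, sum_one_ite, sum_one_ite,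
      sum_one_ite, sum_one_ite]
    have := congrArg (Nat.cast : ℕ → ℤ) (ind_cub u m b r a c i j)
    push_cast at this
    linarith

end Pool.Agent.Work.MP_697f4c_co
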