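import Pool.Agent.Work.MP_697f4c_co.Konig

/-!
MP_697f4c_co, work file: canonical decompositions of two-regular matrices.
-/

open Equiv Finset

namespace Birk

variable {α : Type*} [DecidableEq α] [Fintype α]

/-- equality of unordered pairs -/
def UP (u v w z : α) : Prop := (u = w ∧ v = z) ∨ (u = z ∧ v = w)

omit [Fintype α] in
theorem up_of_sum {a b a' b' : Perm α} {x : α}
    (h : ∀ y, pm a x y + pm b x y = pm a' x y + pm b' x y) :
    UP (a' x) (b' x) (a x) (b x) := by
  unfold UP
  unfold pm at h
  by_cases h1 : a' x = a x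
  · left
    refine ⟨h1, ?_⟩
    have h2 := h (b x)
    rw [h1] at h2
    simp only [if_true] at h2
    by_contra hne
    rw [if_neg hne] at h2
    omega
  · by_cases h3 : b' x = a x
    · right
      refine ⟨?_, h3⟩
      have h2 := h (b x)
      rw [h3] at h2
      simp only [if_true] at h2
      by_contra hne
      rw [if_neg hne] at h2
      omega
    · exfalso
      have h2 := h (a x)
      rw [if_pos rfl, if_neg h1, if_neg h3] at h2
      have : (0 : ℤ) ≤ if b x = a x then 1 else 0 := by split_ifs <;> norm_num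
      omega

/-- `r` is a mixture of `a` and `b`, except at `x0`, and equals `a` outside of the cycle
of `x0` -/
def Can (a b r : Perm α) (x0 : α) : Prop :=
  (∀ x, x ≠ x0 → r x = a x ∨ r x = b x) ∧ ∀ x, ¬ (a⁻¹ * b).SameCycle x0 x → r x = a x

omit [Fintype α] in
theorem can_self (r σ : Perm α) (x0 : α) : Can r σ r x0 := ⟨fun _ _ => Or.inl rfl, fun _ _ => rfl⟩

theorem pow_of_sameCycle {π : Perm α} {x y : α} (h : π.SameCycle x y) : ∃ n : ℕ, (π ^ n) x = y := by
  obtain ⟨n, _, _, hn⟩ := h.exists_pow_eq''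
  exact ⟨n, hn⟩

theorem can_exists (M h : α → α → ℤ) (r : Perm α) (x0 : α) (hM : ∀ x y, M x y = h x y + pm r x y)
    (h0 : ∀ x y, 0 ≤ M x y) (hr : ∀ x, ∑ y, M x y = 2) (hc : ∀ y, ∑ x, M x y = 2)
    (hh : ∀ x, x ≠ x0 → ∀ y, 0 ≤ h x y) :
    ∃ a b : Perm α, (∀ x y, pm a x y + pm b x y = M x y) ∧ Can a b r x0 := by
  obtain ⟨a0, b0, hab⟩ := konig2 M h0 hr hc
  have mix : ∀ (a b : Perm α), (∀ x y, pm a x y + pm b x y = M x y) →
      ∀ x, x ≠ x0 → r x = a x ∨ r x = b x := by
    intro a b hs x hx
    have h1 := hs x (r x)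
    rw [hM, pm_self] at h1
    have h2 := hh x hx (r x)
    by_contra hne
    push Not at hne
    unfold pm at h1
    rw [if_neg (Ne.symm hne.1), if_neg (Ne.symm hne.2)] at h1
    omega
  set c := (r⁻¹ * a0).cycleOf x0 with hcdef
  have ha : ∀ x, (r * c) x = a0 x ∨ ((r * c) x = r x ∧ x ≠ x0) := by
    intro x
    rw [Perm.mul_apply, hcdef, Perm.cycleOf_apply]
    by_cases hs : (r⁻¹ * a0).SameCycle x0 x
    · rw [if_pos hs]; left; simp
    · rw [if_neg hs]; right
      refine ⟨rfl, ?_⟩
      rintro rfl
      exact hs (Perm.SameCycle.refl _ _)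
  obtain ⟨b, hb⟩ := konig1 (fun x y => M x y - pm (r * c) x y) (by
    intro x y
    show 0 ≤ M x y - pm (r * c) x y
    by_cases hy : (r * c) x = y
    · have : 1 ≤ M x y := by
        rw [← hab x y]
        rcases ha x with h1 | ⟨h1, h2⟩
        · have : pm a0 x y = 1 := by unfold pm; rw [if_pos (by rw [← h1, hy])]
          have := pm_nonneg b0 x y
          omega
        · rcases mix a0 b0 hab x h2 with h3 | h3
          · have : pm a0 x y = 1 := by unfold pm; rw [if_pos (by rw [← h3, ← h1, hy])]
            have := pm_nonneg b0 x y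
            omega
          · have : pm b0 x y = 1 := by unfold pm; rw [if_pos (by rw [← h3, ← h1, hy])]
            have := pm_nonneg a0 x y
            omega
      have := pm_le_one (r * c) x y
      omega
    · unfold pm; rw [if_neg hy]; simpa using h0 x y) (by
    intro x
    rw [sum_sub_distrib, hr, pm_row]; norm_num) (by
    intro y
    rw [sum_sub_distrib, hc, pm_col]; norm_num)
  have hsum : ∀ x y, pm (r * c) x y + pm b x y = M x y := by
    intro x y
    rw [← hb x y]; ring
  refine ⟨r * c, b, hsum, mix _ _ hsum, fun x hx => ?_⟩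
  -- the cycle of `x0` under `r⁻¹ a0` lies in the cycle of `x0` under `a⁻¹ b`
  by_contra hne
  apply hx
  have hsame : (r⁻¹ * a0).SameCycle x0 x := by
    by_contra hs
    apply hne
    rw [Perm.mul_apply, hcdef, Perm.cycleOf_apply, if_neg hs]
  obtain ⟨n, rfl⟩ := pow_of_sameCycle hsame
  clear hx hne hsame
  induction n with
  | zero => exact Perm.SameCycle.refl _ _
  | succ n ih =>
    set z := ((r⁻¹ * a0) ^ n) x0 with hz
    have hz' : ((r⁻¹ * a0) ^ (n + 1)) x0 = r⁻¹ (a0 z) := by
      rw [pow_succ', Perm.mul_apply, Perm.mul_apply, ← hz]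
    rw [hz']
    set z' := r⁻¹ (a0 z) with hzz
    have hrz : r z' = a0 z := by simp [hzz]
    have haz : (r * c) z = a0 z := by
      have : (r⁻¹ * a0).SameCycle x0 z := ⟨n, by rw [hz]; simp⟩
      rw [Perm.mul_apply, hcdef, Perm.cycleOf_apply, if_pos this]; simp
    by_cases h1 : z' = x0
    · rw [h1]
    by_cases h2 : z' = z
    · rw [h2]; exact ih
    rcases mix _ _ hsum z' h1 with h3 | h3
    · exfalso
      apply h2
      exact (r * c).injective (by rw [← h3, hrz, haz])
    · refine ih.trans ?_
      refine Perm.SameCycle.symm ⟨1, ?_⟩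
      rw [zpow_one, Perm.mul_apply, ← h3, hrz, ← haz]
      simp

theorem switch_or_eq {a b a' b' r : Perm α} {x0 : α}
    (hs : ∀ x y, pm a x y + pm b x y = pm a' x y + pm b' x y) (hc : Can a b r x0)
    (hc' : Can a' b' r x0) :
    (a = a' ∧ b = b') ∨ (a' x0 ≠ a x0 ∧ (a⁻¹ * a').IsCycle) := by
  have up : ∀ x, UP (a' x) (b' x) (a x) (b x) := fun x => up_of_sum (hs x)
  have D1 : ∀ x, a' x ≠ a x → a' x = b x ∧ b' x = a x := by
    intro x hx
    rcases up x with h | h
    · exact absurd h.1 hx
    · exact h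
  set π := a⁻¹ * b with hπ
  set π' := a'⁻¹ * b' with hπ'
  have aπ : ∀ x, a (π x) = b x := by intro x; simp [hπ]
  have aπ' : ∀ x, a' (π' x) = b' x := by intro x; simp [hπ']
  -- invariance of the set of the points where `a'` differs from `a`
  have F2 : ∀ x, a' x ≠ a x → a' (π x) ≠ a (π x) := by
    intro x hx h
    rw [aπ, ← (D1 x hx).1] at h
    have h2 := a'.injective h
    apply hx
    have h3 := aπ x
    rw [h2, ← (D1 x hx).1] at h3
    exact h3.symm
  have F2' : ∀ x, a' x ≠ a x → a' (π' x) ≠ a (π' x) := by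
    intro x hx h
    rw [aπ', (D1 x hx).2] at h
    have h2 := a.injective h
    have h3 := aπ' x
    rw [← h2, (D1 x hx).2] at h3
    exact hx h3
  have inv : ∀ x y, π.SameCycle x y → a' x ≠ a x → a' y ≠ a y := by
    intro x y hxy hx
    obtain ⟨n, rfl⟩ := pow_of_sameCycle hxy
    clear hxy
    induction n with
    | zero => exact hx
    | succ n ih =>
      rw [pow_succ', Perm.mul_apply]
      exact F2 _ ih
  have inv' : ∀ x y, π'.SameCycle x y → a' x ≠ a x → a' y ≠ a y := by
    intro x y hxy hx
    obtain ⟨n, rfl⟩ := pow_of_sameCycle hxy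
    clear hxy
    induction n with
    | zero => exact hx
    | succ n ih =>
      rw [pow_succ', Perm.mul_apply]
      exact F2' _ ih
  have F4 : ∀ x, a' x ≠ a x → π.SameCycle x0 x ∨ π'.SameCycle x0 x := by
    intro x hx
    by_contra hne
    push Not at hne
    exact hx (by rw [← hc'.2 x hne.2, ← hc.2 x hne.1])
  by_cases hx0 : a' x0 = a x0
  · left
    have ha : a = a' := by
      ext x
      by_contra hne
      rcases F4 x (Ne.symm hne) with h | h
      · exact inv _ _ h.symm (Ne.symm hne) hx0
      · exact inv' _ _ h.symm (Ne.symm hne) hx0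
    refine ⟨ha, ?_⟩
    apply pm_inj
    intro x y
    have := hs x y
    rw [ha] at this
    omega
  · right
    have key : ∀ x, a' x ≠ a x → π.SameCycle x0 x := by
      intro x hx
      rcases F4 x hx with h | h
      · exact h
      obtain ⟨n, rfl⟩ := pow_of_sameCycle h
      clear hx h
      have : ∀ n : ℕ, π.SameCycle x0 ((π' ^ n) x0) ∧ a' ((π' ^ n) x0) ≠ a ((π' ^ n) x0) := by
        intro n
        induction n with
        | zero => exact ⟨Perm.SameCycle.refl _ _, hx0⟩
        | succ n ih =>
          set z := (π' ^ n) x0 with hz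
          have e : (π' ^ (n + 1)) x0 = π' z := by rw [pow_succ', Perm.mul_apply]
          rw [e]
          have h1 := F2' z ih.2
          refine ⟨ih.1.trans ?_, h1⟩
          refine Perm.SameCycle.symm ⟨1, ?_⟩
          rw [zpow_one]
          apply a.injective
          rw [aπ, ← (D1 _ h1).1, aπ', (D1 z ih.2).2]
      exact (this n).1
    refine ⟨hx0, x0, ?_, fun y hy => ?_⟩
    · intro h
      rw [Perm.mul_apply] at h
      apply hx0
      calc a' x0 = a (a⁻¹ (a' x0)) := by simp
        _ = a x0 := by rw [h]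
    · have hy' : a' y ≠ a y := by
        intro h
        apply hy
        rw [Perm.mul_apply, h]; simp
      obtain ⟨n, hn⟩ := pow_of_sameCycle (key y hy')
      refine ⟨n, ?_⟩
      rw [zpow_natCast, ← hn]
      clear hn hy hy'
      have : ∀ n : ℕ, ((a⁻¹ * a') ^ n) x0 = (π ^ n) x0 ∧ a' ((π ^ n) x0) ≠ a ((π ^ n) x0) := by
        intro n
        induction n with
        | zero => exact ⟨rfl, hx0⟩
        | succ n ih =>
          rw [pow_succ', Perm.mul_apply, ih.1, pow_succ', Perm.mul_apply]
          refine ⟨?_, F2 _ ih.2⟩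
          rw [Perm.mul_apply, (D1 _ ih.2).1, hπ, Perm.mul_apply]
      exact (this n).1

end Birk
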