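import Pool.Agent.Work.MP_697f4c_co.Defs

/-! # Chains of two ballots and the chain lemma (MP_697f4c_co) -/

namespace Pool.Agent.Work.MP_697f4c_co

open Finset Function

variable {X : Type*} [Fintype X] [LinearOrder X]

/-- Number of arguments at which `g` takes the value `v`. -/
def cnt (g : X → X) (v : X) : ℕ := (univ.filter fun x => g x = v).card

/-- `g` takes every value once, except that `y` is taken once more and `z` once less. -/
def Near (g : X → X) (y z : X) : Prop :=
  ∀ v, cnt g v + (if v = z then 1 else 0) = 1 + (if v = y then 1 else 0)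

omit [Fintype X] in
lemma ex_mem {g h : X → X} {A : Finset X} {x : X} (hx : x ∈ A) : ex g h A x = h x := by
  simp [ex, hx]

omit [Fintype X] in
lemma ex_not_mem {g h : X → X} {A : Finset X} {x : X} (hx : x ∉ A) : ex g h A x = g x := by
  simp [ex, hx]

omit [Fintype X] in
lemma ex_ex (g h : X → X) (A : Finset X) : ex (ex g h A) (ex h g A) A = g := by
  funext x
  by_cases hx : x ∈ A <;> simp [ex, hx]

omit [Fintype X] in
lemma ex_empty (g h : X → X) : ex g h ∅ = g := by
  funext x
  simp [ex]

lemma nxt_spec {g h : X → X} {x : X} (H : ∃ z, g z = h x) : g (nxt g h x) = h x := by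
  obtain ⟨z, hz⟩ := H
  have hne : (univ.filter fun z => g z = h x).Nonempty :=
    ⟨z, mem_filter.mpr ⟨mem_univ z, hz⟩⟩
  unfold nxt
  rw [dif_pos hne]
  exact (mem_filter.mp (min'_mem _ hne)).2

lemma cnt_ex (g h : X → X) (A : Finset X) (v : X) :
    cnt (ex g h A) v + cnt (ex h g A) v = cnt g v + cnt h v := by
  unfold cnt
  simp only [card_filter]
  rw [← sum_add_distrib, ← sum_add_distrib]
  refine sum_congr rfl fun x _ => ?_
  by_cases hx : x ∈ A
  · simp only [ex, hx, if_true]
    rw [add_comm]
  · simp only [ex, hx, if_false]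

lemma cnt_pos {g : X → X} {v : X} : 0 < cnt g v ↔ ∃ x, g x = v := by
  unfold cnt
  rw [card_pos]
  constructor
  · rintro ⟨x, hx⟩
    exact ⟨x, (mem_filter.mp hx).2⟩
  · rintro ⟨x, hx⟩
    exact ⟨x, mem_filter.mpr ⟨mem_univ x, hx⟩⟩

lemma bij_iff {g : X → X} : Bijective g ↔ ∀ v, cnt g v = 1 := by
  constructor
  · intro hg v
    unfold cnt
    rw [card_eq_one]
    obtain ⟨x, hx⟩ := hg.2 v
    refine ⟨x, ?_⟩
    ext w
    simp only [mem_filter, mem_univ, true_and, mem_singleton]
    constructor
    · intro hw
      exact hg.1 (hw.trans hx.symm)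
    · rintro rfl
      exact hx
  · intro h
    refine (Finite.surjective_iff_bijective).mp fun v => ?_
    exact cnt_pos.mp (by rw [h v]; exact one_pos)

omit [LinearOrder X] in
lemma bij_of_inj {g : X → X} (h : Injective g) : Bijective g :=
  Finite.injective_iff_bijective.mp h

lemma near_self_iff {g : X → X} {y : X} : Near g y y ↔ Bijective g := by
  rw [bij_iff]
  unfold Near
  constructor
  · intro h v
    have := h v
    omega
  · intro h v
    have := h v
    omega

lemma cnt_update (g : X → X) (x y v : X) :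
    cnt (update g x y) v + (if v = g x then 1 else 0) = cnt g v + (if v = y then 1 else 0) := by
  unfold cnt
  simp only [card_filter]
  have h1 : ∀ f : X → X, ∑ i, (if f i = v then 1 else 0)
      = (if f x = v then 1 else 0) + ∑ i ∈ univ.erase x, (if f i = v then 1 else 0) := by
    intro f
    rw [← add_sum_erase univ _ (mem_univ x)]
  rw [h1 (update g x y), h1 g]
  have h2 : ∑ i ∈ univ.erase x, (if update g x y i = v then 1 else 0)
      = ∑ i ∈ univ.erase x, (if g i = v then 1 else 0) := by
    refine sum_congr rfl fun i hi => ?_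
    rw [update_of_ne (ne_of_mem_erase hi)]
  rw [h2, update_self]
  have h3 : (if g x = v then 1 else 0) = (if v = g x then 1 else 0) := by
    by_cases hv : v = g x
    · simp [hv]
    · simp [hv, Ne.symm hv]
  have h4 : (if y = v then 1 else 0) = (if v = y then 1 else 0) := by
    by_cases hv : v = y
    · simp [hv]
    · simp [hv, Ne.symm hv]
  rw [h3, h4]
  ring

lemma eq_of_cnt_le_one {g : X → X} {u v : X} (h : cnt g (g u) ≤ 1) (huv : g u = g v) : u = v := by
  unfold cnt at h
  rw [card_le_one] at h
  exact h u (mem_filter.mpr ⟨mem_univ u, rfl⟩) v (mem_filter.mpr ⟨mem_univ v, huv.symm⟩)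

lemma not_three {g : X → X} {y a b c : X} (h : cnt g y ≤ 2) (ha : g a = y) (hb : g b = y)
    (hc : g c = y) (hab : a ≠ b) (hac : a ≠ c) (hbc : b ≠ c) : False := by
  have h3 : ({a, b, c} : Finset X).card = 3 := by
    rw [card_insert_of_notMem, card_insert_of_notMem, card_singleton]
    · simpa using hbc
    · simp [hab, hac]
  have hsub : ({a, b, c} : Finset X) ⊆ univ.filter fun x => g x = y := by
    intro x hx
    simp only [mem_insert, mem_singleton] at hx
    rcases hx with rfl | rfl | rfl <;> simp [ha, hb, hc]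
  have := card_le_card hsub
  unfold cnt at h
  omega

lemma Near.uniq {g : X → X} {y z u v : X} (hg : Near g y z) (huv : g u = g v) (hy : g u ≠ y) :
    u = v := by
  refine eq_of_cnt_le_one ?_ huv
  have := hg (g u)
  rw [if_neg hy] at this
  omega

lemma Near.miss {g : X → X} {y z : X} (hg : Near g y z) (hyz : y ≠ z) (u : X) : g u ≠ z := by
  intro h
  have h1 := hg z
  rw [if_pos rfl, if_neg (Ne.symm hyz)] at h1
  have h2 : 0 < cnt g z := cnt_pos.mpr ⟨u, h⟩
  omega

lemma Near.hit {g : X → X} {y z v : X} (hg : Near g y z) (hv : v ≠ z) : ∃ x, g x = v := by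
  refine cnt_pos.mp ?_
  have := hg v
  rw [if_neg hv] at this
  omega

lemma Near.le_two {g : X → X} {y z : X} (hg : Near g y z) (v : X) : cnt g v ≤ 2 := by
  have := hg v
  split_ifs at this <;> omega

/-- The chain lemma. -/
theorem chain_lemma {g h : X → X} {y z k : X} (hg : Near g y z) (hh : Near h k y)
    (hyz : y ≠ z) (hky : k ≠ y) {s : X} (hs : g s = y) :
    ∃ n, 1 ≤ n ∧ (∀ i, i + 1 < n → g ((nxt g h)^[i + 1] s) = h ((nxt g h)^[i] s)) ∧
      (Bijective (ex g h (seg g h s n)) ∨ Bijective (ex h g (seg g h s n))) := by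
  classical
  set U : ℕ → X := fun i => (nxt g h)^[i] s with hU
  have hU0 : U 0 = s := rfl
  have hUs : ∀ i, U (i + 1) = nxt g h (U i) := fun i => by
    simp only [hU]
    rw [iterate_succ_apply']
  -- the range of h misses y
  have hmiss : ∀ u, h u ≠ y := hh.miss hky
  have hgz : ∀ u, g u ≠ z := hg.miss hyz
  -- step property
  have hstep : ∀ i, h (U i) ≠ z → g (U (i + 1)) = h (U i) := by
    intro i hi
    rw [hUs]
    exact nxt_spec (hg.hit hi)
  -- stopping index
  have hex : ∃ n, h (U n) = z ∨ ∃ i, i ≤ n ∧ U (n + 1) = U i := by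
    by_contra hcon
    push Not at hcon
    have hinj : Injective U := by
      have key : ∀ a b, a < b → U a ≠ U b := by
        intro a b hab heq
        obtain ⟨c, rfl⟩ : ∃ c, b = c + 1 := ⟨b - 1, by omega⟩
        exact (hcon c).2 a (by omega) heq.symm
      intro a b hab
      rcases lt_trichotomy a b with h1 | h1 | h1
      · exact absurd hab (key a b h1)
      · exact h1
      · exact absurd hab.symm (key b a h1)
    exact not_injective_infinite_finite U hinj
  let n := Nat.find hex
  have hn := Nat.find_spec hex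
  have hmin : ∀ m, m < n → h (U m) ≠ z ∧ ∀ i, i ≤ m → U (m + 1) ≠ U i := by
    intro m hm
    have := Nat.find_min hex hm
    push Not at this
    exact this
  change h (U n) = z ∨ ∃ i, i ≤ n ∧ U (n + 1) = U i at hn
  -- distinctness of U 0, ..., U n
  have hdist : ∀ a b, a < b → b ≤ n → U a ≠ U b := by
    intro a b hab hb heq
    obtain ⟨c, rfl⟩ : ∃ c, b = c + 1 := ⟨b - 1, by omega⟩
    exact (hmin c (by omega)).2 a (by omega) heq.symm
  have hchain : ∀ i, i < n → g (U (i + 1)) = h (U i) := fun i hi => hstep i (hmin i hi).1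
  -- value at index ≥ 1 is a value of h, hence not y
  have hgy : ∀ i, 1 ≤ i → i ≤ n → g (U i) ≠ y := by
    intro i h1 h2
    obtain ⟨c, rfl⟩ : ∃ c, i = c + 1 := ⟨i - 1, by omega⟩
    rw [hchain c (by omega)]
    exact hmiss _
  have hmem : ∀ {x}, x ∈ seg g h s (n + 1) ↔ ∃ i, i ≤ n ∧ U i = x := by
    intro x
    unfold seg
    simp only [mem_image, mem_range]
    constructor
    · rintro ⟨i, hi, rfl⟩
      exact ⟨i, by omega, rfl⟩
    · rintro ⟨i, hi, rfl⟩
      exact ⟨i, by omega, rfl⟩
  refine ⟨n + 1, by omega, fun i hi => hchain i (by omega), ?_⟩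
  have hsmem : s ∈ seg g h s (n + 1) := hmem.mpr ⟨0, Nat.zero_le _, hU0⟩
  by_cases hz : h (U n) = z
  · -- the first row becomes injective
    left
    refine bij_of_inj fun u v huv => ?_
    by_cases hu : u ∈ seg g h s (n + 1) <;> by_cases hv : v ∈ seg g h s (n + 1)
    · rw [ex_mem hu, ex_mem hv] at huv
      obtain ⟨i, hi, rfl⟩ := hmem.mp hu
      obtain ⟨j, hj, rfl⟩ := hmem.mp hv
      by_contra hne
      have key : ∀ a b, a < b → b ≤ n → h (U a) ≠ h (U b) := by
        intro a b hab hb heq
        rcases Nat.lt_or_ge b n with hbn | hbn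
        · have h1 : g (U (a + 1)) = g (U (b + 1)) := by
            rw [hchain a (by omega), hchain b hbn, heq]
          exact hdist (a + 1) (b + 1) (by omega) (by omega)
            (hg.uniq h1 (hgy (a + 1) (by omega) (by omega)))
        · have hbn' : b = n := by omega
          subst hbn'
          exact (hmin a hab).1 (heq.trans hz)
      rcases lt_trichotomy i j with h1 | h1 | h1
      · exact key i j h1 hj huv
      · exact hne (by rw [h1])
      · exact key j i h1 hi huv.symm
    · rw [ex_mem hu, ex_not_mem hv] at huv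
      obtain ⟨i, hi, rfl⟩ := hmem.mp hu
      exfalso
      rcases Nat.lt_or_ge i n with hin | hin
      · have h1 : g (U (i + 1)) = g v := by rw [hchain i hin, huv]
        have h2 := hg.uniq h1 (hgy (i + 1) (by omega) (by omega))
        exact hv (hmem.mpr ⟨i + 1, by omega, h2⟩)
      · have : i = n := by omega
        subst this
        exact hgz v (huv.symm.trans hz)
    · rw [ex_not_mem hu, ex_mem hv] at huv
      obtain ⟨i, hi, rfl⟩ := hmem.mp hv
      exfalso
      rcases Nat.lt_or_ge i n with hin | hin
      · have h1 : g (U (i + 1)) = g u := by rw [hchain i hin, ← huv]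
        have h2 := hg.uniq h1 (hgy (i + 1) (by omega) (by omega))
        exact hu (hmem.mpr ⟨i + 1, by omega, h2⟩)
      · have : i = n := by omega
        subst this
        exact hgz u (huv.trans hz)
    · rw [ex_not_mem hu, ex_not_mem hv] at huv
      by_cases hy : g u = y
      · by_contra hne
        exact not_three (hg.le_two y) hs hy (huv ▸ hy)
          (ne_of_mem_of_not_mem hsmem hu) (ne_of_mem_of_not_mem hsmem hv) hne
      · exact hg.uniq huv hy
  · -- the chain closes up: the second row becomes injective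
    right
    obtain ⟨i, hi, hUi⟩ := hn.resolve_left hz
    have hgn : g (U (n + 1)) = h (U n) := hstep n hz
    have hi1 : 1 ≤ i := by
      by_contra h0
      have : i = 0 := by omega
      subst this
      rw [hUi, hU0, hs] at hgn
      exact hmiss _ hgn.symm
    obtain ⟨c, rfl⟩ : ∃ c, i = c + 1 := ⟨i - 1, by omega⟩
    have hcn : c < n := by omega
    have hhc : h (U c) = h (U n) := by
      rw [← hchain c hcn, ← hUi, hgn]
    have hcne : U c ≠ U n := hdist c n hcn le_rfl
    have hk : h (U c) = k := by
      by_contra hne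
      exact hcne (hh.uniq hhc hne)
    have hk' : h (U n) = k := hhc ▸ hk
    have hcm : U c ∈ seg g h s (n + 1) := hmem.mpr ⟨c, by omega, rfl⟩
    have hnm : U n ∈ seg g h s (n + 1) := hmem.mpr ⟨n, le_rfl, rfl⟩
    have mixed : ∀ u v, u ∈ seg g h s (n + 1) → v ∉ seg g h s (n + 1) → g u ≠ h v := by
      intro u v hu hv huv
      obtain ⟨j, hj, rfl⟩ := hmem.mp hu
      rcases Nat.eq_zero_or_pos j with rfl | hj0
      · rw [hU0, hs] at huv
        exact hmiss _ huv.symm
      · obtain ⟨d, rfl⟩ : ∃ d, j = d + 1 := ⟨j - 1, by omega⟩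
        rw [hchain d (by omega)] at huv
        by_cases hkd : h (U d) = k
        · exact not_three (hh.le_two k) hk hk' (huv ▸ hkd) hcne
            (ne_of_mem_of_not_mem hcm hv) (ne_of_mem_of_not_mem hnm hv)
        · have := hh.uniq huv hkd
          exact hv (this ▸ hmem.mpr ⟨d, by omega, rfl⟩)
    refine bij_of_inj fun u v huv => ?_
    by_cases hu : u ∈ seg g h s (n + 1) <;> by_cases hv : v ∈ seg g h s (n + 1)
    · rw [ex_mem hu, ex_mem hv] at huv
      by_cases hy : g u = y
      · have aux : ∀ w, w ∈ seg g h s (n + 1) → g w = y → w = s := by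
          intro w hw hwy
          obtain ⟨j, hj, rfl⟩ := hmem.mp hw
          rcases Nat.eq_zero_or_pos j with rfl | hj0
          · rfl
          · exact absurd hwy (hgy j hj0 hj)
        rw [aux u hu hy, aux v hv (huv ▸ hy)]
      · exact hg.uniq huv hy
    · rw [ex_mem hu, ex_not_mem hv] at huv
      exact absurd huv (mixed u v hu hv)
    · rw [ex_not_mem hu, ex_mem hv] at huv
      exact absurd huv.symm (mixed v u hv hu)
    · rw [ex_not_mem hu, ex_not_mem hv] at huv
      by_cases hkd : h u = k
      · by_contra hne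
        exact not_three (hh.le_two k) hk hkd (huv ▸ hkd)
          (ne_of_mem_of_not_mem hcm hu) (ne_of_mem_of_not_mem hcm hv) hne
      · exact hh.uniq huv hkd

end Pool.Agent.Work.MP_697f4c_co
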