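import Pool.Agent.Work.MP_697f4c_co.Ideal

/-! # An explicit Markov basis of degree three with few applicable moves and short paths
(MP_697f4c_co) -/

namespace Pool.Agent.Work.MP_697f4c_co.ChainVariant

open Finset Function Equiv Pool.Agent.Work.MP_697f4c_co

/-- For every `p ≥ 1` the chain moves (the vectors of the quadratic and the cubic rule) form a
Markov basis for surveys on `p` candidates with fixed first-order summary; every chain move has
degree at most three; the binomials of the chain moves generate the toric ideal over every field;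
a survey with `N` voters has at most `2 p ^ 2 N ^ 3 + p N ^ 2` rule steps, each of them a chain
move; and two surveys with `N` voters and the same summary are joined by at most
`(N - 1) (p - 1)` rule steps. -/
theorem chain_markov (p : ℕ) (hp : 1 ≤ p) :
    IsMarkovBasis (chainMoves (Fin p)) ∧
    (∀ g ∈ chainMoves (Fin p), ∑ σ : Perm (Fin p), |g σ| ≤ 6) ∧
    (∀ (k : Type) [Field k],
      Ideal.span {b | ∃ g ∈ chainMoves (Fin p), b = binomial k g}
        = RingHom.ker (toricMap (Fin p) k)) ∧
    (∀ f : Perm (Fin p) → ℕ,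
      {f' | Step f f'}.Finite ∧
      {f' | Step f f'}.ncard ≤ 2 * p ^ 2 * voters f ^ 3 + p * voters f ^ 2 ∧
      (∀ f', Step f f' → (fun σ => (f' σ : ℤ) - f σ) ∈ chainMoves (Fin p)) ∧
      ∀ f', (∀ i j, summ f i j = summ f' i j) →
        ∃ j ≤ (voters f - 1) * (p - 1), ∃ F : ℕ → Perm (Fin p) → ℕ,
          F 0 = f ∧ F j = f' ∧ ∀ t < j, Step (F t) (F (t + 1))) := by
  have : Nonempty (Fin p) := ⟨⟨0, hp⟩⟩
  have hpath : ∀ f f' : Perm (Fin p) → ℕ, (∀ i j, summ f i j = summ f' i j) →
      ∃ j ≤ (voters f - 1) * (p - 1), ∃ F : ℕ → Perm (Fin p) → ℕ,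
        F 0 = f ∧ F j = f' ∧ ∀ t < j, Step (F t) (F (t + 1)) := by
    intro f f' h
    have h1 := connect (voters f) f f' rfl h
    rw [Fintype.card_fin] at h1
    exact h1.path
  have hM : IsMarkovBasis (chainMoves (Fin p)) := by
    refine ⟨chainMoves_finite, fun g hg i j => chain_summ hg i j, ?_⟩
    intro f f' h
    obtain ⟨j, _, F, h0, hj, hst⟩ := hpath f f' h
    exact ⟨j, F, h0, hj, fun t ht => Or.inl (hst t ht).diff⟩
  refine ⟨hM, fun g hg => degree_le hg, fun k _ => span_eq_ker k hM, ?_⟩
  intro f
  have h1 := succ_card f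
  rw [Fintype.card_fin] at h1
  exact ⟨h1.1, h1.2, fun f' h => h.diff, hpath f⟩

end Pool.Agent.Work.MP_697f4c_co.ChainVariant
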