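import Mathlib

/-!
Transitive permutation groups which contain the cycles of their elements (Cameron's cycle-closed
groups): such a group is the full symmetric group, or it is regular of prime degree.
-/

namespace Cyc

open Equiv Equiv.Perm Finset

variable {α : Type*} [Fintype α] [DecidableEq α]

/-- Every cycle of every element belongs to the group. -/
def CC (H : Subgroup (Perm α)) : Prop := ∀ g ∈ H, ∀ x, g.cycleOf x ∈ H

/-- A cycle-closed transitive group has no nontrivial blocks. -/
theorem block {H : Subgroup (Perm α)} (hcc : CC H) (htr : ∀ x y, ∃ h ∈ H, h x = y) {B : Set α}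
    (hB : ∀ h ∈ H, ∀ x ∈ B, h x ∈ B → ∀ y ∈ B, h y ∈ B) {a b : α} (ha : a ∈ B) (hb : b ∈ B)
    (hab : a ≠ b) : ∀ c, c ∈ B := by
  classical
  by_contra hc
  push Not at hc
  obtain ⟨c, hc⟩ := hc
  obtain ⟨d, hdH, hda⟩ := htr a c
  have hdaB : d a ∉ B := by rw [hda]; exact hc
  have hout : ∀ j : ℕ, (d ^ j) a ∉ B → ∀ y ∈ B, (d ^ j) y ∉ B := by
    intro j hj y hy hy2
    exact hj (hB _ (H.pow_mem hdH j) y hy hy2 a ha)
  -- return time
  have hex : ∃ k : ℕ, 1 ≤ k ∧ (d ^ k) a ∈ B :=
    ⟨orderOf d, orderOf_pos d, by rw [pow_orderOf_eq_one]; exact ha⟩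
  set k := Nat.find hex with hk
  obtain ⟨hk1, hkB⟩ := Nat.find_spec hex
  have hmin : ∀ j, 1 ≤ j → j < k → ∀ y ∈ B, (d ^ j) y ∉ B := by
    intro j h1 h2 y hy
    exact hout j (fun h => Nat.find_min hex h2 ⟨h1, h⟩) y hy
  have hk2 : 2 ≤ k := by
    rcases Nat.lt_or_ge 1 k with h | h
    · exact h
    · exfalso
      have h1 : k = 1 := le_antisymm h hk1
      rw [← hk, h1, pow_one] at hkB
      exact hdaB hkB
  have hkin : ∀ y ∈ B, (d ^ k) y ∈ B := fun y hy => hB _ (H.pow_mem hdH k) a ha hkB y hy
  set e := (d ^ k).cycleOf a with he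
  have heH : e ∈ H := hcc _ (H.pow_mem hdH k) a
  have hpowB : ∀ m : ℕ, ((d ^ k) ^ m) a ∈ B := by
    intro m
    induction m with
    | zero => simpa using ha
    | succ m ih => rw [pow_succ', Perm.mul_apply]; exact hkin _ ih
  have heB : ∀ x, x ∉ B → e x = x := by
    intro x hx
    apply cycleOf_apply_of_not_sameCycle
    intro h
    obtain ⟨m, hm⟩ := h.exists_nat_pow_eq
    rw [← hm] at hx
    exact hx (hpowB m)
  have heB' : ∀ x, x ∉ B → e⁻¹ x = x := by
    intro x hx
    rw [Perm.inv_eq_iff_eq, heB x hx]
  -- the point `a'` with `d ^ k a' = a`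
  obtain ⟨a', ha'⟩ : ∃ a', e⁻¹ a = a' := ⟨_, rfl⟩
  have hsame : SameCycle (d ^ k) a a' := by
    by_contra hns
    have h1 : e a' = a' := cycleOf_apply_of_not_sameCycle hns
    have h2 : e a' = a := by rw [← ha']; exact e.apply_symm_apply a
    rw [h1] at h2
    rw [h2] at hns
    exact hns (SameCycle.refl _ _)
  have ha'k : (d ^ k) a' = a := by
    have h2 : e a' = a := by rw [← ha']; exact e.apply_symm_apply a
    rwa [he, hsame.cycleOf_apply] at h2
  have ha'B : a' ∈ B := by
    obtain ⟨m, hm⟩ := hsame.exists_nat_pow_eq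
    rw [← hm]; exact hpowB m
  set f := d * e⁻¹ with hf
  have hfH : f ∈ H := H.mul_mem hdH (H.inv_mem heH)
  have hfa : f a = d a' := by rw [hf, Perm.mul_apply, ha']
  have horb : ∀ m : ℕ, ∃ j, j < k ∧ (f ^ m) a = if j = 0 then a else (d ^ j) a' := by
    intro m
    induction m with
    | zero => exact ⟨0, by omega, by simp⟩
    | succ m ih =>
      obtain ⟨j, hj, hj2⟩ := ih
      rw [pow_succ', Perm.mul_apply, hj2]
      by_cases h0 : j = 0
      · rw [if_pos h0, hfa]
        exact ⟨1, by omega, by simp⟩
      · rw [if_neg h0]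
        have h1 : f ((d ^ j) a') = (d ^ (j + 1)) a' := by
          rw [hf, Perm.mul_apply, heB' _ (hmin j (by omega) hj a' ha'B), pow_succ',
            Perm.mul_apply]
        rw [h1]
        by_cases h2 : j + 1 < k
        · exact ⟨j + 1, h2, by simp⟩
        · have h3 : j + 1 = k := by omega
          exact ⟨0, by omega, by rw [h3, ha'k]; simp⟩
  have hnb : ¬ SameCycle f a b := by
    intro h
    obtain ⟨m, hm⟩ := h.exists_nat_pow_eq
    obtain ⟨j, hj, hj2⟩ := horb m
    rw [hm] at hj2
    by_cases h0 : j = 0
    · rw [if_pos h0] at hj2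
      exact hab hj2.symm
    · rw [if_neg h0] at hj2
      exact hmin j (by omega) hj a' ha'B (hj2 ▸ hb)
  have hg := hcc f hfH a
  have hgb : f.cycleOf a b = b := cycleOf_apply_of_not_sameCycle hnb
  have hga : f.cycleOf a a = d a' := by rw [cycleOf_apply_self, hfa]
  have h1 := hB _ hg b hb (by rw [hgb]; exact hb) a ha
  rw [hga] at h1
  have h2 := hmin 1 le_rfl (by omega) a' ha'B
  rw [pow_one] at h2
  exact h2 h1

/-- If a cycle-closed transitive group contains a transposition, it is the symmetric group. -/
theorem of_swap {H : Subgroup (Perm α)} (hcc : CC H) (htr : ∀ x y, ∃ h ∈ H, h x = y) {a b : α}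
    (hab : a ≠ b) (hs : swap a b ∈ H) : H = ⊤ := by
  have trans : ∀ u v w : α, swap u v ∈ H → swap v w ∈ H → swap u w ∈ H := by
    intro u v w h1 h2
    by_cases huw : u = w
    · rw [huw, swap_self]; exact H.one_mem
    by_cases huv : u = v
    · rw [huv]; exact h2
    by_cases hvw : v = w
    · rw [← hvw]; exact h1
    have h3 : swap v w * swap u v * (swap v w)⁻¹ = swap u w := by
      rw [← Equiv.swap_apply_apply, swap_apply_left, swap_apply_of_ne_of_ne huv huw]
    rw [← h3]
    exact H.mul_mem (H.mul_mem h2 h1) (H.inv_mem h2)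
  have symm : ∀ u v : α, swap u v ∈ H → swap v u ∈ H := by
    intro u v h; rwa [swap_comm]
  have all : ∀ c, c ∈ {x | swap a x ∈ H} := by
    refine block hcc htr (B := {x | swap a x ∈ H}) ?_ (a := a) (b := b) ?_ hs hab
    · intro h hh x hx hhx y hy
      have h1 : swap x y ∈ H := trans _ _ _ (symm _ _ hx) hy
      have h2 : swap (h x) (h y) ∈ H := by
        rw [Equiv.swap_apply_apply]
        exact H.mul_mem (H.mul_mem hh h1) (H.inv_mem hh)
      exact trans _ _ _ hhx h2
    · show swap a a ∈ H
      rw [swap_self]; exact H.one_mem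
  rw [eq_top_iff, ← Equiv.Perm.closure_isSwap, Subgroup.closure_le]
  rintro σ ⟨x, y, -, rfl⟩
  exact trans _ _ _ (symm _ _ (all x)) (all y)

/-- A proper power of a cycle of minimal length is again a cycle with the same support. -/
theorem pow_trans {H : Subgroup (Perm α)} (hcc : CC H) {L : ℕ}
    (hL : ∀ c ∈ H, IsCycle c → L ≤ #c.support) {c : Perm α} (hc : c ∈ H) (hcL : #c.support = L)
    {j : ℕ} (hj : c ^ j ≠ 1) : ∀ x ∈ c.support, ∀ y ∈ c.support, SameCycle (c ^ j) x y := by
  obtain ⟨x₀, hx₀⟩ : ∃ x, (c ^ j) x ≠ x := by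
    by_contra h
    push Not at h
    exact hj (Equiv.ext h)
  have h1 : IsCycle ((c ^ j).cycleOf x₀) := isCycle_cycleOf _ hx₀
  have h2 : ((c ^ j).cycleOf x₀).support ⊆ c.support := by
    intro y hy
    rw [mem_support_cycleOf_iff] at hy
    have h3 : SameCycle c x₀ y := hy.1.of_pow
    have h4 : x₀ ∈ c.support := by
      rw [mem_support]
      intro h
      apply hx₀
      have : ∀ m : ℕ, (c ^ m) x₀ = x₀ := by
        intro m
        induction m with
        | zero => simp
        | succ m ih => rw [pow_succ', Perm.mul_apply, ih, h]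
      exact this j
    exact (h3.mem_support_iff).1 h4
  have h3 : ((c ^ j).cycleOf x₀).support = c.support := by
    apply eq_of_subset_of_card_le h2
    rw [hcL]
    exact hL _ (hcc _ (H.pow_mem hc j) x₀) h1
  intro x hx y hy
  rw [← h3, mem_support_cycleOf_iff] at hx hy
  exact hx.1.symm.trans hy.1

/-- Two cycles of minimal length `≥ 3` with intersecting supports have equal supports. -/
theorem supports {H : Subgroup (Perm α)} (hcc : CC H) {L : ℕ} (hL3 : 3 ≤ L)
    (hL : ∀ c ∈ H, IsCycle c → L ≤ #c.support) :
    ∀ n : ℕ, ∀ c ∈ H, ∀ d ∈ H, IsCycle c → IsCycle d → #c.support = L → #d.support = L →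
      #(d.support \ c.support) = n → ¬ Disjoint c.support d.support → c.support = d.support := by
  intro n
  induction n using Nat.strong_induction_on with
  | _ n ih =>
  intro c hc d hd hcc' hdc hcL hdL hn hdis
  by_contra hne
  have hcardeq : #(c.support \ d.support) = #(d.support \ c.support) := by
    have h1 := card_sdiff_add_card_inter c.support d.support
    have h2 := card_sdiff_add_card_inter d.support c.support
    rw [inter_comm d.support] at h2
    omega
  have hn1 : 1 ≤ n := by
    rw [← hn, Nat.one_le_iff_ne_zero, Ne, card_eq_zero, sdiff_eq_empty_iff_subset]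
    intro h
    exact hne (eq_of_subset_of_card_le h (by rw [hcL, hdL])).symm
  rcases Nat.lt_or_ge 1 n with hn2 | hn2
  · -- a closer pair
    rw [← hn] at hn2
    obtain ⟨u, hu, v, hv, huv⟩ := one_lt_card.1 hn2
    rw [mem_sdiff] at hu hv
    obtain ⟨j, hj⟩ := hdc.exists_pow_eq (mem_support.1 hu.1) (mem_support.1 hv.1)
    have hj1 : d ^ j ≠ 1 := by
      intro h
      rw [h] at hj
      exact huv hj
    set e := d ^ j * c * (d ^ j)⁻¹ with he
    have heH : e ∈ H := H.mul_mem (H.mul_mem (H.pow_mem hd j) hc) (H.inv_mem (H.pow_mem hd j))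
    have hec : IsCycle e := hcc'.conj
    have hes : ∀ x, x ∈ e.support ↔ ((d ^ j)⁻¹ x) ∈ c.support := by
      intro x
      rw [mem_support, mem_support, he]
      simp only [Perm.mul_apply]
      constructor
      · intro h h2
        apply h
        rw [h2]
        exact (d ^ j).apply_symm_apply x
      · intro h h2
        apply h
        rw [Perm.eq_inv_iff_eq]
        exact h2
    have heL : #e.support = L := by
      rw [he, card_support_conj]; exact hcL
    have hsub : e.support \ c.support ⊆ (d.support \ c.support).erase v := by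
      intro x hx
      rw [mem_sdiff, hes] at hx
      rw [mem_erase, mem_sdiff]
      refine ⟨?_, ?_, hx.2⟩
      · rintro rfl
        have h1 : (d ^ j)⁻¹ x = u := by rw [Perm.inv_eq_iff_eq]; exact hj.symm
        rw [h1] at hx
        exact hu.2 hx.1
      · by_contra h
        rw [notMem_support] at h
        have h1 : ∀ m : ℕ, (d ^ m) x = x := by
          intro m
          induction m with
          | zero => simp
          | succ m ih => rw [pow_succ', Perm.mul_apply, ih, h]
        have h2 : (d ^ j)⁻¹ x = x := by rw [Perm.inv_eq_iff_eq]; exact (h1 j).symm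
        rw [h2] at hx
        exact hx.2 hx.1
    have hlt : #(e.support \ c.support) < n := by
      refine lt_of_le_of_lt (card_le_card hsub) ?_
      rw [← hn]
      exact card_erase_lt_of_mem (mem_sdiff.2 hv)
    have hnotdis : ¬ Disjoint c.support e.support := by
      intro h
      have h1 : e.support \ c.support = e.support := sdiff_eq_self_of_disjoint h.symm
      rw [h1, heL] at hlt
      have h2 := card_le_card (sdiff_subset (s := d.support) (t := c.support))
      omega
    have heq := ih _ hlt c hc e heH hcc' hec hcL heL rfl hnotdis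
    -- the intersection is invariant
    obtain ⟨y, hyc, hyd⟩ := not_disjoint_iff.1 hdis
    have hinv : ∀ m : ℕ, ((d ^ j) ^ m) y ∈ c.support ∧ ((d ^ j) ^ m) y ∈ d.support := by
      intro m
      induction m with
      | zero => simpa using ⟨mem_support.1 hyc, mem_support.1 hyd⟩
      | succ m ih =>
        rw [pow_succ', Perm.mul_apply]
        constructor
        · have h5 : (d ^ j)⁻¹ ((d ^ j) (((d ^ j) ^ m) y)) = ((d ^ j) ^ m) y :=
            (d ^ j).symm_apply_apply _
          rw [heq, hes, h5]; exact ih.1
        · exact pow_apply_mem_support.2 ih.2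
    apply hu.2
    obtain ⟨m, hm⟩ := (pow_trans hcc hL hd hdL hj1 y hyd u hu.1).exists_nat_pow_eq
    rw [← hm]
    exact (hinv m).1
  · -- difference one
    have hn' : n = 1 := le_antisymm hn2 hn1
    obtain ⟨β, hβ⟩ := card_eq_one.1 (hn.trans hn')
    obtain ⟨a, ha⟩ := card_eq_one.1 (hcardeq.trans (hn.trans hn'))
    have hβ1 : β ∈ d.support ∧ β ∉ c.support := by
      rw [← mem_sdiff, hβ]; exact mem_singleton_self β
    have ha1 : a ∈ c.support ∧ a ∉ d.support := by
      rw [← mem_sdiff, ha]; exact mem_singleton_self a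
    have hcd : ∀ x, x ∈ c.support → x ≠ a → x ∈ d.support := by
      intro x hx hxa
      by_contra h
      have : x ∈ c.support \ d.support := mem_sdiff.2 ⟨hx, h⟩
      rw [ha, mem_singleton] at this
      exact hxa this
    obtain ⟨γ, hγc, hγa⟩ : ∃ γ ∈ c.support, γ ≠ a := by
      have : 1 < #c.support := by omega
      exact exists_mem_ne this a
    have hγd := hcd γ hγc hγa
    have hfix : ∀ m : ℕ, (d ^ m) a = a := by
      intro m
      induction m with
      | zero => simp
      | succ m ih => rw [pow_succ', Perm.mul_apply, ih]; exact notMem_support.1 ha1.2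
    obtain ⟨i, hi⟩ := hdc.exists_pow_eq (mem_support.1 hβ1.1) (mem_support.1 hγd)
    obtain ⟨j, hj⟩ := hcc'.exists_pow_eq (mem_support.1 hγc) (mem_support.1 ha1.1)
    have hγ' : (c ^ j) a ∈ c.support := pow_apply_mem_support.2 ha1.1
    have hγ'a : (c ^ j) a ≠ a := by
      intro h
      exact hγa ((c ^ j).injective (hj.trans h.symm))
    obtain ⟨k, hk⟩ := hdc.exists_pow_eq (mem_support.1 (hcd _ hγ' hγ'a)) (mem_support.1 hβ1.1)
    set g := d ^ k * (c ^ j * d ^ i) with hg
    have hgH : g ∈ H := H.mul_mem (H.pow_mem hd k) (H.mul_mem (H.pow_mem hc j) (H.pow_mem hd i))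
    have hgβ : g β = a := by
      rw [hg, Perm.mul_apply, Perm.mul_apply, hi, hj, hfix]
    have hga : g a = β := by
      rw [hg, Perm.mul_apply, Perm.mul_apply, hfix, hk]
    have hne2 : g a ≠ a := by
      rw [hga]
      rintro rfl
      exact ha1.2 hβ1.1
    have horb : ∀ m : ℕ, (g ^ m) a = a ∨ (g ^ m) a = β := by
      intro m
      induction m with
      | zero => left; simp
      | succ m ih =>
        rw [pow_succ', Perm.mul_apply]
        rcases ih with h | h
        · right; rw [h, hga]
        · left; rw [h, hgβ]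
    have h1 := hL _ (hcc g hgH a) (isCycle_cycleOf g hne2)
    have h2 : (g.cycleOf a).support ⊆ {a, β} := by
      intro y hy
      rw [mem_support_cycleOf_iff] at hy
      obtain ⟨m, hm⟩ := hy.1.exists_nat_pow_eq
      rw [mem_insert, mem_singleton, ← hm]
      exact horb m
    have h3 := (card_le_card h2).trans (card_le_two)
    omega

/-- **Cameron's theorem**, transitive case: a transitive permutation group which contains the
cycles of its elements is the symmetric group or regular of prime degree. -/
theorem main {H : Subgroup (Perm α)} (hcc : CC H) (htr : ∀ x y, ∃ h ∈ H, h x = y)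
    (hα : 2 ≤ Fintype.card α) :
    H = ⊤ ∨ ((Fintype.card α).Prime ∧ Nat.card H = Fintype.card α) := by
  classical
  have hex : ∃ L : ℕ, ∃ c ∈ H, IsCycle c ∧ #c.support = L := by
    obtain ⟨x, y, hxy⟩ := Fintype.one_lt_card_iff.1 (by omega : 1 < Fintype.card α)
    obtain ⟨h, hh, hxy2⟩ := htr x y
    exact ⟨_, h.cycleOf x, hcc h hh x, isCycle_cycleOf h (by rw [hxy2]; exact hxy.symm), rfl⟩
  obtain ⟨c, hc, hcyc, hcL⟩ := Nat.find_spec hex
  set L := Nat.find hex with hLdef
  have hL : ∀ d ∈ H, IsCycle d → L ≤ #d.support := fun d hd hd2 =>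
    Nat.find_min' hex ⟨d, hd, hd2, rfl⟩
  have hL2 : 2 ≤ L := by rw [← hcL]; exact hcyc.two_le_card_support
  rcases Nat.lt_or_ge 2 L with hL3 | hL2'
  · right
    -- the support of `c` is everything
    have hall : ∀ x, x ∈ (c.support : Set α) := by
      obtain ⟨a, ha, b, hb, hab⟩ := one_lt_card.1 (by omega : 1 < #c.support)
      refine block hcc htr (B := (c.support : Set α)) ?_ (mem_coe.2 ha) (mem_coe.2 hb) hab
      intro h hh x hx hhx y hy
      rw [mem_coe] at hx hhx hy ⊢
      have hdH : h * c * h⁻¹ ∈ H := H.mul_mem (H.mul_mem hh hc) (H.inv_mem hh)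
      have hs : ∀ z, z ∈ c.support → h z ∈ (h * c * h⁻¹).support := by
        intro z hz
        rw [mem_support] at hz ⊢
        have h3 : h⁻¹ (h z) = z := h.symm_apply_apply z
        simp only [Perm.mul_apply, h3]
        intro h2
        exact hz (h.injective h2)
      have heq := supports hcc hL3 hL _ c hc _ hdH hcyc hcyc.conj hcL
        (by rw [card_support_conj]; exact hcL) rfl
        (not_disjoint_iff.2 ⟨h x, hhx, hs x hx⟩)
      rw [heq]
      exact hs y hy
    have hsupp : c.support = univ := by
      ext x; simpa using hall x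
    have hcard : L = Fintype.card α := by rw [← hcL, hsupp, card_univ]
    have hord : orderOf c = L := by rw [hcyc.orderOf, hcL]
    have hz : H = Subgroup.zpowers c := by
      apply le_antisymm
      · intro h hh
        obtain ⟨x₀⟩ : Nonempty α := Fintype.card_pos_iff.1 (by omega)
        obtain ⟨j, hj⟩ := hcyc.exists_pow_eq (mem_support.1 (mem_coe.1 (hall (h x₀))))
          (mem_support.1 (mem_coe.1 (hall x₀)))
        have hu : c ^ j * h = 1 := by
          by_contra hne
          obtain ⟨y, hy⟩ : ∃ y, (c ^ j * h) y ≠ y := by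
            by_contra h2
            push Not at h2
            exact hne (Equiv.ext h2)
          have h1 := hL _ (hcc _ (H.mul_mem (H.pow_mem hc j) hh) y) (isCycle_cycleOf _ hy)
          have h2 : x₀ ∉ ((c ^ j * h).cycleOf y).support := by
            intro h3
            rw [mem_support_cycleOf_iff] at h3
            have h4 := (h3.1.mem_support_iff).1 h3.2
            rw [mem_support, Perm.mul_apply, hj] at h4
            exact h4 rfl
          have h3 : #((c ^ j * h).cycleOf y).support < Fintype.card α := by
            rw [← card_univ]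
            apply card_lt_card
            rw [ssubset_univ_iff]
            intro h4
            rw [h4] at h2
            exact h2 (mem_univ _)
          omega
        have h5 : h = (c ^ j)⁻¹ := (inv_eq_of_mul_eq_one_right hu).symm
        rw [h5]
        exact Subgroup.inv_mem _ (Subgroup.pow_mem _ (Subgroup.mem_zpowers c) j)
      · rw [Subgroup.zpowers_le]; exact hc
    refine ⟨?_, ?_⟩
    · rw [← hcard, Nat.prime_def]
      refine ⟨hL2, fun m hm => ?_⟩
      by_contra hne
      push Not at hne
      obtain ⟨k, hk⟩ := hm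
      have hm0 : 0 < m := Nat.pos_of_ne_zero (by rintro rfl; omega)
      have hk0 : 0 < k := Nat.pos_of_ne_zero (by rintro rfl; omega)
      have hm2 : 2 ≤ m := by have := hne.1; omega
      have hmL : m < L := lt_of_le_of_ne (Nat.le_of_dvd (by omega) ⟨k, hk⟩) hne.2
      have hpow : c ^ m ≠ 1 := by
        intro h
        have := Nat.le_of_dvd hm0 (orderOf_dvd_of_pow_eq_one h)
        omega
      obtain ⟨y, hy⟩ : ∃ y, (c ^ m) y ≠ y := by
        by_contra h2
        push Not at h2
        exact hpow (Equiv.ext h2)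
      have h1 := hL _ (hcc _ (H.pow_mem hc m) y) (isCycle_cycleOf _ hy)
      rw [← (isCycle_cycleOf (c ^ m) hy).orderOf] at h1
      have h2 : orderOf ((c ^ m).cycleOf y) ∣ orderOf (c ^ m) := orderOf_cycleOf_dvd_orderOf _ _
      have h3 : orderOf (c ^ m) ∣ k := by
        apply orderOf_dvd_of_pow_eq_one
        rw [← pow_mul, ← hk, ← hord, pow_orderOf_eq_one]
      have h4 := Nat.le_of_dvd hk0 (h2.trans h3)
      have h5 : L ≤ k := h1.trans h4
      nlinarith
    · rw [hz, Nat.card_zpowers, hord, hcard]
  · left
    have hL' : #c.support = 2 := by omega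
    obtain ⟨a, b, hab, rfl⟩ := card_support_eq_two.1 hL'
    exact of_swap hcc htr hab hc

end Cyc
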