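import Pool.Agent.Work.MP_697f4c_co.Shift
import Pool.Agent.Work.MP_697f4c_co.Cyc

/-!
MP_697f4c_co, work file: the rankings which quadratic moves can produce from the rankings of a
set.
-/

open Equiv Equiv.Perm Finset Relation

namespace Birk

section clos

variable {α : Type*} [DecidableEq α]

/-- `σ` occurs in a survey which quadratic moves reach from a survey of members of `S` -/
def Ob (S : Set (Perm α)) (σ : Perm α) : Prop :=
  ∃ U V : Multiset (Perm α), (∀ τ ∈ U, τ ∈ S) ∧ ReflTransGen AMv U V ∧ σ ∈ V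

theorem Ob.of_mem {S : Set (Perm α)} {σ : Perm α} (h : σ ∈ S) : Ob S σ :=
  ⟨{σ}, {σ}, by simpa using h, ReflTransGen.refl, by simp⟩

theorem Ob.move {S : Set (Perm α)} {a b a' b' : Perm α} (ha : Ob S a) (hb : Ob S b)
    (hd : ∀ x y, pm a x y + pm b x y = pm a' x y + pm b' x y) : Ob S a' := by
  obtain ⟨U1, V1, h1, h2, h3⟩ := ha
  obtain ⟨U2, V2, k1, k2, k3⟩ := hb
  obtain ⟨W1, rfl⟩ := Multiset.exists_cons_of_mem h3
  obtain ⟨W2, rfl⟩ := Multiset.exists_cons_of_mem k3
  refine ⟨U1 + U2, (W1 + W2) + ({a'} + {b'}), ?_, ?_, by simp⟩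
  · intro τ hτ
    rcases Multiset.mem_add.1 hτ with h | h
    · exact h1 τ h
    · exact k1 τ h
  · have e1 : ReflTransGen AMv (U1 + U2) ((a ::ₘ W1) + U2) := rt_add am_good h2 U2
    have e2 : ReflTransGen AMv (U2 + (a ::ₘ W1)) ((b ::ₘ W2) + (a ::ₘ W1)) :=
      rt_add am_good k2 _
    rw [add_comm U2, add_comm (b ::ₘ W2)] at e2
    refine (e1.trans e2).tail ⟨W1 + W2, a, b, a', b', hd, ?_, rfl⟩
    rw [← Multiset.singleton_add, ← Multiset.singleton_add]
    abel

/-- induction on the closure -/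
theorem Ob.ind {S : Set (Perm α)} {P : Perm α → Prop} (h0 : ∀ σ ∈ S, P σ)
    (h1 : ∀ a b a' b', P a → P b → (∀ x y, pm a x y + pm b x y = pm a' x y + pm b' x y) → P a')
    {σ : Perm α} (h : Ob S σ) : P σ := by
  obtain ⟨U, V, hU, hr, hσ⟩ := h
  have key : ∀ τ ∈ V, P τ := by
    induction hr generalizing σ with
    | refl => exact fun τ hτ => h0 τ (hU τ hτ)
    | @tail V' V'' _ h2 ih =>
      have ih' : ∀ τ ∈ V', P τ := by
        intro τ hτ
        exact ih hτ τ hτ
      obtain ⟨W, a, b, a', b', hd, rfl, rfl⟩ := h2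
      intro τ hτ
      rcases Multiset.mem_add.1 hτ with h | h
      · exact ih' τ (Multiset.mem_add.2 (Or.inl h))
      · have pa := ih' a (by simp)
        have pb := ih' b (by simp)
        rcases Multiset.mem_add.1 h with h3 | h3
        · rw [Multiset.mem_singleton.1 h3]
          exact h1 a b a' b' pa pb hd
        · rw [Multiset.mem_singleton.1 h3]
          exact h1 a b b' a' pa pb fun x y => by rw [hd x y, add_comm]
  exact key σ hσ

theorem rt_nsmul {U V : Multiset (Perm α)} (h : ReflTransGen AMv U V) (n : ℕ) :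
    ReflTransGen AMv (n • U) (n • V) := by
  induction n with
  | zero => rw [zero_nsmul, zero_nsmul]
  | succ n ih =>
    rw [succ_nsmul, succ_nsmul]
    have e1 := rt_add am_good ih U
    have e2 := rt_add am_good h (n • V)
    rw [add_comm U, add_comm V] at e2
    exact e1.trans e2

theorem rt_sum {ι : Type*} [DecidableEq ι] (s : Finset ι) (f g : ι → Multiset (Perm α))
    (h : ∀ i ∈ s, ReflTransGen AMv (f i) (g i)) :
    ReflTransGen AMv (∑ i ∈ s, f i) (∑ i ∈ s, g i) := by
  induction s using Finset.induction_on with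
  | empty => exact ReflTransGen.refl
  | insert a s ha ih =>
    rw [sum_insert ha, sum_insert ha]
    have e1 := rt_add am_good (h a (mem_insert_self a s)) (∑ i ∈ s, f i)
    have e2 := rt_add am_good (ih fun i hi => h i (mem_insert_of_mem hi)) (g a)
    rw [add_comm _ (g a), add_comm _ (g a)] at e2
    exact e1.trans e2

end clos

variable {α : Type*} [DecidableEq α] [Fintype α]

theorem le_nsmul_of {S : Finset (Perm α)} {U : Multiset (Perm α)} (h : ∀ τ ∈ U, τ ∈ S) :
    U ≤ (Multiset.card U) • S.val := by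
  rw [Multiset.le_iff_count]
  intro τ
  rw [Multiset.count_nsmul]
  by_cases hτ : τ ∈ U
  · rw [Multiset.count_eq_one_of_mem S.nodup (h τ hτ), mul_one]
    exact Multiset.count_le_card τ U
  · rw [Multiset.count_eq_zero_of_notMem hτ]
    exact Nat.zero_le _

theorem Ob.supply {S : Finset (Perm α)} (h : ∀ σ, Ob (S : Set (Perm α)) σ) (M : ℕ) :
    ∃ (N : ℕ) (V : Multiset (Perm α)), ReflTransGen AMv (N • S.val) V ∧
      ∀ σ, M ≤ Multiset.count σ V := by
  choose U V h1 h2 h3 using h
  have e1 := rt_nsmul (rt_sum univ U V fun i _ => h2 i) M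
  have e2 : ∀ τ ∈ M • ∑ i, U i, τ ∈ S := by
    intro τ hτ
    have h4 := Multiset.mem_of_mem_nsmul hτ
    rw [Multiset.mem_sum] at h4
    obtain ⟨i, -, hi⟩ := h4
    exact h1 i τ hi
  obtain ⟨X, hX⟩ := Multiset.le_iff_exists_add.1 (le_nsmul_of e2)
  refine ⟨_, M • (∑ i, V i) + X, by rw [hX]; exact rt_add am_good e1 X, fun σ => ?_⟩
  have h5 : V σ ≤ ∑ i, V i :=
    single_le_sum (f := V) (fun _ _ => Multiset.zero_le _) (mem_univ σ)
  have h6 := Multiset.count_le_of_le σ h5
  have h7 := Multiset.one_le_count_iff_mem.2 (h3 σ)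
  rw [Multiset.count_add, Multiset.count_nsmul]
  have h8 : 1 ≤ Multiset.count σ (∑ i, V i) := h7.trans h6
  calc M = M * 1 := (mul_one M).symm
    _ ≤ M * Multiset.count σ (∑ i, V i) := Nat.mul_le_mul_left M h8
    _ ≤ _ := Nat.le_add_right _ _

theorem rich_of_count {M : ℕ} {V : Multiset (Perm α)} (h : ∀ σ, M ≤ Multiset.count σ V) :
    Rich M V := by
  intro i j k l hij hkl
  have h1 : Multiset.replicate M (rep i j k l) ≤ V :=
    Multiset.le_count_iff_replicate_le.1 (h _)
  have h2 := Multiset.card_le_card (Multiset.filter_le_filter (fun σ => σ i = k ∧ σ j = l) h1)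
  refine le_trans ?_ h2
  rw [Multiset.filter_eq_self.2, Multiset.card_replicate]
  intro a ha
  rw [Multiset.eq_of_mem_replicate ha]
  exact rep_spec hij hkl

/-- copies of a generating set are a catalyst -/
theorem Ob.catalyst (hα : 4 ≤ Fintype.card α) {S : Finset (Perm α)}
    (h : ∀ σ, Ob (S : Set (Perm α)) σ) : ∃ N : ℕ, ∀ (ρ0 : Perm α) {x y z : α},
      x ≠ y → y ≠ z → x ≠ z → ∀ {U V : Multiset (Perm α)}, Multiset.card U = Multiset.card V →
      (∀ i j, tot U i j = tot V i j) →
      ReflTransGen AMv (U + N • S.val) (V + N • S.val) ∨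
      ∃ w, ReflTransGen AMv (U + N • S.val) (w + (s1 ρ0 x y z).val) ∧
        ReflTransGen AMv (w + (s2 ρ0 x y z).val) (V + N • S.val) := by
  obtain ⟨N, W, hW, hc⟩ := Ob.supply h ((Fintype.card α + 1) * (96 * Fintype.card α + 94))
  refine ⟨N, fun ρ0 x y z hxy hyz hxz U V hcard htot => ?_⟩
  have a1 : ∀ X : Multiset (Perm α), ReflTransGen AMv (X + N • S.val) (X + W) := by
    intro X
    have := rt_add am_good hW X
    rwa [add_comm _ X, add_comm _ X] at this
  rcases rich_add hα ρ0 hxy hyz hxz hcard htot (rich_of_count hc) with k | ⟨w, k1, k2⟩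
  · left
    exact ((a1 U).trans k).trans (rt_symm am_good (a1 V))
  · right
    exact ⟨w, (a1 U).trans k1, k2.trans (rt_symm am_good (a1 V))⟩

/-- decomposition of a matrix with equal line sums -/
theorem konigN : ∀ (n : ℕ) (M : α → α → ℤ), (∀ x y, 0 ≤ M x y) → (∀ x, ∑ y, M x y = n) →
    (∀ y, ∑ x, M x y = n) → ∃ B : Multiset (Perm α), Multiset.card B = n ∧
      ∀ x y, tot B x y = M x y := by
  intro n
  induction n with
  | zero =>
    intro M h0 hr _
    refine ⟨0, rfl, fun x y => ?_⟩
    have h1 := hr x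
    rw [Nat.cast_zero] at h1
    rw [(sum_eq_zero_iff_of_nonneg fun y _ => h0 x y).1 h1 y (mem_univ y)]
    simp [tot]
  | succ n ih =>
    intro M h0 hr hc
    obtain ⟨a, ha⟩ := hall (n := ((n + 1 : ℕ) : ℤ)) (by positivity) M h0 hr hc
    obtain ⟨B, hB1, hB2⟩ := ih (fun x y => M x y - pm a x y) (by
      intro x y
      unfold pm
      split_ifs with h
      · have := ha x
        rw [h] at this
        show 0 ≤ M x y - 1
        omega
      · simpa using h0 x y) (by
      intro x
      rw [sum_sub_distrib, hr, pm_row]; push_cast; ring) (by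
      intro y
      rw [sum_sub_distrib, hc, pm_col]; push_cast; ring)
    refine ⟨a ::ₘ B, by rw [Multiset.card_cons, hB1], fun x y => ?_⟩
    have e : tot (a ::ₘ B) x y = pm a x y + tot B x y := by simp [tot]
    rw [e, hB2]; ring

theorem tot_row (U : Multiset (Perm α)) (x : α) : ∑ y, tot U x y = Multiset.card U := by
  induction U using Multiset.induction_on with
  | empty => simp [tot]
  | cons a s ih =>
    have e : ∀ y, tot (a ::ₘ s) x y = pm a x y + tot s x y := fun y => by simp [tot]
    rw [sum_congr rfl fun y _ => e y, sum_add_distrib, pm_row, ih, Multiset.card_cons]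
    push_cast; ring

theorem tot_col (U : Multiset (Perm α)) (y : α) : ∑ x, tot U x y = Multiset.card U := by
  induction U using Multiset.induction_on with
  | empty => simp [tot]
  | cons a s ih =>
    have e : ∀ x, tot (a ::ₘ s) x y = pm a x y + tot s x y := fun x => by simp [tot]
    rw [sum_congr rfl fun x _ => e x, sum_add_distrib, pm_col, ih, Multiset.card_cons]
    push_cast; ring

omit [Fintype α] in
theorem tot_pos {U : Multiset (Perm α)} {x y : α} (h : ∃ σ ∈ U, σ x = y) : 1 ≤ tot U x y := by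
  obtain ⟨σ, hσ, h1⟩ := h
  obtain ⟨W, rfl⟩ := Multiset.exists_cons_of_mem hσ
  have e : tot (σ ::ₘ W) x y = pm σ x y + tot W x y := by simp [tot]
  have e2 : 0 ≤ tot W x y := by
    unfold tot
    apply Multiset.sum_nonneg
    intro t ht
    obtain ⟨s, -, rfl⟩ := Multiset.mem_map.1 ht
    exact pm_nonneg s x y
  rw [e]
  unfold pm
  rw [if_pos h1]
  omega

theorem sg_two (U : Multiset (Perm α)) : sg (2 • U) = 1 := by
  rw [two_nsmul, sg_add]
  rcases Int.units_eq_one_or (sg U) with h | h <;> rw [h] <;> decide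

omit [Fintype α] in
theorem tot_two (U : Multiset (Perm α)) (x y : α) : tot (2 • U) x y = 2 * tot U x y := by
  rw [two_nsmul, tot_add]; ring

/-- a catalyst set generates all rankings -/
theorem Ob.of_catalyst {S : Finset (Perm α)} (hS : ∀ i j, ∃ σ ∈ S, σ i = j) {N : ℕ}
    (h : ∀ U V : Multiset (Perm α), Multiset.card U = Multiset.card V →
      (∀ i j, tot U i j = tot V i j) → sg U = sg V →
      ReflTransGen AMv (U + N • S.val) (V + N • S.val)) (o : α) (σ : Perm α) :
    Ob (S : Set (Perm α)) σ := by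
  obtain ⟨τ, hτ, -⟩ := hS o o
  have hpos : 1 ≤ Multiset.card S.val := Multiset.card_pos_iff_exists_mem.2 ⟨τ, hτ⟩
  obtain ⟨B, hB1, hB2⟩ := konigN (Multiset.card S.val - 1)
    (fun x y => tot S.val x y - pm σ x y) (by
      intro x y
      have h1 := tot_pos (U := S.val) (hS x y)
      have h2 := pm_le_one σ x y
      show 0 ≤ tot S.val x y - pm σ x y
      omega) (by
      intro x
      rw [sum_sub_distrib, tot_row, pm_row]
      omega) (by
      intro y
      rw [sum_sub_distrib, tot_col, pm_col]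
      omega)
  refine ⟨2 • S.val + N • S.val, 2 • (σ ::ₘ B) + N • S.val, ?_, ?_, ?_⟩
  · intro τ hτ
    rcases Multiset.mem_add.1 hτ with h1 | h1
    · exact Multiset.mem_of_mem_nsmul h1
    · exact Multiset.mem_of_mem_nsmul h1
  · apply h
    · rw [Multiset.card_nsmul, Multiset.card_nsmul, Multiset.card_cons, hB1]
      congr 1
      omega
    · intro i j
      have e : tot (σ ::ₘ B) i j = pm σ i j + tot B i j := by simp [tot]
      rw [tot_two, tot_two, e, hB2]; ring
    · rw [sg_two, sg_two]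
  · apply Multiset.mem_add.2
    left
    rw [two_nsmul]
    simp

/-! ### Groups -/

omit [Fintype α] in
theorem pm_left (g a : Perm α) (x y : α) : pm (g * a) x y = pm a x (g⁻¹ y) := by
  unfold pm
  congr 1
  rw [Perm.mul_apply, eq_iff_iff, Perm.eq_inv_iff_eq]

omit [Fintype α] in
theorem pm_right (a g : Perm α) (x y : α) : pm (a * g) x y = pm a (g x) y := rfl

omit [Fintype α] in
theorem pm_inv (a : Perm α) (x y : α) : pm a⁻¹ x y = pm a y x := by
  unfold pm
  congr 1
  rw [eq_iff_iff, Perm.inv_eq_iff_eq]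
  exact eq_comm

omit [Fintype α] in
theorem Ob.mul {G : Subgroup (Perm α)} {σ τ : Perm α} (h1 : Ob (G : Set (Perm α)) σ)
    (h2 : Ob (G : Set (Perm α)) τ) : Ob (G : Set (Perm α)) (σ * τ) := by
  have a1 : ∀ g ∈ G, ∀ τ, Ob (G : Set (Perm α)) τ → Ob (G : Set (Perm α)) (g * τ) := by
    intro g hg τ hτ
    refine Ob.ind (P := fun τ => Ob (G : Set (Perm α)) (g * τ)) ?_ ?_ hτ
    · intro σ hσ
      exact Ob.of_mem (G.mul_mem hg hσ)
    · intro a b a' b' ha hb hd
      refine Ob.move (b' := g * b') ha hb fun x y => ?_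
      rw [pm_left, pm_left, pm_left, pm_left]
      exact hd x (g⁻¹ y)
  refine Ob.ind (P := fun σ => Ob (G : Set (Perm α)) (σ * τ)) ?_ ?_ h1
  · intro σ hσ
    exact a1 σ hσ τ h2
  · intro a b a' b' ha hb hd
    refine Ob.move (b' := b' * τ) ha hb fun x y => ?_
    rw [pm_right, pm_right, pm_right, pm_right]
    exact hd (τ x) y

omit [Fintype α] in
theorem Ob.inv {G : Subgroup (Perm α)} {σ : Perm α} (h : Ob (G : Set (Perm α)) σ) :
    Ob (G : Set (Perm α)) σ⁻¹ := by
  refine Ob.ind (P := fun σ => Ob (G : Set (Perm α)) σ⁻¹) ?_ ?_ h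
  · intro σ hσ
    exact Ob.of_mem (G.inv_mem hσ)
  · intro a b a' b' ha hb hd
    refine Ob.move (b' := b'⁻¹) ha hb fun x y => ?_
    rw [pm_inv, pm_inv, pm_inv, pm_inv]
    exact hd y x

/-- the closure of a group -/
def cl (G : Subgroup (Perm α)) : Subgroup (Perm α) where
  carrier := {σ | Ob (G : Set (Perm α)) σ}
  mul_mem' := fun h1 h2 => Ob.mul h1 h2
  one_mem' := Ob.of_mem G.one_mem
  inv_mem' := fun h => Ob.inv h

theorem cl_cc (G : Subgroup (Perm α)) : Cyc.CC (cl G) := by
  intro g hg x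
  refine Ob.move (b' := g * (g.cycleOf x)⁻¹) ((cl G).one_mem : Ob (G : Set (Perm α)) 1) hg ?_
  intro s t
  apply sum_of_up
  intro u
  by_cases hu : g.SameCycle x u
  · right
    refine ⟨?_, ?_⟩
    · rw [cycleOf_apply, if_pos hu]
    · have h1 : (g.cycleOf x)⁻¹ u = g⁻¹ u := by
        rw [Perm.inv_eq_iff_eq, cycleOf_apply, if_pos]
        · simp
        · exact hu.trans ⟨-1, by rw [zpow_neg_one]⟩
      rw [Perm.mul_apply, h1]
      simp
  · left
    have h2 : g.cycleOf x u = u := by rw [cycleOf_apply, if_neg hu]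
    refine ⟨?_, ?_⟩
    · rw [h2]; rfl
    · rw [Perm.mul_apply, Perm.inv_eq_iff_eq.2 h2.symm]

/-- transitive groups: everything is obtainable, or the group has prime order and degree -/
theorem group_or {G : Subgroup (Perm α)} (hG : ∀ x y, ∃ g ∈ G, g x = y)
    (hc : 2 ≤ Fintype.card α) :
    (∀ σ, Ob (G : Set (Perm α)) σ) ∨
      ((Fintype.card α).Prime ∧ Nat.card G = Fintype.card α) := by
  have hle : G ≤ cl G := fun g hg => Ob.of_mem hg
  rcases Cyc.main (cl_cc G) (fun x y => by
    obtain ⟨g, hg, h⟩ := hG x y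
    exact ⟨g, hle hg, h⟩) hc with h | ⟨h1, h2⟩
  · left
    intro σ
    have : σ ∈ cl G := by rw [h]; trivial
    exact this
  · right
    refine ⟨h1, ?_⟩
    have h3 : Nat.card G ≤ Nat.card (cl G) := Subgroup.card_le_of_le hle
    have o : α := (Fintype.card_pos_iff.1 (by omega : 0 < Fintype.card α)).some
    have h4 : Nat.card α ≤ Nat.card G := by
      have hs : Function.Surjective fun g : G => (g : Perm α) o := by
        intro y
        obtain ⟨g, hg, h⟩ := hG o y
        exact ⟨⟨g, hg⟩, h⟩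
      exact Nat.card_le_card_of_surjective _ hs
    rw [Nat.card_eq_fintype_card] at h4
    omega

/-- no quadratic move leaves a transitive group of prime order -/
theorem group_rigid {G : Subgroup (Perm α)} (hG : ∀ x y, ∃ g ∈ G, g x = y)
    (hp : (Nat.card G).Prime) {a b a' b' : Perm α} (ha : a ∈ G) (hb : b ∈ G)
    (hd : ∀ x y, pm a x y + pm b x y = pm a' x y + pm b' x y) :
    ({a'} + {b'} : Multiset (Perm α)) = {a} + {b} := by
  have hu : ∀ i, UP (a' i) (b' i) (a i) (b i) := fun i => up_of_sum (hd i)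
  by_cases hab : a = b
  · subst hab
    have e1 : a' = a := Perm.ext fun i => by rcases hu i with h | h <;> exact h.1
    have e2 : b' = a := Perm.ext fun i => by rcases hu i with h | h <;> exact h.2
    rw [e1, e2]
  set c : G := ⟨a⁻¹ * b, G.mul_mem (G.inv_mem ha) hb⟩ with hcd
  have hc1 : c ≠ 1 := by
    intro h
    apply hab
    have := congrArg Subtype.val h
    simp only [hcd, Subgroup.coe_one] at this
    rwa [inv_mul_eq_one] at this
  have : Fact (Nat.card G).Prime := ⟨hp⟩
  have hgen : ∀ i j, ∃ n : ℕ, ((a⁻¹ * b) ^ n) i = j := by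
    intro i j
    obtain ⟨g, hg, h⟩ := hG i j
    have h1 := mem_powers_of_prime_card (G := G) (p := Nat.card G) rfl hc1 (g' := ⟨g, hg⟩)
    obtain ⟨n, hn⟩ := Submonoid.mem_powers_iff _ _ |>.1 h1
    refine ⟨n, ?_⟩
    have h2 := congrArg Subtype.val hn
    simp only [hcd, SubmonoidClass.mk_pow] at h2
    rw [h2]
    exact h
  have step : ∀ i, a' i = a i → a' ((a⁻¹ * b) i) = a ((a⁻¹ * b) i) := by
    intro i hi
    have e1 : a ((a⁻¹ * b) i) = b i := by simp
    have e2 : b' i = b i := by
      rcases hu i with h | h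
      · exact h.2
      · rw [h.2, ← hi, h.1]
    rcases hu ((a⁻¹ * b) i) with h | h
    · exact h.1
    · have e3 : b' ((a⁻¹ * b) i) = b' i := by rw [h.2, e1, e2]
      have e4 := b'.injective e3
      rw [e4]
      exact hi
  by_cases hex : ∃ i, a' i = a i
  · obtain ⟨i, hi⟩ := hex
    have hall : ∀ n : ℕ, a' (((a⁻¹ * b) ^ n) i) = a (((a⁻¹ * b) ^ n) i) := by
      intro n
      induction n with
      | zero => simpa using hi
      | succ n ih =>
        rw [pow_succ', Perm.mul_apply (a⁻¹ * b)]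
        exact step _ ih
    have e1 : a' = a := Perm.ext fun j => by
      obtain ⟨n, hn⟩ := hgen i j
      have := hall n
      rwa [hn] at this
    have e2 : b' = b := Perm.ext fun j => by
      rcases hu j with h | h
      · exact h.2
      · rw [h.2, ← h.1, e1]
    rw [e1, e2]
  · push Not at hex
    have h1 : ∀ j, a' j = b j ∧ b' j = a j := by
      intro j
      rcases hu j with h | h
      · exact absurd h.1 (hex j)
      · exact h
    have e1 : a' = b := Perm.ext fun j => (h1 j).1
    have e2 : b' = a := Perm.ext fun j => (h1 j).2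
    rw [e1, e2, add_comm]

/-- surveys of a transitive group of prime order -/
theorem group_fixed {G : Subgroup (Perm α)} (hG : ∀ x y, ∃ g ∈ G, g x = y)
    (hp : (Nat.card G).Prime) {U V : Multiset (Perm α)} (hU : ∀ σ ∈ U, σ ∈ G)
    (h : ReflTransGen AMv U V) : V = U := by
  induction h with
  | refl => rfl
  | @tail V V' _ h2 ih =>
    subst ih
    obtain ⟨W, a, b, a', b', hd, rfl, rfl⟩ := h2
    rw [group_rigid hG hp (hU a (by simp)) (hU b (by simp)) hd]

theorem group_only {G : Subgroup (Perm α)} (hG : ∀ x y, ∃ g ∈ G, g x = y)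
    (hp : (Nat.card G).Prime) {σ : Perm α} (h : Ob (G : Set (Perm α)) σ) : σ ∈ G := by
  obtain ⟨U, V, hU, hr, hσ⟩ := h
  rw [group_fixed hG hp hU hr] at hσ
  exact hU σ hσ

/-- the dichotomy -/
theorem group_iff {G : Subgroup (Perm α)} (hG : ∀ x y, ∃ g ∈ G, g x = y)
    (hc : 3 ≤ Fintype.card α) :
    (∀ σ, Ob (G : Set (Perm α)) σ) ↔
      ¬ ((Fintype.card α).Prime ∧ Nat.card G = Fintype.card α) := by
  constructor
  · rintro h ⟨h1, h2⟩
    have h3 : ∀ σ, σ ∈ G := fun σ => group_only hG (by rw [h2]; exact h1) (h σ)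
    have h4 : G = ⊤ := (Subgroup.eq_top_iff' G).2 h3
    rw [h4, Subgroup.card_top, Nat.card_perm, Nat.card_eq_fintype_card] at h2
    have := Nat.lt_factorial_self hc
    omega
  · intro h
    exact (group_or hG (by omega)).resolve_right h

end Birk
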