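import Pool.Agent.Work.MP_697f4c_co.Run

/-!
MP_697f4c_co, work file: any two multisets of rankings with the same sum are joined.
-/

open Equiv Finset

namespace Birk

variable {α : Type*} [DecidableEq α] [Fintype α]

theorem Rm.cons {U V : Multiset (Perm α)} (h : Rm U V) (τ : Perm α) :
    Rm (τ ::ₘ U) (τ ::ₘ V) := by
  rcases h with ⟨W, a, b, a', b', h1, rfl, rfl⟩ | ⟨W, a, b, s, a', b', s', h1, rfl, rfl⟩
  · left
    refine ⟨τ ::ₘ W, a, b, a', b', h1, ?_, ?_⟩
    · rw [Multiset.cons_swap, Multiset.cons_swap τ b]
    · rw [Multiset.cons_swap, Multiset.cons_swap τ b']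
  · right
    refine ⟨τ ::ₘ W, a, b, s, a', b', s', h1, ?_, ?_⟩
    · rw [Multiset.cons_swap, Multiset.cons_swap τ b, Multiset.cons_swap τ s]
    · rw [Multiset.cons_swap, Multiset.cons_swap τ b', Multiset.cons_swap τ s']

theorem Reach.cons {n : ℕ} {U V : Multiset (Perm α)} (h : Reach Rm n U V) (τ : Perm α) :
    Reach Rm n (τ ::ₘ U) (τ ::ₘ V) := by
  induction h with
  | refl n u => exact Reach.refl _ _
  | step hr _ ih => exact Reach.step (hr.cons τ) ih

theorem Reach.add {n : ℕ} {U V : Multiset (Perm α)} (h : Reach Rm n U V)
    (W : Multiset (Perm α)) : Reach Rm n (W + U) (W + V) := by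
  induction W using Multiset.induction_on with
  | empty => simpa using h
  | cons τ W ih =>
    rw [Multiset.cons_add, Multiset.cons_add]
    exact ih.cons τ

theorem Rm.tot_eq {U V : Multiset (Perm α)} (h : Rm U V) :
    Multiset.card U = Multiset.card V ∧ ∀ x y, tot U x y = tot V x y := by
  rcases h with ⟨W, a, b, a', b', h1, rfl, rfl⟩ | ⟨W, a, b, s, a', b', s', h1, rfl, rfl⟩
  · refine ⟨by simp, fun x y => ?_⟩
    simp only [tot_cons]
    have := h1.1 x y
    linarith
  · refine ⟨by simp, fun x y => ?_⟩
    simp only [tot_cons]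
    have := h1.1 x y
    linarith

theorem Reach.tot_eq {n : ℕ} {U V : Multiset (Perm α)} (h : Reach Rm n U V) :
    Multiset.card U = Multiset.card V ∧ ∀ x y, tot U x y = tot V x y := by
  induction h with
  | refl n u => exact ⟨rfl, fun _ _ => rfl⟩
  | step hr _ ih =>
    have h1 := hr.tot_eq
    exact ⟨h1.1.trans ih.1, fun x y => (h1.2 x y).trans (ih.2 x y)⟩

omit [Fintype α] in
theorem tot_mem {τ : Perm α} {V : Multiset (Perm α)} (h : τ ∈ V) (x : α) :
    1 ≤ tot V x (τ x) := by
  obtain ⟨V1, rfl⟩ := Multiset.exists_cons_of_mem h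
  rw [tot_cons, pm_self]
  have := tot_nonneg V1 x (τ x)
  omega

theorem conn (o : α) : ∀ (N : ℕ) (U V : Multiset (Perm α)), Multiset.card U = N →
    Multiset.card V = N → (∀ x y, tot U x y = tot V x y) →
    Reach Rm ((N - 1) * (Fintype.card α - 2)) U V := by
  intro N
  induction N with
  | zero =>
    intro U V hU hV _
    rw [Multiset.card_eq_zero] at hU hV
    rw [hU, hV]
    exact Reach.refl _ _
  | succ N ih =>
    intro U V hU hV htot
    rcases Nat.eq_zero_or_pos N with h0 | hpos
    · subst h0
      obtain ⟨σ, rfl⟩ := Multiset.card_eq_one.1 hU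
      obtain ⟨τ, rfl⟩ := Multiset.card_eq_one.1 hV
      have : σ = τ := by
        apply pm_inj
        intro x y
        have := htot x y
        simpa [tot] using this
      rw [this]
      exact Reach.refl _ _
    · obtain ⟨τ, hτ⟩ := Multiset.card_pos_iff_exists_mem.1
        (show 0 < Multiset.card V by rw [hV]; omega)
      obtain ⟨σ, hσ, hστ⟩ : ∃ σ ∈ U, σ o = τ o := by
        apply exists_of_tot
        rw [htot]
        have := tot_mem hτ o
        omega
      obtain ⟨V1, rfl⟩ := Multiset.exists_cons_of_mem hτ
      obtain ⟨U1, rfl⟩ := Multiset.exists_cons_of_mem hσ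
      have hdf : df τ (pm σ) ≤ (Fintype.card α - 2) + 1 := by
        have h1 : df τ (pm σ) ≤ ((univ : Finset α).erase o).card := by
          unfold df
          apply card_le_card
          intro x hx
          simp only [mem_filter, mem_univ, true_and] at hx
          simp only [mem_erase, mem_univ, and_true]
          rintro rfl
          have : pm σ x (τ x) = 1 := by unfold pm; rw [if_pos hστ]
          omega
        rw [card_erase_of_mem (mem_univ _), card_univ] at h1
        omega
      obtain ⟨V0, hV0, hm⟩ := (run τ (Fintype.card α - 2)).2 σ U1 hdf (by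
        intro x
        have h1 := htot x (τ x)
        rw [tot_cons] at h1
        rw [h1]
        exact tot_mem (Multiset.mem_cons_self _ _) x)
      obtain ⟨U2, rfl⟩ := Multiset.exists_cons_of_mem hm
      have h3 := hV0.tot_eq
      have h4 : Reach Rm ((N - 1) * (Fintype.card α - 2)) U2 V1 := by
        apply ih
        · have := h3.1
          rw [hU] at this
          simp only [Multiset.card_cons] at this
          omega
        · simp only [Multiset.card_cons] at hV
          omega
        · intro x y
          have h5 := h3.2 x y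
          have h6 := htot x y
          rw [h5] at h6
          simp only [tot_cons] at h6
          omega
      have h5 := hV0.trans (h4.cons τ)
      refine h5.mono ?_
      obtain ⟨m, rfl⟩ : ∃ m, N = m + 1 := ⟨N - 1, by omega⟩
      simp only [Nat.add_sub_cancel]
      ring_nf
      omega

end Birk
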