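import Pool.Agent.Work.MP_697f4c_co.Conn

/-!
MP_697f4c_co, work file: cycle moves and arc moves are determined by few parameters.
-/

open Equiv Finset

namespace Birk

variable {α : Type*} [DecidableEq α] [Fintype α]

omit [Fintype α] in
theorem UP.symm {u v w z : α} (h : UP u v w z) : UP w z u v := by
  rcases h with h | h
  · exact Or.inl ⟨h.1.symm, h.2.symm⟩
  · exact Or.inr ⟨h.2.symm, h.1.symm⟩

omit [Fintype α] in
/-- the second member is determined -/
theorem UP.right {u v u' w z : α} (h : UP u v w z) (h' : UP u' v w z) : u = u' := by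
  rcases h with ⟨h1, h2⟩ | ⟨h1, h2⟩ <;> rcases h' with ⟨h3, h4⟩ | ⟨h3, h4⟩
  · rw [h1, h3]
  · rw [h1, h3, ← h4, h2]
  · rw [h1, h3, ← h2, h4]
  · rw [h1, h3]

theorem can_unique {a b r1 r2 : Perm α} {x0 : α} (h1 : Can a b r1 x0) (h2 : Can a b r2 x0)
    (h0 : r1 x0 = r2 x0) : r1 = r2 := by
  -- one-sided form
  have key : ∀ (r1 r2 : Perm α), Can a b r1 x0 → Can a b r2 x0 → r1 x0 = r2 x0 →
      ∀ x, ¬ (r1 x = a x ∧ r2 x = b x ∧ a x ≠ b x) := by
    intro r1 r2 h1 h2 h0 x hx
    have hne : r1 x ≠ r2 x := by rw [hx.1, hx.2.1]; exact hx.2.2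
    have hsc : (a⁻¹ * b).SameCycle x0 x := by
      by_contra hns
      exact hne (by rw [h1.2 x hns, h2.2 x hns])
    obtain ⟨n, hn⟩ := pow_of_sameCycle hsc.symm
    have cl : ∀ z, (r1 z = a z ∧ r2 z = b z ∧ a z ≠ b z) →
        (r1 ((a⁻¹ * b) z) = a ((a⁻¹ * b) z) ∧ r2 ((a⁻¹ * b) z) = b ((a⁻¹ * b) z) ∧
          a ((a⁻¹ * b) z) ≠ b ((a⁻¹ * b) z)) := by
      intro z hz
      set w := (a⁻¹ * b) z with hw
      have haw : a w = b z := by simp [hw]
      set t := r1⁻¹ (b z) with ht
      have hrt : r1 t = b z := by simp [ht]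
      have htz : t ≠ z := by
        intro h
        rw [h, hz.1] at hrt
        exact hz.2.2 hrt
      have h2t : r2 t ≠ r1 t := by
        rw [hrt, ← hz.2.1]
        exact fun h => htz (r2.injective h)
      have ht0 : t ≠ x0 := by
        intro h
        rw [h] at h2t
        exact h2t h0.symm
      have htw : t = w := by
        rcases h1.1 t ht0 with h | h
        · apply a.injective
          rw [← h, hrt, haw]
        · exfalso
          apply htz
          apply b.injective
          rw [← h, hrt]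
      rw [htw] at hrt h2t ht0
      have e1 : r1 w = a w := by rw [hrt, haw]
      have e2 : r2 w = b w := by
        rcases h2.1 w ht0 with h | h
        · exact absurd (by rw [h, e1]) h2t
        · exact h
      exact ⟨e1, e2, by rw [← e1, ← e2]; exact Ne.symm h2t⟩
    have all : ∀ n : ℕ, (r1 (((a⁻¹ * b) ^ n) x) = a (((a⁻¹ * b) ^ n) x) ∧
        r2 (((a⁻¹ * b) ^ n) x) = b (((a⁻¹ * b) ^ n) x) ∧
          a (((a⁻¹ * b) ^ n) x) ≠ b (((a⁻¹ * b) ^ n) x)) := by
      intro n
      induction n with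
      | zero => exact hx
      | succ n ih =>
        rw [pow_succ', Perm.mul_apply]
        exact cl _ ih
    have h3 := all n
    rw [hn] at h3
    apply h3.2.2
    rw [← h3.1, ← h3.2.1, h0]
  ext x
  by_contra hne
  have hx0 : x ≠ x0 := by rintro rfl; exact hne h0
  rcases h1.1 x hx0 with h3 | h3 <;> rcases h2.1 x hx0 with h4 | h4
  · exact hne (by rw [h3, h4])
  · exact key r1 r2 h1 h2 h0 x ⟨h3, h4, fun h => hne (by rw [h3, h4, h])⟩
  · exact key r2 r1 h2 h1 h0.symm x ⟨h4, h3, fun h => hne (by rw [h3, h4, h])⟩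
  · exact hne (by rw [h3, h4])

/-- the conditions on the exchange part of an arc move -/
def Exch (r s r' s' : Perm α) (x0 x1 : α) : Prop :=
  s x1 ≠ r x0 ∧ s x1 ≠ r x1 ∧ r' x0 = s x1 ∧ s' x0 = s x0 ∧
    UP (r' x1) (s' x1) (r x0) (r x1) ∧
    (∀ x, x ≠ x0 → x ≠ x1 → UP (r' x) (s' x) (r x) (s x)) ∧ (s⁻¹ * s').IsCycle

theorem exch_unique {r s r1 s1 r2 s2 : Perm α} {x0 x1 : α} (h01 : x0 ≠ x1)
    (h1 : Exch r s r1 s1 x0 x1) (h2 : Exch r s r2 s2 x0 x1) : r1 = r2 ∧ s1 = s2 := by
  obtain ⟨p1, p2, p3, p4, p5, p6, p7⟩ := h1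
  obtain ⟨-, -, q3, q4, q5, q6, q7⟩ := h2
  -- `x1` is moved
  have m1 : s1 x1 ≠ s x1 := by
    rcases p5 with h | h
    · rw [h.2]; exact Ne.symm p2
    · rw [h.2]; exact Ne.symm p1
  have m2 : s2 x1 ≠ s x1 := by
    rcases q5 with h | h
    · rw [h.2]; exact Ne.symm p2
    · rw [h.2]; exact Ne.symm p1
  set T := univ.filter fun x => s1 x ≠ s2 x with hT
  have hx0T : x0 ∉ T := by
    simp only [hT, mem_filter, mem_univ, true_and, not_not]; rw [p4, q4]
  have himg : T.image s1 = T.image s2 := by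
    apply eq_of_subset_of_card_le
    · intro y hy
      obtain ⟨x, hx, rfl⟩ := mem_image.1 hy
      simp only [hT, mem_filter, mem_univ, true_and] at hx
      refine mem_image.2 ⟨s2⁻¹ (s1 x), ?_, by simp⟩
      simp only [hT, mem_filter, mem_univ, true_and]
      intro h
      have h3 : s2 (s2⁻¹ (s1 x)) = s1 x := by simp
      rw [h3] at h
      have h4 := s1.injective h
      rw [h4] at h3
      exact hx h3.symm
    · rw [card_image_of_injective _ s1.injective, card_image_of_injective _ s2.injective]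
  have hx1T : x1 ∉ T := by
    intro hx1
    have hx1' : s1 x1 ≠ s2 x1 := by
      simpa only [hT, mem_filter, mem_univ, true_and] using hx1
    have hsub : (insert x0 T).image r ⊆ T.image s1 := by
      intro y hy
      obtain ⟨x, hx, rfl⟩ := mem_image.1 hy
      have a1 : r x0 ∈ T.image s1 ∧ r x1 ∈ T.image s1 := by
        have i1 : s1 x1 ∈ T.image s1 := mem_image_of_mem _ hx1
        have i2 : s2 x1 ∈ T.image s1 := by rw [himg]; exact mem_image_of_mem _ hx1
        rcases p5 with h | h <;> rcases q5 with h' | h'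
        · exact absurd (by rw [h.2, h'.2]) hx1'
        · rw [h.2] at i1; rw [h'.2] at i2; exact ⟨i2, i1⟩
        · rw [h.2] at i1; rw [h'.2] at i2; exact ⟨i1, i2⟩
        · exact absurd (by rw [h.2, h'.2]) hx1'
      rcases mem_insert.1 hx with rfl | hxT
      · exact a1.1
      · by_cases hxx : x = x1
        · rw [hxx]; exact a1.2
        · have hx0 : x ≠ x0 := by rintro rfl; exact hx0T hxT
          have hne : s1 x ≠ s2 x := by
            simpa only [hT, mem_filter, mem_univ, true_and] using hxT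
          have i1 : s1 x ∈ T.image s1 := mem_image_of_mem _ hxT
          have i2 : s2 x ∈ T.image s1 := by rw [himg]; exact mem_image_of_mem _ hxT
          rcases p6 x hx0 hxx with h | h <;> rcases q6 x hx0 hxx with h' | h'
          · exact absurd (by rw [h.2, h'.2]) hne
          · rw [h'.2] at i2; exact i2
          · rw [h.2] at i1; exact i1
          · exact absurd (by rw [h.2, h'.2]) hne
    have hcard := card_le_card hsub
    rw [card_image_of_injective _ r.injective, card_image_of_injective _ s1.injective,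
      card_insert_of_notMem hx0T] at hcard
    omega
  -- one-sided form
  have key : ∀ (r1 s1 r2 s2 : Perm α), s1 x1 ≠ s x1 → s1 x1 = s2 x1 → s1 x0 = s2 x0 →
      (∀ x, x ≠ x0 → x ≠ x1 → UP (r1 x) (s1 x) (r x) (s x)) →
      (∀ x, x ≠ x0 → x ≠ x1 → UP (r2 x) (s2 x) (r x) (s x)) → (s⁻¹ * s1).IsCycle →
      ∀ x, ¬ (s1 x ≠ s2 x ∧ s1 x ≠ s x) := by
    intro r1 s1 r2 s2 m1 e1 e0 p6 q6 p7 x hx
    have mv : ∀ z, s1 z ≠ s z → (s⁻¹ * s1) z ≠ z := by
      intro z hz h
      rw [Perm.mul_apply] at h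
      apply hz
      calc s1 z = s (s⁻¹ (s1 z)) := by simp
        _ = s z := by rw [h]
    obtain ⟨n, hn⟩ := pow_of_sameCycle (p7.sameCycle (mv x hx.2) (mv x1 m1))
    have cl : ∀ z, (s1 z ≠ s2 z ∧ s1 z ≠ s z) →
        (s1 ((s⁻¹ * s1) z) ≠ s2 ((s⁻¹ * s1) z) ∧ s1 ((s⁻¹ * s1) z) ≠ s ((s⁻¹ * s1) z)) := by
      intro z hz
      set w := (s⁻¹ * s1) z with hw
      have hsw : s w = s1 z := by simp [hw]
      have hwz : w ≠ z := mv z hz.2
      have c2 : s1 w ≠ s w := by
        rw [hsw]
        exact fun h => hwz (s1.injective h)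
      refine ⟨?_, c2⟩
      have hz0 : z ≠ x0 := by rintro rfl; exact hz.1 e0
      have hz1 : z ≠ x1 := by rintro rfl; exact hz.1 e1
      have hr1 : s1 z = r z := by
        rcases p6 z hz0 hz1 with h | h
        · exact absurd h.2 hz.2
        · exact h.2
      set t := s2⁻¹ (s1 z) with ht
      have hst : s2 t = s1 z := by simp [ht]
      have htz : t ≠ z := by
        intro h
        rw [h] at hst
        exact hz.1 hst.symm
      have h1t : s1 t ≠ s2 t := by
        rw [hst]
        exact fun h => htz (s1.injective h)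
      have ht0 : t ≠ x0 := by intro h; rw [h] at h1t; exact h1t e0
      have ht1 : t ≠ x1 := by intro h; rw [h] at h1t; exact h1t e1
      have htw : t = w := by
        rcases q6 t ht0 ht1 with h | h
        · apply s.injective
          rw [← h.2, hst, hsw]
        · exfalso
          apply htz
          apply r.injective
          rw [← h.2, hst, hr1]
      rw [← htw]
      exact h1t
    have all : ∀ n : ℕ, (s1 (((s⁻¹ * s1) ^ n) x) ≠ s2 (((s⁻¹ * s1) ^ n) x) ∧
        s1 (((s⁻¹ * s1) ^ n) x) ≠ s (((s⁻¹ * s1) ^ n) x)) := by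
      intro n
      induction n with
      | zero => exact hx
      | succ n ih =>
        rw [pow_succ', Perm.mul_apply]
        exact cl _ ih
    have h3 := all n
    rw [hn] at h3
    exact h3.1 e1
  have e1 : s1 x1 = s2 x1 := by
    by_contra h
    exact hx1T (by simp only [hT, mem_filter, mem_univ, true_and]; exact h)
  have e0 : s1 x0 = s2 x0 := by rw [p4, q4]
  have hs : s1 = s2 := by
    ext x
    by_contra hne
    by_cases hc : s1 x = s x
    · exact key r2 s2 r1 s1 m2 e1.symm e0.symm q6 p6 q7 x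
        ⟨Ne.symm hne, fun h => hne (by rw [hc, h])⟩
    · exact key r1 s1 r2 s2 m1 e1 e0 p6 q6 p7 x ⟨hne, hc⟩
  refine ⟨?_, hs⟩
  ext x
  by_cases hx0 : x = x0
  · rw [hx0, p3, q3]
  by_cases hx1 : x = x1
  · rw [hx1]
    rw [hs] at p5
    exact p5.right q5
  · have h3 := p6 x hx0 hx1
    rw [hs] at h3
    exact h3.right (q6 x hx0 hx1)

/-- a cycle move is determined by the two rankings and a moved point -/
theorem cyc_unique {a b a1 b1 a2 b2 : Perm α} {x : α} (h1 : CycMv a b a1 b1)
    (h2 : CycMv a b a2 b2) (m1 : a1 x ≠ a x) (m2 : a2 x ≠ a x) : a1 = a2 ∧ b1 = b2 := by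
  have up1 : ∀ x, UP (a1 x) (b1 x) (a x) (b x) := fun x => up_of_sum (h1.1 x)
  have up2 : ∀ x, UP (a2 x) (b2 x) (a x) (b x) := fun x => up_of_sum (h2.1 x)
  have key : ∀ (a1 b1 a2 b2 : Perm α), (∀ x, UP (a1 x) (b1 x) (a x) (b x)) →
      (∀ x, UP (a2 x) (b2 x) (a x) (b x)) → (a⁻¹ * a1).IsCycle → a1 x ≠ a x → a2 x ≠ a x →
      ∀ z, a1 z ≠ a z → a2 z ≠ a z := by
    intro a1 b1 a2 b2 up1 up2 hc m1 m2 z hz
    have mv : ∀ z, a1 z ≠ a z → (a⁻¹ * a1) z ≠ z := by
      intro z hz h
      rw [Perm.mul_apply] at h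
      apply hz
      calc a1 z = a (a⁻¹ (a1 z)) := by simp
        _ = a z := by rw [h]
    obtain ⟨n, hn⟩ := pow_of_sameCycle (hc.sameCycle (mv x m1) (mv z hz))
    have all : ∀ n : ℕ, (a1 (((a⁻¹ * a1) ^ n) x) ≠ a (((a⁻¹ * a1) ^ n) x) ∧
        a2 (((a⁻¹ * a1) ^ n) x) ≠ a (((a⁻¹ * a1) ^ n) x)) := by
      intro n
      induction n with
      | zero => exact ⟨m1, m2⟩
      | succ n ih =>
        rw [pow_succ', Perm.mul_apply]
        set w := ((a⁻¹ * a1) ^ n) x with hw
        have e1 : a1 w = b w := by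
          rcases up1 w with h | h
          · exact absurd h.1 ih.1
          · exact h.1
        have e2 : a2 w = b w := by
          rcases up2 w with h | h
          · exact absurd h.1 ih.2
          · exact h.1
        have e3 : a ((a⁻¹ * a1) w) = a1 w := by simp
        have e4 : (a⁻¹ * a1) w ≠ w := mv w ih.1
        constructor
        · rw [e3]; exact fun h => e4 (a1.injective h)
        · rw [e3, e1, ← e2]; exact fun h => e4 (a2.injective h)
    rw [← hn]
    exact (all n).2
  have ha : a1 = a2 := by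
    ext z
    by_cases hz : a1 z = a z
    · have : a2 z = a z := by
        by_contra hz2
        exact key a2 b2 a1 b1 up2 up1 h2.2 m2 m1 z hz2 hz
      rw [hz, this]
    · have hz2 := key a1 b1 a2 b2 up1 up2 h1.2 m1 m2 z hz
      rcases up1 z with h | h
      · exact absurd h.1 hz
      rcases up2 z with h' | h'
      · exact absurd h'.1 hz2
      rw [h.1, h'.1]
  refine ⟨ha, ?_⟩
  apply pm_inj
  intro u v
  have e1 := h1.1 u v
  have e2 := h2.1 u v
  rw [ha] at e1
  omega

end Birk
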