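import Pool.Agent.Work.MP_697f4c_co.Base

/-! # Definitions for the chain rules (MP_697f4c_co)

`X` is the finite linearly ordered set of candidates, which is also the set of positions; a ballot
is a permutation of `X`, a survey is a function from ballots to the natural numbers. -/

namespace Pool.Agent.Work.MP_697f4c_co

open Finset Function Equiv

variable {X : Type*} [Fintype X] [LinearOrder X]

/-! ## Surveys -/

/-- A Markov basis for surveys with fixed first-order summary: a finite set of moves such that
any two surveys with the same summary are joined by a path of surveys whose successive differences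
lie in `B` or in `-B`. -/
def IsMarkovBasis (B : Set (Perm X → ℤ)) : Prop :=
  B.Finite ∧
  (∀ g ∈ B, ∀ i j : X, ∑ σ : Perm X, (if σ i = j then g σ else 0) = 0) ∧
  ∀ f f' : Perm X → ℕ, (∀ i j, summ f i j = summ f' i j) →
    ∃ (k : ℕ) (F : ℕ → Perm X → ℕ), F 0 = f ∧ F k = f' ∧
      ∀ t < k, (fun σ => (F (t + 1) σ : ℤ) - F t σ) ∈ B ∨
        (fun σ => (F t σ : ℤ) - F (t + 1) σ) ∈ B

/-! ## Exchanges -/

/-- The map obtained from `g` by taking the values of `h` on the set `A`. The exchange of `g` and
`h` on `A` replaces the pair `g, h` by the pair `ex g h A, ex h g A`. -/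
def ex (g h : X → X) (A : Finset X) : X → X := fun x => if x ∈ A then h x else g x

/-- Next element of a chain: the least preimage under `g` of `h x` (and `x` itself if there is
none). -/
def nxt (g h : X → X) (x : X) : X :=
  if H : (univ.filter fun z => g z = h x).Nonempty then
    (univ.filter fun z => g z = h x).min' H else x

/-- The first `n` elements `s, nxt s, nxt (nxt s), ...` of the chain of `g, h` from `s`. -/
def seg (g h : X → X) (s : X) (n : ℕ) : Finset X :=
  (range n).image fun i => (nxt g h)^[i] s

/-- The least `n` such that exchanging `g` and `h` on the first `n` elements of their chain from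
`s` makes one of the two maps bijective (and `0` if there is no such `n`). -/
noncomputable def len (g h : X → X) (s : X) : ℕ :=
  sInf {n | Bijective (ex g h (seg g h s n)) ∨ Bijective (ex h g (seg g h s n))}

/-- The two maps after the exchange on the first `len g h s` elements of the chain. -/
noncomputable def fix (g h : X → X) (s : X) : (X → X) × (X → X) :=
  (ex g h (seg g h s (len g h s)), ex h g (seg g h s (len g h s)))

open Classical in
/-- Put a bijective map of the pair first. -/
noncomputable def bijFirst (q : (X → X) × (X → X)) : (X → X) × (X → X) :=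
  if Bijective q.1 then q else (q.2, q.1)

/-! ## The quadratic rule -/

/-- The cycle of `u` under `x ↦ a⁻¹ (r x)`. -/
noncomputable def cyc (r a : Perm X) (u : X) : Finset X :=
  letI := Classical.decPred fun x => (a⁻¹ * r).SameCycle u x
  univ.filter fun x => (a⁻¹ * r).SameCycle u x

/-- The two maps produced by the quadratic rule: `r` and `a` are exchanged on a cycle. -/
noncomputable def quadRows (u : X) (r a : Perm X) : (X → X) × (X → X) :=
  (ex r a (cyc r a u), ex a r (cyc r a u))

open Classical in
/-- The quadratic rule as a map on pairs of ballots. (The two maps are always bijective.) -/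
noncomputable def quad (u : X) (t : Perm X × Perm X) : Perm X × Perm X :=
  if h : Bijective (quadRows u t.1 t.2).1 ∧ Bijective (quadRows u t.1 t.2).2 then
    (Equiv.ofBijective _ h.1, Equiv.ofBijective _ h.2) else t

/-! ## The cubic rule -/

/-- The candidate at which the second exchange of the cubic rule starts. -/
def startPt (u : X) (b : Bool) (r a : Perm X) : X := if b then u else r.symm (a u)

/-- Exchange `P` and `c` at `x`, then exchange `c` and `Q` along a chain from `x` so that one of
them becomes bijective (it is kept), then exchange `P` and the other one along a chain from `x`. -/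
noncomputable def cubTail (P Q c : X → X) (x : X) : (X → X) × (X → X) × (X → X) :=
  let q := bijFirst (fix (update c x (P x)) Q x)
  let t := fix (update P x (c x)) q.2 x
  (t.1, t.2, q.1)

/-- The three maps produced by the cubic rule: `r` and `a` are exchanged on the first `m` elements
of their chain from `u`, and the result is repaired with the help of `c`. -/
noncomputable def cubRows (u : X) (m : ℕ) (b : Bool) (r a c : Perm X) :
    (X → X) × (X → X) × (X → X) :=
  cubTail (ex r a (seg a r u m)) (ex a r (seg a r u m)) c (startPt u b r a)

open Classical in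
/-- The cubic rule as a map on triples of ballots (the triple is left alone if the three maps
are not all bijective). -/
noncomputable def cub (u : X) (m : ℕ) (b : Bool) (t : Perm X × Perm X × Perm X) :
    Perm X × Perm X × Perm X :=
  if h : Bijective (cubRows u m b t.1 t.2.1 t.2.2).1 ∧
      Bijective (cubRows u m b t.1 t.2.1 t.2.2).2.1 ∧
      Bijective (cubRows u m b t.1 t.2.1 t.2.2).2.2 then
    (Equiv.ofBijective _ h.1, Equiv.ofBijective _ h.2.1, Equiv.ofBijective _ h.2.2) else t

/-! ## Steps and moves -/

/-- One rule step: two ballots of the survey are replaced by the quadratic rule or three ballots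
by the cubic rule. -/
def Step (f f' : Perm X → ℕ) : Prop :=
  (∃ (h : Perm X → ℕ) (u : X) (r a : Perm X), f = h + one r + one a ∧
      f' = h + one (quad u (r, a)).1 + one (quad u (r, a)).2) ∨
  (∃ (h : Perm X → ℕ) (u : X) (m : ℕ) (b : Bool) (r a c : Perm X), m < Fintype.card X ∧
      f = h + one r + one a + one c ∧
      f' = h + one (cub u m b (r, a, c)).1 + one (cub u m b (r, a, c)).2.1
        + one (cub u m b (r, a, c)).2.2)

/-- The vector of the quadratic rule applied to two ballots. -/
noncomputable def quadVec (u : X) (r a : Perm X) : Perm X → ℤ := fun σ =>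
  (one (quad u (r, a)).1 σ : ℤ) + one (quad u (r, a)).2 σ - one r σ - one a σ

/-- The vector of the cubic rule applied to three ballots. -/
noncomputable def cubVec (u : X) (m : ℕ) (b : Bool) (r a c : Perm X) : Perm X → ℤ := fun σ =>
  (one (cub u m b (r, a, c)).1 σ : ℤ) + one (cub u m b (r, a, c)).2.1 σ
    + one (cub u m b (r, a, c)).2.2 σ - one r σ - one a σ - one c σ

variable (X) in
/-- The set of all vectors of chain rules. -/
def chainMoves : Set (Perm X → ℤ) :=
  {g | (∃ (u : X) (r a : Perm X), g = quadVec u r a) ∨
    (∃ (u : X) (m : ℕ) (b : Bool) (r a c : Perm X), m < Fintype.card X ∧ g = cubVec u m b r a c)}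

/-! ## The toric ideal -/

variable (k : Type*) [CommRing k]

variable (X) in
/-- The ring map `x_σ ↦ ∏ i, t_{i, σ(i)}`. -/
noncomputable def toricMap : MvPolynomial (Perm X) k →ₐ[k] MvPolynomial (X × X) k :=
  MvPolynomial.aeval fun σ : Perm X => ∏ i : X, MvPolynomial.X (i, σ i)

/-- The binomial `∏ x_σ ^ (g⁺ σ) - ∏ x_σ ^ (g⁻ σ)` of a vector `g`. -/
noncomputable def binomial (g : Perm X → ℤ) : MvPolynomial (Perm X) k :=
  (∏ σ : Perm X, MvPolynomial.X σ ^ (g σ).toNat) - ∏ σ : Perm X, MvPolynomial.X σ ^ (-g σ).toNat

end Pool.Agent.Work.MP_697f4c_co
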