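import Pool.Agent.Work.MP_697f4c_co.Lower

/-! # Number of surveys reachable by one move of bounded degree (MP_697f4c_co) -/

namespace Pool.Agent.Work.MP_697f4c_co

open Finset Function Equiv

variable {X : Type*} [Fintype X] [LinearOrder X]

lemma exists_list : ∀ (D : ℕ) (f : Perm X → ℕ), voters f = D →
    ∃ l : Fin D → Perm X, f = ∑ k, one (l k) := by
  intro D
  induction D with
  | zero =>
    intro f hf
    refine ⟨fun k => k.elim0, ?_⟩
    rw [Fin.sum_univ_zero]
    funext σ
    have := (sum_eq_zero_iff.mp hf) σ (mem_univ σ)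
    simpa using this
  | succ D ih =>
    intro f hf
    obtain ⟨σ, hσ⟩ := exists_of_voters (f := f) (by omega)
    obtain ⟨g, hg⟩ := split_one hσ
    have hgD : voters g = D := by
      have := congrArg voters hg
      rw [voters_add, voters_one] at this
      omega
    obtain ⟨l, hl⟩ := ih g hgD
    refine ⟨Fin.cons σ l, ?_⟩
    rw [Fin.sum_univ_succ]
    simp only [Fin.cons_zero, Fin.cons_succ]
    rw [← hl, hg, add_comm]

lemma exists_sub : ∀ (d : ℕ) (f : Perm X → ℕ) (m : ℕ), voters f = m + d →
    ∃ h : Perm X → ℕ, (∀ σ, h σ ≤ f σ) ∧ voters h = m := by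
  intro d
  induction d with
  | zero =>
    intro f m hf
    exact ⟨f, fun σ => le_rfl, by omega⟩
  | succ d ih =>
    intro f m hf
    obtain ⟨σ, hσ⟩ := exists_of_voters (f := f) (by omega)
    obtain ⟨g, hg⟩ := split_one hσ
    have hgD : voters g = m + d := by
      have := congrArg voters hg
      rw [voters_add, voters_one] at this
      omega
    obtain ⟨h, h1, h2⟩ := ih g m hgD
    refine ⟨h, fun τ => (h1 τ).trans ?_, h2⟩
    rw [hg, Pi.add_apply]
    omega

lemma voters_sub {f h : Perm X → ℕ} (hle : ∀ σ, h σ ≤ f σ) :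
    voters (fun σ => f σ - h σ) + voters h = voters f := by
  unfold voters
  rw [← sum_add_distrib]
  exact sum_congr rfl fun σ _ => by have := hle σ; omega

/-- A move of degree at most `D` between surveys with at least `D` voters replaces `D` ballots. -/
lemma exists_lists {D : ℕ} {f f' : Perm X → ℕ} (hD : D ≤ voters f)
    (hv : voters f = voters f')
    (hdeg : ∑ σ : Perm X, |(f' σ : ℤ) - f σ| ≤ 2 * D) :
    ∃ (h : Perm X → ℕ) (l l' : Fin D → Perm X), f = h + ∑ k, one (l k) ∧
      f' = h + ∑ k, one (l' k) := by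
  let μ : Perm X → ℕ := fun σ => min (f σ) (f' σ)
  have h1 : voters (fun σ => f σ - μ σ) + voters μ = voters f :=
    voters_sub fun σ => Nat.min_le_left _ _
  have h2 : voters (fun σ => f' σ - μ σ) + voters μ = voters f' :=
    voters_sub fun σ => Nat.min_le_right _ _
  have h3 : ((voters (fun σ => f σ - μ σ) + voters (fun σ => f' σ - μ σ) : ℕ) : ℤ) ≤ 2 * D := by
    refine le_trans (le_of_eq ?_) hdeg
    unfold voters
    rw [← sum_add_distrib]
    push_cast
    refine sum_congr rfl fun σ _ => ?_
    simp only [μ]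
    rcases le_total (f σ) (f' σ) with h | h
    · rw [min_eq_left h, abs_of_nonneg (by omega)]
      omega
    · rw [min_eq_right h, abs_of_nonpos (by omega)]
      omega
  obtain ⟨h, hh1, hh2⟩ := exists_sub (voters μ - (voters f - D)) μ (voters f - D) (by omega)
  have hf : ∀ σ, h σ ≤ f σ := fun σ => (hh1 σ).trans (Nat.min_le_left _ _)
  have hf' : ∀ σ, h σ ≤ f' σ := fun σ => (hh1 σ).trans (Nat.min_le_right _ _)
  have h4 := voters_sub hf
  have h5 := voters_sub hf'
  obtain ⟨l, hl⟩ := exists_list D (fun σ => f σ - h σ) (by omega)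
  obtain ⟨l', hl'⟩ := exists_list D (fun σ => f' σ - h σ) (by omega)
  refine ⟨h, l, l', ?_, ?_⟩
  · rw [← hl]
    funext σ
    have := hf σ
    simp only [Pi.add_apply]
    omega
  · rw [← hl']
    funext σ
    have := hf' σ
    simp only [Pi.add_apply]
    omega

lemma summ_sum {D : ℕ} (l : Fin D → Perm X) (i j : X) :
    summ (∑ k, one (l k)) i j = (univ.filter fun k => l k i = j).card := by
  rw [card_filter]
  induction D with
  | zero =>
    rw [Fin.sum_univ_zero, Fin.sum_univ_zero]
    unfold summ
    exact sum_eq_zero fun σ _ => by simp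
  | succ D ih =>
    rw [Fin.sum_univ_succ, Fin.sum_univ_succ, summ_add, summ_one, ih fun k => l k.succ]

omit [Fintype X] in
lemma exists_perm {D : ℕ} (a b : Fin D → X)
    (h : ∀ j, (univ.filter fun k => a k = j).card = (univ.filter fun k => b k = j).card) :
    ∃ π : Perm (Fin D), ∀ k, b k = a (π k) := by
  have e : ∀ c : X, Nonempty ({k // b k = c} ≃ {k // a k = c}) := by
    intro c
    refine ⟨Fintype.equivOfCardEq ?_⟩
    rw [Fintype.card_subtype, Fintype.card_subtype, h c]
  exact ⟨Equiv.ofFiberEquiv fun c => (e c).some, fun k => (Equiv.ofFiberEquiv_map _ k).symm⟩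

open Classical in
/-- The ballots obtained by permuting the entries of a list of ballots in each column. -/
noncomputable def shuffle {D : ℕ} (l : Fin D → Perm X) (π : X → Perm (Fin D)) (k : Fin D) :
    Perm X :=
  if h : Bijective fun i => l (π i k) i then Equiv.ofBijective _ h else 1

/-- The surveys reachable from `f` by one move of degree at most `D`. -/
theorem degree_succ {D : ℕ} (f : Perm X → ℕ) (hD : D ≤ voters f) :
    ∃ s : Finset (Perm X → ℕ), s.card ≤ voters f ^ D * D.factorial ^ Fintype.card X ∧
      ∀ f', (∀ i j, summ f i j = summ f' i j) → voters f = voters f' →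
        ∑ σ : Perm X, |(f' σ : ℤ) - f σ| ≤ 2 * D → f' ∈ s := by
  classical
  let Φ : (Fin D → Perm X) × (X → Perm (Fin D)) → (Perm X → ℕ) := fun q =>
    (f - ∑ k, one (q.1 k)) + ∑ k, one (shuffle q.1 q.2 k)
  refine ⟨((Fintype.piFinset fun _ : Fin D => supp f) ×ˢ
    (univ : Finset (X → Perm (Fin D)))).image Φ, ?_, ?_⟩
  · refine card_image_le.trans ?_
    rw [card_product, Fintype.card_piFinset, prod_const, card_univ, card_univ, Fintype.card_fin,
      Fintype.card_fun, Fintype.card_perm, Fintype.card_fin]
    exact Nat.mul_le_mul_right _ (Nat.pow_le_pow_left (supp_card f) D)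
  · intro f' hs hv hdeg
    obtain ⟨h, l, l', hl, hl'⟩ := exists_lists hD hv hdeg
    have hcol : ∀ i j, (univ.filter fun k => l k i = j).card
        = (univ.filter fun k => l' k i = j).card := by
      intro i j
      have h1 := hs i j
      rw [hl, hl', summ_add, summ_add, summ_sum, summ_sum] at h1
      omega
    choose π hπ using fun i => exists_perm (fun k => l k i) (fun k => l' k i) (hcol i)
    refine mem_image.mpr ⟨(l, π), ?_, ?_⟩
    · rw [mem_product]
      refine ⟨?_, mem_univ _⟩
      rw [Fintype.mem_piFinset]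
      intro k
      rw [supp, mem_filter]
      refine ⟨mem_univ _, ?_⟩
      change 1 ≤ f (l k)
      rw [hl, Pi.add_apply, Finset.sum_apply]
      have : one (l k) (l k) ≤ ∑ c, one (l c) (l k) :=
        single_le_sum (f := fun c => one (l c) (l k)) (fun c _ => Nat.zero_le _) (mem_univ k)
      have h2 : one (l k) (l k) = 1 := by simp [one]
      omega
    · have hsh : ∀ k, shuffle l π k = l' k := by
        intro k
        have hb : (fun i => l (π i k) i) = (l' k : X → X) := by
          funext i
          exact (hπ i k).symm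
        have hbij : Bijective fun i => l (π i k) i := by
          rw [hb]
          exact (l' k).bijective
        unfold shuffle
        rw [dif_pos hbij]
        ext i
        exact congrFun hb i
      change (f - ∑ k, one (l k)) + ∑ k, one (shuffle l π k) = f'
      have hfun : (fun k => one (shuffle l π k)) = fun k => one (l' k) :=
        funext fun k => by rw [hsh k]
      rw [hfun, hl', hl]
      congr 1
      funext σ
      simp only [Pi.sub_apply, Pi.add_apply]
      omega

/-- The counting bound for moves of degree at most `D`. -/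
theorem entropy_degree [Nonempty X] (D N t : ℕ) (hD : D ≤ N)
    (ht : ∀ f f' : Perm X → ℕ, voters f = N → (∀ i j, summ f i j = summ f' i j) →
      ∃ j ≤ t, ∃ F : ℕ → Perm X → ℕ, F 0 = f ∧ F j = f' ∧ ∀ s < j,
        (∀ i j, summ (F s) i j = summ (F (s + 1)) i j) ∧
        ∑ σ : Perm X, |(F (s + 1) σ : ℤ) - F s σ| ≤ 2 * D) :
    ((Fintype.card X).factorial + N - 1).choose N
      ≤ (Fintype.card X + N - 1).choose N ^ Fintype.card X
        * (N ^ D * D.factorial ^ Fintype.card X + 1) ^ t := by
  refine entropy (fun f f' => (∀ i j, summ f i j = summ f' i j) ∧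
    ∑ σ : Perm X, |(f' σ : ℤ) - f σ| ≤ 2 * D) N _ t (fun f f' h => h.1) ?_ ht
  intro f hf
  obtain ⟨s, h1, h2⟩ := degree_succ f (by omega : D ≤ voters f)
  rw [hf] at h1
  refine ⟨s, h1, fun f' h => h2 f' h.1 ?_ h.2⟩
  obtain ⟨i⟩ := (inferInstance : Nonempty X)
  rw [voters_eq_summ f i, voters_eq_summ f' i]
  exact sum_congr rfl fun j _ => h.1 i j

end Pool.Agent.Work.MP_697f4c_co
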