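import Pool.Agent.Work.MP_697f4c_co.Four

/-!
MP_697f4c_co, work file: the functions on the symmetric group which are additive on pairs of
disjoint transpositions are the sums `∑ i, ψ i (σ i)`, up to the sign.
-/

open Equiv Equiv.Perm Finset

namespace Birk

section transport

variable {α : Type*} [DecidableEq α] {A : Type*} [AddCommGroup A]

theorem via_swap (e : Fin 4 ↪ α) (a b : Fin 4) :
    viaEmbeddingHom e (swap a b) = swap (e a) (e b) := by
  ext x
  rw [viaEmbeddingHom_apply]
  by_cases hx : x ∈ Set.range e
  · obtain ⟨t, rfl⟩ := hx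
    rw [viaEmbedding_apply]
    rcases eq_or_ne t a with rfl | hta
    · simp
    · rcases eq_or_ne t b with rfl | htb
      · simp
      · rw [swap_apply_of_ne_of_ne hta htb,
          swap_apply_of_ne_of_ne (e.injective.ne hta) (e.injective.ne htb)]
  · rw [viaEmbedding_apply_of_notMem _ _ _ hx, swap_apply_of_ne_of_ne]
    · rintro rfl; exact hx ⟨a, rfl⟩
    · rintro rfl; exact hx ⟨b, rfl⟩

theorem qrel_via {P : Perm α → Prop} {F : Perm α → A} (hQ : QRelOn P F) (e : Fin 4 ↪ α)
    (hP : ∀ ρ : Perm (Fin 4), P (viaEmbeddingHom e ρ)) :
    QRel (fun ρ : Perm (Fin 4) => F (viaEmbeddingHom e ρ)) := by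
  intro σ i j k l h
  have p1 := hP (σ * swap i j * swap k l)
  have p2 := hP (σ * swap i j)
  have p3 := hP (σ * swap k l)
  simp only [map_mul, via_swap] at p1 p2 p3 ⊢
  refine hQ _ _ _ _ _ ?_ (hP σ) p1 p2 p3
  obtain ⟨h1, h2, h3, h4, h5, h6⟩ := h
  exact ⟨e.injective.ne h1, e.injective.ne h2, e.injective.ne h3, e.injective.ne h4,
    e.injective.ne h5, e.injective.ne h6⟩

/-- the embedding of four points -/
def emb (w x y z : α) (h : Dis w x y z) : Fin 4 ↪ α where
  toFun := ![w, x, y, z]
  inj' := by
    obtain ⟨h1, h2, h3, h4, h5, h6⟩ := h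
    intro a b hab
    fin_cases a <;> fin_cases b <;> simp_all [eq_comm]

@[simp] theorem emb_zero (w x y z : α) (h : Dis w x y z) : emb w x y z h 0 = w := rfl
@[simp] theorem emb_one (w x y z : α) (h : Dis w x y z) : emb w x y z h 1 = x := rfl
@[simp] theorem emb_two (w x y z : α) (h : Dis w x y z) : emb w x y z h 2 = y := rfl
@[simp] theorem emb_three (w x y z : α) (h : Dis w x y z) : emb w x y z h 3 = z := rfl

theorem rot {i j k : α} (hij : i ≠ j) (hik : i ≠ k) :
    swap i j * swap j k = swap j k * swap k i := by
  have h := swap_mul_swap_mul_swap hij hik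
  rw [← h]
  simp [← mul_assoc]

theorem cub_two {P : Perm α → Prop} {F : Perm α → A} (hQ : QRelOn P F) {w x y z : α}
    (h : Dis w x y z) (hP : ∀ ρ : Perm (Fin 4), P (viaEmbeddingHom (emb w x y z h) ρ)) :
    cub F w x y + cub F w x y = 0 := by
  have := four_two (qrel_via hQ (emb w x y z h) hP)
  simpa [cub, via_swap] using this

theorem cub_swap {P : Perm α → Prop} {F : Perm α → A} (hQ : QRelOn P F) {w x y z : α}
    (h : Dis w x y z) (hP : ∀ ρ : Perm (Fin 4), P (viaEmbeddingHom (emb w x y z h) ρ)) :
    cub F w x y = cub F w x z := by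
  have := four_swap (qrel_via hQ (emb w x y z h) hP)
  simpa [cub, via_swap] using this

end transport

section vanish

variable {α : Type*} [DecidableEq α] [Fintype α] {A : Type*} [AddCommGroup A]

omit [Fintype α] in
theorem via_apply_ne (e : Fin 4 ↪ α) (ρ : Perm (Fin 4)) {x : α}
    (hx : viaEmbeddingHom e ρ x ≠ x) : x ∈ Finset.univ.map e := by
  by_contra h
  apply hx
  rw [viaEmbeddingHom_apply, viaEmbedding_apply_of_notMem]
  rintro ⟨t, rfl⟩
  exact h (Finset.mem_map_of_mem e (Finset.mem_univ t))

theorem via_card (e : Fin 4 ↪ α) (ρ : Perm (Fin 4)) :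
    (viaEmbeddingHom e ρ : Perm α).support.card ≤ 4 := by
  have h : (viaEmbeddingHom e ρ : Perm α).support ⊆ Finset.univ.map e := by
    intro x hx
    exact via_apply_ne e ρ (mem_support.1 hx)
  have := Finset.card_le_card h
  simpa using this

theorem vanish {P : Perm α → Prop} (hP4 : ∀ σ : Perm α, σ.support.card ≤ 4 → P σ)
    (hPs : ∀ σ τ : Perm α, P σ → τ.support ⊆ σ.support → P τ)
    (o : α) {H : Perm α → A} (hQ : QRelOn P H) (h1 : H 1 = 0)
    (h2 : ∀ i, i ≠ o → H (swap o i) = 0)
    (h3 : ∀ i j, i ≠ o → j ≠ o → i ≠ j → H (swap o i * swap i j) = 0)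
    (hC : ∀ i j, i ≠ o → j ≠ o → i ≠ j → cub H o i j = 0) (σ : Perm α) (hσP : P σ) :
    H σ = 0 := by
  -- all transpositions
  have hT : ∀ i j, i ≠ j → H (swap i j) = 0 := by
    intro i j hij
    rcases eq_or_ne i o with rfl | hi
    · exact h2 j (Ne.symm hij)
    rcases eq_or_ne j o with rfl | hj
    · rw [swap_comm]; exact h2 i hi
    have h := hC i j hi hj hij
    unfold cub at h
    rw [h1, h3 i j hi hj hij, h3 j i hj hi (Ne.symm hij), h2 i hi, h2 j hj] at h
    simpa using h
  -- all three-cycles
  have hThree : ∀ i j k, i ≠ j → j ≠ k → i ≠ k → H (swap i j * swap j k) = 0 := by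
    intro i j k hij hjk hik
    rcases eq_or_ne i o with rfl | hi
    · exact h3 j k (Ne.symm hij) (Ne.symm hik) hjk
    rcases eq_or_ne j o with rfl | hj
    · rw [rot hij hik]; exact h3 k i (Ne.symm hjk) hi (Ne.symm hik)
    rcases eq_or_ne k o with rfl | hk
    · rw [← rot (Ne.symm hik) (Ne.symm hjk)]; exact h3 i j hi hj hij
    -- the four-cycle `o → i → j → k → o`
    have hd : Dis o i j k := ⟨Ne.symm hi, Ne.symm hj, Ne.symm hk, hij, hik, hjk⟩
    have tr : ∀ (ρ : Perm (Fin 4)) (x : Perm α), viaEmbeddingHom (emb o i j k hd) ρ = x → P x :=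
      fun ρ x h => h ▸ hP4 _ (via_card _ ρ)
    have q1 := hQ (swap o i * swap i j * swap j k) o k j i
      ⟨Ne.symm hk, Ne.symm hj, Ne.symm hi, Ne.symm hjk, Ne.symm hik, Ne.symm hij⟩
      (tr (swap 0 1 * swap 1 2 * swap 2 3) _ (by
        simp only [map_mul, via_swap, emb_zero, emb_one, emb_two, emb_three]))
      (tr (swap 0 1 * swap 1 2 * swap 2 3 * swap 0 3 * swap 2 1) _ (by
        simp only [map_mul, via_swap, emb_zero, emb_one, emb_two, emb_three]))
      (tr (swap 0 1 * swap 1 2 * swap 2 3 * swap 0 3) _ (by
        simp only [map_mul, via_swap, emb_zero, emb_one, emb_two, emb_three]))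
      (tr (swap 0 1 * swap 1 2 * swap 2 3 * swap 2 1) _ (by
        simp only [map_mul, via_swap, emb_zero, emb_one, emb_two, emb_three]))
    have q2 := hQ (swap o i * swap i j * swap j k) i o k j
      ⟨hi, hik, hij, Ne.symm hk, Ne.symm hj, Ne.symm hjk⟩
      (tr (swap 0 1 * swap 1 2 * swap 2 3) _ (by
        simp only [map_mul, via_swap, emb_zero, emb_one, emb_two, emb_three]))
      (tr (swap 0 1 * swap 1 2 * swap 2 3 * swap 1 0 * swap 3 2) _ (by
        simp only [map_mul, via_swap, emb_zero, emb_one, emb_two, emb_three]))
      (tr (swap 0 1 * swap 1 2 * swap 2 3 * swap 1 0) _ (by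
        simp only [map_mul, via_swap, emb_zero, emb_one, emb_two, emb_three]))
      (tr (swap 0 1 * swap 1 2 * swap 2 3 * swap 3 2) _ (by
        simp only [map_mul, via_swap, emb_zero, emb_one, emb_two, emb_three]))
    have e1 := congrArg (viaEmbeddingHom (emb o i j k hd))
      (show (swap 0 1 * swap 1 2 * swap 2 3 * swap 0 3 * swap 2 1 : Perm (Fin 4)) = swap 1 3
        by decide)
    have e2 := congrArg (viaEmbeddingHom (emb o i j k hd))
      (show (swap 0 1 * swap 1 2 * swap 2 3 * swap 0 3 : Perm (Fin 4)) = swap 1 2 * swap 2 3
        by decide)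
    have e3 := congrArg (viaEmbeddingHom (emb o i j k hd))
      (show (swap 0 1 * swap 1 2 * swap 2 3 * swap 2 1 : Perm (Fin 4)) = swap 0 1 * swap 1 3
        by decide)
    have e4 := congrArg (viaEmbeddingHom (emb o i j k hd))
      (show (swap 0 1 * swap 1 2 * swap 2 3 * swap 1 0 * swap 3 2 : Perm (Fin 4)) = swap 0 2
        by decide)
    have e5 := congrArg (viaEmbeddingHom (emb o i j k hd))
      (show (swap 0 1 * swap 1 2 * swap 2 3 * swap 1 0 : Perm (Fin 4)) = swap 0 2 * swap 2 3
        by decide)
    have e6 := congrArg (viaEmbeddingHom (emb o i j k hd))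
      (show (swap 0 1 * swap 1 2 * swap 2 3 * swap 3 2 : Perm (Fin 4)) = swap 0 1 * swap 1 2
        by decide)
    simp only [map_mul, via_swap, emb_zero, emb_one, emb_two, emb_three] at e1 e2 e3 e4 e5 e6
    rw [e1, e2, e3, hT i k hik, h3 i k hi hk hik] at q1
    rw [e4, e5, e6, h2 j hj, h3 j k hj hk hjk, h3 i j hi hj hij] at q2
    simp only [add_zero] at q1 q2
    rw [← q1, q2]
  -- induction on the support
  have key : ∀ n : ℕ, ∀ σ : Perm α, P σ → σ.support.card ≤ n → H σ = 0 := by
    intro n
    induction n with
    | zero =>
      intro σ _ hσ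
      have : σ = 1 := by
        rw [← support_eq_empty_iff, ← Finset.card_eq_zero]; omega
      rw [this, h1]
    | succ n ih =>
      intro σ hσP hσ
      by_cases hone : σ = 1
      · rw [hone, h1]
      obtain ⟨x, hx⟩ : ∃ x, σ x ≠ x := by
        by_contra hcon
        push Not at hcon
        exact hone (Perm.ext hcon)
      set y := σ⁻¹ x with hy
      have hσy : σ y = x := by simp [hy]
      have hyx : y ≠ x := by intro h; rw [h] at hσy; exact hx hσy
      by_cases hz : ∃ z, σ z ≠ z ∧ z ≠ x ∧ z ≠ y ∧ z ≠ σ x
      · obtain ⟨z, hzz, hzx, hzy, hzs⟩ := hz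
        set w := σ⁻¹ z with hw
        have hσw : σ w = z := by simp [hw]
        have hwz : w ≠ z := by intro h; rw [h] at hσw; exact hzz hσw
        have hwx : w ≠ x := by intro h; rw [h] at hσw; exact hzs hσw.symm
        have hwy : w ≠ y := by intro h; rw [h, hσy] at hσw; exact hzx hσw.symm
        have hxs : x ∈ σ.support := mem_support.2 hx
        have hys : y ∈ σ.support := mem_support.2 (by rw [hσy]; exact Ne.symm hyx)
        have hzs' : z ∈ σ.support := mem_support.2 hzz
        have hws : w ∈ σ.support := mem_support.2 (by rw [hσw]; exact Ne.symm hwz)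
        have s1 : (σ * swap x y).support ⊆ σ.support.erase x := by
          intro u hu
          rw [mem_support, Perm.mul_apply] at hu
          rw [Finset.mem_erase]
          constructor
          · rintro rfl; simp [hσy] at hu
          · by_contra hus
            have hux : u ≠ x := by rintro rfl; exact hus hxs
            have huy : u ≠ y := by rintro rfl; exact hus hys
            rw [swap_apply_of_ne_of_ne hux huy] at hu
            exact hus (mem_support.2 hu)
        have c1 : (σ * swap x y).support.card ≤ n := by
          have := Finset.card_le_card s1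
          rw [Finset.card_erase_of_mem hxs] at this
          omega
        have s2 : (σ * swap z w).support ⊆ σ.support.erase z := by
          intro u hu
          rw [mem_support, Perm.mul_apply] at hu
          rw [Finset.mem_erase]
          constructor
          · rintro rfl; simp [hσw] at hu
          · by_contra hus
            have hux : u ≠ z := by rintro rfl; exact hus hzs'
            have huy : u ≠ w := by rintro rfl; exact hus hws
            rw [swap_apply_of_ne_of_ne hux huy] at hu
            exact hus (mem_support.2 hu)
        have c2 : (σ * swap z w).support.card ≤ n := by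
          have := Finset.card_le_card s2
          rw [Finset.card_erase_of_mem hzs'] at this
          omega
        have s3 : (σ * swap x y * swap z w).support ⊆ σ.support.erase x := by
          intro u hu
          rw [mem_support, Perm.mul_apply, Perm.mul_apply] at hu
          rw [Finset.mem_erase]
          constructor
          · rintro rfl
            rw [swap_apply_of_ne_of_ne (Ne.symm hzx) (Ne.symm hwx)] at hu
            simp [hσy] at hu
          · by_contra hus
            have hux : u ≠ x := by rintro rfl; exact hus hxs
            have huy : u ≠ y := by rintro rfl; exact hus hys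
            have huz : u ≠ z := by rintro rfl; exact hus hzs'
            have huw : u ≠ w := by rintro rfl; exact hus hws
            rw [swap_apply_of_ne_of_ne huz huw, swap_apply_of_ne_of_ne hux huy] at hu
            exact hus (mem_support.2 hu)
        have c3 : (σ * swap x y * swap z w).support.card ≤ n := by
          have := Finset.card_le_card s3
          rw [Finset.card_erase_of_mem hxs] at this
          omega
        have p1 := hPs σ _ hσP (s1.trans (Finset.erase_subset _ _))
        have p2 := hPs σ _ hσP (s2.trans (Finset.erase_subset _ _))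
        have p3 := hPs σ _ hσP (s3.trans (Finset.erase_subset _ _))
        have q := hQ σ x y z w ⟨Ne.symm hyx, Ne.symm hzx, Ne.symm hwx, Ne.symm hzy,
          Ne.symm hwy, Ne.symm hwz⟩ hσP p3 p1 p2
        rw [ih _ p1 c1, ih _ p2 c2, ih _ p3 c3] at q
        simpa using q
      · push Not at hz
        by_cases hσx : σ x = y
        · have : σ = swap x y := by
            ext u
            by_cases hux : u = x
            · subst hux; rw [swap_apply_left]; exact hσx
            by_cases huy : u = y
            · subst huy; rw [swap_apply_right]; exact hσy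
            rw [swap_apply_of_ne_of_ne hux huy]
            by_contra hu
            have := hz u hu hux huy
            rw [hσx] at this
            exact huy this
          rw [this]; exact hT x y (Ne.symm hyx)
        · set z := σ x with hzdef
          have hzx : z ≠ x := hx
          have hzy : z ≠ y := hσx
          have hσz1 : σ z ≠ z := by
            intro h
            exact hzx (σ.injective (by rw [h, hzdef]))
          have hσz2 : σ z ≠ x := by
            intro h
            exact hzy (σ.injective (by rw [h, hσy]))
          have hσz : σ z = y := by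
            by_contra h
            have h4 : σ (σ z) ≠ σ z := fun h' => hσz1 (σ.injective h')
            exact hσz1 (hz (σ z) h4 hσz2 h)
          have : σ = swap y x * swap x z := by
            ext u
            rw [Perm.mul_apply]
            by_cases hux : u = x
            · subst hux; rw [swap_apply_left, swap_apply_of_ne_of_ne hzy hzx]
            by_cases huy : u = y
            · rw [huy, swap_apply_of_ne_of_ne hyx (Ne.symm hzy), swap_apply_left]; exact hσy
            by_cases huz : u = z
            · rw [huz, swap_apply_right, swap_apply_right]; exact hσz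
            rw [swap_apply_of_ne_of_ne hux huz, swap_apply_of_ne_of_ne huy hux]
            by_contra hu
            exact huz (hz u hu hux huy)
          rw [this]; exact hThree y x z hyx (Ne.symm hzx) (Ne.symm hzy)
  exact key _ σ hσP le_rfl

end vanish

end Birk
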