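import Pool.Agent.Work.MP_697f4c_co.MonoFour

/-!
MP_697f4c_co, work file: the flipped context does not depend on the block.
-/

open Equiv Equiv.Perm Finset

namespace Birk

variable {M : Type*} [AddCommMonoid M]

section transport

variable {α : Type*} [DecidableEq α]

theorem eq_via {F : Perm α → M} (hQ : EQ F) (ρ : Perm α) (e : Fin 4 ↪ α) :
    EQ (fun τ : Perm (Fin 4) => F (ρ * viaEmbeddingHom e τ)) := by
  intro σ i j k l h
  simp only [map_mul, via_swap]
  have h2 := hQ (ρ * viaEmbeddingHom e σ) (e i) (e j) (e k) (e l) (by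
    obtain ⟨h1, h2, h3, h4, h5, h6⟩ := h
    exact ⟨e.injective.ne h1, e.injective.ne h2, e.injective.ne h3, e.injective.ne h4,
      e.injective.ne h5, e.injective.ne h6⟩)
  simpa only [mul_assoc] using h2

theorem swapG {F : Perm α → M} (hQ : EQ F) (ρ : Perm α) {x y z w : α} (h : Dis x y z w) :
    F ρ + F (ρ * (swap x y * swap y z)) + F (ρ * (swap x z * swap z y))
        + F (ρ * swap x y) + F (ρ * swap y w) + F (ρ * swap x w)
        + F (ρ * (swap y z * swap z w))
      = F (ρ * swap x y) + F (ρ * swap y z) + F (ρ * swap x z)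
        + F ρ + F (ρ * (swap x y * swap y w)) + F (ρ * (swap x w * swap w y))
        + F (ρ * (swap y z * swap z w)) := by
  have := swap4 (eq_via hQ ρ (emb x y z w h))
  simpa only [map_mul, map_one, mul_one, via_swap, emb_zero, emb_one, emb_two, emb_three]
    using this

theorem flipG {F : Perm α → M} (hQ : EQ F) (ρ : Perm α) {x y z w : α} (h : Dis x y z w) :
    F ρ + F (ρ * (swap x y * swap y z)) + F (ρ * (swap x z * swap z y))
        + F ρ + F (ρ * (swap x y * swap y z)) + F (ρ * (swap x z * swap z y))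
        + F (ρ * swap z w) + F (ρ * (swap y z * swap z w)) + F (ρ * (swap x y * swap y w))
      = F (ρ * swap x y) + F (ρ * swap y z) + F (ρ * swap x z)
        + F (ρ * swap x y) + F (ρ * swap y z) + F (ρ * swap x z)
        + F (ρ * swap z w) + F (ρ * (swap y z * swap z w)) + F (ρ * (swap x y * swap y w)) := by
  have := flip4 (eq_via hQ ρ (emb x y z w h))
  simpa only [map_mul, map_one, mul_one, via_swap, emb_zero, emb_one, emb_two, emb_three]
    using this

theorem ne_of_mul {ρ u v : Perm α} (x : α) (h : u x ≠ v x) : ρ * u ≠ ρ * v := by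
  intro e
  apply h
  have h2 : (ρ * u) x = (ρ * v) x := by rw [e]
  rw [Perm.mul_apply, Perm.mul_apply] at h2
  exact ρ.injective h2

theorem ne_of_mul_one {ρ u : Perm α} (x : α) (h : u x ≠ x) : ρ ≠ ρ * u := by
  have := ne_of_mul (ρ := ρ) (u := 1) (v := u) x (by simpa using Ne.symm h)
  simpa using this

end transport

variable {α : Type*} [DecidableEq α] [Fintype α]

/-- the rankings of one orientation in a block -/
def s1 (ρ : Perm α) (x y z : α) : Finset (Perm α) :=
  {ρ, ρ * (swap x y * swap y z), ρ * (swap x z * swap z y)}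

/-- the rankings of the other orientation in a block -/
def s2 (ρ : Perm α) (x y z : α) : Finset (Perm α) :=
  {ρ * swap x y, ρ * swap y z, ρ * swap x z}

/-- the flipped context -/
def Phi (F : Perm α → M) (ρ : Perm α) (x y z : α) : M :=
  ∑ σ ∈ s1 ρ x y z, F σ + ∑ σ ∈ (s2 ρ x y z)ᶜ, F σ + ∑ σ, F σ

theorem c1x {x y z : α} (hxy : x ≠ y) (hxz : x ≠ z) : (swap x y * swap y z) x = y := by
  rw [Perm.mul_apply, swap_apply_of_ne_of_ne hxy hxz, swap_apply_left]

theorem sum_s1 (F : Perm α → M) (ρ : Perm α) {x y z : α} (hxy : x ≠ y) (hyz : y ≠ z)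
    (hxz : x ≠ z) : ∑ σ ∈ s1 ρ x y z, F σ
      = F ρ + F (ρ * (swap x y * swap y z)) + F (ρ * (swap x z * swap z y)) := by
  unfold s1
  rw [sum_insert, sum_insert, sum_singleton, ← add_assoc]
  · rw [mem_singleton]
    apply ne_of_mul x
    rw [c1x hxy hxz, c1x hxz hxy]
    exact hyz
  · rw [mem_insert, mem_singleton, not_or]
    constructor
    · apply ne_of_mul_one x
      rw [c1x hxy hxz]; exact Ne.symm hxy
    · apply ne_of_mul_one x
      rw [c1x hxz hxy]; exact Ne.symm hxz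

theorem sum_s2 (F : Perm α → M) (ρ : Perm α) {x y z : α} (hxy : x ≠ y) (hyz : y ≠ z)
    (hxz : x ≠ z) : ∑ σ ∈ s2 ρ x y z, F σ
      = F (ρ * swap x y) + F (ρ * swap y z) + F (ρ * swap x z) := by
  unfold s2
  rw [sum_insert, sum_insert, sum_singleton, ← add_assoc]
  · rw [mem_singleton]
    apply ne_of_mul x
    rw [swap_apply_of_ne_of_ne hxy hxz, swap_apply_left]
    exact hxz
  · rw [mem_insert, mem_singleton, not_or]
    constructor
    · apply ne_of_mul x
      rw [swap_apply_of_ne_of_ne hxy hxz, swap_apply_left]; exact Ne.symm hxy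
    · apply ne_of_mul x
      rw [swap_apply_left, swap_apply_left]; exact hyz

theorem sum_split (F : Perm α → M) (S : Finset (Perm α)) :
    ∑ σ, F σ = ∑ σ ∈ S, F σ + ∑ σ ∈ Sᶜ, F σ := (Finset.sum_add_sum_compl S F).symm

/-- change of one point of the block -/
theorem phi_point {F : Perm α → M} (hQ : EQ F) (ρ : Perm α) {x y z w : α} (h : Dis x y z w) :
    Phi F ρ x y z = Phi F ρ x y w := by
  obtain ⟨hxy, hxz, hxw, hyz, hyw, hzw⟩ := h
  set k := ρ * (swap y z * swap z w) with hk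
  have hkm : k ∈ (s2 ρ x y w)ᶜ := by
    rw [mem_compl]
    unfold s2
    rw [mem_insert, mem_insert, mem_singleton, not_or, not_or]
    have kx : (swap y z * swap z w) x = x := by
      rw [Perm.mul_apply, swap_apply_of_ne_of_ne hxz hxw, swap_apply_of_ne_of_ne hxy hxz]
    refine ⟨?_, ?_, ?_⟩
    · apply ne_of_mul x
      rw [kx, swap_apply_left]; exact hxy
    · apply ne_of_mul z
      rw [Perm.mul_apply, swap_apply_left, swap_apply_of_ne_of_ne (Ne.symm hyw) (Ne.symm hzw),
        swap_apply_of_ne_of_ne (Ne.symm hyz) hzw]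
      exact Ne.symm hzw
    · apply ne_of_mul x
      rw [kx, swap_apply_left]; exact hxw
  have e1 : ∑ σ ∈ (s2 ρ x y w)ᶜ, F σ = F k + ∑ σ ∈ ((s2 ρ x y w)ᶜ).erase k, F σ :=
    (add_sum_erase _ F hkm).symm
  unfold Phi
  rw [sum_s1 F ρ hxy hyz hxz, sum_s1 F ρ hxy hyw hxw]
  have e2 := sum_split F (s2 ρ x y w)
  have e3 := sum_split F (s2 ρ x y z)
  rw [sum_s2 F ρ hxy hyw hxw, e1] at e2
  rw [sum_s2 F ρ hxy hyz hxz] at e3
  have hs := swapG hQ ρ (x := x) (y := y) (z := z) (w := w) ⟨hxy, hxz, hxw, hyz, hyw, hzw⟩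
  rw [← hk] at hs
  set R := ∑ σ ∈ ((s2 ρ x y w)ᶜ).erase k, F σ
  set Z := ∑ σ ∈ (s2 ρ x y z)ᶜ, F σ
  calc F ρ + F (ρ * (swap x y * swap y z)) + F (ρ * (swap x z * swap z y)) + Z + ∑ σ, F σ
      = F ρ + F (ρ * (swap x y * swap y z)) + F (ρ * (swap x z * swap z y)) + Z
        + (F (ρ * swap x y) + F (ρ * swap y w) + F (ρ * swap x w) + (F k + R)) := by rw [← e2]
    _ = (F ρ + F (ρ * (swap x y * swap y z)) + F (ρ * (swap x z * swap z y))
        + F (ρ * swap x y) + F (ρ * swap y w) + F (ρ * swap x w) + F k) + R + Z := by abel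
    _ = (F (ρ * swap x y) + F (ρ * swap y z) + F (ρ * swap x z)
        + F ρ + F (ρ * (swap x y * swap y w)) + F (ρ * (swap x w * swap w y)) + F k)
        + R + Z := by rw [hs]
    _ = F ρ + F (ρ * (swap x y * swap y w)) + F (ρ * (swap x w * swap w y)) + (F k + R)
        + (F (ρ * swap x y) + F (ρ * swap y z) + F (ρ * swap x z) + Z) := by abel
    _ = F ρ + F (ρ * (swap x y * swap y w)) + F (ρ * (swap x w * swap w y)) +
        ∑ σ ∈ (s2 ρ x y w)ᶜ, F σ + ∑ σ, F σ := by rw [← e3, ← e1]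

/-- the two orientations of a block -/
theorem phi_flip {F : Perm α → M} (hQ : EQ F) (ρ : Perm α) {x y z w : α} (h : Dis x y z w) :
    Phi F ρ x y z = ∑ σ ∈ s2 ρ x y z, F σ + ∑ σ ∈ (s1 ρ x y z)ᶜ, F σ + ∑ σ, F σ := by
  obtain ⟨hxy, hxz, hxw, hyz, hyw, hzw⟩ := h
  set k1 := ρ * swap z w with hk1
  set k2 := ρ * (swap y z * swap z w) with hk2
  set k3 := ρ * (swap x y * swap y w) with hk3
  have v1 : (swap z w) w = z := swap_apply_right _ _
  have v2 : (swap y z * swap z w) w = y := by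
    rw [Perm.mul_apply, swap_apply_right, swap_apply_right]
  have v3 : (swap x y * swap y w) w = x := by
    rw [Perm.mul_apply, swap_apply_right, swap_apply_right]
  have f1 : (swap x y * swap y z) w = w := by
    rw [Perm.mul_apply, swap_apply_of_ne_of_ne (Ne.symm hyw) (Ne.symm hzw),
      swap_apply_of_ne_of_ne (Ne.symm hxw) (Ne.symm hyw)]
  have f2 : (swap x z * swap z y) w = w := by
    rw [Perm.mul_apply, swap_apply_of_ne_of_ne (Ne.symm hzw) (Ne.symm hyw),
      swap_apply_of_ne_of_ne (Ne.symm hxw) (Ne.symm hzw)]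
  have out : ∀ u : Perm α, u w ≠ w → ρ * u ∈ (s1 ρ x y z)ᶜ := by
    intro u hu
    rw [mem_compl]
    unfold s1
    rw [mem_insert, mem_insert, mem_singleton, not_or, not_or]
    refine ⟨(ne_of_mul_one w hu).symm, ?_, ?_⟩
    · apply ne_of_mul w; rw [f1]; exact hu
    · apply ne_of_mul w; rw [f2]; exact hu
  have m1 : k1 ∈ (s1 ρ x y z)ᶜ := out _ (by rw [v1]; exact hzw)
  have m2 : k2 ∈ ((s1 ρ x y z)ᶜ).erase k1 := by
    rw [mem_erase]
    refine ⟨?_, out _ (by rw [v2]; exact hyw)⟩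
    apply ne_of_mul w; rw [v2, v1]; exact hyz
  have m3 : k3 ∈ (((s1 ρ x y z)ᶜ).erase k1).erase k2 := by
    rw [mem_erase, mem_erase]
    refine ⟨?_, ?_, out _ (by rw [v3]; exact hxw)⟩
    · apply ne_of_mul w; rw [v3, v2]; exact hxy
    · apply ne_of_mul w; rw [v3, v1]; exact hxz
  have e1 : ∑ σ ∈ (s1 ρ x y z)ᶜ, F σ
      = F k1 + (F k2 + (F k3 + ∑ σ ∈ ((((s1 ρ x y z)ᶜ).erase k1).erase k2).erase k3, F σ)) := by
    rw [add_sum_erase _ F m3, add_sum_erase _ F m2, add_sum_erase _ F m1]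
  unfold Phi
  have e2 := sum_split F (s1 ρ x y z)
  have e3 := sum_split F (s2 ρ x y z)
  rw [sum_s1 F ρ hxy hyz hxz] at e2 ⊢
  rw [sum_s2 F ρ hxy hyz hxz] at e3 ⊢
  have hs := flipG hQ ρ (x := x) (y := y) (z := z) (w := w) ⟨hxy, hxz, hxw, hyz, hyw, hzw⟩
  rw [← hk1, ← hk2, ← hk3] at hs
  set R := ∑ σ ∈ ((((s1 ρ x y z)ᶜ).erase k1).erase k2).erase k3, F σ
  set Z2 := ∑ σ ∈ (s2 ρ x y z)ᶜ, F σ
  set Z1 := ∑ σ ∈ (s1 ρ x y z)ᶜ, F σ
  calc F ρ + F (ρ * (swap x y * swap y z)) + F (ρ * (swap x z * swap z y)) + Z2 + ∑ σ, F σ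
      = F ρ + F (ρ * (swap x y * swap y z)) + F (ρ * (swap x z * swap z y)) + Z2
        + (F ρ + F (ρ * (swap x y * swap y z)) + F (ρ * (swap x z * swap z y)) + Z1) := by
        rw [← e2]
    _ = F ρ + F (ρ * (swap x y * swap y z)) + F (ρ * (swap x z * swap z y)) + Z2
        + (F ρ + F (ρ * (swap x y * swap y z)) + F (ρ * (swap x z * swap z y))
          + (F k1 + (F k2 + (F k3 + R)))) := by rw [e1]
    _ = (F ρ + F (ρ * (swap x y * swap y z)) + F (ρ * (swap x z * swap z y))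
        + F ρ + F (ρ * (swap x y * swap y z)) + F (ρ * (swap x z * swap z y))
        + F k1 + F k2 + F k3) + R + Z2 := by abel
    _ = (F (ρ * swap x y) + F (ρ * swap y z) + F (ρ * swap x z)
        + F (ρ * swap x y) + F (ρ * swap y z) + F (ρ * swap x z)
        + F k1 + F k2 + F k3) + R + Z2 := by rw [hs]
    _ = F (ρ * swap x y) + F (ρ * swap y z) + F (ρ * swap x z)
        + (F k1 + (F k2 + (F k3 + R)))
        + (F (ρ * swap x y) + F (ρ * swap y z) + F (ρ * swap x z) + Z2) := by abel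
    _ = F (ρ * swap x y) + F (ρ * swap y z) + F (ρ * swap x z) + Z1 + ∑ σ, F σ := by
        rw [← e3, ← e1]

theorem s1_swap (ρ : Perm α) {x y z : α} (hxy : x ≠ y) (hyz : y ≠ z) (hxz : x ≠ z) :
    s1 ρ y x z = s1 ρ x y z := by
  unfold s1
  have a1 : swap y x * swap x z = swap x z * swap z y := rot (Ne.symm hxy) hyz
  have a2 : swap y z * swap z x = swap x y * swap y z := by
    rw [← rot hxy hxz]
  rw [a1, a2, Finset.pair_comm]

theorem s2_swap (ρ : Perm α) (x y z : α) : s2 ρ y x z = s2 ρ x y z := by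
  unfold s2
  rw [swap_comm y x, Finset.pair_comm (ρ * swap x z)]

theorem s1_swap' (ρ : Perm α) (x y z : α) : s1 ρ x z y = s1 ρ x y z := by
  unfold s1
  rw [Finset.pair_comm]

theorem s2_swap' (ρ : Perm α) (x y z : α) : s2 ρ x z y = s2 ρ x y z := by
  unfold s2
  rw [swap_comm z y]
  ext σ
  simp only [mem_insert, mem_singleton]
  tauto

/-- the other orientation is a block, too -/
theorem s1_base (ρ : Perm α) {x y z : α} (hxy : x ≠ y) (hyz : y ≠ z) (hxz : x ≠ z) :
    s1 (ρ * swap x y) x y z = s2 ρ x y z := by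
  unfold s1 s2
  have a1 : ρ * swap x y * (swap x y * swap y z) = ρ * swap y z := by
    simp [mul_assoc, ← mul_assoc (swap x y) (swap x y)]
  have a2 : ρ * swap x y * (swap x z * swap z y) = ρ * swap x z := by
    have this : swap x z * swap z y = swap x y * swap x z := by
      rw [← rot (i := y) (j := x) (k := z) (Ne.symm hxy) hyz, swap_comm y x]
    rw [this]
    simp [mul_assoc, ← mul_assoc (swap x y) (swap x y)]
  rw [a1, a2]

end Birk
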