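import Pool.Agent.Work.MP_697f4c_co.Flip

/-!
MP_697f4c_co, work file: the flipped context is the same for all blocks.
-/

open Equiv Equiv.Perm Finset

namespace Birk

variable {M : Type*} [AddCommMonoid M] {α : Type*} [DecidableEq α] [Fintype α]

theorem phi_swap (F : Perm α → M) (ρ : Perm α) {x y z : α} (hxy : x ≠ y) (hyz : y ≠ z)
    (hxz : x ≠ z) : Phi F ρ y x z = Phi F ρ x y z := by
  unfold Phi
  rw [s1_swap ρ hxy hyz hxz, s2_swap]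

theorem phi_swap' (F : Perm α → M) (ρ : Perm α) (x y z : α) :
    Phi F ρ x z y = Phi F ρ x y z := by
  unfold Phi
  rw [s1_swap', s2_swap']

theorem phi_point' {F : Perm α → M} (hQ : EQ F) (ρ : Perm α) {x y z w : α} (hxy : x ≠ y)
    (hyz : y ≠ z) (hxz : x ≠ z) (hxw : x ≠ w) (hyw : y ≠ w) : Phi F ρ x y z = Phi F ρ x y w := by
  by_cases hzw : z = w
  · rw [hzw]
  · exact phi_point hQ ρ ⟨hxy, hxz, hxw, hyz, hyw, hzw⟩

theorem phi_tri {F : Perm α → M} (hQ : EQ F) (ρ : Perm α) {x y z x' y' z' : α} (hxy : x ≠ y)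
    (hyz : y ≠ z) (hxz : x ≠ z) (hxy' : x' ≠ y') (hyz' : y' ≠ z') (hxz' : x' ≠ z') :
    Phi F ρ x y z = Phi F ρ x' y' z' := by
  obtain ⟨u, v, h1, h2, h3, e1⟩ : ∃ u v, x' ≠ u ∧ u ≠ v ∧ x' ≠ v ∧
      Phi F ρ x y z = Phi F ρ x' u v := by
    by_cases c1 : x' = x
    · subst c1; exact ⟨y, z, hxy, hyz, hxz, rfl⟩
    by_cases c2 : x' = y
    · subst c2; exact ⟨x, z, Ne.symm hxy, hxz, hyz, (phi_swap F ρ hxy hyz hxz).symm⟩
    by_cases c3 : x' = z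
    · subst c3
      refine ⟨x, y, Ne.symm hxz, hxy, Ne.symm hyz, ?_⟩
      rw [phi_swap F ρ hxz (Ne.symm hyz) hxy, phi_swap']
    · refine ⟨y, z, c2, hyz, c3, ?_⟩
      calc Phi F ρ x y z = Phi F ρ y x z := (phi_swap F ρ hxy hyz hxz).symm
        _ = Phi F ρ y z x := (phi_swap' F ρ y x z).symm
        _ = Phi F ρ y z x' := phi_point' hQ ρ hyz (Ne.symm hxz) (Ne.symm hxy) (Ne.symm c2)
            (Ne.symm c3)
        _ = Phi F ρ y x' z := phi_swap' F ρ y x' z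
        _ = Phi F ρ x' y z := phi_swap F ρ c2 hyz c3
  obtain ⟨v2, h4, h5, e2⟩ : ∃ v2, y' ≠ v2 ∧ x' ≠ v2 ∧ Phi F ρ x' u v = Phi F ρ x' y' v2 := by
    by_cases c1 : y' = u
    · subst c1; exact ⟨v, h2, h3, rfl⟩
    by_cases c2 : y' = v
    · subst c2; exact ⟨u, Ne.symm h2, h1, (phi_swap' F ρ x' u y').symm⟩
    · refine ⟨v, c2, h3, ?_⟩
      calc Phi F ρ x' u v = Phi F ρ x' v u := (phi_swap' F ρ x' u v).symm
        _ = Phi F ρ x' v y' := phi_point' hQ ρ h3 (Ne.symm h2) h1 hxy' (Ne.symm c2)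
        _ = Phi F ρ x' y' v := phi_swap' F ρ x' y' v
  rw [e1, e2]
  exact phi_point' hQ ρ hxy' h4 h5 hxz' hyz'

theorem s2_base (ρ : Perm α) {x y z : α} (hxy : x ≠ y) (hyz : y ≠ z) (hxz : x ≠ z) :
    s2 (ρ * swap x y) x y z = s1 ρ x y z := by
  have h := s1_base (ρ * swap x y) hxy hyz hxz
  rw [← h]
  congr 1
  rw [mul_assoc, swap_mul_self, mul_one]

/-- other points -/
theorem other_pt {s : Finset α} (hs : s.card < Fintype.card α) : ∃ x, x ∉ s := by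
  by_contra h
  push Not at h
  have : s = Finset.univ := Finset.eq_univ_iff_forall.2 h
  rw [this, Finset.card_univ] at hs
  omega

theorem phi_all (hα : 4 ≤ Fintype.card α) {F : Perm α → M} (hQ : EQ F) (ρ ρ' : Perm α)
    {x y z x' y' z' : α} (hxy : x ≠ y)
    (hyz : y ≠ z) (hxz : x ≠ z) (hxy' : x' ≠ y') (hyz' : y' ≠ z') (hxz' : x' ≠ z') :
    Phi F ρ x y z = Phi F ρ' x' y' z' := by
  -- change of the base by a transposition
  have base : ∀ (ρ : Perm α) (u v : α), u ≠ v → Phi F (ρ * swap u v) x y z = Phi F ρ x y z := by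
    intro ρ u v huv
    obtain ⟨w, hw⟩ := other_pt (s := ({u, v} : Finset α))
      (lt_of_le_of_lt Finset.card_le_two (by omega))
    obtain ⟨t, ht⟩ := other_pt (s := ({u, v, w} : Finset α))
      (lt_of_le_of_lt Finset.card_le_three (by omega))
    simp only [mem_insert, mem_singleton, not_or] at hw ht
    have hD : Dis u v w t := ⟨huv, Ne.symm hw.1, Ne.symm ht.1, Ne.symm hw.2, Ne.symm ht.2.1,
      Ne.symm ht.2.2⟩
    rw [phi_tri hQ (ρ * swap u v) hxy hyz hxz huv (Ne.symm hw.2) (Ne.symm hw.1),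
      phi_tri hQ ρ hxy hyz hxz huv (Ne.symm hw.2) (Ne.symm hw.1), phi_flip hQ ρ hD]
    unfold Phi
    rw [s1_base ρ huv (Ne.symm hw.2) (Ne.symm hw.1), s2_base ρ huv (Ne.symm hw.2) (Ne.symm hw.1)]
  have all : ∀ ρ : Perm α, Phi F ρ x y z = Phi F 1 x y z := by
    intro ρ
    induction ρ using Equiv.Perm.swap_induction_on' with
    | one => rfl
    | mul_swap f u v huv ih => rw [base f u v huv, ih]
  rw [all ρ, ← all ρ']
  exact phi_tri hQ ρ' hxy hyz hxz hxy' hyz' hxz'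

/-- flips of a block in the two contexts -/
theorem flips (hα : 4 ≤ Fintype.card α) {F : Perm α → M} (hQ : EQ F) {Ω : M} (ρ0 : Perm α)
    {x0 y0 z0 : α} (h1 : x0 ≠ y0) (h2 : y0 ≠ z0) (h3 : x0 ≠ z0) (hΩ : Ω = Phi F ρ0 x0 y0 z0)
    (ρ : Perm α) {x y z : α} (hxy : x ≠ y) (hyz : y ≠ z) (hxz : x ≠ z) :
    (∑ σ ∈ s2 ρ x y z, F σ + Ω = ∑ σ ∈ s1 ρ x y z, F σ + (∑ σ, F σ + ∑ σ, F σ)) ∧
    (∑ σ ∈ s1 ρ x y z, F σ + Ω = ∑ σ ∈ s2 ρ x y z, F σ + (∑ σ, F σ + ∑ σ, F σ)) := by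
  obtain ⟨t, ht⟩ := other_pt (s := ({x, y, z} : Finset α))
    (lt_of_le_of_lt Finset.card_le_three (by omega))
  simp only [mem_insert, mem_singleton, not_or] at ht
  have hD : Dis x y z t := ⟨hxy, hxz, Ne.symm ht.1, hyz, Ne.symm ht.2.1, Ne.symm ht.2.2⟩
  have e : Ω = Phi F ρ x y z := by rw [hΩ]; exact phi_all hα hQ ρ0 ρ h1 h2 h3 hxy hyz hxz
  have a1 := sum_split F (s1 ρ x y z)
  have a2 := sum_split F (s2 ρ x y z)
  constructor
  · rw [e]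
    unfold Phi
    calc ∑ σ ∈ s2 ρ x y z, F σ + (∑ σ ∈ s1 ρ x y z, F σ + ∑ σ ∈ (s2 ρ x y z)ᶜ, F σ + ∑ σ, F σ)
        = ∑ σ ∈ s1 ρ x y z, F σ + ((∑ σ ∈ s2 ρ x y z, F σ + ∑ σ ∈ (s2 ρ x y z)ᶜ, F σ)
          + ∑ σ, F σ) := by abel
      _ = _ := by rw [← a2]
  · rw [e, phi_flip hQ ρ hD]
    calc ∑ σ ∈ s1 ρ x y z, F σ + (∑ σ ∈ s2 ρ x y z, F σ + ∑ σ ∈ (s1 ρ x y z)ᶜ, F σ + ∑ σ, F σ)
        = ∑ σ ∈ s2 ρ x y z, F σ + ((∑ σ ∈ s1 ρ x y z, F σ + ∑ σ ∈ (s1 ρ x y z)ᶜ, F σ)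
          + ∑ σ, F σ) := by abel
      _ = _ := by rw [← a1]

end Birk
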