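import Mathlib

/-!
MP_697f4c_co, work file: functions on the symmetric group which are additive on pairs of
disjoint transpositions.
-/

open Equiv Equiv.Perm Finset

namespace Birk

variable {α : Type*} [DecidableEq α] {A : Type*} [AddCommGroup A]

/-- four different points -/
def Dis (i j k l : α) : Prop := i ≠ j ∧ i ≠ k ∧ i ≠ l ∧ j ≠ k ∧ j ≠ l ∧ k ≠ l

instance (i j k l : α) : Decidable (Dis i j k l) := by unfold Dis; infer_instance

/-- the elementary quadratic relations -/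
def QRel (F : Perm α → A) : Prop :=
  ∀ (σ : Perm α) (i j k l : α), Dis i j k l →
    F σ + F (σ * swap i j * swap k l) = F (σ * swap i j) + F (σ * swap k l)

/-- the elementary quadratic relations between permutations with the property `P` -/
def QRelOn (P : Perm α → Prop) (F : Perm α → A) : Prop :=
  ∀ (σ : Perm α) (i j k l : α), Dis i j k l → P σ → P (σ * swap i j * swap k l) →
    P (σ * swap i j) → P (σ * swap k l) →
    F σ + F (σ * swap i j * swap k l) = F (σ * swap i j) + F (σ * swap k l)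

theorem QRel.on {F : Perm α → A} (h : QRel F) (P : Perm α → Prop) : QRelOn P F :=
  fun σ i j k l hd _ _ _ _ => h σ i j k l hd

/-- the cubic expression at the identity -/
def cub (F : Perm α → A) (x y z : α) : A :=
  F 1 + F (swap x y * swap y z) + F (swap x z * swap z y)
    - F (swap x y) - F (swap y z) - F (swap x z)

theorem four_two {F : Perm (Fin 4) → A} (hQ : QRel F) : cub F 0 1 2 + cub F 0 1 2 = 0 := by
  have h0 : F (1) + F (swap 0 1 * swap 2 3) = F (swap 0 1) + F (swap 2 3) := by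
    have h := hQ (1) 0 1 2 3 (by decide)
    rwa [show (1 : Perm (Fin 4)) * swap 0 1 * swap 2 3 = swap 0 1 * swap 2 3 by decide,
      show (1 : Perm (Fin 4)) * swap 0 1 = swap 0 1 by decide,
      show (1 : Perm (Fin 4)) * swap 2 3 = swap 2 3 by decide] at h
  have h1 : F (1) + F (swap 0 2 * swap 1 3) = F (swap 0 2) + F (swap 1 3) := by
    have h := hQ (1) 0 2 1 3 (by decide)
    rwa [show (1 : Perm (Fin 4)) * swap 0 2 * swap 1 3 = swap 0 2 * swap 1 3 by decide,
      show (1 : Perm (Fin 4)) * swap 0 2 = swap 0 2 by decide,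
      show (1 : Perm (Fin 4)) * swap 1 3 = swap 1 3 by decide] at h
  have h2 : F (swap 2 3) + F (swap 0 2 * swap 2 1 * swap 1 3) = F (swap 0 2 * swap 2 3) + F (swap 1 2 * swap 1 3) := by
    have h := hQ (swap 2 3) 0 3 1 2 (by decide)
    rwa [show (swap 2 3 : Perm (Fin 4)) * swap 0 3 * swap 1 2 = swap 0 2 * swap 2 1 * swap 1 3 by decide,
      show (swap 2 3 : Perm (Fin 4)) * swap 0 3 = swap 0 2 * swap 2 3 by decide,
      show (swap 2 3 : Perm (Fin 4)) * swap 1 2 = swap 1 2 * swap 1 3 by decide] at h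
  have h3 : F (swap 1 2) + F (swap 0 2 * swap 2 1 * swap 2 3) = F (swap 0 2 * swap 2 1) + F (swap 1 2 * swap 2 3) := by
    have h := hQ (swap 1 2) 0 1 2 3 (by decide)
    rwa [show (swap 1 2 : Perm (Fin 4)) * swap 0 1 * swap 2 3 = swap 0 2 * swap 2 1 * swap 2 3 by decide,
      show (swap 1 2 : Perm (Fin 4)) * swap 0 1 = swap 0 2 * swap 2 1 by decide,
      show (swap 1 2 : Perm (Fin 4)) * swap 2 3 = swap 1 2 * swap 2 3 by decide] at h
  have h4 : F (swap 1 2) + F (swap 0 1 * swap 1 2 * swap 1 3) = F (swap 0 1 * swap 1 2) + F (swap 1 2 * swap 1 3) := by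
    have h := hQ (swap 1 2) 0 2 1 3 (by decide)
    rwa [show (swap 1 2 : Perm (Fin 4)) * swap 0 2 * swap 1 3 = swap 0 1 * swap 1 2 * swap 1 3 by decide,
      show (swap 1 2 : Perm (Fin 4)) * swap 0 2 = swap 0 1 * swap 1 2 by decide,
      show (swap 1 2 : Perm (Fin 4)) * swap 1 3 = swap 1 2 * swap 1 3 by decide] at h
  have h5 : F (swap 1 2 * swap 2 3) + F (swap 0 1 * swap 1 3) = F (swap 0 1 * swap 1 2 * swap 2 3) + F (swap 1 3) := by
    have h := hQ (swap 1 2 * swap 2 3) 0 3 1 2 (by decide)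
    rwa [show (swap 1 2 * swap 2 3 : Perm (Fin 4)) * swap 0 3 * swap 1 2 = swap 0 1 * swap 1 3 by decide,
      show (swap 1 2 * swap 2 3 : Perm (Fin 4)) * swap 0 3 = swap 0 1 * swap 1 2 * swap 2 3 by decide,
      show (swap 1 2 * swap 2 3 : Perm (Fin 4)) * swap 1 2 = swap 1 3 by decide] at h
  have h6 : F (swap 0 1) + F (swap 0 2 * swap 2 1 * swap 1 3) = F (swap 0 2 * swap 2 1) + F (swap 0 1 * swap 1 3) := by
    have h := hQ (swap 0 1) 0 2 1 3 (by decide)
    rwa [show (swap 0 1 : Perm (Fin 4)) * swap 0 2 * swap 1 3 = swap 0 2 * swap 2 1 * swap 1 3 by decide,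
      show (swap 0 1 : Perm (Fin 4)) * swap 0 2 = swap 0 2 * swap 2 1 by decide,
      show (swap 0 1 : Perm (Fin 4)) * swap 1 3 = swap 0 1 * swap 1 3 by decide] at h
  have h7 : F (swap 0 1 * swap 2 3) + F (swap 0 2 * swap 1 3) = F (swap 0 2 * swap 2 1 * swap 2 3) + F (swap 0 1 * swap 1 2 * swap 1 3) := by
    have h := hQ (swap 0 1 * swap 2 3) 0 3 1 2 (by decide)
    rwa [show (swap 0 1 * swap 2 3 : Perm (Fin 4)) * swap 0 3 * swap 1 2 = swap 0 2 * swap 1 3 by decide,
      show (swap 0 1 * swap 2 3 : Perm (Fin 4)) * swap 0 3 = swap 0 2 * swap 2 1 * swap 2 3 by decide,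
      show (swap 0 1 * swap 2 3 : Perm (Fin 4)) * swap 1 2 = swap 0 1 * swap 1 2 * swap 1 3 by decide] at h
  have h8 : F (swap 0 1 * swap 1 2) + F (swap 0 2 * swap 2 3) = F (swap 0 2) + F (swap 0 1 * swap 1 2 * swap 2 3) := by
    have h := hQ (swap 0 1 * swap 1 2) 0 1 2 3 (by decide)
    rwa [show (swap 0 1 * swap 1 2 : Perm (Fin 4)) * swap 0 1 * swap 2 3 = swap 0 2 * swap 2 3 by decide,
      show (swap 0 1 * swap 1 2 : Perm (Fin 4)) * swap 0 1 = swap 0 2 by decide,
      show (swap 0 1 * swap 1 2 : Perm (Fin 4)) * swap 2 3 = swap 0 1 * swap 1 2 * swap 2 3 by decide] at h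
  have e : cub F 0 1 2 + cub F 0 1 2
      = ((F (1) + F (swap 0 1 * swap 2 3)) - (F (swap 0 1) + F (swap 2 3)))
      + ((F (1) + F (swap 0 2 * swap 1 3)) - (F (swap 0 2) + F (swap 1 3)))
      + ((F (swap 2 3) + F (swap 0 2 * swap 2 1 * swap 1 3))
          - (F (swap 0 2 * swap 2 3) + F (swap 1 2 * swap 1 3)))
      - ((F (swap 1 2) + F (swap 0 2 * swap 2 1 * swap 2 3))
          - (F (swap 0 2 * swap 2 1) + F (swap 1 2 * swap 2 3)))
      - ((F (swap 1 2) + F (swap 0 1 * swap 1 2 * swap 1 3))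
          - (F (swap 0 1 * swap 1 2) + F (swap 1 2 * swap 1 3)))
      - ((F (swap 1 2 * swap 2 3) + F (swap 0 1 * swap 1 3))
          - (F (swap 0 1 * swap 1 2 * swap 2 3) + F (swap 1 3)))
      - ((F (swap 0 1) + F (swap 0 2 * swap 2 1 * swap 1 3))
          - (F (swap 0 2 * swap 2 1) + F (swap 0 1 * swap 1 3)))
      - ((F (swap 0 1 * swap 2 3) + F (swap 0 2 * swap 1 3))
          - (F (swap 0 2 * swap 2 1 * swap 2 3) + F (swap 0 1 * swap 1 2 * swap 1 3)))
      + ((F (swap 0 1 * swap 1 2) + F (swap 0 2 * swap 2 3))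
          - (F (swap 0 2) + F (swap 0 1 * swap 1 2 * swap 2 3))) := by
    unfold cub; abel
  rw [e, h0, h1, h2, h3, h4, h5, h6, h7, h8]; simp

theorem four_swap {F : Perm (Fin 4) → A} (hQ : QRel F) : cub F 0 1 2 = cub F 0 1 3 := by
  have h0 : F (swap 1 2) + F (swap 0 2 * swap 2 1 * swap 2 3) = F (swap 0 2 * swap 2 1) + F (swap 1 2 * swap 2 3) := by
    have h := hQ (swap 1 2) 0 1 2 3 (by decide)
    rwa [show (swap 1 2 : Perm (Fin 4)) * swap 0 1 * swap 2 3 = swap 0 2 * swap 2 1 * swap 2 3 by decide,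
      show (swap 1 2 : Perm (Fin 4)) * swap 0 1 = swap 0 2 * swap 2 1 by decide,
      show (swap 1 2 : Perm (Fin 4)) * swap 2 3 = swap 1 2 * swap 2 3 by decide] at h
  have h1 : F (swap 1 2 * swap 2 3) + F (swap 0 1 * swap 1 3) = F (swap 0 1 * swap 1 2 * swap 2 3) + F (swap 1 3) := by
    have h := hQ (swap 1 2 * swap 2 3) 0 3 1 2 (by decide)
    rwa [show (swap 1 2 * swap 2 3 : Perm (Fin 4)) * swap 0 3 * swap 1 2 = swap 0 1 * swap 1 3 by decide,
      show (swap 1 2 * swap 2 3 : Perm (Fin 4)) * swap 0 3 = swap 0 1 * swap 1 2 * swap 2 3 by decide,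
      show (swap 1 2 * swap 2 3 : Perm (Fin 4)) * swap 1 2 = swap 1 3 by decide] at h
  have h2 : F (swap 0 1 * swap 1 2) + F (swap 0 2 * swap 2 3) = F (swap 0 2) + F (swap 0 1 * swap 1 2 * swap 2 3) := by
    have h := hQ (swap 0 1 * swap 1 2) 0 1 2 3 (by decide)
    rwa [show (swap 0 1 * swap 1 2 : Perm (Fin 4)) * swap 0 1 * swap 2 3 = swap 0 2 * swap 2 3 by decide,
      show (swap 0 1 * swap 1 2 : Perm (Fin 4)) * swap 0 1 = swap 0 2 by decide,
      show (swap 0 1 * swap 1 2 : Perm (Fin 4)) * swap 2 3 = swap 0 1 * swap 1 2 * swap 2 3 by decide] at h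
  have h3 : F (swap 0 2 * swap 2 1 * swap 2 3) + F (swap 0 3) = F (swap 0 3 * swap 3 1) + F (swap 0 2 * swap 2 3) := by
    have h := hQ (swap 0 2 * swap 2 1 * swap 2 3) 0 2 1 3 (by decide)
    rwa [show (swap 0 2 * swap 2 1 * swap 2 3 : Perm (Fin 4)) * swap 0 2 * swap 1 3 = swap 0 3 by decide,
      show (swap 0 2 * swap 2 1 * swap 2 3 : Perm (Fin 4)) * swap 0 2 = swap 0 3 * swap 3 1 by decide,
      show (swap 0 2 * swap 2 1 * swap 2 3 : Perm (Fin 4)) * swap 1 3 = swap 0 2 * swap 2 3 by decide] at h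
  have e : cub F 0 1 2 - cub F 0 1 3
      = - ((F (swap 1 2) + F (swap 0 2 * swap 2 1 * swap 2 3))
          - (F (swap 0 2 * swap 2 1) + F (swap 1 2 * swap 2 3)))
      - ((F (swap 1 2 * swap 2 3) + F (swap 0 1 * swap 1 3))
          - (F (swap 0 1 * swap 1 2 * swap 2 3) + F (swap 1 3)))
      + ((F (swap 0 1 * swap 1 2) + F (swap 0 2 * swap 2 3))
          - (F (swap 0 2) + F (swap 0 1 * swap 1 2 * swap 2 3)))
      + ((F (swap 0 2 * swap 2 1 * swap 2 3) + F (swap 0 3))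
          - (F (swap 0 3 * swap 3 1) + F (swap 0 2 * swap 2 3))) := by
    unfold cub; abel
  rw [← sub_eq_zero, e, h0, h1, h2, h3]; simp

end Birk
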