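import Pool.Agent.Work.MP_697f4c_co.Degree

/-! # No linear bound for moves of bounded degree (MP_697f4c_co) -/

namespace Pool.Agent.Work.MP_697f4c_co

open Finset Function Equiv

lemma growth (A m : ℕ) (hm : A ^ 4 < m) :
    A ^ (2 * m) ^ 2 < (2 * m).factorial ^ (2 * m - 1) := by
  have hm1 : 1 ≤ m := by omega
  have h1 : m ^ m ≤ (2 * m).factorial := by
    have h2 := Nat.factorial_mul_pow_le_factorial (m := m) (n := m)
    have h3 : m ^ m ≤ (m + 1) ^ m := Nat.pow_le_pow_left (by omega) m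
    have h4 : 1 ≤ m.factorial := Nat.succ_le_of_lt (Nat.factorial_pos m)
    calc m ^ m ≤ (m + 1) ^ m := h3
      _ ≤ m.factorial * (m + 1) ^ m := Nat.le_mul_of_pos_left _ h4
      _ ≤ (m + m).factorial := h2
      _ = (2 * m).factorial := by rw [two_mul]
  calc A ^ (2 * m) ^ 2 = (A ^ 4) ^ (m ^ 2) := by
        rw [← pow_mul]
        congr 1
        ring
    _ < m ^ (m ^ 2) := Nat.pow_lt_pow_left hm (by positivity)
    _ = (m ^ m) ^ m := by rw [← pow_mul, pow_two]
    _ ≤ (m ^ m) ^ (2 * m - 1) := Nat.pow_le_pow_right (by positivity) (by omega)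
    _ ≤ (2 * m).factorial ^ (2 * m - 1) := Nat.pow_le_pow_left h1 _

/-- The counting bound with `N = p = 2 m` and polynomially many successors. -/
lemma poly_family (m c t K : ℕ) (hm : 1024 ≤ m) (hK : K + 1 ≤ (2 * m) ^ c)
    (h : ((2 * m).factorial + 2 * m - 1).choose (2 * m)
      ≤ (2 * m + 2 * m - 1).choose (2 * m) ^ (2 * m) * (K + 1) ^ t) :
    (2 * m) ^ 2 ≤ 4 * c * t := by
  by_contra hcon
  push Not at hcon
  have hct : c * t ≤ m ^ 2 := by nlinarith
  have hp1 : 1 ≤ (2 * m).factorial := Nat.succ_le_of_lt (Nat.factorial_pos _)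
  have h1 : (2 * m + 2 * m - 1).choose (2 * m) ≤ 4 ^ (2 * m) := by
    calc (2 * m + 2 * m - 1).choose (2 * m) ≤ 2 ^ (2 * m + 2 * m - 1) := Nat.choose_le_two_pow _ _
      _ ≤ 2 ^ (2 * (2 * m)) := Nat.pow_le_pow_right (by norm_num) (by omega)
      _ = 4 ^ (2 * m) := by
          rw [pow_mul]
          norm_num
  have h2 : (K + 1) ^ t ≤ (2 * m) ^ (m ^ 2) := by
    calc (K + 1) ^ t ≤ ((2 * m) ^ c) ^ t := Nat.pow_le_pow_left hK t
      _ = (2 * m) ^ (c * t) := by rw [pow_mul]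
      _ ≤ (2 * m) ^ (m ^ 2) := Nat.pow_le_pow_right (by omega) hct
  have h3 : (2 * m).factorial ^ (2 * m - 1) ≤ ((2 * m).factorial + 2 * m - 1).choose (2 * m) := by
    have h6 := pow_le_fact_choose (2 * m).factorial (2 * m) hp1
    have h7 : (2 * m).factorial ^ (2 * m)
        = (2 * m).factorial * (2 * m).factorial ^ (2 * m - 1) := by
      rw [← pow_succ', Nat.sub_add_cancel (by omega)]
    rw [h7] at h6
    exact Nat.le_of_mul_le_mul_left h6 hp1
  have h4 : m ^ m ≤ (2 * m).factorial := by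
    have h2 := Nat.factorial_mul_pow_le_factorial (m := m) (n := m)
    have h3 : m ^ m ≤ (m + 1) ^ m := Nat.pow_le_pow_left (by omega) m
    have h4 : 1 ≤ m.factorial := Nat.succ_le_of_lt (Nat.factorial_pos m)
    calc m ^ m ≤ (m + 1) ^ m := h3
      _ ≤ m.factorial * (m + 1) ^ m := Nat.le_mul_of_pos_left _ h4
      _ ≤ (m + m).factorial := h2
      _ = (2 * m).factorial := by rw [two_mul]
  have h5 : m ^ (m ^ 2) * m ^ (m * (m - 1)) ≤ m ^ (m ^ 2) * 2 ^ (9 * m ^ 2) := by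
    calc m ^ (m ^ 2) * m ^ (m * (m - 1)) = (m ^ m) ^ (2 * m - 1) := by
          rw [← pow_add, ← pow_mul]
          congr 1
          obtain ⟨n, rfl⟩ : ∃ n, m = n + 1 := ⟨m - 1, by omega⟩
          have e1 : n + 1 - 1 = n := by omega
          have e2 : 2 * (n + 1) - 1 = 2 * n + 1 := by omega
          rw [e1, e2]
          ring
      _ ≤ (2 * m).factorial ^ (2 * m - 1) := Nat.pow_le_pow_left h4 _
      _ ≤ ((2 * m).factorial + 2 * m - 1).choose (2 * m) := h3
      _ ≤ (2 * m + 2 * m - 1).choose (2 * m) ^ (2 * m) * (K + 1) ^ t := h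
      _ ≤ (4 ^ (2 * m)) ^ (2 * m) * (2 * m) ^ (m ^ 2) :=
          Nat.mul_le_mul (Nat.pow_le_pow_left h1 _) h2
      _ = m ^ (m ^ 2) * 2 ^ (9 * m ^ 2) := by
          rw [mul_pow, show (4 : ℕ) = 2 ^ 2 from rfl, ← pow_mul, ← pow_mul]
          rw [← mul_assoc, ← pow_add, mul_comm]
          congr 2
          ring
  have h6 : m ^ (m * (m - 1)) ≤ 2 ^ (9 * m ^ 2) :=
    Nat.le_of_mul_le_mul_left h5 (by positivity)
  have h7 : 2 ^ (10 * (m * (m - 1))) ≤ 2 ^ (9 * m ^ 2) := by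
    calc 2 ^ (10 * (m * (m - 1))) = (1024 : ℕ) ^ (m * (m - 1)) := by
          rw [pow_mul]
          norm_num
      _ ≤ m ^ (m * (m - 1)) := Nat.pow_le_pow_left hm _
      _ ≤ 2 ^ (9 * m ^ 2) := h6
  have h8 : 10 * (m * (m - 1)) ≤ 9 * m ^ 2 := (Nat.pow_le_pow_iff_right (by norm_num)).mp h7
  obtain ⟨n, rfl⟩ : ∃ n, m = n + 1 := ⟨m - 1, by omega⟩
  have e1 : n + 1 - 1 = n := by omega
  rw [e1] at h8
  nlinarith

/-- The counting bound with `N = p` and `t = C p` fails for large `p`. -/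
lemma not_linear (D C : ℕ) : ∃ p : ℕ, 1 ≤ p ∧ D ≤ p ∧
    (p + p - 1).choose p ^ p * (p ^ D * D.factorial ^ p + 1) ^ (C * p)
      < (p.factorial + p - 1).choose p := by
  set A := 4 * (2 ^ (D + 1) * D.factorial) ^ C with hA
  set m := A ^ 4 + D + 1 with hm
  refine ⟨2 * m, by omega, by omega, ?_⟩
  set p := 2 * m with hp
  have hg := growth A m (by omega)
  rw [← hp] at hg
  have hD1 : 1 ≤ D.factorial := Nat.succ_le_of_lt (Nat.factorial_pos D)
  have hp1 : 1 ≤ p.factorial := Nat.succ_le_of_lt (Nat.factorial_pos p)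
  have h1 : (p + p - 1).choose p ≤ 4 ^ p := by
    calc (p + p - 1).choose p ≤ 2 ^ (p + p - 1) := Nat.choose_le_two_pow _ _
      _ ≤ 2 ^ (2 * p) := Nat.pow_le_pow_right (by norm_num) (by omega)
      _ = 4 ^ p := by
          rw [pow_mul]
          norm_num
  have h2 : p ^ D * D.factorial ^ p + 1 ≤ (2 ^ (D + 1) * D.factorial) ^ p := by
    have h3 : p ^ D ≤ (2 ^ p) ^ D := Nat.pow_le_pow_left (Nat.lt_two_pow_self).le D
    have h4 : 1 ≤ (2 ^ p) ^ D * D.factorial ^ p := Nat.mul_pos (by positivity) (by positivity)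
    calc p ^ D * D.factorial ^ p + 1
        ≤ (2 ^ p) ^ D * D.factorial ^ p + (2 ^ p) ^ D * D.factorial ^ p :=
          Nat.add_le_add (Nat.mul_le_mul_right _ h3) h4
      _ = 2 * ((2 ^ p) ^ D * D.factorial ^ p) := by ring
      _ ≤ 2 ^ p * ((2 ^ p) ^ D * D.factorial ^ p) :=
          Nat.mul_le_mul_right _ (by
            calc 2 = 2 ^ 1 := by norm_num
              _ ≤ 2 ^ p := Nat.pow_le_pow_right (by norm_num) (by omega))
      _ = (2 ^ (D + 1) * D.factorial) ^ p := by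
          rw [mul_pow, ← pow_mul, ← pow_mul, ← mul_assoc, ← pow_add]
          congr 2
          ring
  have h5 : (p + p - 1).choose p ^ p * (p ^ D * D.factorial ^ p + 1) ^ (C * p) ≤ A ^ p ^ 2 := by
    calc (p + p - 1).choose p ^ p * (p ^ D * D.factorial ^ p + 1) ^ (C * p)
        ≤ (4 ^ p) ^ p * ((2 ^ (D + 1) * D.factorial) ^ p) ^ (C * p) :=
          Nat.mul_le_mul (Nat.pow_le_pow_left h1 p) (Nat.pow_le_pow_left h2 _)
      _ = A ^ p ^ 2 := by
          have e1 : ((2 ^ (D + 1) * D.factorial) ^ p) ^ (C * p)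
              = ((2 ^ (D + 1) * D.factorial) ^ C) ^ p ^ 2 := by
            rw [← pow_mul, ← pow_mul]
            congr 1
            ring
          have e2 : (4 ^ p) ^ p = 4 ^ p ^ 2 := by rw [← pow_mul, pow_two]
          rw [e1, e2, ← mul_pow, hA]
  have h6 := pow_le_fact_choose p.factorial p hp1
  have h7 : p.factorial ^ p = p.factorial * p.factorial ^ (p - 1) := by
    rw [← pow_succ', Nat.sub_add_cancel (by omega)]
  rw [h7] at h6
  have h8 : p.factorial ^ (p - 1) ≤ (p.factorial + p - 1).choose p :=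
    Nat.le_of_mul_le_mul_left h6 hp1
  exact (h5.trans_lt hg).trans_le h8

end Pool.Agent.Work.MP_697f4c_co
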