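import Pool.Agent.Work.MP_697f4c_co.Tele3
import Pool.Agent.Work.MP_697f4c_co.Absorb2

/-!
MP_697f4c_co, work file: a context without one ranking behaves like the negative of this ranking.
-/

open Equiv Equiv.Perm Finset

namespace Birk

variable {M : Type*} [AddCommMonoid M] {α : Type*} [DecidableEq α] [Fintype α]

theorem hx (hα : 4 ≤ Fintype.card α) {F : Perm α → M} (hQ : EQ F) {o1 o2 o3 : α} (g1 : o1 ≠ o2)
    (g2 : o2 ≠ o3) (g3 : o1 ≠ o3) (e : Bool) {a r a1 r1 : Perm α}
    (h : ∀ x y, pm a x y + pm r1 x y = pm a1 x y + pm r x y) :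
    F a + Cx F o1 o2 o3 e r = F a1 + Cx F o1 o2 o3 e r1 := by
  by_cases h0 : r1 = r
  · subst h0
    have : a = a1 := pm_inj fun x y => by have := h x y; omega
    rw [this]
  obtain ⟨c, D, hcd, rfl, rfl, rfl⟩ := quad_decomp h
  by_cases hD : D = 1
  · subst hD
    rw [mul_one, mul_one]
    exact cx_tot hα hQ g1 g2 g3 e _ _
  have hc : c ≠ 1 := by
    rintro rfl
    exact h0 (by rw [one_mul])
  obtain ⟨L, l1, l2, l3, l4⟩ := quad_cat hQ a hcd hD
  have hne : a * (c * D) ≠ a * D := by
    intro h1
    exact h0 h1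
  -- the relation in a large context
  have main : ∀ S : Finset (Perm α), (∀ τ ∈ L, τ ∉ S) →
      F a + F (a * (c * D)) + ∑ σ ∈ Sᶜ, F σ = F (a * c) + F (a * D) + ∑ σ ∈ Sᶜ, F σ := by
    intro S hS
    rw [compl_union F hS]
    calc F a + F (a * (c * D)) + (∑ σ ∈ L, F σ + ∑ σ ∈ (S ∪ L)ᶜ, F σ)
        = (F a + F (a * (c * D)) + ∑ σ ∈ L, F σ) + ∑ σ ∈ (S ∪ L)ᶜ, F σ := by abel
      _ = F (a * c) + F (a * D) + (∑ σ ∈ L, F σ + ∑ σ ∈ (S ∪ L)ᶜ, F σ) := by rw [l4]; abel
  cases e
  · -- the plain context
    show F a + Ax F (a * D) = F (a * c) + Ax F (a * (c * D))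
    have e1 : Ax F (a * D) = F (a * (c * D)) + ∑ σ ∈ (insert (a * (c * D)) {a * D})ᶜ, F σ := by
      unfold Ax
      rw [← compl_split F (S := {a * D}) (a := a * (c * D)) (by rw [mem_singleton]; exact hne)]
      congr 1
      ext σ
      simp
    have e2 : Ax F (a * (c * D)) = F (a * D) + ∑ σ ∈ (insert (a * (c * D)) {a * D})ᶜ, F σ := by
      unfold Ax
      rw [Finset.pair_comm, ← compl_split F (S := {a * (c * D)}) (a := a * D)
        (by rw [mem_singleton]; exact Ne.symm hne)]
      congr 1
      ext σ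
      simp
    have h1 := main (insert (a * (c * D)) {a * D}) (by
      intro τ hτ hm
      rw [mem_insert, mem_singleton] at hm
      rcases hm with rfl | rfl
      · exact l2 hτ
      · exact l1 hτ)
    rw [e1, e2, ← add_assoc, ← add_assoc]
    exact h1
  · -- the flipped context
    show F a + Psi F (a * D) (a * D) o1 o2 o3
      = F (a * c) + Psi F (a * (c * D)) (a * (c * D)) o1 o2 o3
    obtain ⟨u, hu⟩ : ∃ u, c u ≠ u := by
      by_contra hcon
      push Not at hcon
      exact hc (Perm.ext hcon)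
    obtain ⟨v, hv⟩ : ∃ v, D v ≠ v := by
      by_contra hcon
      push Not at hcon
      exact hD (Perm.ext hcon)
    have hDu : D u = u := (hcd u).resolve_left hu
    have hcv : c v = v := (hcd v).resolve_right hv
    have huv : u ≠ v := by rintro rfl; exact hv hDu
    obtain ⟨x, y, z, hxy, hyz, hxz, ux, uy, uz⟩ := three_pts (u := u) hα
    set ρ := a * swap u v with hρ
    have s2u : ∀ σ ∈ s2 ρ x y z, σ u = a v := by
      intro σ hσ
      unfold s2 at hσ
      rw [mem_insert, mem_insert, mem_singleton] at hσ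
      rcases hσ with rfl | rfl | rfl
      · rw [Perm.mul_apply, swap_apply_of_ne_of_ne ux uy, hρ, Perm.mul_apply, swap_apply_left]
      · rw [Perm.mul_apply, swap_apply_of_ne_of_ne uy uz, hρ, Perm.mul_apply, swap_apply_left]
      · rw [Perm.mul_apply, swap_apply_of_ne_of_ne ux uz, hρ, Perm.mul_apply, swap_apply_left]
    have n1 : a * D ∉ s2 ρ x y z := by
      intro hm
      have := s2u _ hm
      rw [Perm.mul_apply, hDu] at this
      exact huv (a.injective this)
    have n2 : a * (c * D) ∉ s2 ρ x y z := by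
      intro hm
      have := s2u _ hm
      rw [Perm.mul_apply, Perm.mul_apply, hDu] at this
      have h3 := a.injective this
      rw [← hcv] at h3
      exact huv (c.injective h3)
    have h1 := main (insert (a * (c * D)) (insert (a * D) (s2 ρ x y z))) (by
      intro τ hτ hm
      rw [mem_insert, mem_insert] at hm
      rcases hm with rfl | rfl | hm
      · exact l2 hτ
      · exact l1 hτ
      · exact l3 τ hτ u v hDu hv (s2u τ hm))
    rw [← psi_star hα hQ hxy hyz hxz g1 g2 g3 n1, ← psi_star hα hQ hxy hyz hxz g1 g2 g3 n2]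
    unfold Psi
    rw [compl_split F (S := insert (a * D) (s2 ρ x y z)) (a := a * (c * D)) (by
        rw [mem_insert, not_or]; exact ⟨hne, n2⟩),
      compl_split F (S := insert (a * (c * D)) (s2 ρ x y z)) (a := a * D) (by
        rw [mem_insert, not_or]; exact ⟨Ne.symm hne, n1⟩),
      Finset.insert_comm (a * D) (a * (c * D))]
    set S1 := ∑ σ ∈ s1 ρ x y z, F σ
    set S2 := ∑ σ ∈ (insert (a * (c * D)) (insert (a * D) (s2 ρ x y z)))ᶜ, F σ
    calc F a + (S1 + (F (a * (c * D)) + S2)) = (F a + F (a * (c * D)) + S2) + S1 := by abel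
      _ = (F (a * c) + F (a * D) + S2) + S1 := by rw [h1]
      _ = F (a * c) + (S1 + (F (a * D) + S2)) := by abel

/-- the quadratic relations on three points are trivial -/
theorem tri_rigid (F : Perm α → M) {c p q : Perm α} {x y z : α} (hxy : x ≠ y) (hyz : y ≠ z)
    (hxz : x ≠ z) (h : ∀ u v, pm p u v + pm q u v
      = pm (c * swap x y) u v + pm (c * swap x z) u v) :
    F p + F q = F (c * swap x y) + F (c * swap x z) := by
  have hup : ∀ u, UP (p u) (q u) ((c * swap x y) u) ((c * swap x z) u) := fun u =>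
    up_of_ind (fun v => by have := h u v; unfold pm at this; exact this)
  have ax : (c * swap x y) x = c y := by rw [Perm.mul_apply, swap_apply_left]
  have ay : (c * swap x y) y = c x := by rw [Perm.mul_apply, swap_apply_right]
  have az : (c * swap x y) z = c z := by
    rw [Perm.mul_apply, swap_apply_of_ne_of_ne (Ne.symm hxz) (Ne.symm hyz)]
  have bx : (c * swap x z) x = c z := by rw [Perm.mul_apply, swap_apply_left]
  have by' : (c * swap x z) y = c y := by
    rw [Perm.mul_apply, swap_apply_of_ne_of_ne (Ne.symm hxy) hyz]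
  have bz : (c * swap x z) z = c x := by rw [Perm.mul_apply, swap_apply_right]
  have ot : ∀ t, t ≠ x → t ≠ y → t ≠ z → p t = c t ∧ q t = c t := by
    intro t t1 t2 t3
    have h1 : (c * swap x y) t = c t := by rw [Perm.mul_apply, swap_apply_of_ne_of_ne t1 t2]
    have h2 : (c * swap x z) t = c t := by rw [Perm.mul_apply, swap_apply_of_ne_of_ne t1 t3]
    rcases hup t with h3 | h3
    · rw [h3.1, h3.2, h1, h2]; exact ⟨rfl, rfl⟩
    · rw [h3.1, h3.2, h1, h2]; exact ⟨rfl, rfl⟩
  have ux := hup x
  have uy := hup y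
  have uz := hup z
  rw [ax, bx] at ux
  rw [ay, by'] at uy
  rw [az, bz] at uz
  -- names
  have fin : ∀ p q : Perm α, (∀ t, t ≠ x → t ≠ y → t ≠ z → p t = c t ∧ q t = c t) →
      p y = c x → q y = c y → UP (p z) (q z) (c z) (c x) → UP (p x) (q x) (c y) (c z) →
      p = c * swap x y ∧ q = c * swap x z := by
    intro p q ot py qy uz ux
    have hz : p z = c z ∧ q z = c x := by
      rcases uz with h1 | h1
      · exact h1
      · exfalso
        exact hyz (p.injective (by rw [py, h1.1]))
    have hx : p x = c y ∧ q x = c z := by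
      rcases ux with h1 | h1
      · exact h1
      · exfalso
        exact hxz (p.injective (by rw [h1.1, hz.1]))
    constructor
    · ext t
      by_cases t1 : t = x
      · rw [t1, ax, hx.1]
      by_cases t2 : t = y
      · rw [t2, ay, py]
      by_cases t3 : t = z
      · rw [t3, az, hz.1]
      · rw [(ot t t1 t2 t3).1, Perm.mul_apply, swap_apply_of_ne_of_ne t1 t2]
    · ext t
      by_cases t1 : t = x
      · rw [t1, bx, hx.2]
      by_cases t2 : t = y
      · rw [t2, by', qy]
      by_cases t3 : t = z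
      · rw [t3, bz, hz.2]
      · rw [(ot t t1 t2 t3).2, Perm.mul_apply, swap_apply_of_ne_of_ne t1 t3]
  rcases uy with h1 | h1
  · obtain ⟨e1, e2⟩ := fin p q ot h1.1 h1.2 uz ux
    rw [e1, e2]
  · obtain ⟨e1, e2⟩ := fin q p (fun t t1 t2 t3 => (ot t t1 t2 t3).symm) h1.2 h1.1
      (by rcases uz with h | h
          · exact Or.inr ⟨h.2, h.1⟩
          · exact Or.inl ⟨h.2, h.1⟩)
      (by rcases ux with h | h
          · exact Or.inr ⟨h.2, h.1⟩
          · exact Or.inl ⟨h.2, h.1⟩)
    rw [e1, e2, add_comm]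

end Birk
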