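import Mathlib

/-!
MP_697f4c_co, work file: permutation matrices and the decomposition of two-regular matrices.
-/

open Equiv Finset

namespace Birk

variable {α : Type*} [DecidableEq α] [Fintype α]

/-- permutation matrix -/
def pm (σ : Perm α) (x y : α) : ℤ := if σ x = y then 1 else 0

omit [Fintype α] in
theorem pm_self (σ : Perm α) (x : α) : pm σ x (σ x) = 1 := by simp [pm]

omit [Fintype α] in
theorem pm_nonneg (σ : Perm α) (x y : α) : 0 ≤ pm σ x y := by
  unfold pm; split_ifs <;> norm_num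

omit [Fintype α] in
theorem pm_le_one (σ : Perm α) (x y : α) : pm σ x y ≤ 1 := by
  unfold pm; split_ifs <;> norm_num

omit [Fintype α] in
theorem pm_pos {σ : Perm α} {x y : α} (h : 0 < pm σ x y) : σ x = y := by
  unfold pm at h; split_ifs at h with h1
  · exact h1
  · exact absurd h (lt_irrefl _)

theorem pm_row (σ : Perm α) (x : α) : ∑ y, pm σ x y = 1 := by simp [pm]

theorem pm_col (σ : Perm α) (y : α) : ∑ x, pm σ x y = 1 := by
  unfold pm
  rw [Finset.sum_eq_single (σ⁻¹ y)]
  · simp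
  · intro x _ hx
    rw [if_neg]
    rintro rfl
    exact hx (by simp)
  · intro h; exact absurd (Finset.mem_univ _) h

omit [Fintype α] in
theorem pm_inj {σ τ : Perm α} (h : ∀ x y, pm σ x y = pm τ x y) : σ = τ := by
  ext x
  have := h x (σ x)
  rw [pm_self] at this
  exact (pm_pos (by rw [← this]; norm_num)).symm

theorem hall {n : ℤ} (hn : 0 < n) (M : α → α → ℤ) (h0 : ∀ x y, 0 ≤ M x y)
    (hr : ∀ x, ∑ y, M x y = n) (hc : ∀ y, ∑ x, M x y = n) :
    ∃ σ : Perm α, ∀ x, 0 < M x (σ x) := by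
  have key : ∀ s : Finset α,
      s.card ≤ (s.biUnion fun x => univ.filter fun y => 0 < M x y).card := by
    intro s
    set T := s.biUnion fun x => univ.filter fun y => 0 < M x y with hT
    have e1 : ∑ x ∈ s, ∑ y, M x y = ∑ x ∈ s, ∑ y ∈ T, M x y := by
      refine sum_congr rfl fun x hx => ?_
      symm
      apply sum_subset (subset_univ _)
      intro y _ hy
      by_contra hne
      refine hy (mem_biUnion.2 ⟨x, hx, ?_⟩)
      simp only [mem_filter, mem_univ, true_and]
      exact lt_of_le_of_ne (h0 x y) (Ne.symm hne)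
    have e2 : ∑ x ∈ s, ∑ y ∈ T, M x y ≤ ∑ y ∈ T, ∑ x, M x y := by
      rw [sum_comm]
      exact sum_le_sum fun y _ => sum_le_sum_of_subset_of_nonneg (subset_univ _)
        fun x _ _ => h0 x y
    rw [← e1] at e2
    simp only [hr, hc, sum_const, nsmul_eq_mul] at e2
    have e3 := le_of_mul_le_mul_right e2 hn
    exact_mod_cast e3
  obtain ⟨f, hf, hf2⟩ := (Finset.all_card_le_biUnion_card_iff_exists_injective _).1 key
  refine ⟨Equiv.ofBijective f (Finite.injective_iff_bijective.1 hf), fun x => ?_⟩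
  have := hf2 x
  simp only [mem_filter, mem_univ, true_and] at this
  exact this

theorem konig1 (M : α → α → ℤ) (h0 : ∀ x y, 0 ≤ M x y)
    (hr : ∀ x, ∑ y, M x y = 1) (hc : ∀ y, ∑ x, M x y = 1) :
    ∃ σ : Perm α, ∀ x y, M x y = pm σ x y := by
  obtain ⟨σ, hσ⟩ := hall one_pos M h0 hr hc
  refine ⟨σ, fun x y => ?_⟩
  have h1 : ∀ z, z ≠ σ x → M x z = 0 := by
    intro z hz
    have h2 : M x z + M x (σ x) ≤ ∑ y, M x y := by
      rw [← sum_pair hz]
      exact sum_le_sum_of_subset_of_nonneg (subset_univ _) fun y _ _ => h0 x y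
    rw [hr x] at h2
    have := hσ x
    have := h0 x z
    omega
  by_cases hy : y = σ x
  · subst hy
    rw [pm_self]
    have h3 := hr x
    rw [sum_eq_single (σ x) (fun z _ hz => h1 z hz) (fun h => absurd (mem_univ _) h)] at h3
    exact h3
  · rw [h1 y hy]
    unfold pm
    rw [if_neg (Ne.symm hy)]

theorem konig2 (M : α → α → ℤ) (h0 : ∀ x y, 0 ≤ M x y)
    (hr : ∀ x, ∑ y, M x y = 2) (hc : ∀ y, ∑ x, M x y = 2) :
    ∃ a b : Perm α, ∀ x y, pm a x y + pm b x y = M x y := by
  obtain ⟨a, ha⟩ := hall two_pos M h0 hr hc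
  obtain ⟨b, hb⟩ := konig1 (fun x y => M x y - pm a x y) (by
    intro x y
    unfold pm
    split_ifs with h
    · have := ha x
      rw [h] at this
      show 0 ≤ M x y - 1
      omega
    · simpa using h0 x y) (by
    intro x
    rw [sum_sub_distrib, hr, pm_row]; norm_num) (by
    intro y
    rw [sum_sub_distrib, hc, pm_col]; norm_num)
  refine ⟨a, b, fun x y => ?_⟩
  rw [← hb x y]; ring

/-- matrix unit -/
def mu (x0 y0 x y : α) : ℤ := if x = x0 ∧ y = y0 then 1 else 0

theorem mu_row (x0 y0 x : α) : ∑ y, mu x0 y0 x y = if x = x0 then 1 else 0 := by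
  unfold mu
  by_cases h : x = x0
  · simp [h]
  · simp [h]

theorem mu_col (x0 y0 y : α) : ∑ x, mu x0 y0 x y = if y = y0 then 1 else 0 := by
  unfold mu
  by_cases h : y = y0
  · simp [h]
  · simp [h]

/-- signed rectangle: rows `x0, x1`, columns `y0, y1` -/
def rect (x0 x1 y0 y1 x y : α) : ℤ :=
  mu x0 y0 x y + mu x1 y1 x y - mu x0 y1 x y - mu x1 y0 x y

theorem rect_row (x0 x1 y0 y1 x : α) : ∑ y, rect x0 x1 y0 y1 x y = 0 := by
  unfold rect
  rw [sum_sub_distrib, sum_sub_distrib, sum_add_distrib, mu_row, mu_row, mu_row, mu_row]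
  ring

theorem rect_col (x0 x1 y0 y1 y : α) : ∑ x, rect x0 x1 y0 y1 x y = 0 := by
  unfold rect
  rw [sum_sub_distrib, sum_sub_distrib, sum_add_distrib, mu_col, mu_col, mu_col, mu_col]
  ring

end Birk
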