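import Pool.Agent.Work.MP_697f4c_co.Additive

/-!
MP_697f4c_co, work file: the lattice generated by the elementary quadratic moves.
-/

open Equiv Equiv.Perm Finset

namespace Birk

variable {α : Type*} [DecidableEq α] [Fintype α]

/-- a move: an integer function on the permutations with vanishing first-order summary -/
def IsMove (g : Perm α → ℤ) : Prop := ∀ i j, ∑ σ, (if σ i = j then g σ else 0) = 0

/-- the number of odd permutations, counted with the weights of `g` -/
def odd (g : Perm α → ℤ) : ℤ := ∑ σ : Perm α, if sign σ = 1 then 0 else g σ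

/-- the binomial `x_σ x_{στ} - x_{σ'} x_{τ'}` as a vector -/
def bin (σ τ σ' τ' : Perm α) : Perm α → ℤ :=
  Pi.single σ 1 + Pi.single τ 1 - Pi.single σ' 1 - Pi.single τ' 1

/-- the elementary quadratic moves -/
def elem (α : Type*) [DecidableEq α] [Fintype α] : Set (Perm α → ℤ) :=
  {g | ∃ (σ : Perm α) (i j k l : α), Dis i j k l ∧
    g = bin σ (σ * swap i j * swap k l) (σ * swap i j) (σ * swap k l)}

/-- the cubic move of three points -/
def cubic (x y z : α) : Perm α → ℤ :=
  Pi.single 1 1 + Pi.single (swap x y * swap y z) 1 + Pi.single (swap x z * swap z y) 1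
    - Pi.single (swap x y) 1 - Pi.single (swap y z) 1 - Pi.single (swap x z) 1

theorem isMove_zero : IsMove (0 : Perm α → ℤ) := by
  intro i j; simp

theorem IsMove.add {g h : Perm α → ℤ} (hg : IsMove g) (hh : IsMove h) : IsMove (g + h) := by
  intro i j
  have : ∀ σ : Perm α, (if σ i = j then (g + h) σ else 0)
      = (if σ i = j then g σ else 0) + (if σ i = j then h σ else 0) := by
    intro σ; split_ifs <;> simp
  simp only [this, Finset.sum_add_distrib, hg i j, hh i j, add_zero]

theorem IsMove.neg {g : Perm α → ℤ} (hg : IsMove g) : IsMove (-g) := by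
  intro i j
  have : ∀ σ : Perm α, (if σ i = j then (-g) σ else 0)
      = - (if σ i = j then g σ else 0) := by
    intro σ; split_ifs <;> simp
  simp only [this, Finset.sum_neg_distrib, hg i j, neg_zero]

theorem odd_add (g h : Perm α → ℤ) : odd (g + h) = odd g + odd h := by
  unfold odd
  rw [← Finset.sum_add_distrib]
  refine Finset.sum_congr rfl fun σ _ => ?_
  split_ifs <;> simp

theorem odd_neg (g : Perm α → ℤ) : odd (-g) = - odd g := by
  unfold odd
  rw [← Finset.sum_neg_distrib]
  refine Finset.sum_congr rfl fun σ _ => ?_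
  split_ifs <;> simp

theorem odd_zero : odd (0 : Perm α → ℤ) = 0 := by simp [odd]

theorem odd_single (σ : Perm α) : odd (Pi.single σ 1) = if sign σ = 1 then 0 else 1 := by
  unfold odd
  rw [Finset.sum_eq_single σ]
  · simp
  · intro τ _ h; simp [h]
  · intro h; exact absurd (Finset.mem_univ _) h

theorem sum_single (σ : Perm α) (i j : α) :
    ∑ τ : Perm α, (if τ i = j then (Pi.single σ (1 : ℤ) : Perm α → ℤ) τ else 0)
      = if σ i = j then 1 else 0 := by
  rw [Finset.sum_eq_single σ]
  · simp
  · intro τ _ h; simp [h]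
  · intro h; exact absurd (Finset.mem_univ _) h

/-- the summary of an integer function, as an additive map -/
def summ (i j : α) : (Perm α → ℤ) →+ ℤ where
  toFun g := ∑ σ : Perm α, (if σ i = j then g σ else 0)
  map_zero' := by simp
  map_add' g h := by
    rw [← Finset.sum_add_distrib]
    refine Finset.sum_congr rfl fun σ _ => ?_
    split_ifs <;> simp

theorem isMove_iff (g : Perm α → ℤ) : IsMove g ↔ ∀ i j, summ i j g = 0 := Iff.rfl

theorem summ_single (σ : Perm α) (i j : α) :
    summ i j (Pi.single σ 1) = if σ i = j then 1 else 0 := sum_single σ i j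

theorem isMove_bin_iff (σ τ σ' τ' : Perm α) : IsMove (bin σ τ σ' τ') ↔
    ∀ i j, (if σ i = j then (1 : ℤ) else 0) + (if τ i = j then 1 else 0)
      = (if σ' i = j then 1 else 0) + (if τ' i = j then 1 else 0) := by
  rw [isMove_iff]
  refine forall_congr' fun i => forall_congr' fun j => ?_
  rw [bin, map_sub, map_sub, map_add, summ_single, summ_single, summ_single, summ_single]
  constructor <;> intro h <;> linarith

theorem isMove_elem {g : Perm α → ℤ} (hg : g ∈ elem α) : IsMove g := by
  obtain ⟨σ, i, j, k, l, h, rfl⟩ := hg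
  rw [isMove_bin_iff]
  intro u v
  have q := qrel_sum (A := ℤ) (fun a b => if a = u then (if b = v then (1 : ℤ) else 0) else 0)
    σ i j k l h
  simpa using q

theorem cub_single (x y z : α) (φ : (Perm α → ℤ) →+ ℤ) :
    φ (cubic x y z) = cub (fun σ => φ (Pi.single σ 1)) x y z := by
  unfold cubic cub
  simp only [map_sub, map_add]

theorem isMove_cubic {x y z : α} (hxy : x ≠ y) (hyz : y ≠ z) (hxz : x ≠ z) :
    IsMove (cubic x y z) := by
  rw [isMove_iff]
  intro u v
  rw [cub_single]
  have q := cub_sum (A := ℤ) (fun a b => if a = u then (if b = v then (1 : ℤ) else 0) else 0)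
    (o := x) (i := y) (j := z) (Ne.symm hxy) (Ne.symm hxz) hyz
  have e : (fun σ : Perm α => summ u v (Pi.single σ 1))
      = fun σ : Perm α => ∑ w, (if w = u then (if σ w = v then (1 : ℤ) else 0) else 0) := by
    funext σ; rw [summ_single]; simp
  rw [e]; exact q

theorem odd_elem {g : Perm α → ℤ} (hg : g ∈ elem α) : Even (odd g) := by
  obtain ⟨σ, i, j, k, l, h, rfl⟩ := hg
  have s1 : ∀ (σ : Perm α) (i j : α), i ≠ j → sign (σ * swap i j) = - sign σ := by
    intro σ i j hij
    rw [Perm.sign_mul, sign_swap hij, mul_neg, mul_one]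
  have t1 := s1 σ i j h.1
  have t2 := s1 σ k l h.2.2.2.2.2
  have t3 := s1 (σ * swap i j) k l h.2.2.2.2.2
  rw [t1, neg_neg] at t3
  have n1 : ¬ ((-1 : ℤˣ) = 1) := by decide
  rw [bin, sub_eq_add_neg, sub_eq_add_neg, odd_add, odd_add, odd_add, odd_neg, odd_neg,
    odd_single, odd_single, odd_single, odd_single, t1, t2, t3]
  rcases Int.units_eq_one_or (sign σ) with hs | hs
  · rw [hs, if_pos rfl, if_neg n1]; exact ⟨-1, by ring⟩
  · rw [hs, neg_neg, if_pos rfl, if_neg n1]; exact ⟨1, by ring⟩

theorem odd_cubic {x y z : α} (hxy : x ≠ y) (hyz : y ≠ z) (hxz : x ≠ z) :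
    odd (cubic x y z) = -3 := by
  have t0 : sign (1 : Perm α) = 1 := sign_one
  have t1 : sign (swap x y : Perm α) = -1 := sign_swap hxy
  have t2 : sign (swap x z : Perm α) = -1 := sign_swap hxz
  have t3 : sign (swap y z : Perm α) = -1 := sign_swap hyz
  have t4 : sign (swap z y : Perm α) = -1 := sign_swap (Ne.symm hyz)
  have t5 : sign (swap x y * swap y z : Perm α) = 1 := by rw [Perm.sign_mul, t1, t3]; decide
  have t6 : sign (swap x z * swap z y : Perm α) = 1 := by rw [Perm.sign_mul, t2, t4]; decide
  have n1 : ¬ ((-1 : ℤˣ) = 1) := by decide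
  unfold cubic
  simp only [sub_eq_add_neg, odd_add, odd_neg, odd_single, t0, t1, t2, t3, t5, t6, if_true,
    if_neg n1]
  norm_num

theorem sum_smul_single (g : Perm α → ℤ) : g = ∑ σ, g σ • (Pi.single σ (1 : ℤ)) := by
  funext τ
  rw [Finset.sum_apply, Finset.sum_eq_single τ]
  · simp
  · intro σ _ h; simp [Ne.symm h]
  · intro h; exact absurd (Finset.mem_univ _) h

/-- a function which is additive on disjoint transpositions pairs to zero with every move of even
parity -/
theorem pairing_zero {A : Type*} [AddCommGroup A] (hα : 4 ≤ Fintype.card α) {F : Perm α → A}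
    (hF : QRel F) {g : Perm α → ℤ} (hm : IsMove g) (hg : Even (odd g)) :
    ∑ σ, g σ • F σ = 0 := by
  obtain ⟨m, hodd⟩ := hg
  obtain ⟨ψ, e, he, hψ⟩ := (dual hα F).1 hF
  have e1 : ∀ σ : Perm α, g σ • F σ
      = ∑ u, g σ • ψ u (σ u) + (if sign σ = 1 then 0 else g σ) • e := by
    intro σ
    rw [hψ σ, smul_add, Finset.smul_sum]
    congr 1
    split_ifs <;> simp
  rw [Finset.sum_congr rfl fun σ _ => e1 σ, Finset.sum_add_distrib, ← Finset.sum_smul]
  have e2 : ∑ σ : Perm α, (if sign σ = 1 then 0 else g σ) = m + m := hodd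
  rw [e2, add_smul, ← smul_add, he, smul_zero, add_zero, Finset.sum_comm]
  refine Finset.sum_eq_zero fun u _ => ?_
  have e3 : ∀ σ : Perm α, g σ • ψ u (σ u)
      = ∑ v, (if σ u = v then g σ else 0) • ψ u v := by
    intro σ
    rw [Finset.sum_eq_single (σ u)]
    · simp
    · intro v _ hv; rw [if_neg (Ne.symm hv), zero_smul]
    · intro h; exact absurd (Finset.mem_univ _) h
  rw [Finset.sum_congr rfl fun σ _ => e3 σ, Finset.sum_comm]
  refine Finset.sum_eq_zero fun v _ => ?_
  rw [← Finset.sum_smul, hm u v, zero_smul]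

/-- the lattice generated by the elementary quadratic moves -/
theorem mem_closure_elem (hα : 4 ≤ Fintype.card α) (g : Perm α → ℤ) :
    g ∈ AddSubgroup.closure (elem α) ↔ IsMove g ∧ Even (odd g) := by
  constructor
  · intro hg
    induction hg using AddSubgroup.closure_induction with
    | mem x hx => exact ⟨isMove_elem hx, odd_elem hx⟩
    | zero => exact ⟨isMove_zero, by rw [odd_zero]; exact ⟨0, rfl⟩⟩
    | add x y _ _ hx hy => exact ⟨hx.1.add hy.1, by rw [odd_add]; exact hx.2.add hy.2⟩
    | neg x _ hx => exact ⟨hx.1.neg, by rw [odd_neg]; exact hx.2.neg⟩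
  · rintro ⟨hm, hg⟩
    let Q := AddSubgroup.closure (elem α)
    let F : Perm α → (Perm α → ℤ) ⧸ Q := fun σ => QuotientAddGroup.mk' Q (Pi.single σ 1)
    have hF : QRel F := by
      intro σ i j k l h
      have : QuotientAddGroup.mk' Q (bin σ (σ * swap i j * swap k l) (σ * swap i j)
          (σ * swap k l)) = 0 := by
        rw [QuotientAddGroup.mk'_apply, QuotientAddGroup.eq_zero_iff]
        exact AddSubgroup.subset_closure ⟨σ, i, j, k, l, h, rfl⟩
      rw [bin, map_sub, map_sub, map_add, sub_sub, sub_eq_zero] at this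
      exact this
    have h0 : QuotientAddGroup.mk' Q g = 0 := by
      conv_lhs => rw [sum_smul_single g]
      rw [map_sum, ← pairing_zero hα hF hm hg]
      refine Finset.sum_congr rfl fun σ _ => ?_
      rw [map_zsmul]
    rwa [QuotientAddGroup.mk'_apply, QuotientAddGroup.eq_zero_iff] at h0

/-- with one cubic move all moves are generated -/
theorem mem_closure_insert (hα : 4 ≤ Fintype.card α) {x y z : α} (hxy : x ≠ y) (hyz : y ≠ z)
    (hxz : x ≠ z) (g : Perm α → ℤ) :
    g ∈ AddSubgroup.closure (insert (cubic x y z) (elem α)) ↔ IsMove g := by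
  have hsub : AddSubgroup.closure (elem α)
      ≤ AddSubgroup.closure (insert (cubic x y z) (elem α)) :=
    AddSubgroup.closure_mono (Set.subset_insert _ _)
  have hc : cubic x y z ∈ AddSubgroup.closure (insert (cubic x y z) (elem α)) :=
    AddSubgroup.subset_closure (Set.mem_insert _ _)
  constructor
  · intro hg
    induction hg using AddSubgroup.closure_induction with
    | mem w hw =>
      rcases hw with rfl | hw
      · exact isMove_cubic hxy hyz hxz
      · exact isMove_elem hw
    | zero => exact isMove_zero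
    | add x y _ _ hx hy => exact hx.add hy
    | neg x _ hx => exact hx.neg
  · intro hg
    rcases Int.even_or_odd (odd g) with h | h
    · exact hsub ((mem_closure_elem hα g).2 ⟨hg, h⟩)
    · have : g + cubic x y z ∈ AddSubgroup.closure (elem α) := by
        rw [mem_closure_elem hα]
        refine ⟨hg.add (isMove_cubic hxy hyz hxz), ?_⟩
        rw [odd_add, odd_cubic hxy hyz hxz]
        obtain ⟨m, hm⟩ := h
        exact ⟨m - 1, by omega⟩
      have h2 := AddSubgroup.sub_mem _ (hsub this) hc
      simpa using h2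

end Birk
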