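import Mathlib

/-!
MP_697f4c_co, work file: walking along a segment with rounded coefficients.
-/

open Finset

namespace Birk

variable {ι : Type*} [Fintype ι]

/-- one step between nonnegative integer functions -/
def Step (B : Set (ι → ℤ)) (u v : ι → ℤ) : Prop :=
  (∀ i, 0 ≤ u i) ∧ (∀ i, 0 ≤ v i) ∧ ∃ b ∈ B, v = u + b ∨ u = v + b

/-- rounded coefficient at time `m` out of `M` -/
def rc (M n m : ℤ) : ℤ := (2 * n * m + M) / (2 * M)

theorem rc_zero {M n : ℤ} (hM : 0 < M) : rc M n 0 = 0 := by
  unfold rc
  apply Int.ediv_eq_zero_of_lt <;> linarith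

theorem rc_top {M n : ℤ} (hM : 0 < M) : rc M n M = n := by
  unfold rc
  have : 2 * n * M + M = M + (2 * M) * n := by ring
  rw [this, Int.add_mul_ediv_left _ _ (by linarith)]
  have : M / (2 * M) = 0 := by apply Int.ediv_eq_zero_of_lt <;> linarith
  rw [this]; ring

theorem rc_bound {M n m : ℤ} (hM : 0 < M) :
    2 * M * rc M n m - 2 * n * m ≤ M ∧ 2 * n * m - 2 * M * rc M n m ≤ M := by
  unfold rc
  have h1 := Int.mul_ediv_self_le (x := 2 * n * m + M) (k := 2 * M) (by linarith)
  have h2 := Int.lt_mul_ediv_self_add (x := 2 * n * m + M) (k := 2 * M) (by linarith)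
  constructor <;> linarith

theorem rc_succ {M n m : ℤ} (hM : 0 < M) (hn : |n| ≤ M) :
    rc M n (m + 1) = rc M n m - 1 ∨ rc M n (m + 1) = rc M n m ∨ rc M n (m + 1) = rc M n m + 1 := by
  have a1 := abs_le.1 hn
  have h1 := Int.mul_ediv_self_le (x := 2 * n * m + M) (k := 2 * M) (by linarith)
  have h2 := Int.lt_mul_ediv_self_add (x := 2 * n * m + M) (k := 2 * M) (by linarith)
  have h3 := Int.mul_ediv_self_le (x := 2 * n * (m + 1) + M) (k := 2 * M) (by linarith)
  have h4 := Int.lt_mul_ediv_self_add (x := 2 * n * (m + 1) + M) (k := 2 * M) (by linarith)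
  have g1 : rc M n (m + 1) < rc M n m + 2 := by
    unfold rc
    by_contra hcon
    push Not at hcon
    nlinarith
  have g2 : rc M n m < rc M n (m + 1) + 2 := by
    unfold rc
    by_contra hcon
    push Not at hcon
    nlinarith
  omega

/-- the point with coefficients `y` -/
def pt (B : Finset (ι → ℤ)) (f : ι → ℤ) (y : (ι → ℤ) → ℤ) : ι → ℤ :=
  fun i => f i + ∑ b ∈ B, y b * b i

theorem line (B : Finset (ι → ℤ)) (D : ℤ) (hD : ∀ i, ∑ b ∈ B, |b i| ≤ D)
    (f f' : ι → ℤ) (n : (ι → ℤ) → ℤ) (hf : ∀ i, D ≤ 2 * f i) (hf' : ∀ i, D ≤ 2 * f' i)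
    (hff : f' = pt B f n) : Relation.ReflTransGen (Step (B : Set (ι → ℤ))) f f' := by
  classical
  -- a large number of time steps
  set W : ℤ := ∑ i, ∑ b ∈ B, |n b| * |b i| with hW
  set V : ℤ := ∑ b ∈ B, |n b| with hV
  have hW0 : 0 ≤ W := Finset.sum_nonneg fun i _ => Finset.sum_nonneg fun b _ =>
    mul_nonneg (abs_nonneg _) (abs_nonneg _)
  have hV0 : 0 ≤ V := Finset.sum_nonneg fun b _ => abs_nonneg _
  obtain ⟨N, hN⟩ : ∃ N : ℕ, (N : ℤ) = 1 + W + V := ⟨(1 + W + V).toNat, by
    rw [Int.toNat_of_nonneg]; linarith⟩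
  set M : ℤ := (N : ℤ) with hM
  have hM0 : 0 < M := by linarith
  have hnM : ∀ b ∈ B, |n b| ≤ M := by
    intro b hb
    have : |n b| ≤ V := Finset.single_le_sum (f := fun b => |n b|) (fun b _ => abs_nonneg _) hb
    linarith
  have hWi : ∀ i, ∑ b ∈ B, |n b| * |b i| < M := by
    intro i
    have : ∑ b ∈ B, |n b| * |b i| ≤ W :=
      Finset.single_le_sum (f := fun i => ∑ b ∈ B, |n b| * |b i|)
        (fun i _ => Finset.sum_nonneg fun b _ => mul_nonneg (abs_nonneg _) (abs_nonneg _))
        (Finset.mem_univ i)
    linarith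
  -- nonnegativity of all intermediate points
  have nonneg : ∀ m : ℕ, (m : ℤ) ≤ M → ∀ y : (ι → ℤ) → ℤ,
      (∀ b ∈ B, y b = rc M (n b) m ∨ y b = rc M (n b) (m + 1)) → ∀ i, 0 ≤ pt B f y i := by
    intro m hm y hy i
    -- error of a single coefficient
    have err : ∀ b ∈ B, - (M + 2 * |n b|) ≤ 2 * M * y b - 2 * n b * m ∧
        2 * M * y b - 2 * n b * m ≤ M + 2 * |n b| := by
      intro b hb
      have n1 := neg_abs_le (n b)
      have n2 := le_abs_self (n b)
      rcases hy b hb with h | h
      · have := rc_bound (n := n b) (m := m) hM0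
        rw [h]
        constructor <;> nlinarith [abs_nonneg (n b)]
      · have := rc_bound (n := n b) (m := (m : ℤ) + 1) hM0
        rw [h]
        constructor <;> nlinarith [abs_nonneg (n b)]
    have e1 : ∀ b ∈ B, - ((M + 2 * |n b|) * |b i|) ≤ (2 * M * y b - 2 * n b * m) * b i := by
      intro b hb
      have h := err b hb
      have habs : |2 * M * y b - 2 * n b * m| ≤ M + 2 * |n b| := abs_le.2 h
      have h2 : |(2 * M * y b - 2 * n b * m) * b i| ≤ (M + 2 * |n b|) * |b i| := by
        rw [abs_mul]
        exact mul_le_mul_of_nonneg_right habs (abs_nonneg _)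
      exact (abs_le.1 h2).1
    have e2 := Finset.sum_le_sum e1
    rw [Finset.sum_neg_distrib] at e2
    have e3 : ∑ b ∈ B, (M + 2 * |n b|) * |b i| = M * ∑ b ∈ B, |b i| + 2 * ∑ b ∈ B, |n b| * |b i| := by
      rw [Finset.mul_sum, Finset.mul_sum, ← Finset.sum_add_distrib]
      refine Finset.sum_congr rfl fun b _ => by ring
    have e4 : ∑ b ∈ B, (2 * M * y b - 2 * n b * m) * b i
        = 2 * M * (pt B f y i - f i) - 2 * m * (f' i - f i) := by
      have : f' i = f i + ∑ b ∈ B, n b * b i := by rw [hff]; rfl
      rw [this]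
      unfold pt
      rw [add_sub_cancel_left, add_sub_cancel_left, Finset.mul_sum, Finset.mul_sum,
        ← Finset.sum_sub_distrib]
      refine Finset.sum_congr rfl fun b _ => by ring
    rw [e3, e4] at e2
    have h1 := hf i
    have h2 := hf' i
    have h3 := hD i
    have h4 := hWi i
    have hm0 : (0 : ℤ) ≤ m := Int.natCast_nonneg m
    have h5 : (M - m) * D ≤ (M - m) * (2 * f i) := mul_le_mul_of_nonneg_left h1 (by linarith)
    have h6 : (m : ℤ) * D ≤ m * (2 * f' i) := mul_le_mul_of_nonneg_left h2 hm0
    have h7 : M * ∑ b ∈ B, |b i| ≤ M * D := mul_le_mul_of_nonneg_left h3 hM0.le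
    have h8 : -(2 * M) < 2 * M * pt B f y i := by nlinarith
    have h9 : -1 < pt B f y i := by
      by_contra hcon
      push Not at hcon
      nlinarith
    omega
  -- the path from time `m` to time `m + 1`
  have inner : ∀ m : ℕ, (m : ℤ) + 1 ≤ M → ∀ s ⊆ B,
      Relation.ReflTransGen (Step (B : Set (ι → ℤ))) (pt B f fun b => rc M (n b) m)
        (pt B f fun b => if b ∈ s then rc M (n b) (m + 1) else rc M (n b) m) := by
    intro m hm s
    induction s using Finset.induction_on with
    | empty => intro _; simp only [Finset.notMem_empty, if_false]; exact Relation.ReflTransGen.refl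
    | insert c s hc ih =>
      intro hs
      have hcB : c ∈ B := hs (Finset.mem_insert_self _ _)
      have hsB : s ⊆ B := fun b hb => hs (Finset.mem_insert_of_mem hb)
      refine (ih hsB).trans ?_
      set y := fun b => if b ∈ s then rc M (n b) (m + 1) else rc M (n b) m with hy
      set y' := fun b => if b ∈ insert c s then rc M (n b) (m + 1) else rc M (n b) m with hy'
      have hn1 : ∀ i, 0 ≤ pt B f y i := nonneg m (by linarith) y (by
        intro b _
        simp only [hy]
        split_ifs
        · right; rfl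
        · left; rfl)
      have hn2 : ∀ i, 0 ≤ pt B f y' i := nonneg m (by linarith) y' (by
        intro b _
        simp only [hy']
        split_ifs
        · right; rfl
        · left; rfl)
      have diff : ∀ i, pt B f y' i = pt B f y i + (rc M (n c) (m + 1) - rc M (n c) m) * c i := by
        intro i
        unfold pt
        have : ∑ b ∈ B, y' b * b i - ∑ b ∈ B, y b * b i
            = (rc M (n c) (m + 1) - rc M (n c) m) * c i := by
          rw [← Finset.sum_sub_distrib, Finset.sum_eq_single c]
          · simp only [hy, hy', Finset.mem_insert_self, if_true, if_neg hc]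
            ring
          · intro b _ hbc
            have : y' b = y b := by
              simp only [hy, hy', Finset.mem_insert, hbc, false_or]
            rw [this]; ring
          · intro h; exact absurd hcB h
        linarith
      rcases rc_succ (m := (m : ℤ)) hM0 (hnM c hcB) with h | h | h
      · refine Relation.ReflTransGen.single ⟨hn1, hn2, c, hcB, Or.inr ?_⟩
        funext i
        rw [Pi.add_apply, diff i, h]; ring
      · have : pt B f y' = pt B f y := by
          funext i; rw [diff i, h]; ring
        rw [this]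
      · refine Relation.ReflTransGen.single ⟨hn1, hn2, c, hcB, Or.inl ?_⟩
        funext i
        rw [Pi.add_apply, diff i, h]; ring
  have outer : ∀ m : ℕ, (m : ℤ) ≤ M →
      Relation.ReflTransGen (Step (B : Set (ι → ℤ))) f (pt B f fun b => rc M (n b) m) := by
    intro m
    induction m with
    | zero =>
      intro _
      have : (pt B f fun b => rc M (n b) ((0 : ℕ) : ℤ)) = f := by
        funext i
        unfold pt
        simp [rc_zero hM0]
      rw [this]
    | succ m ih =>
      intro hm
      push_cast at hm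
      have h1 := ih (by linarith)
      have h2 := inner m hm B (Finset.Subset.refl B)
      have e : (pt B f fun b => if b ∈ B then rc M (n b) (m + 1) else rc M (n b) m)
          = pt B f fun b => rc M (n b) ((m + 1 : ℕ) : ℤ) := by
        funext i
        unfold pt
        congr 1
        refine Finset.sum_congr rfl fun b hb => ?_
        simp [hb]
      rw [e] at h2
      exact h1.trans h2
  have last := outer N le_rfl
  have : (pt B f fun b => rc M (n b) (N : ℤ)) = f' := by
    rw [hff]
    funext i
    unfold pt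
    congr 1
    refine Finset.sum_congr rfl fun b _ => ?_
    beta_reduce
    rw [← hM, rc_top hM0]
  rw [this] at last
  exact last

end Birk
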