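import Pool.Agent.Work.MP_697f4c_co.Absorb

/-!
MP_697f4c_co, work file: arc moves in a context.
-/

open Equiv Equiv.Perm Finset

namespace Birk

variable {M : Type*} [AddCommMonoid M] {α : Type*} [DecidableEq α] [Fintype α]

theorem pm_swap_rect (q : Perm α) {x0 x1 : α} (h01 : x0 ≠ x1) (x y : α) :
    pm (q * swap x0 x1) x y = pm q x y - rect x0 x1 (q x0) (q x1) x y := by
  have hne : q x0 ≠ q x1 := fun h => h01 (q.injective h)
  unfold pm rect mu
  rw [Perm.mul_apply]
  by_cases c0 : x = x0
  · subst c0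
    rw [swap_apply_left]
    simp only [true_and, h01, false_and, if_false]
    by_cases ha : y = q x
    · subst ha
      simp only [if_true, if_neg hne, if_neg (Ne.symm hne)]; ring
    · rw [if_neg (Ne.symm ha), if_neg ha]
      by_cases hb : y = q x1
      · subst hb; simp
      · rw [if_neg (Ne.symm hb), if_neg hb]; ring
  · by_cases c1 : x = x1
    · subst c1
      rw [swap_apply_right]
      simp only [true_and, c0, false_and, if_false]
      by_cases ha : y = q x0
      · subst ha
        simp only [if_true, if_neg hne, if_neg (Ne.symm hne)]; ring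
      · rw [if_neg (Ne.symm ha), if_neg ha]
        by_cases hb : y = q x
        · subst hb; simp
        · rw [if_neg (Ne.symm hb), if_neg hb]; ring
    · rw [swap_apply_of_ne_of_ne c0 c1]
      simp only [c0, c1, false_and, if_false]; ring

section ctx

variable (hα : 4 ≤ Fintype.card α) {F : Perm α → M} (hQ : EQ F) {Ω : M} (ρ0 : Perm α)
  {u0 v0 w0 : α} (g1 : u0 ≠ v0) (g2 : v0 ≠ w0) (g3 : u0 ≠ w0) (hΩ : Ω = Phi F ρ0 u0 v0 w0)
  (hC : ∀ e, QC F (Ctx F Ω e))

include hα hQ g1 g2 g3 hΩ hC

/-- change of the absorbing ranking, the proper case included -/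
theorem absorb0 {h : α → α → ℤ} {x0 y0 : α} (row : ∀ x, ∑ y, h x y = 1)
    (col : ∀ y, ∑ x, h x y = 1) (nn : ∀ x y, (x ≠ x0 ∨ y ≠ y0) → 0 ≤ h x y)
    (ge : -1 ≤ h x0 y0)
    {r1 a1 b1 r2 a2 b2 : Perm α} (hr1 : r1 x0 = y0) (hr2 : r2 x0 = y0) (hd1 : Dec h r1 a1 b1)
    (hd2 : Dec h r2 a2 b2) (e : Bool) : ∃ d : Bool,
    F a1 + F b1 + Ax F r1 + Ctx F Ω e = F a2 + F b2 + Ax F r2 + Ctx F Ω d := by
  by_cases hneg : 0 ≤ h x0 y0
  · have nn2 : ∀ x y, 0 ≤ h x y := by
      intro x y
      by_cases hxy : x ≠ x0 ∨ y ≠ y0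
      · exact nn x y hxy
      · push Not at hxy
        rw [hxy.1, hxy.2]; exact hneg
    obtain ⟨σ, hσ⟩ := konig1 h nn2 row col
    refine ⟨e, ?_⟩
    have q1 := hC e a1 b1 σ r1 (fun x y => by rw [hd1 x y, hσ])
    have q2 := hC e a2 b2 σ r2 (fun x y => by rw [hd2 x y, hσ])
    calc F a1 + F b1 + Ax F r1 + Ctx F Ω e = (F a1 + F b1 + Ctx F Ω e) + Ax F r1 := by abel
      _ = F σ + (F r1 + Ax F r1) + Ctx F Ω e := by rw [q1]; abel
      _ = F σ + (F r2 + Ax F r2) + Ctx F Ω e := by rw [ax_add, ax_add]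
      _ = (F σ + F r2 + Ctx F Ω e) + Ax F r2 := by abel
      _ = F a2 + F b2 + Ax F r2 + Ctx F Ω e := by rw [← q2]; abel
  · exact absorb hα hQ ρ0 g1 g2 g3 hΩ hC ⟨row, col, nn, by omega⟩ hr1 hr2 hd1 hd2 e

theorem arcSim {a b s a' b' s' : Perm α} (h : ArcMv a b s a' b' s') (e : Bool) : ∃ d : Bool,
    F a + F b + F s + ∑ σ, F σ + Ctx F Ω e = F a' + F b' + F s' + ∑ σ, F σ + Ctx F Ω d := by
  obtain ⟨htot, r, r', x0, x1, h01, can1, can2, up1, n1, n2, e1, e2, up2, up3, -⟩ := h
  set y0 := r x0 with hy0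
  set y1 := s x1 with hy1
  -- the exchange
  have hD : ∀ x y, pm r' x y + pm s' x y = pm r x y + pm s x y - rect x0 x1 y0 y1 x y := by
    intro x y
    by_cases c0 : x = x0
    · subst c0
      unfold pm rect mu
      rw [e1, e2, ← hy0]
      simp only [true_and, h01, false_and, if_false]
      by_cases ha : y = y0
      · subst ha
        simp only [if_true, if_neg n1, if_neg (Ne.symm n1)]; ring
      · rw [if_neg (Ne.symm ha), if_neg ha]
        by_cases hb : y = y1
        · subst hb; simp only [if_true]; ring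
        · rw [if_neg (Ne.symm hb), if_neg hb]; ring
    by_cases c1 : x = x1
    · subst c1
      have h3 : pm r' x y + pm s' x y = (if y0 = y then 1 else 0) + pm r x y := by
        unfold pm
        rcases up2 with h4 | h4
        · rw [h4.1, h4.2]
        · rw [h4.1, h4.2, add_comm]
      rw [h3]
      unfold pm rect mu
      rw [← hy1]
      simp only [true_and, c0, false_and, if_false]
      by_cases ha : y = y0
      · subst ha
        simp only [if_true, if_neg n1, if_neg (Ne.symm n1)]; ring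
      · rw [if_neg (Ne.symm ha), if_neg ha]
        by_cases hb : y = y1
        · subst hb; simp only [if_true]; ring
        · rw [if_neg (Ne.symm hb), if_neg hb]; ring
    · have h3 : pm r' x y + pm s' x y = pm r x y + pm s x y := by
        unfold pm
        rcases up3 x c0 c1 with h4 | h4
        · rw [h4.1, h4.2]
        · rw [h4.1, h4.2, add_comm]
      rw [h3]
      unfold rect mu
      simp only [c0, c1, false_and, if_false]; ring
  -- the matrices
  set h : α → α → ℤ := fun x y => pm a x y + pm b x y - pm r x y with hh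
  set h' : α → α → ℤ := fun x y => pm a' x y + pm b' x y - pm r' x y with hh'
  have hrel : ∀ x y, h' x y = h x y + rect x0 x1 y0 y1 x y := by
    intro x y
    have h3 := htot x y
    have h4 := hD x y
    simp only [hh, hh']
    linarith
  have mixnn : ∀ (a b r : Perm α), Can a b r x0 → ∀ x y, (x ≠ x0 ∨ y ≠ r x0) →
      0 ≤ pm a x y + pm b x y - pm r x y := by
    intro a b r hc x y hxy
    have p1 := pm_nonneg a x y
    have p2 := pm_nonneg b x y
    by_cases hr : r x = y
    · have hx : x ≠ x0 := by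
        rcases hxy with h3 | h3
        · exact h3
        · rintro rfl; exact h3 hr.symm
      have p3 : pm r x y = 1 := by unfold pm; rw [if_pos hr]
      rcases hc.1 x hx with h3 | h3
      · have p4 : pm a x y = 1 := by unfold pm; rw [if_pos (by rw [← h3, hr])]
        omega
      · have p4 : pm b x y = 1 := by unfold pm; rw [if_pos (by rw [← h3, hr])]
        omega
    · have p3 : pm r x y = 0 := by unfold pm; rw [if_neg hr]
      omega
  have row : ∀ (a b r : Perm α) (x : α), ∑ y, (pm a x y + pm b x y - pm r x y) = 1 := by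
    intro a b r x
    rw [sum_sub_distrib, sum_add_distrib, pm_row, pm_row, pm_row]; norm_num
  have col : ∀ (a b r : Perm α) (y : α), ∑ x, (pm a x y + pm b x y - pm r x y) = 1 := by
    intro a b r y
    rw [sum_sub_distrib, sum_add_distrib, pm_col, pm_col, pm_col]; norm_num
  have gem : ∀ (a b r : Perm α) (x y : α), -1 ≤ pm a x y + pm b x y - pm r x y := by
    intro a b r x y
    have p1 := pm_nonneg a x y
    have p2 := pm_nonneg b x y
    have p3 := pm_le_one r x y
    omega
  -- the auxiliary rankings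
  set w := r'⁻¹ y0 with hw
  have hrw : r' w = y0 := by simp [hw]
  have hw0 : w ≠ x0 := by
    intro h3
    rw [h3, e1] at hrw
    exact n1 hrw
  set q' := r' * swap x1 w with hq'
  have q'1 : q' x1 = y0 := by rw [hq', Perm.mul_apply, swap_apply_left, hrw]
  have q'w : q' w = r' x1 := by rw [hq', Perm.mul_apply, swap_apply_right]
  have q'o : ∀ t, t ≠ x1 → t ≠ w → q' t = r' t := by
    intro t h1 h2; rw [hq', Perm.mul_apply, swap_apply_of_ne_of_ne h1 h2]
  have q'0 : q' x0 = y1 := by rw [q'o x0 h01 (Ne.symm hw0), e1]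
  set q := q' * swap x0 x1 with hq
  have q0 : q x0 = y0 := by rw [hq, Perm.mul_apply, swap_apply_left, q'1]
  have q1 : q x1 = y1 := by rw [hq, Perm.mul_apply, swap_apply_right, q'0]
  have qo : ∀ t, t ≠ x0 → t ≠ x1 → q t = q' t := by
    intro t h1 h2; rw [hq, Perm.mul_apply, swap_apply_of_ne_of_ne h1 h2]
  have hqq : ∀ x y, pm q' x y = pm q x y - rect x0 x1 y0 y1 x y := by
    intro x y
    have h3 : q' = q * swap x0 x1 := by rw [hq, mul_assoc, swap_mul_self, mul_one]
    rw [h3, pm_swap_rect q h01, q0, q1]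
  -- the transfer
  have step4 : ∀ e : Bool, ∃ d : Bool, F r + F s + Ax F q + Ctx F Ω e
      = F r' + F s' + Ax F q' + Ctx F Ω d := by
    intro e
    set g : α → α → ℤ := fun x y => pm r x y + pm s x y - pm q x y with hg
    have gnn : ∀ x y, (x ≠ w ∨ y ≠ q w) → 0 ≤ g x y := by
      intro x y hxy
      simp only [hg]
      have p1 := pm_nonneg r x y
      have p2 := pm_nonneg s x y
      by_cases hr : q x = y
      · have p3 : pm q x y = 1 := by unfold pm; rw [if_pos hr]
        have hx : x ≠ w := by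
          rcases hxy with h3 | h3
          · exact h3
          · rintro rfl; exact h3 hr.symm
        have h5 : r x = y ∨ s x = y := by
          by_cases c0 : x = x0
          · left; rw [c0, ← hy0, ← q0, ← c0]; exact hr
          by_cases c1 : x = x1
          · right; rw [c1, ← hy1, ← q1, ← c1]; exact hr
          · rw [qo x c0 c1, q'o x c1 hx] at hr
            rcases up3 x c0 c1 with h4 | h4
            · left; rw [← h4.1, hr]
            · right; rw [← h4.1, hr]
        rcases h5 with h6 | h6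
        · have p4 : pm r x y = 1 := by unfold pm; rw [if_pos h6]
          omega
        · have p4 : pm s x y = 1 := by unfold pm; rw [if_pos h6]
          omega
      · have p3 : pm q x y = 0 := by unfold pm; rw [if_neg hr]
        omega
    have dq : Dec g q r s := by
      intro x y; simp only [hg]; ring
    have dq' : Dec g q' r' s' := by
      intro x y
      have h3 := hD x y
      have h4 := hqq x y
      simp only [hg]
      linarith
    by_cases hww : w = x1
    · -- no defect
      have g0 : ∀ x y, 0 ≤ g x y := by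
        intro x y
        by_cases hxy : x ≠ w ∨ y ≠ q w
        · exact gnn x y hxy
        · push Not at hxy
          rw [hxy.1, hxy.2, hww, q1]
          simp only [hg]
          have p1 := pm_nonneg r x1 y1
          have p2 : pm s x1 y1 = 1 := by unfold pm; rw [if_pos hy1.symm]
          have p3 := pm_le_one q x1 y1
          omega
      obtain ⟨σ, hσ⟩ := konig1 g g0 (row r s q) (col r s q)
      refine ⟨e, ?_⟩
      have k1 := hC e r s σ q (fun x y => by rw [dq x y, hσ])
      have k2 := hC e r' s' σ q' (fun x y => by rw [dq' x y, hσ])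
      calc F r + F s + Ax F q + Ctx F Ω e = (F r + F s + Ctx F Ω e) + Ax F q := by abel
        _ = F σ + (F q + Ax F q) + Ctx F Ω e := by rw [k1]; abel
        _ = F σ + (F q' + Ax F q') + Ctx F Ω e := by rw [ax_add, ax_add]
        _ = (F σ + F q' + Ctx F Ω e) + Ax F q' := by abel
        _ = F r' + F s' + Ax F q' + Ctx F Ω e := by rw [← k2]; abel
    · have hqw : q w = q' w := qo w hw0 hww
      exact absorb0 hα hQ ρ0 g1 g2 g3 hΩ hC (row r s q) (col r s q) gnn (gem r s q w (q w))
        rfl hqw.symm dq dq' e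
  -- the common decomposition
  have hnn : ∀ x y, (x ≠ x0 ∨ y ≠ y0) → 0 ≤ h x y := mixnn a b r can1
  have hnn' : ∀ x y, (x ≠ x0 ∨ y ≠ y1) → 0 ≤ h' x y := by
    rw [← e1]; exact mixnn a' b' r' can2
  have hq0 : ∀ x y, 0 ≤ h x y + pm q x y := by
    intro x y
    by_cases hxy : x ≠ x0 ∨ y ≠ y0
    · have := hnn x y hxy
      have := pm_nonneg q x y
      omega
    · push Not at hxy
      rw [hxy.1, hxy.2]
      have p1 := gem a b r x0 y0
      have p2 : pm q x0 y0 = 1 := by unfold pm; rw [if_pos q0]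
      have p3 : h x0 y0 = pm a x0 y0 + pm b x0 y0 - pm r x0 y0 := rfl
      omega
  obtain ⟨a1, b1, hab1⟩ := konig2 (fun x y => h x y + pm q x y) hq0 (by
      intro x; rw [sum_add_distrib, row a b r x, pm_row]; norm_num) (by
      intro y; rw [sum_add_distrib, col a b r y, pm_col]; norm_num)
  have d1 : Dec h q a1 b1 := hab1
  have d1' : Dec h' q' a1 b1 := by
    intro x y
    have h3 : pm a1 x y + pm b1 x y = h x y + pm q x y := hab1 x y
    have h4 := hqq x y
    have h5 := hrel x y
    linarith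
  have d0 : Dec h r a b := by intro x y; simp only [hh]; ring
  have d0' : Dec h' r' a' b' := by intro x y; simp only [hh']; ring
  obtain ⟨c1, k1⟩ := absorb0 hα hQ ρ0 g1 g2 g3 hΩ hC (row a b r) (col a b r) hnn
    (gem a b r x0 y0) hy0.symm q0 d0 d1 e
  obtain ⟨c2, k2⟩ := step4 c1
  obtain ⟨c3, k3⟩ := absorb0 hα hQ ρ0 g1 g2 g3 hΩ hC (row a' b' r') (col a' b' r') hnn'
    (gem a' b' r' x0 y1) q'0 e1 d1' d0' c2
  refine ⟨c3, ?_⟩
  calc F a + F b + F s + ∑ σ, F σ + Ctx F Ω e
      = (F a + F b + Ax F r + Ctx F Ω e) + F s + F r := by rw [← ax_add F r]; abel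
    _ = (F r + F s + Ax F q + Ctx F Ω c1) + F a1 + F b1 := by rw [k1]; abel
    _ = (F a1 + F b1 + Ax F q' + Ctx F Ω c2) + F r' + F s' := by rw [k2]; abel
    _ = F a' + F b' + F s' + (F r' + Ax F r') + Ctx F Ω c3 := by rw [k3]; abel
    _ = F a' + F b' + F s' + ∑ σ, F σ + Ctx F Ω c3 := by rw [ax_add]

/-- sum over a multiset -/
def FS (F : Perm α → M) (U : Multiset (Perm α)) : M := (U.map F).sum

omit hα hQ g1 g2 g3 hΩ hC in
theorem fs_cons (F : Perm α → M) (s : Perm α) (U : Multiset (Perm α)) :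
    FS F (s ::ₘ U) = F s + FS F U := by simp [FS]

theorem rmSim {U V : Multiset (Perm α)} (h : Rm U V) (e : Bool) : ∃ d : Bool,
    FS F U + ∑ σ, F σ + Ctx F Ω e = FS F V + ∑ σ, F σ + Ctx F Ω d := by
  rcases h with ⟨W, a, b, a', b', h1, rfl, rfl⟩ | ⟨W, a, b, s, a', b', s', h1, rfl, rfl⟩
  · refine ⟨e, ?_⟩
    have k := hC e a b a' b' h1.1
    simp only [fs_cons]
    calc F a + (F b + FS F W) + ∑ σ, F σ + Ctx F Ω e
        = (F a + F b + Ctx F Ω e) + FS F W + ∑ σ, F σ := by abel
      _ = F a' + (F b' + FS F W) + ∑ σ, F σ + Ctx F Ω e := by rw [k]; abel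
  · obtain ⟨d, k⟩ := arcSim hα hQ ρ0 g1 g2 g3 hΩ hC h1 e
    refine ⟨d, ?_⟩
    simp only [fs_cons]
    calc F a + (F b + (F s + FS F W)) + ∑ σ, F σ + Ctx F Ω e
        = (F a + F b + F s + ∑ σ, F σ + Ctx F Ω e) + FS F W := by abel
      _ = F a' + (F b' + (F s' + FS F W)) + ∑ σ, F σ + Ctx F Ω d := by rw [k]; abel

theorem reachSim {n : ℕ} {U V : Multiset (Perm α)} (h : Reach Rm n U V) : ∀ e : Bool,
    ∃ d : Bool, FS F U + ∑ σ, F σ + Ctx F Ω e = FS F V + ∑ σ, F σ + Ctx F Ω d := by
  induction h with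
  | refl n u => exact fun e => ⟨e, rfl⟩
  | step hr _ ih =>
    intro e
    obtain ⟨d1, k1⟩ := rmSim hα hQ ρ0 g1 g2 g3 hΩ hC hr e
    obtain ⟨d2, k2⟩ := ih d1
    exact ⟨d2, k1.trans k2⟩

end ctx

end Birk
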