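import Pool.Agent.Work.MP_697f4c_co.Hx
import Pool.Agent.Work.MP_697f4c_co.Sim

/-!
MP_697f4c_co, work file: relations with a bounded number of catalysts.
-/

open Equiv Equiv.Perm Finset

namespace Birk

variable {M : Type*} [AddCommMonoid M] {α : Type*}

/-- equality in the presence of at most `n` rankings -/
def RL (F : Perm α → M) (n : ℕ) (u v : M) : Prop :=
  ∃ Z : Multiset (Perm α), Multiset.card Z ≤ n ∧ u + FS F Z = v + FS F Z

theorem fs_add (F : Perm α → M) (U V : Multiset (Perm α)) : FS F (U + V) = FS F U + FS F V := by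
  unfold FS; rw [Multiset.map_add, Multiset.sum_add]

theorem fs_single (F : Perm α → M) (a : Perm α) : FS F {a} = F a := by simp [FS]

theorem fs_cons' (F : Perm α → M) (a : Perm α) (U : Multiset (Perm α)) :
    FS F (a ::ₘ U) = F a + FS F U := by simp [FS]

variable {F : Perm α → M}

theorem RL.of_eq {u v : M} (h : u = v) (n : ℕ) : RL F n u v := ⟨0, Nat.zero_le _, by rw [h]⟩

theorem RL.symm {n : ℕ} {u v : M} (h : RL F n u v) : RL F n v u := by
  obtain ⟨Z, h1, h2⟩ := h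
  exact ⟨Z, h1, h2.symm⟩

theorem RL.mono {n m : ℕ} {u v : M} (h : RL F n u v) (hm : n ≤ m) : RL F m u v := by
  obtain ⟨Z, h1, h2⟩ := h
  exact ⟨Z, h1.trans hm, h2⟩

theorem RL.trans {n m : ℕ} {u v w : M} (h : RL F n u v) (h' : RL F m v w) :
    RL F (n + m) u w := by
  obtain ⟨Z, h1, h2⟩ := h
  obtain ⟨Y, h3, h4⟩ := h'
  refine ⟨Z + Y, ?_, ?_⟩
  · rw [Multiset.card_add]; omega
  · rw [fs_add]
    calc u + (FS F Z + FS F Y) = (u + FS F Z) + FS F Y := by abel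
      _ = (v + FS F Y) + FS F Z := by rw [h2]; abel
      _ = w + (FS F Z + FS F Y) := by rw [h4]; abel

theorem RL.add {n : ℕ} {u v : M} (h : RL F n u v) (x : M) : RL F n (u + x) (v + x) := by
  obtain ⟨Z, h1, h2⟩ := h
  refine ⟨Z, h1, ?_⟩
  calc u + x + FS F Z = (u + FS F Z) + x := by abel
    _ = v + x + FS F Z := by rw [h2]; abel

theorem RL.cancel {n : ℕ} {u v : M} (Y : Multiset (Perm α))
    (h : RL F n (u + FS F Y) (v + FS F Y)) : RL F (n + Multiset.card Y) u v := by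
  obtain ⟨Z, h1, h2⟩ := h
  refine ⟨Y + Z, ?_, ?_⟩
  · rw [Multiset.card_add]; omega
  · rw [fs_add, ← add_assoc, ← add_assoc]; exact h2

theorem RL.congr {n : ℕ} {u v u' v' : M} (h : RL F n u v) (hu : u = u') (hv : v = v') :
    RL F n u' v' := by rw [← hu, ← hv]; exact h

variable [DecidableEq α] [Fintype α]

/-- the half of the base -/
def t1 (F : Perm α → M) (ρ : Perm α) (x y z : α) : M := ∑ σ ∈ s1 ρ x y z, F σ

/-- the other half -/
def t2 (F : Perm α → M) (ρ : Perm α) (x y z : α) : M := ∑ σ ∈ s2 ρ x y z, F σ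

/-- the two blocks have the same difference of the halves -/
def SR (F : Perm α → M) (n : ℕ) (ρ : Perm α) (x y z : α) (ρ' : Perm α) (x' y' z' : α) : Prop :=
  RL F n (t1 F ρ x y z + t2 F ρ' x' y' z') (t2 F ρ x y z + t1 F ρ' x' y' z')

theorem s1_card (ρ : Perm α) (x y z : α) : (s1 ρ x y z).card ≤ 3 := card_le_three

theorem s2_card (ρ : Perm α) (x y z : α) : (s2 ρ x y z).card ≤ 3 := card_le_three

theorem SR.trans {n m : ℕ} {ρ ρ' ρ'' : Perm α} {x y z x' y' z' x'' y'' z'' : α}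
    (h : SR F n ρ x y z ρ' x' y' z') (h' : SR F m ρ' x' y' z' ρ'' x'' y'' z'') :
    SR F (n + m + 6) ρ x y z ρ'' x'' y'' z'' := by
  have h1 := RL.add h (t1 F ρ' x' y' z' + t2 F ρ'' x'' y'' z'')
  have h2 := RL.add h' (t2 F ρ x y z + t1 F ρ' x' y' z')
  have h3 : RL F (n + m) (t1 F ρ x y z + t2 F ρ'' x'' y'' z''
      + FS F ((s1 ρ' x' y' z').val + (s2 ρ' x' y' z').val))
      (t2 F ρ x y z + t1 F ρ'' x'' y'' z''
      + FS F ((s1 ρ' x' y' z').val + (s2 ρ' x' y' z').val)) := by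
    have e1 : FS F ((s1 ρ' x' y' z').val + (s2 ρ' x' y' z').val)
        = t1 F ρ' x' y' z' + t2 F ρ' x' y' z' := by rw [fs_add]; rfl
    rw [e1]
    exact (h1.congr (by abel) rfl).trans (h2.congr (by abel) (by abel))
  refine (RL.cancel _ h3).mono ?_
  rw [Multiset.card_add]
  have a1 := s1_card ρ' x' y' z'
  have a2 := s2_card ρ' x' y' z'
  show n + m + ((s1 ρ' x' y' z').card + (s2 ρ' x' y' z').card) ≤ _
  omega

theorem SR.self (ρ : Perm α) (x y z : α) : SR F 0 ρ x y z ρ x y z :=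
  RL.of_eq (add_comm _ _) 0

theorem SR.congr_left {n : ℕ} {ρ ρ' ρ'' : Perm α} {x y z x' y' z' x'' y'' z'' : α}
    (h : SR F n ρ x y z ρ'' x'' y'' z'') (h1 : s1 ρ' x' y' z' = s1 ρ x y z)
    (h2 : s2 ρ' x' y' z' = s2 ρ x y z) : SR F n ρ' x' y' z' ρ'' x'' y'' z'' := by
  unfold SR t1 t2 at *
  rw [h1, h2]; exact h

theorem sr_point (hQ : EQ F) (ρ : Perm α) {x y z w : α} (h : Dis x y z w) :
    SR F 1 ρ x y w ρ x y z := by
  have hs := swapG hQ ρ h
  obtain ⟨hxy, hxz, hxw, hyz, hyw, hzw⟩ := h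
  refine ⟨{ρ * (swap y z * swap z w)}, by simp, ?_⟩
  unfold t1 t2
  rw [fs_single, sum_s1 F ρ hxy hyz hxz, sum_s1 F ρ hxy hyw hxw, sum_s2 F ρ hxy hyz hxz,
    sum_s2 F ρ hxy hyw hxw]
  set c1 := F (ρ * (swap x y * swap y z))
  set c2 := F (ρ * (swap x z * swap z y))
  set d1 := F (ρ * (swap x y * swap y w))
  set d2 := F (ρ * (swap x w * swap w y))
  set k := F (ρ * (swap y z * swap z w))
  calc F ρ + d1 + d2 + (F (ρ * swap x y) + F (ρ * swap y z) + F (ρ * swap x z)) + k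
      = F (ρ * swap x y) + F (ρ * swap y z) + F (ρ * swap x z) + F ρ + d1 + d2 + k := by abel
    _ = F ρ + c1 + c2 + F (ρ * swap x y) + F (ρ * swap y w) + F (ρ * swap x w) + k := hs.symm
    _ = F (ρ * swap x y) + F (ρ * swap y w) + F (ρ * swap x w) + (F ρ + c1 + c2) + k := by abel

theorem sr_pt {n : ℕ} (hQ : EQ F) {ρ ρ' : Perm α} {x y z w x' y' z' : α}
    (h : SR F n ρ x y z ρ' x' y' z') (hxy : x ≠ y) (hyz : y ≠ z) (hxz : x ≠ z) (hxw : x ≠ w)
    (hyw : y ≠ w) : SR F (n + 7) ρ x y w ρ' x' y' z' := by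
  by_cases hzw : z = w
  · subst hzw; exact RL.mono h (by omega)
  · have h1 := (sr_point hQ ρ ⟨hxy, hxz, hxw, hyz, hyw, hzw⟩).trans h
    exact RL.mono h1 (by omega)

theorem sr_swap {n : ℕ} {ρ ρ' : Perm α} {x y z x' y' z' : α}
    (h : SR F n ρ x y z ρ' x' y' z') (hxy : x ≠ y) (hyz : y ≠ z) (hxz : x ≠ z) :
    SR F n ρ y x z ρ' x' y' z' := h.congr_left (s1_swap ρ hxy hyz hxz) (s2_swap ρ x y z)

theorem sr_swap' {n : ℕ} {ρ ρ' : Perm α} {x y z x' y' z' : α}
    (h : SR F n ρ x y z ρ' x' y' z') :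
    SR F n ρ x z y ρ' x' y' z' := h.congr_left (s1_swap' ρ x y z) (s2_swap' ρ x y z)

/-- change of the triple -/
theorem sr_tri {n : ℕ} (hQ : EQ F) {ρ ρ' : Perm α} {x y z u v w x' y' z' : α}
    (h : SR F n ρ x y z ρ' x' y' z') (hxy : x ≠ y) (hyz : y ≠ z) (hxz : x ≠ z) (huv : u ≠ v)
    (hvw : v ≠ w) (huw : u ≠ w) : SR F (n + 21) ρ u v w ρ' x' y' z' := by
  -- bring `u` to the first place
  obtain ⟨a, b, h1, h2, h3, e1⟩ : ∃ a b, u ≠ a ∧ a ≠ b ∧ u ≠ b ∧
      SR F (n + 7) ρ u a b ρ' x' y' z' := by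
    by_cases c1 : u = x
    · subst c1; exact ⟨y, z, hxy, hyz, hxz, RL.mono h (by omega)⟩
    by_cases c2 : u = y
    · subst c2; exact ⟨x, z, Ne.symm hxy, hxz, hyz, RL.mono (sr_swap h hxy hyz hxz) (by omega)⟩
    by_cases c3 : u = z
    · subst c3
      refine ⟨x, y, Ne.symm hxz, hxy, Ne.symm hyz, ?_⟩
      exact RL.mono (sr_swap (sr_swap' h) hxz (Ne.symm hyz) hxy) (by omega)
    · refine ⟨y, z, c2, hyz, c3, ?_⟩
      -- x y z -> y z x -> y z u -> u y z
      have k1 := sr_swap' (sr_swap h hxy hyz hxz)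
      have k2 := sr_pt hQ k1 hyz (Ne.symm hxz) (Ne.symm hxy) (Ne.symm c2) (Ne.symm c3)
      exact sr_swap (sr_swap' k2) (Ne.symm c2) c3 hyz
  obtain ⟨b2, h4, h5, e2⟩ : ∃ b2, v ≠ b2 ∧ u ≠ b2 ∧ SR F (n + 14) ρ u v b2 ρ' x' y' z' := by
    by_cases c1 : v = a
    · subst c1; exact ⟨b, h2, h3, RL.mono e1 (by omega)⟩
    by_cases c2 : v = b
    · subst c2; exact ⟨a, Ne.symm h2, h1, RL.mono (sr_swap' e1) (by omega)⟩
    · refine ⟨b, c2, h3, ?_⟩
      -- u a b -> u b a -> u b v -> u v b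
      have k1 := sr_swap' e1
      have k2 := sr_pt hQ k1 h3 (Ne.symm h2) h1 huv (Ne.symm c2)
      exact sr_swap' k2
  exact sr_pt hQ e2 huv h4 h5 huw hvw

/-- twice the difference vanishes -/
theorem rl_two (hα : 4 ≤ Fintype.card α) (hQ : EQ F) (ρ : Perm α) {x y z : α} (hxy : x ≠ y)
    (hyz : y ≠ z) (hxz : x ≠ z) :
    RL F 3 (t1 F ρ x y z + t1 F ρ x y z) (t2 F ρ x y z + t2 F ρ x y z) := by
  obtain ⟨w, hw⟩ := other_pt (s := ({x, y, z} : Finset α))
    (lt_of_le_of_lt Finset.card_le_three (by omega))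
  simp only [mem_insert, mem_singleton, not_or] at hw
  have hs := flipG hQ ρ (x := x) (y := y) (z := z) (w := w) ⟨hxy, hxz, Ne.symm hw.1, hyz,
    Ne.symm hw.2.1, Ne.symm hw.2.2⟩
  refine ⟨{ρ * swap z w} + {ρ * (swap y z * swap z w)} + {ρ * (swap x y * swap y w)}, by simp, ?_⟩
  unfold t1 t2
  rw [fs_add, fs_add, fs_single, fs_single, fs_single, sum_s1 F ρ hxy hyz hxz,
    sum_s2 F ρ hxy hyz hxz]
  set c1 := F (ρ * (swap x y * swap y z))
  set c2 := F (ρ * (swap x z * swap z y))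
  set k1 := F (ρ * swap z w)
  set k2 := F (ρ * (swap y z * swap z w))
  set k3 := F (ρ * (swap x y * swap y w))
  calc F ρ + c1 + c2 + (F ρ + c1 + c2) + (k1 + k2 + k3)
      = F ρ + c1 + c2 + F ρ + c1 + c2 + k1 + k2 + k3 := by abel
    _ = _ := hs
    _ = F (ρ * swap x y) + F (ρ * swap y z) + F (ρ * swap x z)
        + (F (ρ * swap x y) + F (ρ * swap y z) + F (ρ * swap x z)) + (k1 + k2 + k3) := by abel

/-- the flip of a block -/
theorem sr_flip {n : ℕ} (hα : 4 ≤ Fintype.card α) (hQ : EQ F) {ρ ρ' : Perm α}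
    {x y z x' y' z' : α}
    (h : SR F n ρ x y z ρ' x' y' z') (hxy : x ≠ y) (hyz : y ≠ z) (hxz : x ≠ z) :
    SR F (n + 9) (ρ * swap x y) x y z ρ' x' y' z' := by
  have h1 : SR F 3 (ρ * swap x y) x y z ρ x y z := by
    unfold SR
    have e1 : t1 F (ρ * swap x y) x y z = t2 F ρ x y z := by
      unfold t1 t2; rw [s1_base ρ hxy hyz hxz]
    have e2 : t2 F (ρ * swap x y) x y z = t1 F ρ x y z := by
      unfold t1 t2; rw [s2_base ρ hxy hyz hxz]
    rw [e1, e2]
    exact (rl_two hα hQ ρ hxy hyz hxz).symm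
  exact RL.mono (h1.trans h) (by omega)

/-- change of the base -/
theorem sr_base (hα : 4 ≤ Fintype.card α) (hQ : EQ F) {ρ' : Perm α} {x' y' z' : α}
    (hxy' : x' ≠ y') (hyz' : y' ≠ z') (hxz' : x' ≠ z') : ∀ (n : ℕ) (π : Perm α),
    π.support.card ≤ n → ∀ {x y z : α}, x ≠ y → y ≠ z → x ≠ z →
    SR F (30 * n + 21) (ρ' * π) x y z ρ' x' y' z' := by
  intro n
  induction n with
  | zero =>
    intro π hπ x y z hxy hyz hxz
    have h1 : π = 1 := by
      rw [← Perm.card_support_eq_zero]; omega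
    subst h1
    rw [mul_one]
    exact RL.mono (sr_tri hQ (SR.self ρ' x' y' z') hxy' hyz' hxz' hxy hyz hxz) (by omega)
  | succ n ih =>
    intro π hπ x y z hxy hyz hxz
    by_cases hπ1 : π = 1
    · subst hπ1
      rw [mul_one]
      exact RL.mono (sr_tri hQ (SR.self ρ' x' y' z') hxy' hyz' hxz' hxy hyz hxz) (by omega)
    obtain ⟨u, hu⟩ : ∃ u, π u ≠ u := by
      by_contra hcon
      push Not at hcon
      exact hπ1 (Perm.ext hcon)
    set π' := swap u (π u) * π with hπ'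
    set v := π⁻¹ u with hv
    have hπv : π v = u := by simp [hv]
    have hvu : v ≠ u := by
      intro h
      rw [h] at hπv
      exact hu hπv
    have hsup : π'.support.card < π.support.card := Perm.card_support_swap_mul hu
    have hcc : π = π' * swap v u := by
      rw [hπ', mul_assoc]
      have h1 : π * swap v u = swap (π v) (π u) * π := (Equiv.mul_swap_eq_swap_mul π v u)
      rw [h1, hπv, ← mul_assoc, swap_mul_self, one_mul]
    obtain ⟨w, hw⟩ := other_pt (s := ({v, u} : Finset α))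
      (lt_of_le_of_lt Finset.card_le_two (by omega))
    simp only [mem_insert, mem_singleton, not_or] at hw
    have k1 := ih π' (by omega) hvu (Ne.symm hw.2) (Ne.symm hw.1)
    have k2 := sr_flip hα hQ k1 hvu (Ne.symm hw.2) (Ne.symm hw.1)
    have k3 := sr_tri hQ k2 hvu (Ne.symm hw.2) (Ne.symm hw.1) hxy hyz hxz
    rw [mul_assoc, ← hcc] at k3
    exact RL.mono k3 (by omega)

/-- any two blocks -/
theorem sr_all (hα : 4 ≤ Fintype.card α) (hQ : EQ F) {ρ ρ' : Perm α} {x y z x' y' z' : α}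
    (hxy' : x' ≠ y') (hyz' : y' ≠ z') (hxz' : x' ≠ z') (hxy : x ≠ y) (hyz : y ≠ z)
    (hxz : x ≠ z) : SR F (30 * Fintype.card α + 21) ρ x y z ρ' x' y' z' := by
  have h := sr_base hα hQ hxy' hyz' hxz' (Fintype.card α) (ρ'⁻¹ * ρ)
    (by rw [← card_univ]; exact card_le_card (subset_univ _)) hxy hyz hxz (ρ' := ρ')
  rwa [mul_inv_cancel_left] at h

end Birk
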