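import Pool.Agent.Work.MP_697f4c_co.Loc
import Pool.Agent.Work.MP_697f4c_co.Sim2

/-!
MP_697f4c_co, work file: arc moves with a bounded number of catalysts.
-/

open Equiv Equiv.Perm Finset

namespace Birk

variable {M : Type*} [AddCommMonoid M] {α : Type*} [DecidableEq α] [Fintype α] {F : Perm α → M}

/-- all quadratic relations -/
def QA (F : Perm α → M) : Prop := ∀ a b a' b' : Perm α,
  (∀ x y, pm a x y + pm b x y = pm a' x y + pm b' x y) → F a + F b = F a' + F b'

omit [Fintype α] in
theorem QA.eq (h : QA F) : EQ F := by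
  intro σ i j k l hD
  apply h
  obtain ⟨hij, hik, hil, hjk, hjl, hkl⟩ := hD
  intro x y
  apply sum_of_up (x := x) (y := y) (a := σ) (b := σ * swap i j * swap k l) (a' := σ * swap i j)
    (b' := σ * swap k l)
  intro t
  simp only [Perm.mul_apply]
  by_cases t1 : t = k
  · left
    subst t1
    rw [swap_apply_left, swap_apply_of_ne_of_ne (Ne.symm hik) (Ne.symm hjk),
      swap_apply_of_ne_of_ne (Ne.symm hil) (Ne.symm hjl)]
    exact ⟨rfl, rfl⟩
  by_cases t2 : t = l
  · left
    subst t2
    rw [swap_apply_right, swap_apply_of_ne_of_ne (Ne.symm hil) (Ne.symm hjl),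
      swap_apply_of_ne_of_ne (Ne.symm hik) (Ne.symm hjk)]
    exact ⟨rfl, rfl⟩
  · right
    rw [swap_apply_of_ne_of_ne t1 t2]
    exact ⟨rfl, rfl⟩

theorem redL (hQ : QA F)
    {h : α → α → ℤ} {x0 y0 : α} (hi : Imp h x0 y0) : ∀ n : ℕ,
    ∀ r a b : Perm α, r x0 = y0 → Dec h r a b →
    (univ.filter fun x => x ≠ x0 ∧ h x y0 = 0 ∧ h x (r x) ≠ 1).card ≤ n →
    ∃ r' a' b' : Perm α, CanAbs h x0 y0 r' ∧ Dec h r' a' b' ∧
      RL F n (F a + F b + F r') (F a' + F b' + F r) := by
  intro n
  induction n with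
  | zero =>
    intro r a b hr hdec hcard
    refine ⟨r, a, b, ⟨hr, fun x h0 h1 => ?_⟩, hdec, RL.of_eq rfl _⟩
    by_contra hne
    have : x ∈ univ.filter fun x => x ≠ x0 ∧ h x y0 = 0 ∧ h x (r x) ≠ 1 := by
      rw [mem_filter]; exact ⟨mem_univ _, h0, h1, hne⟩
    have h2 := card_pos.2 ⟨x, this⟩
    omega
  | succ n ih =>
    intro r a b hr hdec hcard
    by_cases hall : ∀ x, x ≠ x0 → h x y0 = 0 → h x (r x) = 1
    · exact ⟨r, a, b, ⟨hr, hall⟩, hdec, RL.of_eq rfl _⟩
    push Not at hall
    obtain ⟨x, hx0, hx1, hx2⟩ := hall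
    -- the row of `x`
    obtain ⟨y, hy⟩ : ∃ y, h x y = 1 := by
      by_contra hcon
      push Not at hcon
      have : ∑ y, h x y = 0 := by
        apply sum_eq_zero
        intro y _
        have h3 := hi.le_one hx0 y
        have h4 := hi.nn x y (Or.inl hx0)
        have h5 := hcon y
        omega
      rw [hi.row x] at this
      omega
    have hrow : ∀ v, h x v = if v = y then 1 else 0 :=
      row_one (fun v => hi.nn x v (Or.inl hx0)) (hi.row x) (by omega)
    have hy0 : y ≠ y0 := by rintro rfl; omega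
    have hyr : y ≠ r x := by rintro rfl; exact hx2 hy
    set z := r⁻¹ y with hz
    have hrz : r z = y := by simp [hz]
    have hzx : z ≠ x := by rintro h2; rw [h2] at hrz; exact hyr hrz.symm
    have hz0 : z ≠ x0 := by
      intro h2
      rw [h2, hr] at hrz
      exact hy0 hrz.symm
    set r1 := r * swap x z with hr1
    have r1x : r1 x = y := by rw [hr1, Perm.mul_apply, swap_apply_left, hrz]
    have r1z : r1 z = r x := by rw [hr1, Perm.mul_apply, swap_apply_right]
    have r1o : ∀ t, t ≠ x → t ≠ z → r1 t = r t := by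
      intro t h1 h2; rw [hr1, Perm.mul_apply, swap_apply_of_ne_of_ne h1 h2]
    have hr10 : r1 x0 = y0 := by rw [r1o x0 (Ne.symm hx0) (Ne.symm hz0), hr]
    have hr1r : r1 ≠ r := by
      intro h2
      rw [h2] at r1x
      exact hyr r1x.symm
    -- choose the names of the two rankings
    obtain ⟨a2, b2, hdec2, ha2, hb2, hsum⟩ : ∃ a2 b2 : Perm α, Dec h r a2 b2 ∧ a2 x = r x ∧
        b2 x = y ∧ F a + F b = F a2 + F b2 := by
      have hup : UP (a x) (b x) (r x) y := by
        apply up_of_ind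
        intro v
        have h3 := hdec x v
        rw [hrow v] at h3
        unfold pm at h3
        rw [h3, add_comm]
        congr 1
        by_cases hv : v = y
        · rw [if_pos hv, if_pos hv.symm]
        · rw [if_neg hv, if_neg (Ne.symm hv)]
      rcases hup with h3 | h3
      · exact ⟨a, b, hdec, h3.1, h3.2, rfl⟩
      · refine ⟨b, a, fun u v => ?_, h3.2, h3.1, add_comm _ _⟩
        rw [add_comm]; exact hdec u v
    have ha2z : a2 z = y := by
      have h3 := hdec2 z y
      have h4 := hi.nn z y (Or.inl hz0)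
      have h5 : pm r z y = 1 := by unfold pm; rw [if_pos hrz]
      have h6 : pm b2 z y = 0 := by
        unfold pm
        rw [if_neg]
        intro h7
        exact hzx (b2.injective (by rw [h7, hb2]))
      rw [h5, h6] at h3
      exact pm_pos (by omega)
    set a1 := a2 * swap x z with ha1
    have a1x : a1 x = y := by rw [ha1, Perm.mul_apply, swap_apply_left, ha2z]
    have a1z : a1 z = r x := by rw [ha1, Perm.mul_apply, swap_apply_right, ha2]
    have a1o : ∀ t, t ≠ x → t ≠ z → a1 t = a2 t := by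
      intro t h1 h2; rw [ha1, Perm.mul_apply, swap_apply_of_ne_of_ne h1 h2]
    have hq : ∀ u v, pm a2 u v + pm r1 u v = pm a1 u v + pm r u v := by
      intro u v
      apply sum_of_up (x := u) (y := v) (a := a2) (b := r1) (a' := a1) (b' := r)
      intro t
      by_cases htx : t = x
      · right; rw [htx, a1x, r1x, ha2]; exact ⟨rfl, rfl⟩
      by_cases htz : t = z
      · right; rw [htz, a1z, r1z, ha2z, hrz]; exact ⟨rfl, rfl⟩
      · left; exact ⟨a1o t htx htz, (r1o t htx htz).symm⟩
    have hdec1 : Dec h r1 a1 b2 := by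
      intro u v
      have h3 := hdec2 u v
      have h4 := hq u v
      omega
    have hcard1 : (univ.filter fun t => t ≠ x0 ∧ h t y0 = 0 ∧ h t (r1 t) ≠ 1).card ≤ n := by
      have hsub : (univ.filter fun t => t ≠ x0 ∧ h t y0 = 0 ∧ h t (r1 t) ≠ 1)
          ⊆ (univ.filter fun t => t ≠ x0 ∧ h t y0 = 0 ∧ h t (r t) ≠ 1).erase x := by
        intro t ht
        rw [mem_filter] at ht
        rw [mem_erase, mem_filter]
        obtain ⟨-, t1, t2, t3⟩ := ht
        have htx : t ≠ x := by rintro rfl; rw [r1x] at t3; exact t3 hy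
        refine ⟨htx, mem_univ _, t1, t2, ?_⟩
        by_cases htz : t = z
        · rw [htz, hrz]
          intro h3
          -- two ones in the column `y`
          have h4 := hi.col y
          have h6 : ∑ t ∈ ({x, z} : Finset α), h t y = h x y + h z y := sum_pair (Ne.symm hzx)
          have h5 : ∑ t ∈ ({x, z} : Finset α), h t y ≤ ∑ t, h t y :=
            sum_le_sum_of_subset_of_nonneg (subset_univ _) fun t _ _ => hi.nn t y (Or.inr hy0)
          omega
        · rw [r1o t htx htz] at t3; exact t3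
      have h3 := card_le_card hsub
      have hm : x ∈ univ.filter fun t => t ≠ x0 ∧ h t y0 = 0 ∧ h t (r t) ≠ 1 := by
        rw [mem_filter]; exact ⟨mem_univ _, hx0, hx1, hx2⟩
      rw [card_erase_of_mem hm] at h3
      omega
    obtain ⟨r', a', b', hc, hd, hE⟩ := ih r1 a1 b2 hr10 hdec1 hcard1
    refine ⟨r', a', b', hc, hd, ?_⟩
    have hq2 := hQ a2 r1 a1 r hq
    rw [hsum]
    have h1 := RL.add hE (F r)
    refine RL.mono (RL.cancel {r1} (h1.congr ?_ ?_)) (by simp)
    · rw [fs_single]
      calc F a1 + F b2 + F r' + F r = (F a1 + F r) + F b2 + F r' := by abel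
        _ = F a2 + F b2 + F r' + F r1 := by rw [← hq2]; abel
    · rw [fs_single]; abel

/-- the two contexts -/
def CT (F : Perm α → M) (ρ0 : Perm α) (o1 o2 o3 : α) (e : Bool) : M :=
  if e then t1 F ρ0 o1 o2 o3 else t2 F ρ0 o1 o2 o3

section ctx

variable (hα : 4 ≤ Fintype.card α) (hQ : QA F) {o1 o2 o3 : α} (g1 : o1 ≠ o2)
  (g2 : o2 ≠ o3) (g3 : o1 ≠ o3) (ρ0 : Perm α)

include hα hQ g1 g2 g3

/-- the flip of a block in the two contexts -/
theorem switch (c : Perm α) {x y z : α} (hxy : x ≠ y) (hyz : y ≠ z) (hxz : x ≠ z) (e : Bool) :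
    RL F (30 * Fintype.card α + 27) (t2 F c x y z + CT F ρ0 o1 o2 o3 e)
      (t1 F c x y z + CT F ρ0 o1 o2 o3 (!e)) := by
  have h := sr_all hα hQ.eq g1 g2 g3 hxy hyz hxz (ρ := c) (ρ' := ρ0)
  cases e
  · show RL F _ (t2 F c x y z + t2 F ρ0 o1 o2 o3) (t1 F c x y z + t1 F ρ0 o1 o2 o3)
    have h1 := RL.add (RL.symm h) (t2 F ρ0 o1 o2 o3)
    have h2 := RL.add (RL.symm (rl_two hα hQ.eq ρ0 g1 g2 g3)) (t1 F c x y z)
    have h3 := h1.trans (h2.congr (by abel) rfl)
    have e1 : FS F (s1 ρ0 o1 o2 o3).val = t1 F ρ0 o1 o2 o3 := rfl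
    refine RL.mono (RL.cancel (s1 ρ0 o1 o2 o3).val (h3.congr ?_ ?_)) ?_
    · rw [e1]; abel
    · rw [e1]; abel
    · have := s1_card ρ0 o1 o2 o3
      show 30 * Fintype.card α + 21 + 3 + (s1 ρ0 o1 o2 o3).card ≤ _
      omega
  · exact RL.mono (RL.symm h) (by omega)

/-- change of the absorbing ranking -/
theorem absorbL {h : α → α → ℤ} {x0 y0 : α} (hi : Imp h x0 y0)
    {r1 a1 b1 r2 a2 b2 : Perm α} (hr1 : r1 x0 = y0) (hr2 : r2 x0 = y0) (hd1 : Dec h r1 a1 b1)
    (hd2 : Dec h r2 a2 b2) (e : Bool) : ∃ d : Bool,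
    RL F (32 * Fintype.card α + 29) (F a1 + F b1 + F r2 + CT F ρ0 o1 o2 o3 e)
      (F a2 + F b2 + F r1 + CT F ρ0 o1 o2 o3 d) := by
  have hcard : ∀ r : Perm α, (univ.filter fun x => x ≠ x0 ∧ h x y0 = 0 ∧ h x (r x) ≠ 1).card
      ≤ Fintype.card α := fun r => by rw [← card_univ]; exact card_le_card (subset_univ _)
  obtain ⟨c1, p1, q1, hc1, hd1', hE1⟩ := redL hQ hi _ r1 a1 b1 hr1 hd1 (hcard r1)
  obtain ⟨c2, p2, q2, hc2, hd2', hE2⟩ := redL hQ hi _ r2 a2 b2 hr2 hd2 (hcard r2)
  obtain ⟨xc, xd, hcd, hc0, hd0, hc, hd, ho⟩ := imp_pts hi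
  have k1 := canX hi hc1 hcd hc0 hd0 hc hd ho
  have k2 := canX hi hc2 hcd hc0 hd0 hc hd ho
  have hq1 := tri_rigid F (Ne.symm hc0) hcd (Ne.symm hd0)
    (fun x y => (hd1' x y).trans (k1 x y).symm)
  have hq2 := tri_rigid F (Ne.symm hc0) hcd (Ne.symm hd0)
    (fun x y => (hd2' x y).trans (k2 x y).symm)
  rcases can_two hi hc1 hc2 hcd ho with h3 | h3
  · refine ⟨e, ?_⟩
    have m1 := RL.add hE1 (F r2 + CT F ρ0 o1 o2 o3 e)
    have m2 := RL.add (RL.symm hE2) (F r1 + CT F ρ0 o1 o2 o3 e)
    have m3 := m1.trans (m2.congr (by rw [hq1, hq2, h3]; abel) rfl)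
    refine RL.mono (RL.cancel {c1} (m3.congr ?_ ?_)) ?_
    · rw [fs_single]; abel
    · rw [fs_single, h3]; abel
    · rw [Multiset.card_singleton]; omega
  · refine ⟨!e, ?_⟩
    have hsw := switch hα hQ g1 g2 g3 ρ0 c1 (Ne.symm hc0) hcd (Ne.symm hd0) e
    have tb : t2 F c1 x0 xc xd = F p1 + F q1 + F c2 := by
      unfold t2
      rw [sum_s2 F c1 (Ne.symm hc0) hcd (Ne.symm hd0), hq1, h3]; abel
    have ta : t1 F c1 x0 xc xd = F p2 + F q2 + F c1 := by
      unfold t1
      have e1 : c2 * swap x0 xc = c1 * (swap x0 xd * swap xd xc) := by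
        rw [h3, mul_assoc, rot (i := x0) (j := xd) (k := xc) (Ne.symm hd0) (Ne.symm hc0),
          swap_comm xd xc, swap_comm xc x0]
      have e2 : c2 * swap x0 xd = c1 * (swap x0 xc * swap xc xd) := by
        rw [h3, mul_assoc, rot (i := x0) (j := xc) (k := xd) (Ne.symm hc0) (Ne.symm hd0),
          swap_comm xd x0]
      rw [sum_s1 F c1 (Ne.symm hc0) hcd (Ne.symm hd0), hq2, e1, e2]; abel
    rw [tb, ta] at hsw
    have m1 := RL.add hE1 (F r2 + F c2 + CT F ρ0 o1 o2 o3 e)
    have m2 := RL.add hsw (F r1 + F r2)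
    have m3 := RL.add (RL.symm hE2) (F r1 + F c1 + CT F ρ0 o1 o2 o3 (!e))
    have m4 := (m1.trans (m2.congr (by abel) rfl)).trans (m3.congr (by abel) rfl)
    refine RL.mono (RL.cancel ({c1} + {c2}) (m4.congr ?_ ?_)) ?_
    · rw [fs_add, fs_single, fs_single]; abel
    · rw [fs_add, fs_single, fs_single]; abel
    · simp only [Multiset.card_add, Multiset.card_singleton]; omega

/-- change of the absorbing ranking, the proper case included -/
theorem absorb0L {h : α → α → ℤ} {x0 y0 : α} (row : ∀ x, ∑ y, h x y = 1)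
    (col : ∀ y, ∑ x, h x y = 1) (nn : ∀ x y, (x ≠ x0 ∨ y ≠ y0) → 0 ≤ h x y)
    (ge : -1 ≤ h x0 y0)
    {r1 a1 b1 r2 a2 b2 : Perm α} (hr1 : r1 x0 = y0) (hr2 : r2 x0 = y0) (hd1 : Dec h r1 a1 b1)
    (hd2 : Dec h r2 a2 b2) (e : Bool) : ∃ d : Bool,
    RL F (32 * Fintype.card α + 29) (F a1 + F b1 + F r2 + CT F ρ0 o1 o2 o3 e)
      (F a2 + F b2 + F r1 + CT F ρ0 o1 o2 o3 d) := by
  by_cases hneg : 0 ≤ h x0 y0
  · have nn2 : ∀ x y, 0 ≤ h x y := by
      intro x y
      by_cases hxy : x ≠ x0 ∨ y ≠ y0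
      · exact nn x y hxy
      · push Not at hxy
        rw [hxy.1, hxy.2]; exact hneg
    obtain ⟨σ, hσ⟩ := konig1 h nn2 row col
    refine ⟨e, ?_⟩
    have q1 := hQ a1 b1 σ r1 (fun x y => by rw [hd1 x y, hσ])
    have q2 := hQ a2 b2 σ r2 (fun x y => by rw [hd2 x y, hσ])
    apply RL.of_eq
    rw [q1, q2]; abel
  · exact absorbL hα hQ g1 g2 g3 ρ0 ⟨row, col, nn, by omega⟩ hr1 hr2 hd1 hd2 e

theorem arcL {a b s a' b' s' : Perm α} (h : ArcMv a b s a' b' s') (e : Bool) : ∃ d : Bool,
    RL F (96 * Fintype.card α + 91) (F a + F b + F s + CT F ρ0 o1 o2 o3 e)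
      (F a' + F b' + F s' + CT F ρ0 o1 o2 o3 d) := by
  obtain ⟨htot, r, r', x0, x1, h01, can1, can2, up1, n1, n2, e1, e2, up2, up3, -⟩ := h
  set y0 := r x0 with hy0
  set y1 := s x1 with hy1
  -- the exchange
  have hD : ∀ x y, pm r' x y + pm s' x y = pm r x y + pm s x y - rect x0 x1 y0 y1 x y := by
    intro x y
    by_cases c0 : x = x0
    · subst c0
      unfold pm rect mu
      rw [e1, e2, ← hy0]
      simp only [true_and, h01, false_and, if_false]
      by_cases ha : y = y0
      · subst ha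
        simp only [if_true, if_neg n1, if_neg (Ne.symm n1)]; ring
      · rw [if_neg (Ne.symm ha), if_neg ha]
        by_cases hb : y = y1
        · subst hb; simp only [if_true]; ring
        · rw [if_neg (Ne.symm hb), if_neg hb]; ring
    by_cases c1 : x = x1
    · subst c1
      have h3 : pm r' x y + pm s' x y = (if y0 = y then 1 else 0) + pm r x y := by
        unfold pm
        rcases up2 with h4 | h4
        · rw [h4.1, h4.2]
        · rw [h4.1, h4.2, add_comm]
      rw [h3]
      unfold pm rect mu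
      rw [← hy1]
      simp only [true_and, c0, false_and, if_false]
      by_cases ha : y = y0
      · subst ha
        simp only [if_true, if_neg n1, if_neg (Ne.symm n1)]; ring
      · rw [if_neg (Ne.symm ha), if_neg ha]
        by_cases hb : y = y1
        · subst hb; simp only [if_true]; ring
        · rw [if_neg (Ne.symm hb), if_neg hb]; ring
    · have h3 : pm r' x y + pm s' x y = pm r x y + pm s x y := by
        unfold pm
        rcases up3 x c0 c1 with h4 | h4
        · rw [h4.1, h4.2]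
        · rw [h4.1, h4.2, add_comm]
      rw [h3]
      unfold rect mu
      simp only [c0, c1, false_and, if_false]; ring
  -- the matrices
  set h : α → α → ℤ := fun x y => pm a x y + pm b x y - pm r x y with hh
  set h' : α → α → ℤ := fun x y => pm a' x y + pm b' x y - pm r' x y with hh'
  have hrel : ∀ x y, h' x y = h x y + rect x0 x1 y0 y1 x y := by
    intro x y
    have h3 := htot x y
    have h4 := hD x y
    simp only [hh, hh']
    linarith
  have mixnn : ∀ (a b r : Perm α), Can a b r x0 → ∀ x y, (x ≠ x0 ∨ y ≠ r x0) →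
      0 ≤ pm a x y + pm b x y - pm r x y := by
    intro a b r hc x y hxy
    have p1 := pm_nonneg a x y
    have p2 := pm_nonneg b x y
    by_cases hr : r x = y
    · have hx : x ≠ x0 := by
        rcases hxy with h3 | h3
        · exact h3
        · rintro rfl; exact h3 hr.symm
      have p3 : pm r x y = 1 := by unfold pm; rw [if_pos hr]
      rcases hc.1 x hx with h3 | h3
      · have p4 : pm a x y = 1 := by unfold pm; rw [if_pos (by rw [← h3, hr])]
        omega
      · have p4 : pm b x y = 1 := by unfold pm; rw [if_pos (by rw [← h3, hr])]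
        omega
    · have p3 : pm r x y = 0 := by unfold pm; rw [if_neg hr]
      omega
  have row : ∀ (a b r : Perm α) (x : α), ∑ y, (pm a x y + pm b x y - pm r x y) = 1 := by
    intro a b r x
    rw [sum_sub_distrib, sum_add_distrib, pm_row, pm_row, pm_row]; norm_num
  have col : ∀ (a b r : Perm α) (y : α), ∑ x, (pm a x y + pm b x y - pm r x y) = 1 := by
    intro a b r y
    rw [sum_sub_distrib, sum_add_distrib, pm_col, pm_col, pm_col]; norm_num
  have gem : ∀ (a b r : Perm α) (x y : α), -1 ≤ pm a x y + pm b x y - pm r x y := by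
    intro a b r x y
    have p1 := pm_nonneg a x y
    have p2 := pm_nonneg b x y
    have p3 := pm_le_one r x y
    omega
  -- the auxiliary rankings
  set w := r'⁻¹ y0 with hw
  have hrw : r' w = y0 := by simp [hw]
  have hw0 : w ≠ x0 := by
    intro h3
    rw [h3, e1] at hrw
    exact n1 hrw
  set q' := r' * swap x1 w with hq'
  have q'1 : q' x1 = y0 := by rw [hq', Perm.mul_apply, swap_apply_left, hrw]
  have q'w : q' w = r' x1 := by rw [hq', Perm.mul_apply, swap_apply_right]
  have q'o : ∀ t, t ≠ x1 → t ≠ w → q' t = r' t := by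
    intro t h1 h2; rw [hq', Perm.mul_apply, swap_apply_of_ne_of_ne h1 h2]
  have q'0 : q' x0 = y1 := by rw [q'o x0 h01 (Ne.symm hw0), e1]
  set q := q' * swap x0 x1 with hq
  have q0 : q x0 = y0 := by rw [hq, Perm.mul_apply, swap_apply_left, q'1]
  have q1 : q x1 = y1 := by rw [hq, Perm.mul_apply, swap_apply_right, q'0]
  have qo : ∀ t, t ≠ x0 → t ≠ x1 → q t = q' t := by
    intro t h1 h2; rw [hq, Perm.mul_apply, swap_apply_of_ne_of_ne h1 h2]
  have hqq : ∀ x y, pm q' x y = pm q x y - rect x0 x1 y0 y1 x y := by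
    intro x y
    have h3 : q' = q * swap x0 x1 := by rw [hq, mul_assoc, swap_mul_self, mul_one]
    rw [h3, pm_swap_rect q h01, q0, q1]
  -- the transfer
  have step4 : ∀ e : Bool, ∃ d : Bool, RL F (32 * Fintype.card α + 29)
      (F r + F s + F q' + CT F ρ0 o1 o2 o3 e) (F r' + F s' + F q + CT F ρ0 o1 o2 o3 d) := by
    intro e
    set g : α → α → ℤ := fun x y => pm r x y + pm s x y - pm q x y with hg
    have gnn : ∀ x y, (x ≠ w ∨ y ≠ q w) → 0 ≤ g x y := by
      intro x y hxy
      simp only [hg]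
      have p1 := pm_nonneg r x y
      have p2 := pm_nonneg s x y
      by_cases hr : q x = y
      · have p3 : pm q x y = 1 := by unfold pm; rw [if_pos hr]
        have hx : x ≠ w := by
          rcases hxy with h3 | h3
          · exact h3
          · rintro rfl; exact h3 hr.symm
        have h5 : r x = y ∨ s x = y := by
          by_cases c0 : x = x0
          · left; rw [c0, ← hy0, ← q0, ← c0]; exact hr
          by_cases c1 : x = x1
          · right; rw [c1, ← hy1, ← q1, ← c1]; exact hr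
          · rw [qo x c0 c1, q'o x c1 hx] at hr
            rcases up3 x c0 c1 with h4 | h4
            · left; rw [← h4.1, hr]
            · right; rw [← h4.1, hr]
        rcases h5 with h6 | h6
        · have p4 : pm r x y = 1 := by unfold pm; rw [if_pos h6]
          omega
        · have p4 : pm s x y = 1 := by unfold pm; rw [if_pos h6]
          omega
      · have p3 : pm q x y = 0 := by unfold pm; rw [if_neg hr]
        omega
    have dq : Dec g q r s := by
      intro x y; simp only [hg]; ring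
    have dq' : Dec g q' r' s' := by
      intro x y
      have h3 := hD x y
      have h4 := hqq x y
      simp only [hg]
      linarith
    by_cases hww : w = x1
    · -- no defect
      have g0 : ∀ x y, 0 ≤ g x y := by
        intro x y
        by_cases hxy : x ≠ w ∨ y ≠ q w
        · exact gnn x y hxy
        · push Not at hxy
          rw [hxy.1, hxy.2, hww, q1]
          simp only [hg]
          have p1 := pm_nonneg r x1 y1
          have p2 : pm s x1 y1 = 1 := by unfold pm; rw [if_pos hy1.symm]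
          have p3 := pm_le_one q x1 y1
          omega
      obtain ⟨σ, hσ⟩ := konig1 g g0 (row r s q) (col r s q)
      refine ⟨e, ?_⟩
      have k1 := hQ r s σ q (fun x y => by rw [dq x y, hσ])
      have k2 := hQ r' s' σ q' (fun x y => by rw [dq' x y, hσ])
      apply RL.of_eq
      rw [k1, k2]; abel
    · have hqw : q w = q' w := qo w hw0 hww
      exact absorb0L hα hQ g1 g2 g3 ρ0 (row r s q) (col r s q) gnn (gem r s q w (q w))
        rfl hqw.symm dq dq' e
  -- the common decomposition
  have hnn : ∀ x y, (x ≠ x0 ∨ y ≠ y0) → 0 ≤ h x y := mixnn a b r can1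
  have hnn' : ∀ x y, (x ≠ x0 ∨ y ≠ y1) → 0 ≤ h' x y := by
    rw [← e1]; exact mixnn a' b' r' can2
  have hq0 : ∀ x y, 0 ≤ h x y + pm q x y := by
    intro x y
    by_cases hxy : x ≠ x0 ∨ y ≠ y0
    · have := hnn x y hxy
      have := pm_nonneg q x y
      omega
    · push Not at hxy
      rw [hxy.1, hxy.2]
      have p1 := gem a b r x0 y0
      have p2 : pm q x0 y0 = 1 := by unfold pm; rw [if_pos q0]
      have p3 : h x0 y0 = pm a x0 y0 + pm b x0 y0 - pm r x0 y0 := rfl
      omega
  obtain ⟨a1, b1, hab1⟩ := konig2 (fun x y => h x y + pm q x y) hq0 (by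
      intro x; rw [sum_add_distrib, row a b r x, pm_row]; norm_num) (by
      intro y; rw [sum_add_distrib, col a b r y, pm_col]; norm_num)
  have d1 : Dec h q a1 b1 := hab1
  have d1' : Dec h' q' a1 b1 := by
    intro x y
    have h3 : pm a1 x y + pm b1 x y = h x y + pm q x y := hab1 x y
    have h4 := hqq x y
    have h5 := hrel x y
    linarith
  have d0 : Dec h r a b := by intro x y; simp only [hh]; ring
  have d0' : Dec h' r' a' b' := by intro x y; simp only [hh']; ring
  obtain ⟨c1, k1⟩ := absorb0L hα hQ g1 g2 g3 ρ0 (row a b r) (col a b r) hnn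
    (gem a b r x0 y0) hy0.symm q0 d0 d1 e
  obtain ⟨c2, k2⟩ := step4 c1
  obtain ⟨c3, k3⟩ := absorb0L hα hQ g1 g2 g3 ρ0 (row a' b' r') (col a' b' r') hnn'
    (gem a' b' r' x0 y1) q'0 e1 d1' d0' c2
  refine ⟨c3, ?_⟩
  have m1 := RL.add k1 (F s + F r + F q' + F r')
  have m2 := RL.add k2 (F a1 + F b1 + F r + F r')
  have m3 := RL.add k3 (F s' + F q + F r + F r')
  have m4 := (m1.trans (m2.congr (by abel) rfl)).trans (m3.congr (by abel) rfl)
  refine RL.mono (RL.cancel ({q} + {r} + {q'} + {r'}) (m4.congr ?_ ?_)) ?_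
  · rw [fs_add, fs_add, fs_add, fs_single, fs_single, fs_single, fs_single]; abel
  · rw [fs_add, fs_add, fs_add, fs_single, fs_single, fs_single, fs_single]; abel
  · simp only [Multiset.card_add, Multiset.card_singleton]; omega

/-- a step of the path -/
theorem rmL {U V : Multiset (Perm α)} (h : Rm U V) (e : Bool) : ∃ d : Bool,
    RL F (96 * Fintype.card α + 91) (FS F U + CT F ρ0 o1 o2 o3 e)
      (FS F V + CT F ρ0 o1 o2 o3 d) := by
  rcases h with ⟨W, a, b, a', b', h1, rfl, rfl⟩ | ⟨W, a, b, s, a', b', s', h1, rfl, rfl⟩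
  · refine ⟨e, RL.of_eq ?_ _⟩
    have k := hQ a b a' b' h1.1
    simp only [fs_cons']
    rw [← add_assoc (F a), k, ← add_assoc (F a')]
  · obtain ⟨d, k⟩ := arcL hα hQ g1 g2 g3 ρ0 h1 e
    refine ⟨d, ?_⟩
    simp only [fs_cons']
    exact (RL.add k (FS F W)).congr (by abel) (by abel)

end ctx

end Birk
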