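import Pool.Agent.Work.MP_697f4c_co.Base

/-! # Counting lower bound for the length of paths (MP_697f4c_co) -/

namespace Pool.Agent.Work.MP_697f4c_co

open Finset Function Equiv

/-- The points reached by paths of length at most `t` from a point lie in a finite set with at
most `(K + 1) ^ t` elements, if every point has at most `K` successors. -/
lemma ball_card {α : Type*} (R : α → α → Prop) (P : α → Prop) (K : ℕ)
    (hP : ∀ a b, P a → R a b → P b)
    (hK : ∀ a, P a → ∃ s : Finset α, s.card ≤ K ∧ ∀ b, R a b → b ∈ s) :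
    ∀ (t : ℕ) (a : α), P a → ∃ s : Finset α, s.card ≤ (K + 1) ^ t ∧
      ∀ j ≤ t, ∀ F : ℕ → α, F 0 = a → (∀ i < j, R (F i) (F (i + 1))) → F j ∈ s := by
  classical
  intro t
  induction t with
  | zero =>
    intro a _
    refine ⟨{a}, by simp, ?_⟩
    intro j hj F h0 _
    have : j = 0 := by omega
    subst this
    rw [h0]
    exact mem_singleton_self a
  | succ t ih =>
    intro a ha
    obtain ⟨S, hS, hSR⟩ := hK a ha
    have hb : ∀ b : α, ∃ s : Finset α, s.card ≤ (K + 1) ^ t ∧ (P b → ∀ j ≤ t, ∀ F : ℕ → α,
        F 0 = b → (∀ i < j, R (F i) (F (i + 1))) → F j ∈ s) := by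
      intro b
      by_cases hPb : P b
      · obtain ⟨s, h1, h2⟩ := ih b hPb
        exact ⟨s, h1, fun _ => h2⟩
      · exact ⟨∅, by simp, fun h => absurd h hPb⟩
    choose s hs1 hs2 using hb
    refine ⟨(insert a S).biUnion s, ?_, ?_⟩
    · calc ((insert a S).biUnion s).card ≤ ∑ b ∈ insert a S, (s b).card := card_biUnion_le
        _ ≤ ∑ _b ∈ insert a S, (K + 1) ^ t := sum_le_sum fun b _ => hs1 b
        _ = (insert a S).card * (K + 1) ^ t := by rw [sum_const, smul_eq_mul]
        _ ≤ (K + 1) * (K + 1) ^ t :=
          Nat.mul_le_mul_right _ ((card_insert_le a S).trans (by omega))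
        _ = (K + 1) ^ (t + 1) := by rw [pow_succ, mul_comm]
    · intro j hj F h0 hF
      rw [mem_biUnion]
      rcases Nat.eq_zero_or_pos j with rfl | hj0
      · refine ⟨a, mem_insert_self a S, ?_⟩
        rw [h0]
        exact hs2 a ha 0 (Nat.zero_le _) (fun _ => a) rfl (fun i hi => absurd hi (by omega))
      · have h1 : R (F 0) (F 1) := hF 0 hj0
        rw [h0] at h1
        refine ⟨F 1, mem_insert_of_mem (hSR _ h1), ?_⟩
        have h2 := hs2 (F 1) (hP _ _ ha h1) (j - 1) (by omega) (fun i => F (i + 1)) rfl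
          (fun i hi => hF (i + 1) (by omega))
        have e : j - 1 + 1 = j := by omega
        simp only [e] at h2
        exact h2

variable {X : Type*} [Fintype X] [LinearOrder X]

lemma sum_summ (f : Perm X → ℕ) (i : X) : ∑ j : X, summ f i j = voters f :=
  (voters_eq_summ f i).symm

/-- If every survey with `N` voters has at most `K` successors and any two of them with the same
summary are joined by at most `t` steps, then the number of surveys is at most the number of
possible summaries times `(K + 1) ^ t`. -/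
theorem entropy [Nonempty X] (R : (Perm X → ℕ) → (Perm X → ℕ) → Prop) (N K t : ℕ)
    (hR : ∀ f f', R f f' → ∀ i j, summ f i j = summ f' i j)
    (hK : ∀ f, voters f = N → ∃ s : Finset (Perm X → ℕ), s.card ≤ K ∧ ∀ f', R f f' → f' ∈ s)
    (ht : ∀ f f', voters f = N → (∀ i j, summ f i j = summ f' i j) →
      ∃ j ≤ t, ∃ F : ℕ → Perm X → ℕ, F 0 = f ∧ F j = f' ∧ ∀ s < j, R (F s) (F (s + 1))) :
    ((Fintype.card X).factorial + N - 1).choose N
      ≤ (Fintype.card X + N - 1).choose N ^ Fintype.card X * (K + 1) ^ t := by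
  classical
  obtain ⟨i0⟩ := (inferInstance : Nonempty X)
  have hvot : ∀ f f' : Perm X → ℕ, (∀ i j, summ f i j = summ f' i j) → voters f = voters f' := by
    intro f f' h
    rw [voters_eq_summ f i0, voters_eq_summ f' i0]
    exact sum_congr rfl fun j _ => h i0 j
  let A : Finset (Perm X →₀ ℕ) := finsuppAntidiag univ N
  let B : Finset (X → (X →₀ ℕ)) := Fintype.piFinset fun _ : X => finsuppAntidiag univ N
  let φ : (Perm X →₀ ℕ) → (X → (X →₀ ℕ)) := fun f i =>
    Finsupp.equivFunOnFinite.symm (summ (f : Perm X → ℕ) i)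
  have hA : ∀ f : Perm X →₀ ℕ, f ∈ A ↔ voters (f : Perm X → ℕ) = N := by
    intro f
    simp only [A, mem_finsuppAntidiag, subset_univ, and_true]
    rfl
  have hmaps : ∀ f ∈ A, φ f ∈ B := by
    intro f hf
    rw [Fintype.mem_piFinset]
    intro i
    rw [mem_finsuppAntidiag]
    refine ⟨?_, subset_univ _⟩
    change ∑ j : X, summ (f : Perm X → ℕ) i j = N
    rw [sum_summ]
    exact (hA f).mp hf
  have hfib : ∀ b ∈ B, (A.filter fun f => φ f = b).card ≤ (K + 1) ^ t := by
    intro b _
    rcases (A.filter fun f => φ f = b).eq_empty_or_nonempty with h | ⟨f0, h0⟩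
    · rw [h, card_empty]
      exact Nat.zero_le _
    · rw [mem_filter] at h0
      obtain ⟨s, hs1, hs2⟩ := ball_card R (fun f => voters f = N) K
        (fun f f' hf hff => by rw [← hvot f f' (hR f f' hff)]; exact hf) hK t
        (f0 : Perm X → ℕ) ((hA f0).mp h0.1)
      refine le_trans ?_ hs1
      refine card_le_card_of_injOn (fun f : Perm X →₀ ℕ => (f : Perm X → ℕ)) ?_ ?_
      · intro f hf
        rw [mem_coe, mem_filter] at hf
        have hsum : ∀ i j, summ (f0 : Perm X → ℕ) i j = summ (f : Perm X → ℕ) i j := by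
          intro i j
          have h1 : φ f0 i j = φ f i j := by rw [h0.2, hf.2]
          exact h1
        obtain ⟨j, hj, F, hF0, hFj, hF⟩ := ht f0 f ((hA f0).mp h0.1) hsum
        have := hs2 j hj F hF0 hF
        rw [hFj] at this
        exact mem_coe.mpr this
      · intro f _ g _ h
        exact DFunLike.coe_injective h
  have key := card_le_mul_card_image_of_maps_to hmaps ((K + 1) ^ t) hfib
  have hAc : A.card = ((Fintype.card X).factorial + N - 1).choose N := by
    simp only [A]
    rw [card_finsuppAntidiag_nat_eq_choose, card_univ, Fintype.card_perm]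
  have hBc : B.card = (Fintype.card X + N - 1).choose N ^ Fintype.card X := by
    simp only [B]
    rw [Fintype.card_piFinset, prod_const, card_finsuppAntidiag_nat_eq_choose, card_univ]
  rw [hAc, hBc, mul_comm] at key
  exact key

/-- `M ^ N ≤ N! * C(M + N - 1, N)`. -/
lemma pow_le_fact_choose (M N : ℕ) (hM : 1 ≤ M) :
    M ^ N ≤ N.factorial * (M + N - 1).choose N := by
  have h := Nat.pow_sub_le_descFactorial (M + N - 1) N
  rw [Nat.descFactorial_eq_factorial_mul_choose] at h
  have e : M + N - 1 + 1 - N = M := by omega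
  rwa [e] at h

end Pool.Agent.Work.MP_697f4c_co
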