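import Pool.Agent.Work.MP_697f4c_co.Process

/-! # Connectivity with at most `(N-1)(p-1)` rule steps (MP_697f4c_co) -/

namespace Pool.Agent.Work.MP_697f4c_co

open Finset Function Equiv

variable {X : Type*} [Fintype X] [LinearOrder X]

omit [Fintype X] in
lemma ex_insert (g h : X → X) {A : Finset X} (x : X) :
    ex g h (insert x A) = update (ex g h A) x (h x) := by
  funext w
  by_cases hw : w = x
  · subst hw
    rw [update_self, ex_mem (mem_insert_self _ _)]
  · rw [update_of_ne hw]
    by_cases hA : w ∈ A
    · rw [ex_mem hA, ex_mem (mem_insert_of_mem hA)]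
    · rw [ex_not_mem hA, ex_not_mem]
      simp [hw, hA]

lemma Opn.init {r a : Perm X} {x : X} (h : r x ≠ a x) : Opn r a x 1 (a x) (r x) := by
  have hseg : seg (⇑a) (⇑r) x 1 = {x} := by
    rw [seg_succ, seg_zero]
    rfl
  have hex : ex (⇑r) (⇑a) (seg (⇑a) (⇑r) x 1) = update r x (a x) := by
    rw [hseg]
    have := ex_insert (⇑r) (⇑a) (A := ∅) x
    rw [ex_empty] at this
    exact this
  refine ⟨le_rfl, ?_, Ne.symm h, ?_⟩
  · rw [hex]
    exact near_update_perm r x (a x)
  · rw [hseg, mem_singleton]
    intro e
    refine h ?_
    have := congrArg r e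
    simpa using this.symm

lemma ex_init {r a : Perm X} (x : X) :
    ex (⇑r) (⇑a) (seg (⇑a) (⇑r) x 1) = update r x (a x) := by
  rw [seg_succ, seg_zero]
  have := ex_insert (⇑r) (⇑a) (A := ∅) x
  rw [ex_empty] at this
  exact this

/-- Case `x = u`, entry found in the partner ballot, segment of length at least two. -/
lemma Opn.shrink {r a : Perm X} {u : X} {m : ℕ} {y z : X} (h : Opn r a u (m + 1) y z)
    (hm : 1 ≤ m) : Opn r a (nxt a r u) m (r u) z ∧
      ex r a (seg a r (nxt a r u) m) = update (ex r a (seg a r u (m + 1))) u (r u) := by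
  have hu : u ∉ seg (⇑a) (⇑r) (nxt a r u) m := by
    intro hmem
    obtain ⟨i, hi, hiu⟩ := mem_seg.mp hmem
    rw [← iterate_succ_apply, iterate_succ_apply'] at hiu
    have h1 := a_nxt r a ((nxt a r)^[i] u)
    rw [hiu] at h1
    refine h.hw ?_
    rw [h1, symm_apply_apply]
    exact mem_seg.mpr ⟨i, by omega, rfl⟩
  have hexx : ex r a (seg a r (nxt a r u) m) = update (ex r a (seg a r u (m + 1))) u (r u) := by
    rw [seg_succ, ex_insert, update_idem]
    funext w
    by_cases hw : w = u
    · subst hw
      rw [update_self, ex_not_mem hu]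
    · rw [update_of_ne hw]
  refine ⟨⟨hm, ?_, ?_, ?_⟩, hexx⟩
  · rw [hexx]
    exact h.near.update (by rw [h.Pu, h.au]) (r u)
  · have hmem : nxt a r u ∈ seg (⇑a) (⇑r) u (m + 1) := mem_seg.mpr ⟨1, by omega, rfl⟩
    have := h.near.miss h.ne (nxt a r u)
    rwa [ex_mem hmem, a_nxt] at this
  · rw [a_nxt, symm_apply_apply]
    exact hu

/-- Case `x = w`, entry found in the partner ballot. -/
lemma Opn.grow_ex {r a : Perm X} {u : X} {m : ℕ} {y z : X} (_h : Opn r a u m y z) :
    ex r a (seg a r (r.symm (a u)) (m + 1))
      = update (ex r a (seg a r u m)) (r.symm (a u)) (a (r.symm (a u))) := by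
  have hn : nxt a r (r.symm (a u)) = u := by
    rw [nxt_perm]
    simp
  rw [seg_succ, hn, ex_insert]

lemma Opn.grow {r a : Perm X} {u : X} {m : ℕ} {y z : X} (h : Opn r a u m y z)
    (hne : a (r.symm (a u)) ≠ a u) (hz : a (r.symm (a u)) ≠ z) :
    Opn r a (r.symm (a u)) (m + 1) (a (r.symm (a u))) z := by
  have hn : nxt a r (r.symm (a u)) = u := by
    rw [nxt_perm]
    simp
  refine ⟨by omega, ?_, hz, ?_⟩
  · rw [h.grow_ex]
    exact h.near.update (by rw [h.Pw, h.au]) _
  · rw [seg_succ, hn, mem_insert]
    rintro (e | e)
    · have := congrArg r e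
      rw [apply_symm_apply, apply_symm_apply] at this
      exact hne this
    · set w := r.symm (a u) with hw
      set w' := r.symm (a w) with hw'
      have hrw : r w' = a w := by simp [hw']
      obtain ⟨t, ht⟩ := h.near.hit hz
      by_cases htA : t ∈ seg (⇑a) (⇑r) u m
      · rw [ex_mem htA] at ht
        rw [a.injective ht] at htA
        exact h.hw htA
      · rw [ex_not_mem htA, ← hrw] at ht
        rw [r.injective ht] at htA
        exact htA e

lemma Opn.close_cyc {r a : Perm X} {u : X} {m : ℕ} {y z : X} (h : Opn r a u m y z)
    (hz : a (r.symm (a u)) = z) :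
    cyc r a (r.symm (a u)) = seg a r (r.symm (a u)) (m + 1) := by
  set w := r.symm (a u) with hw
  have hbij : Bijective (ex r a (seg a r w (m + 1))) := by
    rw [← near_self_iff (y := z), hw, h.grow_ex, ← hw, hz]
    exact h.near.update (by rw [h.Pw, h.au]) z
  have hnp : ∀ x, nxt a r x = (a⁻¹ * r) x := fun x => by
    rw [nxt_perm]
    rfl
  have hpow : ∀ i, (nxt a r)^[i] w = ((a⁻¹ * r) ^ i) w := by
    intro i
    induction i with
    | zero => rfl
    | succ i ih =>
      rw [iterate_succ_apply', ih, hnp, pow_succ']
      rfl
  ext t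
  have hmem : t ∈ cyc r a w ↔ (a⁻¹ * r).SameCycle w t := by
    unfold cyc
    simp
  rw [hmem]
  constructor
  · intro ht
    obtain ⟨n, hn⟩ := ht.exists_nat_pow_eq
    rw [← hn]
    clear hn
    induction n with
    | zero => exact start_mem (by omega)
    | succ n ih =>
      refine closed_of_surj hbij.2 ih ?_
      rw [pow_succ', Perm.mul_apply, ← hnp, a_nxt]
  · intro ht
    obtain ⟨i, _, rfl⟩ := mem_seg.mp ht
    rw [hpow]
    exact ⟨(i : ℤ), by simp⟩

theorem process (τ : Perm X) : ∀ d : ℕ,
    (∀ (f : Perm X → ℕ) (r : Perm X), 1 ≤ f r → Avail τ f → dis r τ = d →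
      ∃ f', Reach (d - 1) f f' ∧ 1 ≤ f' τ) ∧
    (∀ (f h : Perm X → ℕ) (r a : Perm X) (u : X) (m : ℕ) (y z : X), f = h + one r + one a →
      Opn r a u m y z → Avail τ f → dis (ex r a (seg a r u m)) τ = d →
      ∃ f', Reach d f f' ∧ 1 ≤ f' τ) := by
  intro d
  induction d with
  | zero =>
    constructor
    · intro f r hr _ hd
      refine ⟨f, Reach.refl _ f, ?_⟩
      have : r = τ := by
        ext x
        by_contra hx
        have h0 : x ∈ (univ.filter fun w => r w ≠ τ w) := by simp [hx]
        have := card_pos.mpr ⟨x, h0⟩
        unfold dis at hd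
        omega
      rwa [← this]
    · intro f h r a u m y z _ ho _ hd
      exfalso
      have hall : ∀ x, ex r a (seg a r u m) x = τ x := by
        intro x
        by_contra hx
        have h0 : x ∈ (univ.filter fun w => ex r a (seg a r u m) w ≠ τ w) := by
          simp only [mem_filter, mem_univ, true_and]
          exact hx
        have := card_pos.mpr ⟨x, h0⟩
        unfold dis at hd
        omega
      have h1 : τ u = τ (r.symm (a u)) := by rw [← hall, ← hall, ho.Pu, ho.Pw]
      exact ho.wu (τ.injective h1).symm
  | succ d ih =>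
    obtain ⟨ihc, iho⟩ := ih
    constructor
    · intro f r hr hav hd
      have hx : ∃ x, r x ≠ τ x := by
        by_contra hcon
        push Not at hcon
        unfold dis at hd
        rw [filter_false_of_mem (fun x _ => by simp [hcon x])] at hd
        simp at hd
      obtain ⟨x, hx⟩ := hx
      obtain ⟨a, ha, hax⟩ := exists_of_summ (hav x)
      obtain ⟨g, hg⟩ := split_one hr
      have har : a ≠ r := fun e => hx (e ▸ hax)
      have hga : 1 ≤ g a := by
        rw [hg] at ha
        simp only [Pi.add_apply, one, Pi.single_eq_of_ne har] at ha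
        omega
      obtain ⟨h, hh⟩ := split_one hga
      have hf : f = h + one r + one a := by
        rw [hg, hh]
        abel
      have ho : Opn r a x 1 (a x) (r x) := Opn.init (by rw [hax]; exact hx)
      have hdis := dis_update (P := r) (τ := τ) (x := x) hx
      exact iho f h r a x 1 (a x) (r x) hf ho hav (by rw [ex_init, hax]; omega)
    · intro f h r a u m y z hf ho hav hd
      set P := ex r a (seg a r u m) with hP
      -- the candidate to be treated
      have hx : ∃ (x : X) (b : Bool), startPt u b r a = x ∧ P x ≠ τ x ∧ P x = y ∧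
          ((x = u ∧ b = true) ∨ (x = r.symm (a u) ∧ b = false)) := by
        by_cases h1 : P u = τ u
        · refine ⟨r.symm (a u), false, rfl, ?_, by rw [hP, ho.Pw, ho.au], Or.inr ⟨rfl, rfl⟩⟩
          intro h2
          have : τ u = τ (r.symm (a u)) := by rw [← h1, ← h2, hP, ho.Pu, ho.Pw]
          exact ho.wu (τ.injective this).symm
        · exact ⟨u, true, rfl, h1, by rw [hP, ho.Pu, ho.au], Or.inl ⟨rfl, rfl⟩⟩
      obtain ⟨x, b, hxb, hPx, hPy, hcase⟩ := hx
      have hdis : dis (update P x (τ x)) τ = d := by
        have := dis_update (P := P) (τ := τ) (x := x) hPx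
        omega
      have hfr : 1 ≤ f r := by
        rw [hf]
        simp only [Pi.add_apply, one, Pi.single_eq_same]
        omega
      by_cases hQ : ex a r (seg a r u m) x = τ x
      · -- the entry is in the partner ballot
        rcases hcase with ⟨rfl, rfl⟩ | ⟨hxw, rfl⟩
        · rw [ex_mem (start_mem ho.hm)] at hQ
          obtain ⟨m', rfl⟩ : ∃ m', m = m' + 1 := ⟨m - 1, by have := ho.hm; omega⟩
          rcases Nat.eq_zero_or_pos m' with rfl | hm'
          · have hr : update P x (τ x) = r := by
              rw [hP, ex_init, update_idem, ← hQ, update_eq_self]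
            rw [hr] at hdis
            obtain ⟨f', h1, h2⟩ := ihc f r hfr hav hdis
            exact ⟨f', h1.mono (by omega), h2⟩
          · obtain ⟨ho', hex⟩ := ho.shrink hm'
            obtain ⟨f', h1, h2⟩ := iho f h r a _ m' _ z hf ho' hav (by rw [hex, ← hP, hQ]; exact hdis)
            exact ⟨f', h1.mono (by omega), h2⟩
        · subst hxw
          rw [ex_not_mem ho.hw] at hQ
          have hne : a (r.symm (a u)) ≠ a u := by
            intro e
            refine hPx ?_
            rw [hP, ho.Pw, ← hQ, e]
          by_cases hz : a (r.symm (a u)) = z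
          · -- the chain closes up: quadratic rule
            have hcyc := ho.close_cyc hz
            have hq := quad_eq (r.symm (a u)) r a
            have hrow : ⇑(quad (r.symm (a u)) (r, a)).1 = update P (r.symm (a u)) (τ (r.symm (a u))) := by
              rw [hq.1]
              unfold quadRows
              rw [hcyc, ho.grow_ex, ← hP, hQ]
            set g := h + one (quad (r.symm (a u)) (r, a)).1 + one (quad (r.symm (a u)) (r, a)).2
              with hg
            have hstep : Step f g := Or.inl ⟨h, r.symm (a u), r, a, hf, hg⟩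
            have hr1 : Reach 1 f g := Reach.cons hstep (Reach.refl 0 g)
            have hg1 : 1 ≤ g (quad (r.symm (a u)) (r, a)).1 := by
              rw [hg]
              simp only [Pi.add_apply, one, Pi.single_eq_same]
              omega
            obtain ⟨f', h1, h2⟩ := ihc g _ hg1 (hav.reach hr1) (by rw [hrow]; exact hdis)
            exact ⟨f', (hr1.trans h1).mono (by omega), h2⟩
          · have ho' := ho.grow hne hz
            obtain ⟨f', h1, h2⟩ := iho f h r a _ (m + 1) _ z hf ho' hav
              (by rw [ho.grow_ex, ← hP, hQ]; exact hdis)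
            exact ⟨f', h1.mono (by omega), h2⟩
      · -- the entry is in a third ballot: cubic rule
        obtain ⟨c, hc, hcx⟩ := exists_of_summ (hav x)
        have hind := ind_ex (⇑r) (⇑a) (seg a r u m) x (τ x)
        rw [← hP, if_neg hPx, if_neg hQ] at hind
        have hrx : r x ≠ τ x := by
          intro e
          rw [if_pos e] at hind
          omega
        have hax : a x ≠ τ x := by
          intro e
          rw [if_pos e] at hind
          omega
        have hcr : c ≠ r := fun e => hrx (e ▸ hcx)
        have hca : c ≠ a := fun e => hax (e ▸ hcx)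
        have hhc : 1 ≤ h c := by
          rw [hf] at hc
          simp only [Pi.add_apply, one, Pi.single_eq_of_ne hcr, Pi.single_eq_of_ne hca] at hc
          omega
        obtain ⟨h', hh'⟩ := split_one hhc
        have hf' : f = h' + one r + one a + one c := by
          rw [hf, hh']
          abel
        have hspec := tail_spec (c := c) (x := x) ho.near ho.nearQ ho.ne hPy
          (by rw [hcx, ← hPy]; exact Ne.symm hPx)
        obtain ⟨hb, hclose, hopen⟩ := hspec
        have hrows : cubRows u m b r a c
            = cubTail (ex r a (seg a r u m)) (ex a r (seg a r u m)) c x := by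
          unfold cubRows
          rw [hxb]
        rw [← hrows] at hb hclose hopen
        have hcub : cub u m b (r, a, c) = (Equiv.ofBijective _ hb.1, Equiv.ofBijective _ hb.2.1,
            Equiv.ofBijective _ hb.2.2) := by
          unfold cub
          rw [dif_pos hb]
        set r' : Perm X := (cub u m b (r, a, c)).1 with hr'
        set a' : Perm X := (cub u m b (r, a, c)).2.1 with ha'
        set c' : Perm X := (cub u m b (r, a, c)).2.2 with hc'
        have hr'c : ⇑r' = (cubRows u m b r a c).1 := by rw [hr', hcub]; rfl
        have ha'c : ⇑a' = (cubRows u m b r a c).2.1 := by rw [ha', hcub]; rfl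
        rw [← hr'c, ← ha'c] at hopen
        rw [← hr'c] at hclose
        set g := h' + one r' + one a' + one c' with hg
        have hstep : Step f g := Or.inr ⟨h', u, m, b, r, a, c, ho.lt_card, hf', hg⟩
        have hr1 : Reach 1 f g := Reach.cons hstep (Reach.refl 0 g)
        by_cases hz : c x = z
        · have hrow := hclose hz
          rw [← hP, hcx] at hrow
          have hg1 : 1 ≤ g r' := by
            rw [hg]
            simp only [Pi.add_apply, one, Pi.single_eq_same]
            omega
          obtain ⟨f', h1, h2⟩ := ihc g r' hg1 (hav.reach hr1) (by rw [hrow]; exact hdis)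
          exact ⟨f', (hr1.trans h1).mono (by omega), h2⟩
        · obtain ⟨n, hn1, hex, hmiss⟩ := hopen hz
          rw [← hP, hcx] at hex
          have hxa : a' x = τ x := by
            have h1 := congrFun hex x
            rwa [ex_mem (start_mem hn1), update_self] at h1
          have ho' : Opn r' a' x n (τ x) z := by
            refine ⟨hn1, ?_, by rw [← hcx]; exact hz, ?_⟩
            · rw [hex]
              exact ho.near.update hPy (τ x)
            · intro hmem
              refine hmiss _ hmem ?_
              rw [apply_symm_apply, hxa, hcx]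
          have hg' : g = (h' + one c') + one r' + one a' := by
            rw [hg]
            abel
          obtain ⟨f', h1, h2⟩ := iho g (h' + one c') r' a' x n (τ x) z hg' ho' (hav.reach hr1)
            (by rw [hex]; exact hdis)
          exact ⟨f', (hr1.trans h1).mono (by omega), h2⟩

end Pool.Agent.Work.MP_697f4c_co
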