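import Pool.Agent.Work.MP_697f4c_co.Dual

/-!
MP_697f4c_co, work file: identities of the symmetric group on four points in a commutative monoid,
and the flipped context.
-/

open Equiv Equiv.Perm Finset

namespace Birk

variable {M : Type*} [AddCommMonoid M]

/-- the elementary quadratic relations, in a commutative monoid -/
def EQ {α : Type*} [DecidableEq α] (F : Perm α → M) : Prop :=
  ∀ (σ : Perm α) (i j k l : α), Dis i j k l →
    F σ + F (σ * swap i j * swap k l) = F (σ * swap i j) + F (σ * swap k l)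

theorem swap4 {F : Perm (Fin 4) → M} (hQ : EQ F) :
    F 1 + F (swap 0 1 * swap 1 2) + F (swap 0 2 * swap 2 1) + F (swap 0 1) + F (swap 1 3) + F (swap 0 3) + F (swap 1 2 * swap 2 3)
      = F (swap 0 1) + F (swap 1 2) + F (swap 0 2) + F 1 + F (swap 0 1 * swap 1 3) + F (swap 0 3 * swap 3 1) + F (swap 1 2 * swap 2 3) := by
  have h0 : F (swap 1 2 * swap 2 3) + F (swap 0 2 * swap 2 1) = F (swap 0 1 * swap 0 2 * swap 2 3) + F (swap 1 2) := by
    have h := hQ (swap 1 2 * swap 2 3) 0 1 2 3 (by decide)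
    rwa [show (swap 1 2 * swap 2 3 : Perm (Fin 4)) * swap 0 1 * swap 2 3 = swap 0 2 * swap 2 1 by decide,
      show (swap 1 2 * swap 2 3 : Perm (Fin 4)) * swap 0 1 = swap 0 1 * swap 0 2 * swap 2 3 by decide,
      show (swap 1 2 * swap 2 3 : Perm (Fin 4)) * swap 2 3 = swap 1 2 by decide] at h
  have h1 : F (swap 0 1 * swap 0 2 * swap 2 3) + F (swap 0 3) = F (swap 0 3 * swap 3 1) + F (swap 0 2 * swap 2 3) := by
    have h := hQ (swap 0 1 * swap 0 2 * swap 2 3) 0 2 1 3 (by decide)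
    rwa [show (swap 0 1 * swap 0 2 * swap 2 3 : Perm (Fin 4)) * swap 0 2 * swap 1 3 = swap 0 3 by decide,
      show (swap 0 1 * swap 0 2 * swap 2 3 : Perm (Fin 4)) * swap 0 2 = swap 0 3 * swap 3 1 by decide,
      show (swap 0 1 * swap 0 2 * swap 2 3 : Perm (Fin 4)) * swap 1 3 = swap 0 2 * swap 2 3 by decide] at h
  have h2 : F (swap 0 1 * swap 1 2) + F (swap 0 2 * swap 2 3) = F (swap 0 2) + F (swap 0 1 * swap 1 2 * swap 2 3) := by
    have h := hQ (swap 0 1 * swap 1 2) 0 1 2 3 (by decide)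
    rwa [show (swap 0 1 * swap 1 2 : Perm (Fin 4)) * swap 0 1 * swap 2 3 = swap 0 2 * swap 2 3 by decide,
      show (swap 0 1 * swap 1 2 : Perm (Fin 4)) * swap 0 1 = swap 0 2 by decide,
      show (swap 0 1 * swap 1 2 : Perm (Fin 4)) * swap 2 3 = swap 0 1 * swap 1 2 * swap 2 3 by decide] at h
  have h3 : F (swap 1 3) + F (swap 0 1 * swap 1 2 * swap 2 3) = F (swap 0 1 * swap 1 3) + F (swap 1 2 * swap 2 3) := by
    have h := hQ (swap 1 3) 0 3 1 2 (by decide)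
    rwa [show (swap 1 3 : Perm (Fin 4)) * swap 0 3 * swap 1 2 = swap 0 1 * swap 1 2 * swap 2 3 by decide,
      show (swap 1 3 : Perm (Fin 4)) * swap 0 3 = swap 0 1 * swap 1 3 by decide,
      show (swap 1 3 : Perm (Fin 4)) * swap 1 2 = swap 1 2 * swap 2 3 by decide] at h
  calc F 1 + F (swap 0 1 * swap 1 2) + F (swap 0 2 * swap 2 1) + F (swap 0 1) + F (swap 1 3) + F (swap 0 3) + F (swap 1 2 * swap 2 3)
      = (F (swap 1 2 * swap 2 3) + F (swap 0 2 * swap 2 1)) + (F 1 + F (swap 0 1 * swap 1 2) + F (swap 0 1) + F (swap 1 3) + F (swap 0 3)) := by abel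
    _ = (F (swap 0 1 * swap 0 2 * swap 2 3) + F (swap 1 2)) + (F 1 + F (swap 0 1 * swap 1 2) + F (swap 0 1) + F (swap 1 3) + F (swap 0 3)) := by rw [h0]
    _ = (F (swap 0 1 * swap 0 2 * swap 2 3) + F (swap 0 3)) + (F 1 + F (swap 0 1 * swap 1 2) + F (swap 0 1) + F (swap 1 3) + F (swap 1 2)) := by abel
    _ = (F (swap 0 3 * swap 3 1) + F (swap 0 2 * swap 2 3)) + (F 1 + F (swap 0 1 * swap 1 2) + F (swap 0 1) + F (swap 1 3) + F (swap 1 2)) := by rw [h1]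
    _ = (F (swap 0 1 * swap 1 2) + F (swap 0 2 * swap 2 3)) + (F 1 + F (swap 0 1) + F (swap 1 3) + F (swap 1 2) + F (swap 0 3 * swap 3 1)) := by abel
    _ = (F (swap 0 2) + F (swap 0 1 * swap 1 2 * swap 2 3)) + (F 1 + F (swap 0 1) + F (swap 1 3) + F (swap 1 2) + F (swap 0 3 * swap 3 1)) := by rw [h2]
    _ = (F (swap 1 3) + F (swap 0 1 * swap 1 2 * swap 2 3)) + (F 1 + F (swap 0 1) + F (swap 1 2) + F (swap 0 3 * swap 3 1) + F (swap 0 2)) := by abel
    _ = (F (swap 0 1 * swap 1 3) + F (swap 1 2 * swap 2 3)) + (F 1 + F (swap 0 1) + F (swap 1 2) + F (swap 0 3 * swap 3 1) + F (swap 0 2)) := by rw [h3]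
    _ = F (swap 0 1) + F (swap 1 2) + F (swap 0 2) + F 1 + F (swap 0 1 * swap 1 3) + F (swap 0 3 * swap 3 1) + F (swap 1 2 * swap 2 3) := by abel

theorem flip4 {F : Perm (Fin 4) → M} (hQ : EQ F) :
    F 1 + F (swap 0 1 * swap 1 2) + F (swap 0 2 * swap 2 1) + F 1 + F (swap 0 1 * swap 1 2) + F (swap 0 2 * swap 2 1) + F (swap 2 3) + F (swap 1 2 * swap 2 3) + F (swap 0 1 * swap 1 3)
      = F (swap 0 1) + F (swap 1 2) + F (swap 0 2) + F (swap 0 1) + F (swap 1 2) + F (swap 0 2) + F (swap 2 3) + F (swap 1 2 * swap 2 3) + F (swap 0 1 * swap 1 3) := by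
  have h0 : F (swap 0 1 * swap 1 3) + F (swap 0 2 * swap 2 1) = F (swap 0 1 * swap 0 2 * swap 1 3) + F (swap 0 1) := by
    have h := hQ (swap 0 1 * swap 1 3) 0 2 1 3 (by decide)
    rwa [show (swap 0 1 * swap 1 3 : Perm (Fin 4)) * swap 0 2 * swap 1 3 = swap 0 2 * swap 2 1 by decide,
      show (swap 0 1 * swap 1 3 : Perm (Fin 4)) * swap 0 2 = swap 0 1 * swap 0 2 * swap 1 3 by decide,
      show (swap 0 1 * swap 1 3 : Perm (Fin 4)) * swap 1 3 = swap 0 1 by decide] at h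
  have h1 : F (swap 2 3) + F (swap 0 1 * swap 0 2 * swap 1 3) = F (swap 0 2 * swap 2 3) + F (swap 1 2 * swap 1 3) := by
    have h := hQ (swap 2 3) 0 3 1 2 (by decide)
    rwa [show (swap 2 3 : Perm (Fin 4)) * swap 0 3 * swap 1 2 = swap 0 1 * swap 0 2 * swap 1 3 by decide,
      show (swap 2 3 : Perm (Fin 4)) * swap 0 3 = swap 0 2 * swap 2 3 by decide,
      show (swap 2 3 : Perm (Fin 4)) * swap 1 2 = swap 1 2 * swap 1 3 by decide] at h
  have h2 : F (swap 1 2 * swap 2 3) + F (swap 0 2 * swap 2 1) = F (swap 0 1 * swap 0 2 * swap 2 3) + F (swap 1 2) := by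
    have h := hQ (swap 1 2 * swap 2 3) 0 1 2 3 (by decide)
    rwa [show (swap 1 2 * swap 2 3 : Perm (Fin 4)) * swap 0 1 * swap 2 3 = swap 0 2 * swap 2 1 by decide,
      show (swap 1 2 * swap 2 3 : Perm (Fin 4)) * swap 0 1 = swap 0 1 * swap 0 2 * swap 2 3 by decide,
      show (swap 1 2 * swap 2 3 : Perm (Fin 4)) * swap 2 3 = swap 1 2 by decide] at h
  have h3 : F (swap 1 2 * swap 1 3) + F (swap 0 1 * swap 1 2) = F (swap 0 1 * swap 1 2 * swap 1 3) + F (swap 1 2) := by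
    have h := hQ (swap 1 2 * swap 1 3) 0 2 1 3 (by decide)
    rwa [show (swap 1 2 * swap 1 3 : Perm (Fin 4)) * swap 0 2 * swap 1 3 = swap 0 1 * swap 1 2 by decide,
      show (swap 1 2 * swap 1 3 : Perm (Fin 4)) * swap 0 2 = swap 0 1 * swap 1 2 * swap 1 3 by decide,
      show (swap 1 2 * swap 1 3 : Perm (Fin 4)) * swap 1 3 = swap 1 2 by decide] at h
  have h4 : F (swap 0 1 * swap 1 2 * swap 1 3) + F (swap 0 1 * swap 0 2 * swap 2 3) = F (swap 0 2 * swap 1 3) + F (swap 0 1 * swap 2 3) := by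
    have h := hQ (swap 0 1 * swap 1 2 * swap 1 3) 0 3 1 2 (by decide)
    rwa [show (swap 0 1 * swap 1 2 * swap 1 3 : Perm (Fin 4)) * swap 0 3 * swap 1 2 = swap 0 1 * swap 0 2 * swap 2 3 by decide,
      show (swap 0 1 * swap 1 2 * swap 1 3 : Perm (Fin 4)) * swap 0 3 = swap 0 2 * swap 1 3 by decide,
      show (swap 0 1 * swap 1 2 * swap 1 3 : Perm (Fin 4)) * swap 1 2 = swap 0 1 * swap 2 3 by decide] at h
  have h5 : F 1 + F (swap 0 2 * swap 1 3) = F (swap 0 2) + F (swap 1 3) := by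
    have h := hQ 1 0 2 1 3 (by decide)
    rwa [show (1 : Perm (Fin 4)) * swap 0 2 * swap 1 3 = swap 0 2 * swap 1 3 by decide,
      show (1 : Perm (Fin 4)) * swap 0 2 = swap 0 2 by decide,
      show (1 : Perm (Fin 4)) * swap 1 3 = swap 1 3 by decide] at h
  have h6 : F (swap 0 1 * swap 1 2) + F (swap 0 2 * swap 2 3) = F (swap 0 2) + F (swap 0 1 * swap 1 2 * swap 2 3) := by
    have h := hQ (swap 0 1 * swap 1 2) 0 1 2 3 (by decide)
    rwa [show (swap 0 1 * swap 1 2 : Perm (Fin 4)) * swap 0 1 * swap 2 3 = swap 0 2 * swap 2 3 by decide,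
      show (swap 0 1 * swap 1 2 : Perm (Fin 4)) * swap 0 1 = swap 0 2 by decide,
      show (swap 0 1 * swap 1 2 : Perm (Fin 4)) * swap 2 3 = swap 0 1 * swap 1 2 * swap 2 3 by decide] at h
  have h7 : F (swap 1 3) + F (swap 0 1 * swap 1 2 * swap 2 3) = F (swap 0 1 * swap 1 3) + F (swap 1 2 * swap 2 3) := by
    have h := hQ (swap 1 3) 0 3 1 2 (by decide)
    rwa [show (swap 1 3 : Perm (Fin 4)) * swap 0 3 * swap 1 2 = swap 0 1 * swap 1 2 * swap 2 3 by decide,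
      show (swap 1 3 : Perm (Fin 4)) * swap 0 3 = swap 0 1 * swap 1 3 by decide,
      show (swap 1 3 : Perm (Fin 4)) * swap 1 2 = swap 1 2 * swap 2 3 by decide] at h
  have h8 : F 1 + F (swap 0 1 * swap 2 3) = F (swap 0 1) + F (swap 2 3) := by
    have h := hQ 1 0 1 2 3 (by decide)
    rwa [show (1 : Perm (Fin 4)) * swap 0 1 * swap 2 3 = swap 0 1 * swap 2 3 by decide,
      show (1 : Perm (Fin 4)) * swap 0 1 = swap 0 1 by decide,
      show (1 : Perm (Fin 4)) * swap 2 3 = swap 2 3 by decide] at h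
  calc F 1 + F (swap 0 1 * swap 1 2) + F (swap 0 2 * swap 2 1) + F 1 + F (swap 0 1 * swap 1 2) + F (swap 0 2 * swap 2 1) + F (swap 2 3) + F (swap 1 2 * swap 2 3) + F (swap 0 1 * swap 1 3)
      = (F (swap 0 1 * swap 1 3) + F (swap 0 2 * swap 2 1)) + (F 1 + F (swap 0 1 * swap 1 2) + F 1 + F (swap 0 1 * swap 1 2) + F (swap 0 2 * swap 2 1) + F (swap 2 3) + F (swap 1 2 * swap 2 3)) := by abel
    _ = (F (swap 0 1 * swap 0 2 * swap 1 3) + F (swap 0 1)) + (F 1 + F (swap 0 1 * swap 1 2) + F 1 + F (swap 0 1 * swap 1 2) + F (swap 0 2 * swap 2 1) + F (swap 2 3) + F (swap 1 2 * swap 2 3)) := by rw [h0]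
    _ = (F (swap 2 3) + F (swap 0 1 * swap 0 2 * swap 1 3)) + (F 1 + F (swap 0 1 * swap 1 2) + F 1 + F (swap 0 1 * swap 1 2) + F (swap 0 2 * swap 2 1) + F (swap 1 2 * swap 2 3) + F (swap 0 1)) := by abel
    _ = (F (swap 0 2 * swap 2 3) + F (swap 1 2 * swap 1 3)) + (F 1 + F (swap 0 1 * swap 1 2) + F 1 + F (swap 0 1 * swap 1 2) + F (swap 0 2 * swap 2 1) + F (swap 1 2 * swap 2 3) + F (swap 0 1)) := by rw [h1]
    _ = (F (swap 1 2 * swap 2 3) + F (swap 0 2 * swap 2 1)) + (F 1 + F (swap 0 1 * swap 1 2) + F 1 + F (swap 0 1 * swap 1 2) + F (swap 0 1) + F (swap 0 2 * swap 2 3) + F (swap 1 2 * swap 1 3)) := by abel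
    _ = (F (swap 0 1 * swap 0 2 * swap 2 3) + F (swap 1 2)) + (F 1 + F (swap 0 1 * swap 1 2) + F 1 + F (swap 0 1 * swap 1 2) + F (swap 0 1) + F (swap 0 2 * swap 2 3) + F (swap 1 2 * swap 1 3)) := by rw [h2]
    _ = (F (swap 1 2 * swap 1 3) + F (swap 0 1 * swap 1 2)) + (F 1 + F 1 + F (swap 0 1 * swap 1 2) + F (swap 0 1) + F (swap 0 2 * swap 2 3) + F (swap 0 1 * swap 0 2 * swap 2 3) + F (swap 1 2)) := by abel
    _ = (F (swap 0 1 * swap 1 2 * swap 1 3) + F (swap 1 2)) + (F 1 + F 1 + F (swap 0 1 * swap 1 2) + F (swap 0 1) + F (swap 0 2 * swap 2 3) + F (swap 0 1 * swap 0 2 * swap 2 3) + F (swap 1 2)) := by rw [h3]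
    _ = (F (swap 0 1 * swap 1 2 * swap 1 3) + F (swap 0 1 * swap 0 2 * swap 2 3)) + (F 1 + F 1 + F (swap 0 1 * swap 1 2) + F (swap 0 1) + F (swap 0 2 * swap 2 3) + F (swap 1 2) + F (swap 1 2)) := by abel
    _ = (F (swap 0 2 * swap 1 3) + F (swap 0 1 * swap 2 3)) + (F 1 + F 1 + F (swap 0 1 * swap 1 2) + F (swap 0 1) + F (swap 0 2 * swap 2 3) + F (swap 1 2) + F (swap 1 2)) := by rw [h4]
    _ = (F 1 + F (swap 0 2 * swap 1 3)) + (F 1 + F (swap 0 1 * swap 1 2) + F (swap 0 1) + F (swap 0 2 * swap 2 3) + F (swap 1 2) + F (swap 1 2) + F (swap 0 1 * swap 2 3)) := by abel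
    _ = (F (swap 0 2) + F (swap 1 3)) + (F 1 + F (swap 0 1 * swap 1 2) + F (swap 0 1) + F (swap 0 2 * swap 2 3) + F (swap 1 2) + F (swap 1 2) + F (swap 0 1 * swap 2 3)) := by rw [h5]
    _ = (F (swap 0 1 * swap 1 2) + F (swap 0 2 * swap 2 3)) + (F 1 + F (swap 0 1) + F (swap 1 2) + F (swap 1 2) + F (swap 0 1 * swap 2 3) + F (swap 0 2) + F (swap 1 3)) := by abel
    _ = (F (swap 0 2) + F (swap 0 1 * swap 1 2 * swap 2 3)) + (F 1 + F (swap 0 1) + F (swap 1 2) + F (swap 1 2) + F (swap 0 1 * swap 2 3) + F (swap 0 2) + F (swap 1 3)) := by rw [h6]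
    _ = (F (swap 1 3) + F (swap 0 1 * swap 1 2 * swap 2 3)) + (F 1 + F (swap 0 1) + F (swap 1 2) + F (swap 1 2) + F (swap 0 1 * swap 2 3) + F (swap 0 2) + F (swap 0 2)) := by abel
    _ = (F (swap 0 1 * swap 1 3) + F (swap 1 2 * swap 2 3)) + (F 1 + F (swap 0 1) + F (swap 1 2) + F (swap 1 2) + F (swap 0 1 * swap 2 3) + F (swap 0 2) + F (swap 0 2)) := by rw [h7]
    _ = (F 1 + F (swap 0 1 * swap 2 3)) + (F (swap 0 1) + F (swap 1 2) + F (swap 1 2) + F (swap 0 2) + F (swap 0 2) + F (swap 0 1 * swap 1 3) + F (swap 1 2 * swap 2 3)) := by abel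
    _ = (F (swap 0 1) + F (swap 2 3)) + (F (swap 0 1) + F (swap 1 2) + F (swap 1 2) + F (swap 0 2) + F (swap 0 2) + F (swap 0 1 * swap 1 3) + F (swap 1 2 * swap 2 3)) := by rw [h8]
    _ = F (swap 0 1) + F (swap 1 2) + F (swap 0 2) + F (swap 0 1) + F (swap 1 2) + F (swap 0 2) + F (swap 2 3) + F (swap 1 2 * swap 2 3) + F (swap 0 1 * swap 1 3) := by abel

end Birk
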