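import Pool.Agent.Work.MP_697f4c_co.Sim2

/-!
MP_697f4c_co, work file: surveys modulo replacements, and the connection of surveys with full
support.
-/

open Equiv Equiv.Perm Finset Relation

namespace Birk

/-- a symmetric relation on multisets which is invariant under addition -/
structure Good {β : Type*} (R : Multiset β → Multiset β → Prop) : Prop where
  add : ∀ {U V : Multiset β}, R U V → ∀ X, R (U + X) (V + X)
  symm : ∀ {U V : Multiset β}, R U V → R V U

section basic

variable {β : Type*} {R : Multiset β → Multiset β → Prop}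

theorem rt_add (hR : Good R) {U V : Multiset β} (h : ReflTransGen R U V) (X : Multiset β) :
    ReflTransGen R (U + X) (V + X) := by
  induction h with
  | refl => exact ReflTransGen.refl
  | tail _ h2 ih => exact ReflTransGen.tail ih (hR.add h2 X)

theorem rt_symm (hR : Good R) {U V : Multiset β} (h : ReflTransGen R U V) :
    ReflTransGen R V U := by
  induction h with
  | refl => exact ReflTransGen.refl
  | tail _ h2 ih => exact ReflTransGen.head (hR.symm h2) ih

/-- the congruence of connection in the presence of `C` -/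
def conG (hR : Good R) (C : Multiset β) : AddCon (Multiset β) where
  r U V := ReflTransGen R (U + C) (V + C)
  iseqv := ⟨fun _ => ReflTransGen.refl, fun h => rt_symm hR h, fun h1 h2 => ReflTransGen.trans h1 h2⟩
  add' := by
    intro w x y z h1 h2
    have e1 : w + y + C = w + C + y := by abel
    have e2 : x + C + y = y + C + x := by abel
    have e3 : x + z + C = z + C + x := by abel
    have k1 := rt_add hR h1 y
    have k2 := rt_add hR h2 x
    rw [← e1, e2] at k1
    rw [← e3] at k2
    exact ReflTransGen.trans k1 k2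

theorem conG_iff (hR : Good R) {C U V : Multiset β} :
    ((U : (conG hR C).Quotient) = (V : (conG hR C).Quotient)) ↔
      ReflTransGen R (U + C) (V + C) :=
  AddCon.eq (conG hR C)

/-- the class of a ranking -/
def clG (hR : Good R) (C : Multiset β) (σ : β) : (conG hR C).Quotient :=
  ((({σ} : Multiset β)) : (conG hR C).Quotient)

theorem clG_sum (hR : Good R) (C : Multiset β) (S : Finset β) :
    ∑ σ ∈ S, clG hR C σ = ((S.val : Multiset β) : (conG hR C).Quotient) := by
  have h := map_sum (AddCon.mk' (conG hR C)) (fun σ => ({σ} : Multiset β)) S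
  rw [Finset.sum_multiset_singleton] at h
  exact h.symm

end basic

section moves

variable {α : Type*} [DecidableEq α]

theorem clG_fs {R : Multiset (Perm α) → Multiset (Perm α) → Prop} (hR : Good R)
    (C : Multiset (Perm α)) (U : Multiset (Perm α)) :
    FS (clG hR C) U = ((U : Multiset (Perm α)) : (conG hR C).Quotient) := by
  induction U using Multiset.induction_on with
  | empty => rfl
  | cons a s ih =>
    have h1 : FS (clG hR C) (a ::ₘ s) = clG hR C a + FS (clG hR C) s := by simp [FS]
    rw [h1, ih, ← Multiset.singleton_add]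
    rfl

/-- elementary quadratic replacements -/
def EMv (U V : Multiset (Perm α)) : Prop :=
  ∃ (W : Multiset (Perm α)) (σ : Perm α) (i j k l : α), Dis i j k l ∧
    U = W + ({σ} + {σ * swap i j * swap k l}) ∧ V = W + ({σ * swap i j} + {σ * swap k l})

/-- quadratic replacements -/
def AMv (U V : Multiset (Perm α)) : Prop :=
  ∃ (W : Multiset (Perm α)) (a b a' b' : Perm α),
    (∀ x y, pm a x y + pm b x y = pm a' x y + pm b' x y) ∧
    U = W + ({a} + {b}) ∧ V = W + ({a'} + {b'})

theorem em_good : Good (EMv (α := α)) := by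
  constructor
  · rintro U V ⟨W, σ, i, j, k, l, hd, rfl, rfl⟩ X
    exact ⟨W + X, σ, i, j, k, l, hd, by abel, by abel⟩
  · rintro U V ⟨W, σ, i, j, k, l, hd, rfl, rfl⟩
    refine ⟨W, σ * swap i j, i, j, k, l, hd, ?_, ?_⟩
    · rw [mul_assoc σ (swap i j) (swap i j), swap_mul_self, mul_one]
    · rw [mul_assoc σ (swap i j) (swap i j), swap_mul_self, mul_one]

theorem em_eq (C : Multiset (Perm α)) : EQ (clG em_good C) := by
  intro σ i j k l hd
  show ((({σ} + {σ * swap i j * swap k l} : Multiset (Perm α))) : (conG em_good C).Quotient)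
    = ((({σ * swap i j} + {σ * swap k l} : Multiset (Perm α))) : (conG em_good C).Quotient)
  rw [conG_iff]
  apply ReflTransGen.single
  exact ⟨C, σ, i, j, k, l, hd, by abel, by abel⟩

end moves

variable {α : Type*} [DecidableEq α] [Fintype α]

/-- every ranking once -/
def AA (α : Type*) [DecidableEq α] [Fintype α] : Multiset (Perm α) :=
  (univ : Finset (Perm α)).val

/-- the flipped layer -/
def Om (ρ : Perm α) (x y z : α) : Multiset (Perm α) :=
  (s1 ρ x y z).val + ((s2 ρ x y z)ᶜ).val

/-- surveys with full support -/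
theorem full (hα : 4 ≤ Fintype.card α) (ρ0 : Perm α) {x y z : α}
    (hxy : x ≠ y) (hyz : y ≠ z) (hxz : x ≠ z) {U V : Multiset (Perm α)}
    (hc : Multiset.card U = Multiset.card V) (htot : ∀ i j, tot U i j = tot V i j) :
    ReflTransGen EMv (U + AA α) (V + AA α) ∨ ReflTransGen EMv (U + AA α) (V + Om ρ0 x y z) := by
  have h1 := conn x (Multiset.card U) U V rfl hc.symm htot
  have hQ := em_eq (0 : Multiset (Perm α))
  obtain ⟨d, hd⟩ := reachSim2 hα hQ hxy hyz hxz h1 false
  have e1 : clG em_good 0 1 + Cx (clG em_good (0 : Multiset (Perm α))) x y z false 1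
      = (((AA α : Multiset (Perm α))) : (conG em_good 0).Quotient) := by
    show clG em_good 0 1 + Ax (clG em_good (0 : Multiset (Perm α))) 1 = _
    rw [ax_add, clG_sum]; rfl
  have e2 : clG em_good 0 1 + Cx (clG em_good (0 : Multiset (Perm α))) x y z true 1
      = (((Om ρ0 x y z : Multiset (Perm α))) : (conG em_good 0).Quotient) := by
    rw [cx_tot hα hQ hxy hyz hxz true 1 ρ0]
    show clG em_good 0 ρ0 + Psi (clG em_good (0 : Multiset (Perm α))) ρ0 ρ0 x y z = _
    unfold Psi
    have h2 := compl_split (clG em_good (0 : Multiset (Perm α))) (S := s2 ρ0 x y z) (a := ρ0)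
      (sign_ok rfl hxy hyz hxz)
    rw [add_left_comm, ← h2, clG_sum, clG_sum]; rfl
  cases d
  · left
    rw [e1, clG_fs, clG_fs] at hd
    have := (conG_iff em_good).1 hd
    rwa [add_zero, add_zero] at this
  · right
    rw [e1, e2, clG_fs, clG_fs] at hd
    have := (conG_iff em_good).1 hd
    rwa [add_zero, add_zero] at this

/-! ### parity -/

/-- the product of the signs -/
def sg (U : Multiset (Perm α)) : ℤˣ := (U.map sign).prod

theorem sg_add (U V : Multiset (Perm α)) : sg (U + V) = sg U * sg V := by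
  unfold sg; rw [Multiset.map_add, Multiset.prod_add]

theorem sg_pair (a b : Perm α) : sg ({a} + {b}) = sign a * sign b := by
  unfold sg; simp

theorem AMv.sg_eq {U V : Multiset (Perm α)} (h : AMv U V) : sg U = sg V := by
  obtain ⟨W, a, b, a', b', hd, rfl, rfl⟩ := h
  rw [sg_add W, sg_add W, sg_pair, sg_pair]
  obtain ⟨c, d, hcd, rfl, rfl, rfl⟩ := quad_decomp hd
  simp only [Perm.sign_mul]
  congr 1
  rcases Int.units_eq_one_or (sign a) with h1 | h1 <;>
  rcases Int.units_eq_one_or (sign c) with h2 | h2 <;>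
  rcases Int.units_eq_one_or (sign d) with h3 | h3 <;>
  rw [h1, h2, h3] <;> decide

theorem am_sg {U V : Multiset (Perm α)} (h : ReflTransGen AMv U V) : sg U = sg V := by
  induction h with
  | refl => rfl
  | tail _ h2 ih => rw [ih, h2.sg_eq]

omit [Fintype α] in
theorem EMv.am {U V : Multiset (Perm α)} (h : EMv U V) : AMv U V := by
  obtain ⟨W, σ, i, j, k, l, hd, rfl, rfl⟩ := h
  refine ⟨W, σ, σ * swap i j * swap k l, σ * swap i j, σ * swap k l, ?_, rfl, rfl⟩
  obtain ⟨hij, hik, hil, hjk, hjl, hkl⟩ := hd
  intro x y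
  apply sum_of_up (x := x) (y := y) (a := σ) (b := σ * swap i j * swap k l) (a' := σ * swap i j)
    (b' := σ * swap k l)
  intro t
  simp only [Perm.mul_apply]
  by_cases t1 : t = k
  · left
    subst t1
    rw [swap_apply_left, swap_apply_of_ne_of_ne (Ne.symm hik) (Ne.symm hjk),
      swap_apply_of_ne_of_ne (Ne.symm hil) (Ne.symm hjl)]
    exact ⟨rfl, rfl⟩
  by_cases t2 : t = l
  · left
    subst t2
    rw [swap_apply_right, swap_apply_of_ne_of_ne (Ne.symm hil) (Ne.symm hjl),
      swap_apply_of_ne_of_ne (Ne.symm hik) (Ne.symm hjk)]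
    exact ⟨rfl, rfl⟩
  · right
    rw [swap_apply_of_ne_of_ne t1 t2]
    exact ⟨rfl, rfl⟩

theorem em_sg {U V : Multiset (Perm α)} (h : ReflTransGen EMv U V) : sg U = sg V := by
  induction h with
  | refl => rfl
  | tail _ h2 ih => rw [ih, h2.am.sg_eq]

/-- the layer and the flipped layer -/
theorem om_split (ρ : Perm α) (x y z : α) : AA α = (s2 ρ x y z).val + ((s2 ρ x y z)ᶜ).val := by
  have h := sum_split (fun σ => ({σ} : Multiset (Perm α))) (s2 ρ x y z)
  rw [Finset.sum_multiset_singleton, Finset.sum_multiset_singleton,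
    Finset.sum_multiset_singleton] at h
  exact h

theorem val_s1 (ρ : Perm α) {x y z : α} (hxy : x ≠ y) (hyz : y ≠ z) (hxz : x ≠ z) :
    (s1 ρ x y z).val = {ρ} + {ρ * (swap x y * swap y z)} + {ρ * (swap x z * swap z y)} := by
  have h := sum_s1 (fun σ => ({σ} : Multiset (Perm α))) ρ hxy hyz hxz
  rwa [Finset.sum_multiset_singleton] at h

theorem val_s2 (ρ : Perm α) {x y z : α} (hxy : x ≠ y) (hyz : y ≠ z) (hxz : x ≠ z) :
    (s2 ρ x y z).val = {ρ * swap x y} + {ρ * swap y z} + {ρ * swap x z} := by
  have h := sum_s2 (fun σ => ({σ} : Multiset (Perm α))) ρ hxy hyz hxz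
  rwa [Finset.sum_multiset_singleton] at h

theorem sg_om (ρ : Perm α) {x y z : α} (hxy : x ≠ y) (hyz : y ≠ z) (hxz : x ≠ z) :
    sg (Om ρ x y z) = - sg (AA α) := by
  rw [om_split ρ x y z]
  unfold Om
  rw [sg_add, sg_add, val_s1 ρ hxy hyz hxz, val_s2 ρ hxy hyz hxz]
  have e1 : sg ({ρ} + {ρ * (swap x y * swap y z)} + {ρ * (swap x z * swap z y)})
      = - sg ({ρ * swap x y} + {ρ * swap y z} + {ρ * swap x z}) := by
    unfold sg
    simp only [Multiset.map_add, Multiset.map_singleton, Multiset.prod_add,
      Multiset.prod_singleton, Perm.sign_mul, sign_swap hxy, sign_swap hyz, sign_swap hxz,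
      sign_swap (Ne.symm hyz)]
    rcases Int.units_eq_one_or (sign ρ) with h | h
    · rw [h]; decide
    · rw [h]; decide
  rw [e1]
  rcases Int.units_eq_one_or (sg ((s2 ρ x y z)ᶜ).val) with h | h <;>
  rcases Int.units_eq_one_or (sg ({ρ * swap x y} + {ρ * swap y z} + {ρ * swap x z})) with h' | h' <;>
  rw [h, h'] <;> decide

end Birk
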