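import Pool.Agent.Work.MP_697f4c_co.Rich
import Pool.Agent.Work.MP_697f4c_co.Quot2

/-!
MP_697f4c_co, work file: surveys modulo quadratic moves, in the presence of a rich survey.
-/

open Equiv Equiv.Perm Finset Relation

namespace Birk

section basic

variable {α : Type*} [DecidableEq α]

theorem am_good : Good (AMv (α := α)) := by
  constructor
  · rintro U V ⟨W, a, b, a', b', hd, rfl, rfl⟩ X
    exact ⟨W + X, a, b, a', b', hd, by abel, by abel⟩
  · rintro U V ⟨W, a, b, a', b', hd, rfl, rfl⟩
    exact ⟨W, a', b', a, b, fun x y => (hd x y).symm, rfl, rfl⟩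

theorem am_qa : QA (clG am_good (0 : Multiset (Perm α))) := by
  intro a b a' b' hd
  apply (conG_iff am_good (C := 0) (U := {a} + {b}) (V := {a'} + {b'})).2
  apply ReflTransGen.single
  exact ⟨0, a, b, a', b', hd, by abel, by abel⟩

/-- equality of classes -/
theorem fs_eq_iff {U V : Multiset (Perm α)} :
    FS (clG am_good (0 : Multiset (Perm α))) U = FS (clG am_good 0) V ↔
      ReflTransGen AMv U V := by
  rw [clG_fs, clG_fs, conG_iff, add_zero, add_zero]

theorem tot_add (U V : Multiset (Perm α)) (x y : α) : tot (U + V) x y = tot U x y + tot V x y := by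
  unfold tot; rw [Multiset.map_add, Multiset.sum_add]

theorem AMv.tot_eq {U V : Multiset (Perm α)} (h : AMv U V) (x y : α) :
    tot U x y = tot V x y := by
  obtain ⟨W, a, b, a', b', hd, rfl, rfl⟩ := h
  have h1 := hd x y
  rw [tot_add, tot_add, tot_add, tot_add]
  have e : ∀ s : Perm α, tot {s} x y = pm s x y := fun s => by simp [tot]
  rw [e, e, e, e, h1]

theorem AMv.card_eq {U V : Multiset (Perm α)} (h : AMv U V) :
    Multiset.card U = Multiset.card V := by
  obtain ⟨W, a, b, a', b', hd, rfl, rfl⟩ := h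
  simp

theorem am_tot {U V : Multiset (Perm α)} (h : ReflTransGen AMv U V) (x y : α) :
    tot U x y = tot V x y := by
  induction h with
  | refl => rfl
  | tail _ h2 ih => rw [ih, h2.tot_eq]

theorem am_card {U V : Multiset (Perm α)} (h : ReflTransGen AMv U V) :
    Multiset.card U = Multiset.card V := by
  induction h with
  | refl => rfl
  | tail _ h2 ih => rw [ih, h2.card_eq]

end basic

variable {α : Type*} [DecidableEq α] [Fintype α]

/-- with a rich survey as catalyst -/
theorem rich_add (hα : 4 ≤ Fintype.card α) (ρ0 : Perm α) {x y z : α}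
    (hxy : x ≠ y) (hyz : y ≠ z) (hxz : x ≠ z) {U V W : Multiset (Perm α)}
    (hc : Multiset.card U = Multiset.card V) (htot : ∀ i j, tot U i j = tot V i j)
    (hW : Rich ((Fintype.card α + 1) * (96 * Fintype.card α + 94)) W) :
    ReflTransGen AMv (U + W) (V + W) ∨
    ∃ w, ReflTransGen AMv (U + W) (w + (s1 ρ0 x y z).val) ∧
      ReflTransGen AMv (w + (s2 ρ0 x y z).val) (V + W) := by
  obtain ⟨g, d, e1, e2⟩ := rich_core hα am_qa hxy hyz hxz ρ0 hc htot hW
  cases d
  · left
    rw [← fs_eq_iff, fs_add, fs_add, e2, e1, add_assoc]; rfl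
  · right
    refine ⟨V + g, ?_, ?_⟩
    · rw [← fs_eq_iff, fs_add, e2, fs_add, fs_add, add_right_comm]; rfl
    · rw [← fs_eq_iff, fs_add, fs_add, fs_add, e1, add_assoc,
        add_comm (FS (clG am_good 0) g)]; rfl

/-- two rich surveys -/
theorem rich_pair (hα : 4 ≤ Fintype.card α) (ρ0 : Perm α) {x y z : α}
    (hxy : x ≠ y) (hyz : y ≠ z) (hxz : x ≠ z) {U V : Multiset (Perm α)}
    (hc : Multiset.card U = Multiset.card V) (htot : ∀ i j, tot U i j = tot V i j)
    {m : ℕ} (hm : (Fintype.card α + 1) * ((Fintype.card α + 1) * (96 * Fintype.card α + 94)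
      * Fintype.card α ^ 4) ≤ m) (hU : Rich m U) (hV : Rich m V) :
    ReflTransGen AMv U V ∨
    ∃ w, ReflTransGen AMv U (w + (s1 ρ0 x y z).val) ∧
      ReflTransGen AMv (w + (s2 ρ0 x y z).val) V := by
  set L := (Fintype.card α + 1) * (96 * Fintype.card α + 94) with hL
  have cr : ∀ U : Multiset (Perm α), Rich m U → ∃ g, ReflTransGen AMv U (g + wstar α L) := by
    intro U hU
    obtain ⟨g, -, hg⟩ := create hα am_qa (wstar α L) (L := 0) (W := U)
      (hU.mono (by rw [zero_add, wstar_card]; exact hm))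
    refine ⟨g, ?_⟩
    rw [← fs_eq_iff, fs_add, hg, add_comm]
  obtain ⟨g, hg⟩ := cr U hU
  obtain ⟨g', hg'⟩ := cr V hV
  have c1 := am_card hg
  have c2 := am_card hg'
  rw [Multiset.card_add] at c1 c2
  have t1 : ∀ i j, tot g i j = tot g' i j := by
    intro i j
    have a1 := am_tot hg i j
    have a2 := am_tot hg' i j
    rw [tot_add] at a1 a2
    have a3 := htot i j
    omega
  have hr := rt_symm am_good hg'
  rcases rich_add hα ρ0 hxy hyz hxz (by omega) t1 (wstar_rich L) with h | ⟨w, h1, h2⟩
  · left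
    exact (hg.trans h).trans hr
  · right
    exact ⟨w, hg.trans h1, h2.trans hr⟩

end Birk
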