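import Pool.Agent.Work.MP_697f4c_co.Spec

/-! # Bringing a ballot into a survey by rule steps (MP_697f4c_co) -/

namespace Pool.Agent.Work.MP_697f4c_co

open Finset Function Equiv

variable {X : Type*} [Fintype X] [LinearOrder X]

/-- There is a path of at most `k` rule steps. -/
inductive Reach : ℕ → (Perm X → ℕ) → (Perm X → ℕ) → Prop
  | refl (k : ℕ) (f : Perm X → ℕ) : Reach k f f
  | cons {k : ℕ} {f g h : Perm X → ℕ} (hs : Step f g) (hr : Reach k g h) : Reach (k + 1) f h

lemma Reach.mono {k l : ℕ} {f g : Perm X → ℕ} (h : Reach k f g) (hkl : k ≤ l) : Reach l f g := by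
  induction h generalizing l with
  | refl k f => exact Reach.refl l f
  | cons hs _ ih =>
    obtain ⟨l', rfl⟩ : ∃ l', l = l' + 1 := ⟨l - 1, by omega⟩
    exact Reach.cons hs (ih (by omega))

lemma Reach.trans {k l : ℕ} {f g h : Perm X → ℕ} (h1 : Reach k f g) (h2 : Reach l g h) :
    Reach (k + l) f h := by
  induction h1 with
  | refl k f => exact h2.mono (by omega)
  | cons hs _ ih =>
    have := Reach.cons hs (ih h2)
    exact this.mono (by omega)

lemma Step.add {f g : Perm X → ℕ} (h : Step f g) (k : Perm X → ℕ) : Step (k + f) (k + g) := by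
  rcases h with ⟨h, u, r, a, rfl, rfl⟩ | ⟨h, u, m, b, r, a, c, hm, rfl, rfl⟩
  · exact Or.inl ⟨k + h, u, r, a, by simp only [add_assoc], by simp only [add_assoc]⟩
  · exact Or.inr ⟨k + h, u, m, b, r, a, c, hm, by simp only [add_assoc], by simp only [add_assoc]⟩

lemma Reach.add {n : ℕ} {f g : Perm X → ℕ} (h : Reach n f g) (k : Perm X → ℕ) :
    Reach n (k + f) (k + g) := by
  induction h with
  | refl n f => exact Reach.refl n _
  | cons hs _ ih => exact Reach.cons (hs.add k) ih

lemma quad_eq (u : X) (r a : Perm X) :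
    ⇑(quad u (r, a)).1 = (quadRows u r a).1 ∧ ⇑(quad u (r, a)).2 = (quadRows u r a).2 := by
  unfold quad
  rw [dif_pos (quadRows_bij u r a)]
  exact ⟨rfl, rfl⟩

lemma ind_quad (u : X) (r a : Perm X) (x j : X) :
    (if (quad u (r, a)).1 x = j then 1 else 0) + (if (quad u (r, a)).2 x = j then 1 else 0)
      = (if r x = j then 1 else 0) + (if a x = j then (1 : ℕ) else 0) := by
  rw [(quad_eq u r a).1, (quad_eq u r a).2]
  exact ind_ex _ _ _ _ _

lemma ind_cub (u : X) (m : ℕ) (b : Bool) (r a c : Perm X) (x j : X) :
    (if (cub u m b (r, a, c)).1 x = j then 1 else 0)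
      + (if (cub u m b (r, a, c)).2.1 x = j then 1 else 0)
      + (if (cub u m b (r, a, c)).2.2 x = j then 1 else 0)
      = (if r x = j then 1 else 0) + (if a x = j then 1 else 0)
        + (if c x = j then (1 : ℕ) else 0) := by
  unfold cub
  by_cases h : Bijective (cubRows u m b r a c).1 ∧ Bijective (cubRows u m b r a c).2.1 ∧
      Bijective (cubRows u m b r a c).2.2
  · rw [dif_pos h]
    exact ind_cubRows u m b r a c x j
  · rw [dif_neg h]

lemma Step.summ_eq {f g : Perm X → ℕ} (h : Step f g) (i j : X) : summ f i j = summ g i j := by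
  rcases h with ⟨h, u, r, a, rfl, rfl⟩ | ⟨h, u, m, b, r, a, c, _, rfl, rfl⟩
  · have := ind_quad u r a i j
    simp only [summ_add, summ_one]
    omega
  · have := ind_cub u m b r a c i j
    simp only [summ_add, summ_one]
    omega

lemma Reach.summ_eq {n : ℕ} {f g : Perm X → ℕ} (h : Reach n f g) (i j : X) :
    summ f i j = summ g i j := by
  induction h with
  | refl n f => rfl
  | cons hs _ ih => rw [hs.summ_eq i j, ih]

/-- Every entry of the target ballot `τ` occurs in its column. -/
def Avail (τ : Perm X) (f : Perm X → ℕ) : Prop := ∀ x, 1 ≤ summ f x (τ x)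

lemma Avail.reach {τ : Perm X} {n : ℕ} {f g : Perm X → ℕ} (h : Avail τ f) (hr : Reach n f g) :
    Avail τ g := fun x => by
  rw [← hr.summ_eq]
  exact h x

lemma exists_of_summ {f : Perm X → ℕ} {x j : X} (h : 1 ≤ summ f x j) :
    ∃ σ : Perm X, 1 ≤ f σ ∧ σ x = j := by
  unfold summ at h
  have h0 : ∑ σ : Perm X, (if σ x = j then f σ else 0) ≠ 0 := by omega
  obtain ⟨σ, _, hσ⟩ := exists_ne_zero_of_sum_ne_zero h0
  by_cases hx : σ x = j
  · rw [if_pos hx] at hσ
    exact ⟨σ, by omega, hx⟩
  · rw [if_neg hx] at hσ
    exact absurd rfl hσ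

/-- Number of candidates at which `P` differs from the target. -/
def dis (P : X → X) (τ : Perm X) : ℕ := (univ.filter fun x => P x ≠ τ x).card

lemma dis_update {P : X → X} {τ : Perm X} {x : X} (hx : P x ≠ τ x) :
    dis (update P x (τ x)) τ + 1 = dis P τ := by
  unfold dis
  have : (univ.filter fun w => P w ≠ τ w)
      = insert x (univ.filter fun w => update P x (τ x) w ≠ τ w) := by
    ext w
    simp only [mem_filter, mem_univ, true_and, mem_insert]
    by_cases hw : w = x
    · subst hw
      simp [hx]
    · simp [hw]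
  rw [this, card_insert_of_notMem]
  simp

/-- The open state of the process: the virtual ballot `ex r a (seg a r u m)`. -/
structure Opn (r a : Perm X) (u : X) (m : ℕ) (y z : X) : Prop where
  hm : 1 ≤ m
  near : Near (ex r a (seg a r u m)) y z
  ne : y ≠ z
  hw : r.symm (a u) ∉ seg a r u m

namespace Opn

variable {r a : Perm X} {u : X} {m : ℕ} {y z : X}

lemma Pu (_h : Opn r a u m y z) : ex r a (seg a r u m) u = a u :=
  ex_mem (start_mem _h.hm)

lemma Pw (h : Opn r a u m y z) : ex r a (seg a r u m) (r.symm (a u)) = a u := by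
  rw [ex_not_mem h.hw]
  simp

lemma wu (h : Opn r a u m y z) : r.symm (a u) ≠ u := fun e => h.hw (by
  rw [e]
  exact start_mem h.hm)

lemma au (h : Opn r a u m y z) : a u = y := by
  by_contra hne
  have h1 : ex r a (seg a r u m) u = ex r a (seg a r u m) (r.symm (a u)) := by
    rw [h.Pu, h.Pw]
  have h2 := h.near.uniq h1 (by rw [h.Pu]; exact hne)
  exact h.wu h2.symm

lemma nearQ (h : Opn r a u m y z) : Near (ex a r (seg a r u m)) z y := by
  refine h.near.other fun v => ?_
  rw [cnt_ex, bij_iff.mp r.bijective, bij_iff.mp a.bijective]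

/-- The elements of the segment are distinct, so there are fewer than `card X` of them. -/
lemma lt_card (h : Opn r a u m y z) : m < Fintype.card X := by
  have hback : ∀ i j, i < j → j < m → (nxt a r)^[i] u ≠ (nxt a r)^[j] u := by
    intro i
    induction i with
    | zero =>
      intro j h0 hj heq
      obtain ⟨c, rfl⟩ : ∃ c, j = c + 1 := ⟨j - 1, by omega⟩
      rw [iterate_succ_apply'] at heq
      have h1 : a u = r ((nxt a r)^[c] u) := by
        have := a_nxt r a ((nxt a r)^[c] u)
        rw [← heq] at this
        exact this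
      refine h.hw ?_
      rw [h1]
      simp only [symm_apply_apply]
      exact mem_seg.mpr ⟨c, by omega, rfl⟩
    | succ i ih =>
      intro j hij hj heq
      obtain ⟨c, rfl⟩ : ∃ c, j = c + 1 := ⟨j - 1, by omega⟩
      rw [iterate_succ_apply', iterate_succ_apply', nxt_perm, nxt_perm] at heq
      exact ih c (by omega) (by omega) (r.injective (a.symm.injective heq))
  have hinj : Set.InjOn (fun i => (nxt a r)^[i] u) (range m : Set ℕ) := by
    intro i hi j hj hij
    have hi' : i < m := by simpa using hi
    have hj' : j < m := by simpa using hj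
    rcases lt_trichotomy i j with h1 | h1 | h1
    · exact absurd hij (hback i j h1 hj')
    · exact h1
    · exact absurd hij.symm (hback j i h1 hi')
  have hcard : (seg a r u m).card = m := by
    unfold seg
    rw [card_image_of_injOn hinj, card_range]
  have hlt : (seg a r u m).card < (univ : Finset X).card := by
    refine card_lt_card ?_
    rw [ssubset_univ_iff]
    intro e
    exact h.hw (by rw [e]; exact mem_univ _)
  rw [hcard, card_univ] at hlt
  exact hlt

end Opn

end Pool.Agent.Work.MP_697f4c_co
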