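import Pool.Agent.Work.MP_697f4c_co.Flip2

/-!
MP_697f4c_co, work file: the flipped context without one ranking.
-/

open Equiv Equiv.Perm Finset

namespace Birk

variable {M : Type*} [AddCommMonoid M]

theorem swap4r {F : Perm (Fin 4) → M} (hQ : EQ F) :
    F (swap 0 1 * swap 1 2) + F (swap 0 2 * swap 2 1) + F (swap 1 3) + F (swap 0 3) + F (swap 1 2 * swap 2 3)
      = F (swap 1 2) + F (swap 0 2) + F (swap 0 1 * swap 1 3) + F (swap 0 3 * swap 3 1) + F (swap 1 2 * swap 2 3) := by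
  have h0 : F (swap 1 2 * swap 2 3) + F (swap 0 2 * swap 2 1) = F (swap 0 1 * swap 0 2 * swap 2 3) + F (swap 1 2) := by
    have h := hQ (swap 1 2 * swap 2 3) 0 1 2 3 (by decide)
    rwa [show (swap 1 2 * swap 2 3 : Perm (Fin 4)) * swap 0 1 * swap 2 3 = swap 0 2 * swap 2 1 by decide,
      show (swap 1 2 * swap 2 3 : Perm (Fin 4)) * swap 0 1 = swap 0 1 * swap 0 2 * swap 2 3 by decide,
      show (swap 1 2 * swap 2 3 : Perm (Fin 4)) * swap 2 3 = swap 1 2 by decide] at h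
  have h1 : F (swap 0 1 * swap 0 2 * swap 2 3) + F (swap 0 3) = F (swap 0 3 * swap 3 1) + F (swap 0 2 * swap 2 3) := by
    have h := hQ (swap 0 1 * swap 0 2 * swap 2 3) 0 2 1 3 (by decide)
    rwa [show (swap 0 1 * swap 0 2 * swap 2 3 : Perm (Fin 4)) * swap 0 2 * swap 1 3 = swap 0 3 by decide,
      show (swap 0 1 * swap 0 2 * swap 2 3 : Perm (Fin 4)) * swap 0 2 = swap 0 3 * swap 3 1 by decide,
      show (swap 0 1 * swap 0 2 * swap 2 3 : Perm (Fin 4)) * swap 1 3 = swap 0 2 * swap 2 3 by decide] at h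
  have h2 : F (swap 0 1 * swap 1 2) + F (swap 0 2 * swap 2 3) = F (swap 0 2) + F (swap 0 1 * swap 1 2 * swap 2 3) := by
    have h := hQ (swap 0 1 * swap 1 2) 0 1 2 3 (by decide)
    rwa [show (swap 0 1 * swap 1 2 : Perm (Fin 4)) * swap 0 1 * swap 2 3 = swap 0 2 * swap 2 3 by decide,
      show (swap 0 1 * swap 1 2 : Perm (Fin 4)) * swap 0 1 = swap 0 2 by decide,
      show (swap 0 1 * swap 1 2 : Perm (Fin 4)) * swap 2 3 = swap 0 1 * swap 1 2 * swap 2 3 by decide] at h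
  have h3 : F (swap 1 3) + F (swap 0 1 * swap 1 2 * swap 2 3) = F (swap 0 1 * swap 1 3) + F (swap 1 2 * swap 2 3) := by
    have h := hQ (swap 1 3) 0 3 1 2 (by decide)
    rwa [show (swap 1 3 : Perm (Fin 4)) * swap 0 3 * swap 1 2 = swap 0 1 * swap 1 2 * swap 2 3 by decide,
      show (swap 1 3 : Perm (Fin 4)) * swap 0 3 = swap 0 1 * swap 1 3 by decide,
      show (swap 1 3 : Perm (Fin 4)) * swap 1 2 = swap 1 2 * swap 2 3 by decide] at h
  calc F (swap 0 1 * swap 1 2) + F (swap 0 2 * swap 2 1) + F (swap 1 3) + F (swap 0 3) + F (swap 1 2 * swap 2 3)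
      = (F (swap 1 2 * swap 2 3) + F (swap 0 2 * swap 2 1)) + (F (swap 0 1 * swap 1 2) + F (swap 1 3) + F (swap 0 3)) := by abel
    _ = (F (swap 0 1 * swap 0 2 * swap 2 3) + F (swap 0 3)) + (F (swap 0 1 * swap 1 2) + F (swap 1 3) + F (swap 1 2)) := by rw [h0]; abel
    _ = (F (swap 0 1 * swap 1 2) + F (swap 0 2 * swap 2 3)) + (F (swap 1 3) + F (swap 1 2) + F (swap 0 3 * swap 3 1)) := by rw [h1]; abel
    _ = (F (swap 1 3) + F (swap 0 1 * swap 1 2 * swap 2 3)) + (F (swap 1 2) + F (swap 0 3 * swap 3 1) + F (swap 0 2)) := by rw [h2]; abel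
    _ = F (swap 1 2) + F (swap 0 2) + F (swap 0 1 * swap 1 3) + F (swap 0 3 * swap 3 1) + F (swap 1 2 * swap 2 3) := by rw [h3]; abel

variable {α : Type*} [DecidableEq α]

theorem swapGr {F : Perm α → M} (hQ : EQ F) (ρ : Perm α) {x y z w : α} (h : Dis x y z w) :
    F (ρ * (swap x y * swap y z)) + F (ρ * (swap x z * swap z y))
        + F (ρ * swap y w) + F (ρ * swap x w) + F (ρ * (swap y z * swap z w))
      = F (ρ * swap y z) + F (ρ * swap x z)
        + F (ρ * (swap x y * swap y w)) + F (ρ * (swap x w * swap w y))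
        + F (ρ * (swap y z * swap z w)) := by
  have := swap4r (eq_via hQ ρ (emb x y z w h))
  simpa only [map_mul, map_one, mul_one, via_swap, emb_zero, emb_one, emb_two, emb_three]
    using this

variable [Fintype α]

theorem compl_split (F : Perm α → M) {S : Finset (Perm α)} {a : Perm α} (h : a ∉ S) :
    ∑ σ ∈ Sᶜ, F σ = F a + ∑ σ ∈ (insert a S)ᶜ, F σ := by
  rw [compl_insert, add_sum_erase]
  exact mem_compl.2 h

/-- the flipped context without `r` -/
def Psi (F : Perm α → M) (r ρ : Perm α) (x y z : α) : M :=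
  ∑ σ ∈ s1 ρ x y z, F σ + ∑ σ ∈ (insert r (s2 ρ x y z))ᶜ, F σ

theorem psi_swap (F : Perm α → M) (r ρ : Perm α) {x y z : α} (hxy : x ≠ y) (hyz : y ≠ z)
    (hxz : x ≠ z) : Psi F r ρ y x z = Psi F r ρ x y z := by
  unfold Psi
  rw [s1_swap ρ hxy hyz hxz, s2_swap]

theorem psi_swap' (F : Perm α → M) (r ρ : Perm α) (x y z : α) :
    Psi F r ρ x z y = Psi F r ρ x y z := by
  unfold Psi
  rw [s1_swap', s2_swap']

/-- change of one point of the block, with a given catalyst -/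
theorem psi_point_aux {F : Perm α → M} (hQ : EQ F) (r ρ : Perm α) {x y z w : α}
    (h : Dis x y z w) (h1 : r ∉ s2 ρ x y z) (h2 : r ∉ s2 ρ x y w)
    (hk : r ≠ ρ * (swap y z * swap z w)) :
    Psi F r ρ x y z = Psi F r ρ x y w := by
  have hs := swapGr hQ ρ h
  obtain ⟨hxy, hxz, hxw, hyz, hyw, hzw⟩ := h
  set k := ρ * (swap y z * swap z w) with hk0
  have kw : (swap y z * swap z w) w = y := by
    rw [Perm.mul_apply, swap_apply_right, swap_apply_right]
  have kz : (swap y z * swap z w) z = w := by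
    rw [Perm.mul_apply, swap_apply_left, swap_apply_of_ne_of_ne (Ne.symm hyw) (Ne.symm hzw)]
  -- members of the first block fix `w`
  have fixw : ∀ u : Perm α, u w ≠ w → ρ * u ∉ s2 ρ x y z := by
    intro u hu
    unfold s2
    rw [mem_insert, mem_insert, mem_singleton, not_or, not_or]
    refine ⟨?_, ?_, ?_⟩
    · apply ne_of_mul w; rw [swap_apply_of_ne_of_ne (Ne.symm hxw) (Ne.symm hyw)]; exact hu
    · apply ne_of_mul w; rw [swap_apply_of_ne_of_ne (Ne.symm hyw) (Ne.symm hzw)]; exact hu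
    · apply ne_of_mul w; rw [swap_apply_of_ne_of_ne (Ne.symm hxw) (Ne.symm hzw)]; exact hu
  have fixz : ∀ u : Perm α, u z ≠ z → ρ * u ∉ s2 ρ x y w := by
    intro u hu
    unfold s2
    rw [mem_insert, mem_insert, mem_singleton, not_or, not_or]
    refine ⟨?_, ?_, ?_⟩
    · apply ne_of_mul z; rw [swap_apply_of_ne_of_ne (Ne.symm hxz) (Ne.symm hyz)]; exact hu
    · apply ne_of_mul z; rw [swap_apply_of_ne_of_ne (Ne.symm hyz) hzw]; exact hu
    · apply ne_of_mul z; rw [swap_apply_of_ne_of_ne (Ne.symm hxz) hzw]; exact hu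
  have rmem : ∀ u v, r ∉ s2 ρ x y v → ρ * u ∈ s2 ρ x y v → ρ * u ≠ r := by
    intro u v h3 h4 h5
    rw [h5] at h4; exact h3 h4
  have ma : ρ * swap y w ∉ insert r (s2 ρ x y z) := by
    rw [mem_insert, not_or]
    exact ⟨rmem _ w h2 (by simp [s2]), fixw _ (by rw [swap_apply_right]; exact hyw)⟩
  have mb : ρ * swap x w ∉ insert (ρ * swap y w) (insert r (s2 ρ x y z)) := by
    rw [mem_insert, mem_insert, not_or, not_or]
    refine ⟨?_, rmem _ w h2 (by simp [s2]), fixw _ (by rw [swap_apply_right]; exact hxw)⟩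
    apply ne_of_mul w; rw [swap_apply_right, swap_apply_right]; exact hxy
  have mk : k ∉ insert (ρ * swap x w) (insert (ρ * swap y w) (insert r (s2 ρ x y z))) := by
    rw [mem_insert, mem_insert, mem_insert, not_or, not_or, not_or]
    refine ⟨?_, ?_, Ne.symm hk, fixw _ (by rw [kw]; exact hyw)⟩
    · apply ne_of_mul w; rw [kw, swap_apply_right]; exact Ne.symm hxy
    · apply ne_of_mul z; rw [kz, swap_apply_of_ne_of_ne (Ne.symm hyz) hzw]; exact Ne.symm hzw
  have ma' : ρ * swap y z ∉ insert r (s2 ρ x y w) := by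
    rw [mem_insert, not_or]
    exact ⟨rmem _ z h1 (by simp [s2]), fixz _ (by rw [swap_apply_right]; exact hyz)⟩
  have mb' : ρ * swap x z ∉ insert (ρ * swap y z) (insert r (s2 ρ x y w)) := by
    rw [mem_insert, mem_insert, not_or, not_or]
    refine ⟨?_, rmem _ z h1 (by simp [s2]), fixz _ (by rw [swap_apply_right]; exact hxz)⟩
    apply ne_of_mul z; rw [swap_apply_right, swap_apply_right]; exact hxy
  have mk' : k ∉ insert (ρ * swap x z) (insert (ρ * swap y z) (insert r (s2 ρ x y w))) := by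
    rw [mem_insert, mem_insert, mem_insert, not_or, not_or, not_or]
    refine ⟨?_, ?_, Ne.symm hk, fixz _ (by rw [kz]; exact Ne.symm hzw)⟩
    · apply ne_of_mul z; rw [kz, swap_apply_right]; exact Ne.symm hxw
    · apply ne_of_mul z; rw [kz, swap_apply_right]; exact Ne.symm hyw
  have hset : insert k (insert (ρ * swap x w) (insert (ρ * swap y w) (insert r (s2 ρ x y z))))
      = insert k (insert (ρ * swap x z) (insert (ρ * swap y z) (insert r (s2 ρ x y w)))) := by
    unfold s2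
    ext σ
    simp only [mem_insert, mem_singleton]
    tauto
  unfold Psi
  rw [sum_s1 F ρ hxy hyz hxz, sum_s1 F ρ hxy hyw hxw, compl_split F ma, compl_split F mb,
    compl_split F mk, compl_split F ma', compl_split F mb', compl_split F mk', hset]
  set R := ∑ σ ∈ (insert k (insert (ρ * swap x z) (insert (ρ * swap y z)
    (insert r (s2 ρ x y w)))))ᶜ, F σ
  calc F ρ + F (ρ * (swap x y * swap y z)) + F (ρ * (swap x z * swap z y))
        + (F (ρ * swap y w) + (F (ρ * swap x w) + (F k + R)))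
      = (F (ρ * (swap x y * swap y z)) + F (ρ * (swap x z * swap z y))
        + F (ρ * swap y w) + F (ρ * swap x w) + F k) + F ρ + R := by abel
    _ = (F (ρ * swap y z) + F (ρ * swap x z)
        + F (ρ * (swap x y * swap y w)) + F (ρ * (swap x w * swap w y)) + F k) + F ρ + R := by
        rw [hs]
    _ = F ρ + F (ρ * (swap x y * swap y w)) + F (ρ * (swap x w * swap w y))
        + (F (ρ * swap y z) + (F (ρ * swap x z) + (F k + R))) := by abel

/-- change of one point of the block -/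
theorem psi_point {F : Perm α → M} (hQ : EQ F) (r ρ : Perm α) {x y z w : α}
    (h : Dis x y z w) (h1 : r ∉ s2 ρ x y z) (h2 : r ∉ s2 ρ x y w) :
    Psi F r ρ x y z = Psi F r ρ x y w := by
  by_cases hk : r = ρ * (swap y z * swap z w)
  · obtain ⟨hxy, hxz, hxw, hyz, hyw, hzw⟩ := h
    rw [← psi_swap F r ρ hxy hyz hxz, ← psi_swap F r ρ hxy hyw hxw]
    apply psi_point_aux hQ r ρ ⟨Ne.symm hxy, hyz, hyw, hxz, hxw, hzw⟩
    · rw [s2_swap]; exact h1
    · rw [s2_swap]; exact h2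
    · rw [hk]
      apply ne_of_mul w
      rw [Perm.mul_apply, Perm.mul_apply, swap_apply_right, swap_apply_right, swap_apply_right]
      exact Ne.symm hxy
  · exact psi_point_aux hQ r ρ h h1 h2 hk

omit [Fintype α] in
theorem sign_ok [Fintype α] {r ρ : Perm α} (hs : sign ρ = sign r) {x y z : α} (hxy : x ≠ y)
    (hyz : y ≠ z) (hxz : x ≠ z) : r ∉ s2 ρ x y z := by
  intro h
  unfold s2 at h
  rw [mem_insert, mem_insert, mem_singleton] at h
  have : sign r = - sign ρ := by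
    rcases h with h | h | h
    · rw [h, Perm.sign_mul, sign_swap hxy]; simp
    · rw [h, Perm.sign_mul, sign_swap hyz]; simp
    · rw [h, Perm.sign_mul, sign_swap hxz]; simp
  rw [hs] at this
  rcases Int.units_eq_one_or (sign r) with h1 | h1
  · rw [h1] at this; exact absurd this (by decide)
  · rw [h1] at this; exact absurd this (by decide)

theorem psi_tri {F : Perm α → M} (hQ : EQ F) {r ρ : Perm α} (hs : sign ρ = sign r)
    {x y z x' y' z' : α} (hxy : x ≠ y)
    (hyz : y ≠ z) (hxz : x ≠ z) (hxy' : x' ≠ y') (hyz' : y' ≠ z') (hxz' : x' ≠ z') :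
    Psi F r ρ x y z = Psi F r ρ x' y' z' := by
  have pp : ∀ {x y z w : α}, x ≠ y → y ≠ z → x ≠ z → x ≠ w → y ≠ w →
      Psi F r ρ x y z = Psi F r ρ x y w := by
    intro x y z w hxy hyz hxz hxw hyw
    by_cases hzw : z = w
    · rw [hzw]
    · exact psi_point hQ r ρ ⟨hxy, hxz, hxw, hyz, hyw, hzw⟩ (sign_ok hs hxy hyz hxz)
        (sign_ok hs hxy hyw hxw)
  obtain ⟨u, v, h1, h2, h3, e1⟩ : ∃ u v, x' ≠ u ∧ u ≠ v ∧ x' ≠ v ∧
      Psi F r ρ x y z = Psi F r ρ x' u v := by
    by_cases c1 : x' = x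
    · subst c1; exact ⟨y, z, hxy, hyz, hxz, rfl⟩
    by_cases c2 : x' = y
    · subst c2; exact ⟨x, z, Ne.symm hxy, hxz, hyz, (psi_swap F r ρ hxy hyz hxz).symm⟩
    by_cases c3 : x' = z
    · subst c3
      refine ⟨x, y, Ne.symm hxz, hxy, Ne.symm hyz, ?_⟩
      rw [psi_swap F r ρ hxz (Ne.symm hyz) hxy, psi_swap']
    · refine ⟨y, z, c2, hyz, c3, ?_⟩
      calc Psi F r ρ x y z = Psi F r ρ y x z := (psi_swap F r ρ hxy hyz hxz).symm
        _ = Psi F r ρ y z x := (psi_swap' F r ρ y x z).symm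
        _ = Psi F r ρ y z x' := pp hyz (Ne.symm hxz) (Ne.symm hxy) (Ne.symm c2) (Ne.symm c3)
        _ = Psi F r ρ y x' z := psi_swap' F r ρ y x' z
        _ = Psi F r ρ x' y z := psi_swap F r ρ c2 hyz c3
  obtain ⟨v2, h4, h5, e2⟩ : ∃ v2, y' ≠ v2 ∧ x' ≠ v2 ∧ Psi F r ρ x' u v = Psi F r ρ x' y' v2 := by
    by_cases c1 : y' = u
    · subst c1; exact ⟨v, h2, h3, rfl⟩
    by_cases c2 : y' = v
    · subst c2; exact ⟨u, Ne.symm h2, h1, (psi_swap' F r ρ x' u y').symm⟩
    · refine ⟨v, c2, h3, ?_⟩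
      calc Psi F r ρ x' u v = Psi F r ρ x' v u := (psi_swap' F r ρ x' u v).symm
        _ = Psi F r ρ x' v y' := pp h3 (Ne.symm h2) h1 hxy' (Ne.symm c2)
        _ = Psi F r ρ x' y' v := psi_swap' F r ρ x' y' v
  rw [e1, e2]
  exact pp hxy' h4 h5 hxz' hyz'

/-- the block of a base of the same orientation -/
theorem s_three (ρ : Perm α) {x y z : α} (hxy : x ≠ y) (hyz : y ≠ z) (hxz : x ≠ z) :
    s1 (ρ * (swap x y * swap y z)) x y z = s1 ρ x y z ∧
    s2 (ρ * (swap x y * swap y z)) x y z = s2 ρ x y z := by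
  have r1 : ∀ σ : Perm α, s1 σ y z x = s1 σ x y z := fun σ => by
    rw [s1_swap' σ y x z, s1_swap σ hxy hyz hxz]
  have r2 : ∀ σ : Perm α, s2 σ y z x = s2 σ x y z := fun σ => by
    rw [s2_swap' σ y x z, s2_swap]
  constructor
  · rw [← mul_assoc, ← r1, s1_base (ρ * swap x y) hyz (Ne.symm hxz) (Ne.symm hxy), r2,
      s2_base ρ hxy hyz hxz]
  · rw [← mul_assoc, ← r2, s2_base (ρ * swap x y) hyz (Ne.symm hxz) (Ne.symm hxy), r1,
      s1_base ρ hxy hyz hxz]

theorem three_eq {π : Perm α} (h : π.IsThreeCycle) :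
    ∃ x y z : α, x ≠ y ∧ y ≠ z ∧ x ≠ z ∧ π = swap x y * swap y z := by
  have hcard : π.support.card = 3 := h.card_support
  obtain ⟨x, hx⟩ : ∃ x, x ∈ π.support := card_pos.1 (by omega)
  have hx' : π x ≠ x := mem_support.1 hx
  have h3 : π (π (π x)) = x := by
    have h1 := pow_orderOf_eq_one π
    rw [h.orderOf] at h1
    have h2 : (π ^ 3) x = x := by rw [h1]; rfl
    exact h2
  have hxy : x ≠ π x := Ne.symm hx'
  have hyz : π x ≠ π (π x) := fun e => hxy (π.injective e)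
  have hxz : x ≠ π (π x) := by
    intro e
    rw [← e] at h3
    exact hx' h3
  refine ⟨x, π x, π (π x), hxy, hyz, hxz, ?_⟩
  have hsub : ({x, π x, π (π x)} : Finset α) ⊆ π.support := by
    intro t ht
    rw [mem_insert, mem_insert, mem_singleton] at ht
    rw [mem_support]
    rcases ht with rfl | rfl | rfl
    · exact hx'
    · exact Ne.symm hyz
    · rw [h3]; exact hxz
  have hc3 : ({x, π x, π (π x)} : Finset α).card = 3 := by
    rw [card_insert_of_notMem, card_pair hyz]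
    rw [mem_insert, mem_singleton, not_or]
    exact ⟨hxy, hxz⟩
  have heq := eq_of_subset_of_card_le hsub (by rw [hc3, hcard])
  ext t
  rw [Perm.mul_apply]
  by_cases t1 : t = x
  · rw [t1, swap_apply_of_ne_of_ne hxy hxz, swap_apply_left]
  by_cases t2 : t = π x
  · rw [t2, swap_apply_left, swap_apply_of_ne_of_ne (Ne.symm hxz) (Ne.symm hyz)]
  by_cases t3 : t = π (π x)
  · rw [t3, swap_apply_right, swap_apply_right, h3]
  · rw [swap_apply_of_ne_of_ne t2 t3, swap_apply_of_ne_of_ne t1 t2]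
    have : t ∉ π.support := by
      rw [← heq]
      simp only [mem_insert, mem_singleton, not_or]
      exact ⟨t1, t2, t3⟩
    exact notMem_support.1 this

theorem psi_alt {F : Perm α → M} (hQ : EQ F) {r : Perm α} {x y z : α} (hxy : x ≠ y)
    (hyz : y ≠ z) (hxz : x ≠ z) {π : Perm α} (hπ : π ∈ alternatingGroup α) :
    sign π = 1 ∧ ∀ ρ : Perm α, sign ρ = sign r → Psi F r (ρ * π) x y z = Psi F r ρ x y z := by
  rw [← closure_three_cycles_eq_alternating] at hπ
  induction hπ using Subgroup.closure_induction with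
  | mem π h =>
    have h' : π.IsThreeCycle := h
    refine ⟨h'.sign, fun ρ hρ => ?_⟩
    have hs : sign (ρ * π) = sign r := by rw [Perm.sign_mul, h'.sign, mul_one, hρ]
    obtain ⟨u, v, w, huv, hvw, huw, he⟩ := three_eq h'
    rw [psi_tri hQ hs hxy hyz hxz huv hvw huw, psi_tri hQ hρ hxy hyz hxz huv hvw huw]
    unfold Psi
    rw [he, (s_three ρ huv hvw huw).1, (s_three ρ huv hvw huw).2]
  | one => exact ⟨sign_one, fun ρ _ => by rw [mul_one]⟩
  | mul π1 π2 _ _ ih1 ih2 =>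
    refine ⟨by rw [Perm.sign_mul, ih1.1, ih2.1, mul_one], fun ρ hρ => ?_⟩
    rw [← mul_assoc, ih2.2 (ρ * π1) (by rw [Perm.sign_mul, ih1.1, mul_one, hρ]), ih1.2 ρ hρ]
  | inv π _ ih =>
    refine ⟨by rw [Perm.sign_inv, ih.1], fun ρ hρ => ?_⟩
    have := ih.2 (ρ * π⁻¹) (by rw [Perm.sign_mul, Perm.sign_inv, ih.1, mul_one, hρ])
    rw [← this, mul_assoc, inv_mul_cancel, mul_one]

theorem psi_same {F : Perm α → M} (hQ : EQ F) {r ρ : Perm α} (hs : sign ρ = sign r)
    {x y z x' y' z' : α} (hxy : x ≠ y)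
    (hyz : y ≠ z) (hxz : x ≠ z) (hxy' : x' ≠ y') (hyz' : y' ≠ z') (hxz' : x' ≠ z') :
    Psi F r ρ x y z = Psi F r r x' y' z' := by
  rw [psi_tri hQ hs hxy hyz hxz hxy' hyz' hxz']
  have hπ : r⁻¹ * ρ ∈ alternatingGroup α := by
    rw [mem_alternatingGroup, Perm.sign_mul, Perm.sign_inv, hs]
    exact Int.units_mul_self _
  have := (psi_alt hQ (r := r) hxy' hyz' hxz' hπ).2 r rfl
  rwa [mul_inv_cancel_left] at this

theorem compl_union (F : Perm α → M) {S T : Finset (Perm α)} (h : ∀ a ∈ T, a ∉ S) :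
    ∑ σ ∈ Sᶜ, F σ = ∑ σ ∈ T, F σ + ∑ σ ∈ (S ∪ T)ᶜ, F σ := by
  have hsub : T ⊆ Sᶜ := fun a ha => mem_compl.2 (h a ha)
  rw [← sum_sdiff hsub, add_comm]
  congr 2
  ext a
  simp only [mem_sdiff, mem_compl, mem_union, not_or]

theorem s1_sign {ρ : Perm α} {x y z : α} (hxy : x ≠ y) (hyz : y ≠ z) (hxz : x ≠ z) :
    ∀ σ ∈ s1 ρ x y z, sign σ = sign ρ := by
  intro σ hσ
  unfold s1 at hσ
  rw [mem_insert, mem_insert, mem_singleton] at hσ
  rcases hσ with h | h | h
  · rw [h]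
  · rw [h, Perm.sign_mul, Perm.sign_mul, sign_swap hxy, sign_swap hyz]; simp
  · rw [h, Perm.sign_mul, Perm.sign_mul, sign_swap hxz, sign_swap (Ne.symm hyz)]; simp

theorem s2_sign {ρ : Perm α} {x y z : α} (hxy : x ≠ y) (hyz : y ≠ z) (hxz : x ≠ z) :
    ∀ σ ∈ s2 ρ x y z, sign σ = - sign ρ := by
  intro σ hσ
  unfold s2 at hσ
  rw [mem_insert, mem_insert, mem_singleton] at hσ
  rcases hσ with h | h | h
  · rw [h, Perm.sign_mul, sign_swap hxy]; simp
  · rw [h, Perm.sign_mul, sign_swap hyz]; simp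
  · rw [h, Perm.sign_mul, sign_swap hxz]; simp

theorem units_ne_neg (u : ℤˣ) : u ≠ -u := by
  rcases Int.units_eq_one_or u with h1 | h1
  · rw [h1]; decide
  · rw [h1]; decide

/-- the flip of a block, with given catalysts -/
theorem psi_flip_aux {F : Perm α → M} (hQ : EQ F) (r ρ : Perm α) {x y z w : α}
    (h : Dis x y z w) (h1 : r ∉ s1 ρ x y z) (h2 : r ∉ s2 ρ x y z) (hk1 : r ≠ ρ * swap z w)
    (hk2 : r ≠ ρ * (swap y z * swap z w)) (hk3 : r ≠ ρ * (swap x y * swap y w)) :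
    Psi F r ρ x y z = Psi F r (ρ * swap x y) x y z := by
  have hs := flipG hQ ρ h
  obtain ⟨hxy, hxz, hxw, hyz, hyw, hzw⟩ := h
  set k1 := ρ * swap z w with hk1'
  set k2 := ρ * (swap y z * swap z w) with hk2'
  set k3 := ρ * (swap x y * swap y w) with hk3'
  have v1 : (swap z w) w = z := swap_apply_right _ _
  have v2 : (swap y z * swap z w) w = y := by
    rw [Perm.mul_apply, swap_apply_right, swap_apply_right]
  have v3 : (swap x y * swap y w) w = x := by
    rw [Perm.mul_apply, swap_apply_right, swap_apply_right]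
  have f1 : (swap x y * swap y z) w = w := by
    rw [Perm.mul_apply, swap_apply_of_ne_of_ne (Ne.symm hyw) (Ne.symm hzw),
      swap_apply_of_ne_of_ne (Ne.symm hxw) (Ne.symm hyw)]
  have f2 : (swap x z * swap z y) w = w := by
    rw [Perm.mul_apply, swap_apply_of_ne_of_ne (Ne.symm hzw) (Ne.symm hyw),
      swap_apply_of_ne_of_ne (Ne.symm hxw) (Ne.symm hzw)]
  have out1 : ∀ u : Perm α, u w ≠ w → ρ * u ∉ s1 ρ x y z := by
    intro u hu
    unfold s1
    rw [mem_insert, mem_insert, mem_singleton, not_or, not_or]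
    refine ⟨(ne_of_mul_one w hu).symm, ?_, ?_⟩
    · apply ne_of_mul w; rw [f1]; exact hu
    · apply ne_of_mul w; rw [f2]; exact hu
  have out2 : ∀ u : Perm α, u w ≠ w → ρ * u ∉ s2 ρ x y z := by
    intro u hu
    unfold s2
    rw [mem_insert, mem_insert, mem_singleton, not_or, not_or]
    refine ⟨?_, ?_, ?_⟩
    · apply ne_of_mul w; rw [swap_apply_of_ne_of_ne (Ne.symm hxw) (Ne.symm hyw)]; exact hu
    · apply ne_of_mul w; rw [swap_apply_of_ne_of_ne (Ne.symm hyw) (Ne.symm hzw)]; exact hu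
    · apply ne_of_mul w; rw [swap_apply_of_ne_of_ne (Ne.symm hxw) (Ne.symm hzw)]; exact hu
  have n12 : k1 ≠ k2 := by apply ne_of_mul w; rw [v1, v2]; exact Ne.symm hyz
  have n13 : k1 ≠ k3 := by apply ne_of_mul w; rw [v1, v3]; exact Ne.symm hxz
  have n23 : k2 ≠ k3 := by apply ne_of_mul w; rw [v2, v3]; exact Ne.symm hxy
  have hK : ∀ a ∈ ({k1, k2, k3} : Finset (Perm α)), a ≠ r ∧ a ∉ s1 ρ x y z ∧ a ∉ s2 ρ x y z := by
    intro a ha
    rw [mem_insert, mem_insert, mem_singleton] at ha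
    rcases ha with rfl | rfl | rfl
    · exact ⟨Ne.symm hk1, out1 _ (by rw [v1]; exact hzw), out2 _ (by rw [v1]; exact hzw)⟩
    · exact ⟨Ne.symm hk2, out1 _ (by rw [v2]; exact hyw), out2 _ (by rw [v2]; exact hyw)⟩
    · exact ⟨Ne.symm hk3, out1 _ (by rw [v3]; exact hxw), out2 _ (by rw [v3]; exact hxw)⟩
  have sK : ∑ σ ∈ ({k1, k2, k3} : Finset (Perm α)), F σ = F k1 + F k2 + F k3 := by
    rw [sum_insert, sum_pair n23, add_assoc]
    rw [mem_insert, mem_singleton, not_or]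
    exact ⟨n12, n13⟩
  have e1 : ∑ σ ∈ (insert r (s2 ρ x y z))ᶜ, F σ = ∑ σ ∈ s1 ρ x y z, F σ +
      (F k1 + F k2 + F k3 + ∑ σ ∈ ((insert r (s2 ρ x y z) ∪ s1 ρ x y z) ∪ {k1, k2, k3})ᶜ, F σ) := by
    rw [compl_union F (S := insert r (s2 ρ x y z)) (T := s1 ρ x y z),
      compl_union F (S := insert r (s2 ρ x y z) ∪ s1 ρ x y z) (T := {k1, k2, k3}), sK]
    · intro a ha
      rw [mem_union, mem_insert, not_or, not_or]
      exact ⟨⟨(hK a ha).1, (hK a ha).2.2⟩, (hK a ha).2.1⟩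
    · intro a ha
      rw [mem_insert, not_or]
      refine ⟨fun h => h1 (h ▸ ha), fun h => ?_⟩
      have e1 := s1_sign hxy hyz hxz a ha
      have e2 := s2_sign hxy hyz hxz a h
      exact units_ne_neg _ (e1.symm.trans e2)
  have e2 : ∑ σ ∈ (insert r (s1 ρ x y z))ᶜ, F σ = ∑ σ ∈ s2 ρ x y z, F σ +
      (F k1 + F k2 + F k3 + ∑ σ ∈ ((insert r (s2 ρ x y z) ∪ s1 ρ x y z) ∪ {k1, k2, k3})ᶜ, F σ) := by
    rw [compl_union F (S := insert r (s1 ρ x y z)) (T := s2 ρ x y z),
      compl_union F (S := insert r (s1 ρ x y z) ∪ s2 ρ x y z) (T := {k1, k2, k3}), sK]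
    · congr 4
      ext a
      simp only [mem_union, mem_insert]
      tauto
    · intro a ha
      rw [mem_union, mem_insert, not_or, not_or]
      exact ⟨⟨(hK a ha).1, (hK a ha).2.1⟩, (hK a ha).2.2⟩
    · intro a ha
      rw [mem_insert, not_or]
      refine ⟨fun h => h2 (h ▸ ha), fun h => ?_⟩
      have e1 := s1_sign hxy hyz hxz a h
      have e2 := s2_sign hxy hyz hxz a ha
      exact units_ne_neg _ (e1.symm.trans e2)
  unfold Psi
  rw [s1_base ρ hxy hyz hxz, s2_base ρ hxy hyz hxz, e1, e2, sum_s1 F ρ hxy hyz hxz,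
    sum_s2 F ρ hxy hyz hxz]
  set R := ∑ σ ∈ ((insert r (s2 ρ x y z) ∪ s1 ρ x y z) ∪ {k1, k2, k3})ᶜ, F σ
  calc F ρ + F (ρ * (swap x y * swap y z)) + F (ρ * (swap x z * swap z y)) +
        (F ρ + F (ρ * (swap x y * swap y z)) + F (ρ * (swap x z * swap z y)) +
        (F k1 + F k2 + F k3 + R))
      = (F ρ + F (ρ * (swap x y * swap y z)) + F (ρ * (swap x z * swap z y))
        + F ρ + F (ρ * (swap x y * swap y z)) + F (ρ * (swap x z * swap z y))
        + F k1 + F k2 + F k3) + R := by abel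
    _ = (F (ρ * swap x y) + F (ρ * swap y z) + F (ρ * swap x z)
        + F (ρ * swap x y) + F (ρ * swap y z) + F (ρ * swap x z)
        + F k1 + F k2 + F k3) + R := by rw [hs]
    _ = F (ρ * swap x y) + F (ρ * swap y z) + F (ρ * swap x z) +
        (F (ρ * swap x y) + F (ρ * swap y z) + F (ρ * swap x z) +
        (F k1 + F k2 + F k3 + R)) := by abel

/-- the flipped context without `r` does not depend on the block -/
theorem psi_star (hα : 4 ≤ Fintype.card α) {F : Perm α → M} (hQ : EQ F) {r ρ : Perm α}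
    {x y z x' y' z' : α} (hxy : x ≠ y)
    (hyz : y ≠ z) (hxz : x ≠ z) (hxy' : x' ≠ y') (hyz' : y' ≠ z') (hxz' : x' ≠ z')
    (h2 : r ∉ s2 ρ x y z) : Psi F r ρ x y z = Psi F r r x' y' z' := by
  by_cases hs : sign ρ = sign r
  · exact psi_same hQ hs hxy hyz hxz hxy' hyz' hxz'
  obtain ⟨w, hw⟩ := other_pt (s := ({x, y, z} : Finset α))
    (lt_of_le_of_lt Finset.card_le_three (by omega))
  simp only [mem_insert, mem_singleton, not_or] at hw
  have h1 : r ∉ s1 ρ x y z := fun h => hs (s1_sign hxy hyz hxz r h).symm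
  have hsr : ∀ a b : α, a ≠ b → sign (ρ * swap a b) = sign r := by
    intro a b hab
    rw [Perm.sign_mul, sign_swap hab]
    rcases Int.units_eq_one_or (sign ρ) with h3 | h3 <;>
    rcases Int.units_eq_one_or (sign r) with h4 | h4
    · exact absurd (h3.trans h4.symm) hs
    · rw [h3, h4]; decide
    · rw [h3, h4]; decide
    · exact absurd (h3.trans h4.symm) hs
  have three : ∀ a b c d : α, a ≠ b → c ≠ d → r ≠ ρ * (swap a b * swap c d) := by
    intro a b c d hab hcd h3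
    apply hs
    rw [h3, Perm.sign_mul, Perm.sign_mul, sign_swap hab, sign_swap hcd]
    simp
  by_cases hk : r = ρ * swap z w
  · have hk1 : r ≠ ρ * swap x w := by
      rw [hk]
      apply ne_of_mul w
      rw [swap_apply_right, swap_apply_right]; exact Ne.symm hxz
    have e1 : s1 ρ z y x = s1 ρ x y z := by
      rw [s1_swap ρ hyz (Ne.symm hxz) (Ne.symm hxy), s1_swap', s1_swap ρ hxy hyz hxz]
    have e2 : s2 ρ z y x = s2 ρ x y z := by rw [s2_swap, s2_swap', s2_swap]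
    have e3 : Psi F r ρ x y z = Psi F r ρ z y x := by
      unfold Psi; rw [e1, e2]
    rw [e3, psi_flip_aux hQ r ρ (w := w) ⟨Ne.symm hyz, Ne.symm hxz, Ne.symm hw.2.2, Ne.symm hxy,
      Ne.symm hw.2.1, Ne.symm hw.1⟩ (by rw [e1]; exact h1) (by rw [e2]; exact h2) hk1
      (three _ _ _ _ (Ne.symm hxy) (Ne.symm hw.1)) (three _ _ _ _ (Ne.symm hyz) (Ne.symm hw.2.1))]
    exact psi_same hQ (hsr z y (Ne.symm hyz)) (Ne.symm hyz) (Ne.symm hxy) (Ne.symm hxz) hxy' hyz'
      hxz'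
  · rw [psi_flip_aux hQ r ρ (w := w) ⟨hxy, hxz, Ne.symm hw.1, hyz, Ne.symm hw.2.1,
      Ne.symm hw.2.2⟩ h1 h2 hk (three _ _ _ _ hyz (Ne.symm hw.2.2))
      (three _ _ _ _ hxy (Ne.symm hw.2.1))]
    exact psi_same hQ (hsr x y hxy) hxy hyz hxz hxy' hyz' hxz'

end Birk
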