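import Pool.Agent.Work.MP_697f4c_co.Loc2

/-!
MP_697f4c_co, work file: surveys in which any two candidates take any two positions often.
-/

open Equiv Equiv.Perm Finset

namespace Birk

variable {M : Type*} [AddCommMonoid M] {α : Type*} [DecidableEq α]

/-- any two candidates take any two positions on at least `L` ballots -/
def Rich (L : ℕ) (W : Multiset (Perm α)) : Prop :=
  ∀ i j k l : α, i ≠ j → k ≠ l → L ≤ Multiset.card (W.filter fun σ => σ i = k ∧ σ j = l)

theorem Rich.mono {L L' : ℕ} {W : Multiset (Perm α)} (h : Rich L W) (hL : L' ≤ L) : Rich L' W :=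
  fun i j k l hij hkl => hL.trans (h i j k l hij hkl)

theorem Rich.cons {L : ℕ} {W : Multiset (Perm α)} (h : Rich L W) (a : Perm α) :
    Rich L (a ::ₘ W) := by
  intro i j k l hij hkl
  refine (h i j k l hij hkl).trans (Multiset.card_le_card ?_)
  exact Multiset.filter_le_filter _ (Multiset.le_cons_self W a)

theorem Rich.of_cons {L : ℕ} {W : Multiset (Perm α)} {a : Perm α} (h : Rich (L + 1) (a ::ₘ W)) :
    Rich L W := by
  intro i j k l hij hkl
  have h1 := h i j k l hij hkl
  rw [Multiset.filter_cons, Multiset.card_add] at h1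
  split_ifs at h1
  · rw [Multiset.card_singleton] at h1; omega
  · rw [Multiset.card_zero] at h1; omega

theorem Rich.exists_mem {L : ℕ} {W : Multiset (Perm α)} (h : Rich (L + 1) W) {i j k l : α}
    (hij : i ≠ j) (hkl : k ≠ l) : ∃ σ ∈ W, σ i = k ∧ σ j = l := by
  have h1 := h i j k l hij hkl
  obtain ⟨σ, hσ⟩ := Multiset.card_pos_iff_exists_mem.1 (lt_of_lt_of_le (Nat.succ_pos L) h1)
  rw [Multiset.mem_filter] at hσ
  exact ⟨σ, hσ.1, hσ.2⟩

variable [Fintype α] {F : Perm α → M}

/-- the exchange of two candidates in two ballots -/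
theorem exch2 (hQ : QA F) {x d : Perm α} {i l : α} (h1 : d i = x l) (h2 : d l = x i) :
    F x + F d = F (x * swap i l) + F (d * swap i l) := by
  apply hQ
  intro u v
  refine sum_of_up (x := u) (y := v) (a := x) (b := d) (a' := x * swap i l)
    (b' := d * swap i l) ?_
  intro t
  rw [Perm.mul_apply, Perm.mul_apply]
  by_cases ti : t = i
  · right
    subst ti
    rw [swap_apply_left]
    exact ⟨h1.symm, h2⟩
  by_cases tl : t = l
  · right
    subst tl
    rw [swap_apply_right]
    exact ⟨h2.symm, h1⟩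
  · left
    rw [swap_apply_of_ne_of_ne ti tl]
    exact ⟨rfl, rfl⟩

/-- a ballot is turned into a given ranking -/
theorem create_aux (hQ : QA F) (a : Perm α) {L : ℕ} : ∀ (n : ℕ) (x : Perm α)
    (g : Multiset (Perm α)), (x⁻¹ * a).support.card ≤ n → Rich (L + n) g →
    ∃ g', Rich L g' ∧ F x + FS F g = F a + FS F g' := by
  intro n
  induction n with
  | zero =>
    intro x g hn hg
    have h1 : x⁻¹ * a = 1 := by
      rw [← Perm.card_support_eq_zero]; omega
    have h2 : x = a := by rw [← mul_inv_cancel_left x a, h1, mul_one]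
    exact ⟨g, hg, by rw [h2]⟩
  | succ n ih =>
    intro x g hn hg
    by_cases h1 : x⁻¹ * a = 1
    · have h2 : x = a := by rw [← mul_inv_cancel_left x a, h1, mul_one]
      exact ⟨g, hg.mono (by omega), by rw [h2]⟩
    obtain ⟨i, hi⟩ : ∃ i, (x⁻¹ * a) i ≠ i := by
      by_contra hcon
      push Not at hcon
      exact h1 (Perm.ext hcon)
    set l := (x⁻¹ * a) i with hl
    obtain ⟨d, hd, d1, d2⟩ := Rich.exists_mem (L := L + n) hg (i := i) (j := l) (k := x l)
      (l := x i) (Ne.symm hi) (fun h => hi (x.injective h))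
    obtain ⟨g0, rfl⟩ := Multiset.exists_cons_of_mem hd
    have hs : ((x * swap i l)⁻¹ * a).support.card ≤ n := by
      have h2 : (x * swap i l)⁻¹ * a = swap i ((x⁻¹ * a) i) * (x⁻¹ * a) := by
        rw [mul_inv_rev, swap_inv, mul_assoc]
      rw [h2]
      have := Perm.card_support_swap_mul (f := x⁻¹ * a) (x := i) hi
      omega
    obtain ⟨g', hg', e⟩ := ih (x * swap i l) (d * swap i l ::ₘ g0) hs
      ((Rich.of_cons (L := L + n) hg).cons _)
    refine ⟨g', hg', ?_⟩
    rw [← e, fs_cons', fs_cons', ← add_assoc, ← add_assoc, exch2 hQ d1 d2]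

/-- prescribed rankings are created -/
theorem create (hα : 4 ≤ Fintype.card α) (hQ : QA F) (Z : Multiset (Perm α)) :
    ∀ {L : ℕ} {W : Multiset (Perm α)},
    Rich (L + (Fintype.card α + 1) * Multiset.card Z) W →
    ∃ g, Rich L g ∧ FS F W = FS F Z + FS F g := by
  induction Z using Multiset.induction_on with
  | empty =>
    intro L W h
    refine ⟨W, h.mono (by simp), ?_⟩
    have : FS F (0 : Multiset (Perm α)) = 0 := by simp [FS]
    rw [this, zero_add]
  | cons a Z ih =>
    intro L W h
    rw [Multiset.card_cons] at h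
    obtain ⟨o1, o2, o3, g1, g2, g3, -⟩ := three_pts (u := Classical.choice
      (Fintype.card_pos_iff.1 (by omega : 0 < Fintype.card α))) hα
    set c := Fintype.card α with hc
    have e1 : L + (c + 1) * (Multiset.card Z + 1)
        = (L + (c + 1) * Multiset.card Z + c) + 1 := by ring
    rw [e1] at h
    obtain ⟨x, hx, -⟩ := Rich.exists_mem h g1 g1
    obtain ⟨g0, rfl⟩ := Multiset.exists_cons_of_mem hx
    obtain ⟨g', hg', e2⟩ := create_aux hQ a (L := L + (c + 1) * Multiset.card Z) c x g0
      (by rw [hc, ← card_univ]; exact card_le_card (subset_univ _)) (Rich.of_cons h)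
    obtain ⟨g, hg, e3⟩ := ih hg'
    refine ⟨g, hg, ?_⟩
    rw [fs_cons', e2, e3, fs_cons', add_assoc]

/-- a rich survey is a universal catalyst -/
theorem universal (hα : 4 ≤ Fintype.card α) (hQ : QA F) {n : ℕ} {u v : M} (h : RL F n u v)
    {W : Multiset (Perm α)} (hW : Rich ((Fintype.card α + 1) * n) W) :
    u + FS F W = v + FS F W := by
  obtain ⟨Z, h1, h2⟩ := h
  obtain ⟨g, -, hg⟩ := create hα hQ Z (L := 0) (W := W) (hW.mono (by
    rw [zero_add]; exact Nat.mul_le_mul_left _ h1))
  rw [hg, ← add_assoc, ← add_assoc, h2]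

/-- the connection in the presence of a rich survey -/
theorem rich_core (hα : 4 ≤ Fintype.card α) (hQ : QA F) {o1 o2 o3 : α} (g1 : o1 ≠ o2)
    (g2 : o2 ≠ o3) (g3 : o1 ≠ o3) (ρ0 : Perm α) {U V W : Multiset (Perm α)}
    (hc : Multiset.card U = Multiset.card V) (htot : ∀ i j, tot U i j = tot V i j)
    (hW : Rich ((Fintype.card α + 1) * (96 * Fintype.card α + 94)) W) :
    ∃ (g : Multiset (Perm α)) (d : Bool), FS F W = t2 F ρ0 o1 o2 o3 + FS F g ∧
      FS F U + FS F W = FS F V + CT F ρ0 o1 o2 o3 d + FS F g := by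
  have h1 := conn o1 (Multiset.card U) U V rfl hc.symm htot
  set N := 96 * Fintype.card α + 91 with hN
  obtain ⟨g, hg, e1⟩ := create hα hQ (s2 ρ0 o1 o2 o3).val
    (L := (Fintype.card α + 1) * N) (W := W) (hW.mono (by
      rw [← mul_add]
      apply Nat.mul_le_mul_left
      have := s2_card ρ0 o1 o2 o3
      show N + (s2 ρ0 o1 o2 o3).card ≤ _
      omega))
  have key : ∀ {n : ℕ} {U V : Multiset (Perm α)}, Reach Rm n U V → ∀ e : Bool, ∃ d : Bool,
      FS F U + CT F ρ0 o1 o2 o3 e + FS F g = FS F V + CT F ρ0 o1 o2 o3 d + FS F g := by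
    intro n U V h
    induction h with
    | refl n u => exact fun e => ⟨e, rfl⟩
    | step hr _ ih =>
      intro e
      obtain ⟨d1, k1⟩ := rmL hα hQ g1 g2 g3 ρ0 hr e
      have k2 := universal hα hQ k1 hg
      obtain ⟨d2, k3⟩ := ih d1
      exact ⟨d2, k2.trans k3⟩
  obtain ⟨d, hd⟩ := key h1 false
  have e2 : FS F (s2 ρ0 o1 o2 o3).val = t2 F ρ0 o1 o2 o3 := rfl
  rw [e2] at e1
  refine ⟨g, d, e1, ?_⟩
  rw [← hd, e1, ← add_assoc]; rfl

/-! ### A universal survey of polynomial size -/

/-- a ranking with `i ↦ k` and `j ↦ l` -/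
def rep (i j k l : α) : Perm α := swap (swap i k j) l * swap i k

omit [Fintype α] in
theorem rep_spec {i j k l : α} (hij : i ≠ j) (hkl : k ≠ l) :
    rep i j k l i = k ∧ rep i j k l j = l := by
  unfold rep
  rw [Perm.mul_apply, Perm.mul_apply, swap_apply_left, swap_apply_left]
  refine ⟨?_, rfl⟩
  apply swap_apply_of_ne_of_ne _ hkl
  intro h
  apply hij
  apply (swap i k).injective
  rw [swap_apply_left, ← h]

/-- `L` copies of a ranking for each pair of candidates and pair of positions -/
def wstar (α : Type*) [DecidableEq α] [Fintype α] (L : ℕ) : Multiset (Perm α) :=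
  ∑ q : α × α × α × α, Multiset.replicate L (rep q.1 q.2.1 q.2.2.1 q.2.2.2)

theorem wstar_card (L : ℕ) : Multiset.card (wstar α L) = L * Fintype.card α ^ 4 := by
  unfold wstar
  rw [Multiset.card_sum]
  simp only [Multiset.card_replicate, sum_const, card_univ, Fintype.card_prod, smul_eq_mul]
  ring

theorem wstar_rich (L : ℕ) : Rich L (wstar α L) := by
  intro i j k l hij hkl
  have h1 : Multiset.replicate L (rep i j k l) ≤ wstar α L := by
    unfold wstar
    exact single_le_sum (f := fun q : α × α × α × α =>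
      Multiset.replicate L (rep q.1 q.2.1 q.2.2.1 q.2.2.2)) (fun _ _ => Multiset.zero_le _)
      (mem_univ (i, j, k, l))
  have h2 := Multiset.card_le_card (Multiset.filter_le_filter (fun σ => σ i = k ∧ σ j = l) h1)
  refine le_trans ?_ h2
  rw [Multiset.filter_eq_self.2, Multiset.card_replicate]
  intro a ha
  rw [Multiset.eq_of_mem_replicate ha]
  exact rep_spec hij hkl

end Birk
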