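import Pool.Agent.Work.MP_697f4c_co.Chain

/-! # The chain rules (MP_697f4c_co) -/

namespace Pool.Agent.Work.MP_697f4c_co

open Finset Function Equiv

variable {X : Type*} [Fintype X] [LinearOrder X]

/-! ## Elementary facts -/

omit [Fintype X] in
lemma ind_ex (g h : X → X) (A : Finset X) (x j : X) :
    (if ex g h A x = j then 1 else 0) + (if ex h g A x = j then 1 else 0)
      = (if g x = j then 1 else 0) + (if h x = j then (1 : ℕ) else 0) := by
  by_cases hx : x ∈ A
  · rw [ex_mem hx, ex_mem hx, add_comm]
  · rw [ex_not_mem hx, ex_not_mem hx]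

lemma ind_fix (g h : X → X) (s x j : X) :
    (if (fix g h s).1 x = j then 1 else 0) + (if (fix g h s).2 x = j then 1 else 0)
      = (if g x = j then 1 else 0) + (if h x = j then (1 : ℕ) else 0) :=
  ind_ex g h _ x j

lemma ind_bijFirst (q : (X → X) × (X → X)) (x j : X) :
    (if (bijFirst q).1 x = j then 1 else 0) + (if (bijFirst q).2 x = j then 1 else 0)
      = (if q.1 x = j then 1 else 0) + (if q.2 x = j then (1 : ℕ) else 0) := by
  unfold bijFirst
  split_ifs <;> simp_all

omit [Fintype X] in
lemma ind_update (g h : X → X) (y x j : X) :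
    (if update g y (h y) x = j then 1 else 0) + (if update h y (g y) x = j then 1 else 0)
      = (if g x = j then 1 else 0) + (if h x = j then (1 : ℕ) else 0) := by
  by_cases hx : x = y
  · subst hx
    rw [update_self, update_self, add_comm]
  · rw [update_of_ne hx, update_of_ne hx]

lemma ind_cubTail (P Q c : X → X) (y x j : X) :
    (if (cubTail P Q c y).1 x = j then 1 else 0)
      + (if (cubTail P Q c y).2.1 x = j then 1 else 0)
      + (if (cubTail P Q c y).2.2 x = j then 1 else 0)
      = (if P x = j then 1 else 0) + (if Q x = j then 1 else 0)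
        + (if c x = j then (1 : ℕ) else 0) := by
  have h2 := ind_update P c y x j
  have h3 := ind_fix (update c y (P y)) Q y x j
  have h4 := ind_bijFirst (fix (update c y (P y)) Q y) x j
  have h5 := ind_fix (update P y (c y)) (bijFirst (fix (update c y (P y)) Q y)).2 y x j
  unfold cubTail
  dsimp only
  omega

lemma ind_cubRows (u : X) (m : ℕ) (b : Bool) (r a c : Perm X) (x j : X) :
    (if (cubRows u m b r a c).1 x = j then 1 else 0)
      + (if (cubRows u m b r a c).2.1 x = j then 1 else 0)
      + (if (cubRows u m b r a c).2.2 x = j then 1 else 0)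
      = (if r x = j then 1 else 0) + (if a x = j then 1 else 0)
        + (if c x = j then (1 : ℕ) else 0) := by
  unfold cubRows
  rw [ind_cubTail, ind_ex]

omit [Fintype X] in
/-- An exchange of two bijections on `A` is bijective only if `A` is closed under
`x ↦ a⁻¹ (r x)`. -/
lemma closed_of_surj {r a : Perm X} {A : Finset X} (h : Surjective (ex r a A)) {t v : X}
    (ht : t ∈ A) (hv : a v = r t) : v ∈ A := by
  obtain ⟨s, hs⟩ := h (r t)
  by_cases hsA : s ∈ A
  · rw [ex_mem hsA] at hs
    rw [a.injective (hv.trans hs.symm)]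
    exact hsA
  · rw [ex_not_mem hsA] at hs
    rw [r.injective hs] at hsA
    exact absurd ht hsA

lemma nxt_perm (r a : Perm X) (x : X) : nxt a r x = a.symm (r x) := by
  have : a (nxt a r x) = r x := nxt_spec ⟨a.symm (r x), by simp⟩
  rw [← this]
  simp

lemma a_nxt (r a : Perm X) (x : X) : a (nxt a r x) = r x := by
  rw [nxt_perm]
  simp

lemma seg_succ (g h : X → X) (s : X) (m : ℕ) :
    seg g h s (m + 1) = insert s (seg g h (nxt g h s) m) := by
  ext x
  unfold seg
  simp only [mem_image, mem_range, mem_insert]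
  constructor
  · rintro ⟨i, hi, rfl⟩
    rcases Nat.eq_zero_or_pos i with rfl | h0
    · left
      rfl
    · obtain ⟨j, rfl⟩ : ∃ j, i = j + 1 := ⟨i - 1, by omega⟩
      right
      exact ⟨j, by omega, by rw [iterate_succ_apply]⟩
  · rintro (rfl | ⟨i, hi, rfl⟩)
    · exact ⟨0, by omega, rfl⟩
    · exact ⟨i + 1, by omega, by rw [iterate_succ_apply]⟩

lemma mem_seg {g h : X → X} {s x : X} {m : ℕ} :
    x ∈ seg g h s m ↔ ∃ i, i < m ∧ (nxt g h)^[i] s = x := by
  unfold seg
  simp only [mem_image, mem_range]

lemma seg_zero (g h : X → X) (s : X) : seg g h s 0 = ∅ := by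
  simp [seg]

lemma start_mem {g h : X → X} {s : X} {m : ℕ} (hm : 1 ≤ m) : s ∈ seg g h s m :=
  mem_seg.mpr ⟨0, by omega, rfl⟩

lemma quadRows_bij (u : X) (r a : Perm X) :
    Bijective (quadRows u r a).1 ∧ Bijective (quadRows u r a).2 := by
  have hmem : ∀ x, x ∈ cyc r a u ↔ (a⁻¹ * r).SameCycle u x := by
    intro x
    unfold cyc
    simp
  have hiff : ∀ x, x ∈ cyc r a u ↔ (a.symm (r x)) ∈ cyc r a u := by
    intro x
    rw [hmem, hmem]
    have : a.symm (r x) = (a⁻¹ * r) x := rfl
    rw [this, Perm.sameCycle_apply_right]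
  have key : ∀ x y, x ∈ cyc r a u → y ∉ cyc r a u → a x ≠ r y := by
    intro x y hx hy h
    refine hy ((hiff y).mpr ?_)
    rw [← h]
    simpa using hx
  constructor
  · refine bij_of_inj fun x y hxy => ?_
    simp only [quadRows] at hxy
    by_cases hx : x ∈ cyc r a u <;> by_cases hy : y ∈ cyc r a u
    · rw [ex_mem hx, ex_mem hy] at hxy
      exact a.injective hxy
    · rw [ex_mem hx, ex_not_mem hy] at hxy
      exact absurd hxy (key x y hx hy)
    · rw [ex_not_mem hx, ex_mem hy] at hxy
      exact absurd hxy.symm (key y x hy hx)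
    · rw [ex_not_mem hx, ex_not_mem hy] at hxy
      exact r.injective hxy
  · refine bij_of_inj fun x y hxy => ?_
    simp only [quadRows] at hxy
    by_cases hx : x ∈ cyc r a u <;> by_cases hy : y ∈ cyc r a u
    · rw [ex_mem hx, ex_mem hy] at hxy
      exact r.injective hxy
    · rw [ex_mem hx, ex_not_mem hy] at hxy
      -- r x = a y with x in, y out
      exfalso
      refine hy ?_
      have : y = a.symm (r x) := by rw [hxy]; simp
      rw [this]
      exact (hiff x).mp hx
    · rw [ex_not_mem hx, ex_mem hy] at hxy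
      exfalso
      refine hx ?_
      have : x = a.symm (r y) := by rw [← hxy]; simp
      rw [this]
      exact (hiff y).mp hy
    · rw [ex_not_mem hx, ex_not_mem hy] at hxy
      exact a.injective hxy

end Pool.Agent.Work.MP_697f4c_co
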