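import Pool.Agent.Work.MP_697f4c_co.Pair

/-!
MP_697f4c_co, work file: the surveys of the cyclic shifts, which no quadratic move changes.
-/

open Equiv Equiv.Perm Finset Relation

namespace Birk

variable {p : ℕ} [hp : Fact p.Prime]

instance neZeroP : NeZero p := ⟨hp.out.ne_zero⟩

/-- the shift by `c` -/
def sh (c : Fin p) : Perm (Fin p) := Equiv.addRight c

/-- the reflection `i ↦ c - i` -/
def rf (c : Fin p) : Perm (Fin p) := Equiv.subLeft c

theorem sh_apply (c i : Fin p) : sh c i = i + c := rfl

theorem rf_apply (c i : Fin p) : rf c i = c - i := rfl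

theorem gen {e : Fin p} (he : e ≠ 0) (j : Fin p) : ∃ n : ℕ, n • e = j := by
  have h := mem_multiples_of_prime_card (G := Fin p) (p := p) (by simp) he (g' := j)
  rwa [AddSubmonoid.mem_multiples_iff] at h

theorem shift_rigid {a b : Perm (Fin p)} {c d : Fin p}
    (h : ∀ i, UP (a i) (b i) (sh c i) (sh d i)) :
    ({a} + {b} : Multiset (Perm (Fin p))) = {sh c} + {sh d} := by
  by_cases hcd : c = d
  · subst hcd
    have h1 : ∀ i, a i = sh c i ∧ b i = sh c i := fun i => by
      rcases h i with h2 | h2
      · exact h2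
      · exact h2
    have ha : a = sh c := Perm.ext fun i => (h1 i).1
    have hb : b = sh c := Perm.ext fun i => (h1 i).2
    rw [ha, hb]
  have he : d - c ≠ 0 := fun h1 => hcd (sub_eq_zero.1 h1).symm
  have hne : ∀ i, sh c i ≠ sh d i := by
    intro i h1
    rw [sh_apply, sh_apply] at h1
    exact hcd (add_left_cancel h1)
  have step : ∀ i, a i = sh d i → a (i + (d - c)) = sh d (i + (d - c)) := by
    intro i hi
    rcases h (i + (d - c)) with h1 | h1
    · exfalso
      have h2 : sh c (i + (d - c)) = sh d i := by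
        rw [sh_apply, sh_apply]; abel
      rw [h2, ← hi] at h1
      have h3 := a.injective h1.1
      exact he (by simpa using h3)
    · exact h1.1
  by_cases hex : ∃ i, a i = sh d i
  · obtain ⟨i, hi⟩ := hex
    have hall : ∀ n : ℕ, a (i + n • (d - c)) = sh d (i + n • (d - c)) := by
      intro n
      induction n with
      | zero => simpa using hi
      | succ n ih =>
        have := step _ ih
        rwa [add_assoc, ← succ_nsmul] at this
    have ha : ∀ j, a j = sh d j := by
      intro j
      obtain ⟨n, hn⟩ := gen he (j - i)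
      have := hall n
      rwa [hn, add_sub_cancel] at this
    have hb : ∀ j, b j = sh c j := by
      intro j
      rcases h j with h1 | h1
      · exfalso
        exact hne j (h1.1.symm.trans (ha j))
      · exact h1.2
    rw [Perm.ext ha, Perm.ext hb, add_comm]
  · push Not at hex
    have ha : ∀ j, a j = sh c j ∧ b j = sh d j := by
      intro j
      rcases h j with h1 | h1
      · exact h1
      · exact absurd h1.1 (hex j)
    rw [Perm.ext fun j => (ha j).1, Perm.ext fun j => (ha j).2]

theorem shift_fixed {U V : Multiset (Perm (Fin p))} (hU : ∀ σ ∈ U, ∃ c, σ = sh c)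
    (h : ReflTransGen AMv U V) : V = U := by
  induction h with
  | refl => rfl
  | @tail V V' _ h2 ih =>
    subst ih
    obtain ⟨W, a, b, a', b', hd, rfl, rfl⟩ := h2
    obtain ⟨c, rfl⟩ := hU a (by simp)
    obtain ⟨d, rfl⟩ := hU b (by simp)
    rw [shift_rigid (fun i => up_of_sum (hd i))]

/-- `n` copies of each shift -/
def shs (p : ℕ) [Fact p.Prime] (n : ℕ) : Multiset (Perm (Fin p)) :=
  ∑ c : Fin p, Multiset.replicate n (sh c)

/-- `n` copies of each reflection -/
def rfs (p : ℕ) [Fact p.Prime] (n : ℕ) : Multiset (Perm (Fin p)) :=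
  ∑ c : Fin p, Multiset.replicate n (rf c)

theorem tot_sum {ι : Type*} (s : Finset ι) (g : ι → Multiset (Perm (Fin p))) (x y : Fin p) :
    tot (∑ c ∈ s, g c) x y = ∑ c ∈ s, tot (g c) x y := by
  classical
  induction s using Finset.induction_on with
  | empty => simp [tot]
  | insert a s ha ih => rw [sum_insert ha, sum_insert ha, tot_add, ih]

theorem tot_rep (n : ℕ) (σ : Perm (Fin p)) (x y : Fin p) :
    tot (Multiset.replicate n σ) x y = n * pm σ x y := by
  simp [tot]

theorem shs_tot (n : ℕ) (x y : Fin p) : tot (shs p n) x y = n := by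
  unfold shs
  rw [tot_sum, sum_congr rfl fun c _ => tot_rep n (sh c) x y, ← mul_sum]
  have : ∑ c : Fin p, pm (sh c) x y = 1 := by
    unfold pm
    rw [sum_eq_single (y - x)]
    · rw [if_pos]; rw [sh_apply]; abel
    · intro c _ hc
      rw [if_neg]
      intro h
      apply hc
      rw [← h, sh_apply]; abel
    · intro h; exact absurd (mem_univ _) h
  rw [this, mul_one]

theorem rfs_tot (n : ℕ) (x y : Fin p) : tot (rfs p n) x y = n := by
  unfold rfs
  rw [tot_sum, sum_congr rfl fun c _ => tot_rep n (rf c) x y, ← mul_sum]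
  have : ∑ c : Fin p, pm (rf c) x y = 1 := by
    unfold pm
    rw [sum_eq_single (y + x)]
    · rw [if_pos]; rw [rf_apply]; abel
    · intro c _ hc
      rw [if_neg]
      intro h
      apply hc
      rw [← h, rf_apply]; abel
    · intro h; exact absurd (mem_univ _) h
  rw [this, mul_one]

theorem shs_mem {n : ℕ} {σ : Perm (Fin p)} (h : σ ∈ shs p n) : ∃ c, σ = sh c := by
  unfold shs at h
  rw [Multiset.mem_sum] at h
  obtain ⟨c, -, hc⟩ := h
  exact ⟨c, Multiset.eq_of_mem_replicate hc⟩

theorem rfs_ne (h3 : 3 ≤ p) {n : ℕ} (hn : 1 ≤ n) : rfs p n ≠ shs p n := by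
  intro h
  have h1 : rf (0 : Fin p) ∈ rfs p n := by
    unfold rfs
    rw [Multiset.mem_sum]
    exact ⟨0, mem_univ _, by rw [Multiset.mem_replicate]; exact ⟨by omega, rfl⟩⟩
  rw [h] at h1
  obtain ⟨c, hc⟩ := shs_mem h1
  have e0 : rf (0 : Fin p) 0 = sh c 0 := by rw [hc]
  have e1 : rf (0 : Fin p) ⟨1, by omega⟩ = sh c ⟨1, by omega⟩ := by rw [hc]
  rw [rf_apply, sh_apply] at e0 e1
  rw [sub_zero, zero_add] at e0
  rw [← e0, add_zero, zero_sub] at e1
  have e2 : (⟨1, by omega⟩ : Fin p) + ⟨1, by omega⟩ = 0 := by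
    nth_rewrite 1 [← e1]
    exact neg_add_cancel _
  have e3 := congrArg Fin.val e2
  rw [Fin.val_add] at e3
  simp only [Fin.val_zero] at e3
  rw [Nat.mod_eq_of_lt (by omega)] at e3
  omega

theorem sg_sum {ι : Type*} (s : Finset ι) (g : ι → Multiset (Perm (Fin p)))
    (h : ∀ c ∈ s, sg (g c) = 1) : sg (∑ c ∈ s, g c) = 1 := by
  classical
  induction s using Finset.induction_on with
  | empty => simp [sg]
  | insert a s ha ih =>
    rw [sum_insert ha, sg_add, h a (mem_insert_self a s), one_mul]
    exact ih fun c hc => h c (mem_insert_of_mem hc)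

theorem sg_even (m : ℕ) (σ : Perm (Fin p)) : sg (Multiset.replicate (2 * m) σ) = 1 := by
  unfold sg
  rw [Multiset.map_replicate, Multiset.prod_replicate, pow_mul]
  rcases Int.units_eq_one_or (sign σ) with h | h
  · rw [h]; simp
  · rw [h]; simp

end Birk
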