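import Pool.Agent.Work.MP_697f4c_co.Lattice

/-!
MP_697f4c_co, work file: a sparse set of pairs of disjoint transpositions is enough.
-/

open Equiv Equiv.Perm Finset

namespace Birk

section inv

variable {α : Type*} [DecidableEq α] {A : Type*} [AddCommGroup A]

/-- the difference `F σ - F (σ c)` does not change when `σ` is replaced by `σ a` -/
def Inv (F : Perm α → A) (c a : Perm α) : Prop :=
  ∀ σ, F σ - F (σ * c) = F (σ * a) - F (σ * a * c)

theorem Inv.mul {F : Perm α → A} {c a b : Perm α} (ha : Inv F c a) (hb : Inv F c b) :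
    Inv F c (a * b) := by
  intro σ
  rw [ha σ, hb (σ * a), ← mul_assoc]

theorem Inv.comp {F : Perm α → A} {u v a : Perm α} (hu : Inv F u a) (hv : Inv F v a)
    (hc : a * u = u * a) : Inv F (u * v) a := by
  intro σ
  have h1 := hu σ
  have h2 := hv (σ * u)
  have e1 : σ * u * a = σ * a * u := by rw [mul_assoc, ← hc, ← mul_assoc]
  rw [e1] at h2
  have e2 : σ * (u * v) = σ * u * v := by rw [mul_assoc]
  have e3 : σ * a * (u * v) = σ * a * u * v := by rw [← mul_assoc]
  rw [e2, e3]
  calc F σ - F (σ * u * v) = (F σ - F (σ * u)) + (F (σ * u) - F (σ * u * v)) := by abel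
    _ = (F (σ * a) - F (σ * a * u)) + (F (σ * a * u) - F (σ * a * u * v)) := by rw [h1, h2]
    _ = F (σ * a) - F (σ * a * u * v) := by abel

theorem Inv.symm {F : Perm α → A} {c a : Perm α} (h : Inv F c a) (hc : a * c = c * a) :
    Inv F a c := by
  intro σ
  have h1 := h σ
  have e : σ * c * a = σ * a * c := by rw [mul_assoc, ← hc, ← mul_assoc]
  rw [e]
  have h2 : F σ + F (σ * a * c) = F (σ * a) + F (σ * c) := by
    have := sub_eq_sub_iff_add_eq_add.1 h1
    rw [this]
  rw [sub_eq_sub_iff_add_eq_add, h2, add_comm]

theorem swap_comm_of {i j k l : α} (h : Dis i j k l) :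
    swap i j * swap k l = swap k l * swap i j := by
  obtain ⟨h1, h2, h3, h4, h5, h6⟩ := h
  have : Disjoint (swap i j) (swap k l) := by
    rw [disjoint_iff_eq_or_eq]
    intro x
    by_cases hx : x = i ∨ x = j
    · right
      rcases hx with rfl | rfl
      · exact swap_apply_of_ne_of_ne h2 h3
      · exact swap_apply_of_ne_of_ne h4 h5
    · left
      push Not at hx
      exact swap_apply_of_ne_of_ne hx.1 hx.2
  exact this.commute

theorem Dis.symm' {i j k l : α} (h : Dis i j k l) : Dis k l i j := by
  obtain ⟨h1, h2, h3, h4, h5, h6⟩ := h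
  exact ⟨h6, Ne.symm h2, Ne.symm h4, Ne.symm h3, Ne.symm h5, h1⟩

theorem Inv.conj {F : Perm α → A} {c : Perm α} {x y z : α} (hxy : x ≠ y) (hxz : x ≠ z)
    (h1 : Inv F c (swap x y)) (h2 : Inv F c (swap y z)) : Inv F c (swap x z) := by
  rcases eq_or_ne y z with rfl | hyz
  · exact h1
  have e : swap x z = swap x y * swap y z * swap x y := by
    have h := swap_mul_swap_mul_swap (x := z) (y := y) (z := x) (Ne.symm hyz) (Ne.symm hxz)
    rw [swap_comm y x, swap_comm z y] at h
    exact h.symm
  rw [e]
  exact (h1.mul h2).mul h1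

theorem Inv.conj_left {F : Perm α → A} {a : Perm α} {x y z : α} (hxy : x ≠ y) (hxz : x ≠ z)
    (h1 : Inv F (swap x y) a) (h2 : Inv F (swap y z) a) (c1 : a * swap x y = swap x y * a)
    (c2 : a * swap y z = swap y z * a) : Inv F (swap x z) a := by
  rcases eq_or_ne y z with rfl | hyz
  · exact h1
  have e : swap x z = swap x y * swap y z * swap x y := by
    have h := swap_mul_swap_mul_swap (x := z) (y := y) (z := x) (Ne.symm hyz) (Ne.symm hxz)
    rw [swap_comm y x, swap_comm z y] at h
    exact h.symm
  rw [e]
  refine (h1.comp h2 c1).comp h1 ?_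
  rw [← mul_assoc, c1, mul_assoc, c2, mul_assoc]

theorem inv_iff_qrel {F : Perm α → A} (i j k l : α) :
    Inv F (swap k l) (swap i j) ↔
      ∀ σ, F σ + F (σ * swap i j * swap k l) = F (σ * swap i j) + F (σ * swap k l) := by
  unfold Inv
  exact forall_congr' fun σ => sub_eq_sub_iff_add_eq_add

end inv

variable {p : ℕ} {A : Type*} [AddCommGroup A]

/-- the sparse set of pairs: `{(0 3), (1 2)}`, the pairs `{(0 j), (1 l)}` with `2 ≤ j < l`, and
the pairs `{(0 1), (2 l)}` with `3 ≤ l` -/
def Sp (i j k l : Fin p) : Prop :=
  (i.val = 0 ∧ j.val = 3 ∧ k.val = 1 ∧ l.val = 2) ∨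
  (i.val = 0 ∧ 2 ≤ j.val ∧ j.val < l.val ∧ k.val = 1) ∨
  (i.val = 0 ∧ j.val = 1 ∧ k.val = 2 ∧ 3 ≤ l.val)

instance (i j k l : Fin p) : Decidable (Sp i j k l) := by unfold Sp; infer_instance

theorem Sp.dis {i j k l : Fin p} (h : Sp i j k l) : Dis i j k l := by
  unfold Sp at h
  refine ⟨?_, ?_, ?_, ?_, ?_, ?_⟩ <;> (rw [Ne, Fin.ext_iff]; omega)

theorem dis_val {i j k l : Fin p} (h1 : i.val ≠ j.val) (h2 : i.val ≠ k.val)
    (h3 : i.val ≠ l.val) (h4 : j.val ≠ k.val) (h5 : j.val ≠ l.val) (h6 : k.val ≠ l.val) :
    Dis i j k l := by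
  refine ⟨?_, ?_, ?_, ?_, ?_, ?_⟩ <;> (rw [Ne, Fin.ext_iff]; assumption)

theorem sparse (hp : 4 ≤ p) {F : Perm (Fin p) → A}
    (h : ∀ i j k l : Fin p, Sp i j k l → Inv F (swap k l) (swap i j)) : QRel F := by
  -- symmetric form
  have sym : ∀ i j k l : Fin p, Dis i j k l → Inv F (swap k l) (swap i j) →
      Inv F (swap i j) (swap k l) := fun i j k l hd hi => hi.symm (swap_comm_of hd)
  -- named points
  set z0 : Fin p := ⟨0, by omega⟩ with hz0
  set z1 : Fin p := ⟨1, by omega⟩ with hz1
  set z2 : Fin p := ⟨2, by omega⟩ with hz2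
  set z3 : Fin p := ⟨3, by omega⟩ with hz3
  have v0 : z0.val = 0 := rfl
  have v1 : z1.val = 1 := rfl
  have v2 : z2.val = 2 := rfl
  have v3 : z3.val = 3 := rfl
  have key : ∀ m : ℕ, 4 ≤ m → m ≤ p → ∀ i j k l : Fin p, i.val < m → j.val < m → k.val < m →
      l.val < m → Dis i j k l → Inv F (swap i j) (swap k l) := by
    intro m hm
    induction m, hm using Nat.le_induction with
    | base =>
      intro _ i j k l hi hj hk hl hd
      -- the three pairs
      have a1 : Inv F (swap z1 z2) (swap z0 z3) := h z0 z3 z1 z2 (Or.inl ⟨v0, v3, v1, v2⟩)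
      have a2 : Inv F (swap z1 z3) (swap z0 z2) :=
        h z0 z2 z1 z3 (Or.inr (Or.inl ⟨v0, by omega, by omega, v1⟩))
      have a3 : Inv F (swap z2 z3) (swap z0 z1) :=
        h z0 z1 z2 z3 (Or.inr (Or.inr ⟨v0, v1, v2, by omega⟩))
      have d1 : Dis z0 z3 z1 z2 := by apply dis_val <;> omega
      have d2 : Dis z0 z2 z1 z3 := by apply dis_val <;> omega
      have d3 : Dis z0 z1 z2 z3 := by apply dis_val <;> omega
      have b1 := sym _ _ _ _ d1 a1
      have b2 := sym _ _ _ _ d2 a2
      have b3 := sym _ _ _ _ d3 a3
      have cases : ∀ x : Fin p, x.val < 4 → x = z0 ∨ x = z1 ∨ x = z2 ∨ x = z3 := by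
        intro x hx
        simp only [Fin.ext_iff, v0, v1, v2, v3]
        omega
      obtain ⟨n1, n2, n3, n4, n5, n6⟩ := hd
      rcases cases i hi with rfl | rfl | rfl | rfl <;>
        rcases cases j hj with rfl | rfl | rfl | rfl <;>
        first
        | exact absurd rfl n1
        | skip
      all_goals
        rcases cases k hk with rfl | rfl | rfl | rfl <;>
        first
        | exact absurd rfl n2
        | exact absurd rfl n4
        | skip
      all_goals
        rcases cases l hl with rfl | rfl | rfl | rfl <;>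
        first
        | exact absurd rfl n3
        | exact absurd rfl n5
        | exact absurd rfl n6
        | skip
      all_goals
        try simp only [swap_comm z1 z0, swap_comm z2 z0, swap_comm z3 z0, swap_comm z2 z1,
          swap_comm z3 z1, swap_comm z3 z2]
      all_goals
        first
        | exact a1
        | exact a2
        | exact a3
        | exact b1
        | exact b2
        | exact b3
    | succ m hm ih =>
      intro hmp
      have P := ih (by omega)
      set w : Fin p := ⟨m, by omega⟩ with hw
      have vw : w.val = m := rfl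
      -- invariance of the differences in `[m]` under `(1 w)`
      have A1 : ∀ j : Fin p, 2 ≤ j.val → j.val < m → Inv F (swap z0 j) (swap z1 w) := by
        intro j h2 hj
        exact sym _ _ _ _ (by apply dis_val <;> omega)
          (h z0 j z1 w (Or.inr (Or.inl ⟨v0, h2, by omega, v1⟩)))
      have A2 : ∀ i j : Fin p, i.val ≠ 1 → j.val ≠ 1 → i.val < m → j.val < m → i ≠ j →
          Inv F (swap i j) (swap z1 w) := by
        intro i j hi1 hj1 hi hj hij
        have hij' : i.val ≠ j.val := fun e => hij (Fin.ext e)
        by_cases hi0 : i.val = 0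
        · have : i = z0 := Fin.ext (by omega)
          rw [this]; exact A1 j (by omega) hj
        by_cases hj0 : j.val = 0
        · have : j = z0 := Fin.ext (by omega)
          rw [this, swap_comm]; exact A1 i (by omega) hi
        have e1 := A1 i (by omega) hi
        have e2 := A1 j (by omega) hj
        refine Inv.conj_left (x := i) (y := z0) (z := j) ?_ hij ?_ e2 ?_ ?_
        · rw [Ne, Fin.ext_iff]; omega
        · rw [swap_comm]; exact e1
        · rw [swap_comm i z0]
          exact swap_comm_of (by apply dis_val <;> omega)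
        · exact swap_comm_of (by apply dis_val <;> omega)
      have A3 : ∀ i j k : Fin p, i.val ≠ 1 → j.val ≠ 1 → i.val < m → j.val < m → k.val < m →
          i ≠ j → i ≠ k → j ≠ k → Inv F (swap i j) (swap k w) := by
        intro i j k hi1 hj1 hi hj hk hij hik hjk
        have hij' : i.val ≠ j.val := fun e => hij (Fin.ext e)
        have hik' : i.val ≠ k.val := fun e => hik (Fin.ext e)
        have hjk' : j.val ≠ k.val := fun e => hjk (Fin.ext e)
        by_cases hk1 : k.val = 1
        · have : k = z1 := Fin.ext (by omega)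
          rw [this]; exact A2 i j hi1 hj1 hi hj hij
        refine Inv.conj (x := k) (y := z1) (z := w) ?_ ?_ ?_ (A2 i j hi1 hj1 hi hj hij)
        · rw [Ne, Fin.ext_iff]; omega
        · rw [Ne, Fin.ext_iff]; omega
        · exact P i j k z1 hi hj hk (by omega) (by apply dis_val <;> omega)
      have B1 : ∀ k : Fin p, 2 ≤ k.val → k.val < m → Inv F (swap z0 z1) (swap k w) := by
        intro k h2 hk
        have e := sym _ _ _ _ (by apply dis_val <;> omega)
          (h z0 z1 z2 w (Or.inr (Or.inr ⟨v0, v1, v2, by omega⟩)))
        by_cases hk2 : k.val = 2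
        · have : k = z2 := Fin.ext (by omega)
          rw [this]; exact e
        refine Inv.conj (x := k) (y := z2) (z := w) ?_ ?_ ?_ e
        · rw [Ne, Fin.ext_iff]; omega
        · rw [Ne, Fin.ext_iff]; omega
        · exact P z0 z1 k z2 (by omega) (by omega) hk (by omega) (by apply dis_val <;> omega)
      have C1 : ∀ j k : Fin p, 2 ≤ j.val → j.val < m → k.val < m → k ≠ j → k.val ≠ 1 →
          Inv F (swap z1 j) (swap k w) := by
        intro j k h2 hj hk hkj hk1
        have hkj' : k.val ≠ j.val := fun e => hkj (Fin.ext e)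
        have main : ∀ k : Fin p, k.val < m → k.val ≠ j.val → 2 ≤ k.val →
            Inv F (swap z1 j) (swap k w) := by
          intro k hk hkj' hk2
          have e1 := A3 z0 j k (by omega) (by omega) (by omega) hj hk
            (by rw [Ne, Fin.ext_iff]; omega) (by rw [Ne, Fin.ext_iff]; omega)
            (by rw [Ne, Fin.ext_iff]; omega)
          have e2 := B1 k hk2 hk
          refine Inv.conj_left (x := z1) (y := z0) (z := j) ?_ ?_ ?_ e1 ?_ ?_
          · rw [Ne, Fin.ext_iff]; omega
          · rw [Ne, Fin.ext_iff]; omega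
          · rw [swap_comm]; exact e2
          · rw [swap_comm z1 z0]
            exact swap_comm_of (by apply dis_val <;> omega)
          · exact swap_comm_of (by apply dis_val <;> omega)
        by_cases hk2 : 2 ≤ k.val
        · exact main k hk hkj' hk2
        · have hk0 : k.val = 0 := by omega
          -- another point `u` in `{2, 3}` different from `j`
          obtain ⟨u, hu2, hum, huj⟩ : ∃ u : Fin p, 2 ≤ u.val ∧ u.val < m ∧ u.val ≠ j.val := by
            by_cases hj2 : j.val = 2
            · exact ⟨z3, by omega, by omega, by omega⟩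
            · exact ⟨z2, by omega, by omega, by omega⟩
          refine Inv.conj (x := k) (y := u) (z := w) ?_ ?_ ?_ (main u hum huj hu2)
          · rw [Ne, Fin.ext_iff]; omega
          · rw [Ne, Fin.ext_iff]; omega
          · exact P z1 j k u (by omega) hj hk hum (by apply dis_val <;> omega)
      -- all differences in `[m]` are invariant under `(k w)`
      have All : ∀ i j k : Fin p, i.val < m → j.val < m → k.val < m → i ≠ j → i ≠ k → j ≠ k →
          Inv F (swap i j) (swap k w) := by
        intro i j k hi hj hk hij hik hjk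
        have hij' : i.val ≠ j.val := fun e => hij (Fin.ext e)
        have hik' : i.val ≠ k.val := fun e => hik (Fin.ext e)
        have hjk' : j.val ≠ k.val := fun e => hjk (Fin.ext e)
        by_cases hi1 : i.val = 1
        · have ei : i = z1 := Fin.ext (by omega)
          by_cases hj0 : j.val = 0
          · have ej : j = z0 := Fin.ext (by omega)
            rw [ei, ej, swap_comm]; exact B1 k (by omega) hk
          · rw [ei]; exact C1 j k (by omega) hj hk (Ne.symm hjk) (by omega)
        by_cases hj1 : j.val = 1
        · have ej : j = z1 := Fin.ext (by omega)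
          by_cases hi0 : i.val = 0
          · have ei : i = z0 := Fin.ext (by omega)
            rw [ei, ej]; exact B1 k (by omega) hk
          · rw [ej, swap_comm]; exact C1 i k (by omega) hi hk (Ne.symm hik) (by omega)
        exact A3 i j k hi1 hj1 hi hj hk hij hik hjk
      intro i j k l hi hj hk hl hd
      obtain ⟨n1, n2, n3, n4, n5, n6⟩ := hd
      have n1' : i.val ≠ j.val := fun e => n1 (Fin.ext e)
      have n2' : i.val ≠ k.val := fun e => n2 (Fin.ext e)
      have n3' : i.val ≠ l.val := fun e => n3 (Fin.ext e)
      have n4' : j.val ≠ k.val := fun e => n4 (Fin.ext e)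
      have n5' : j.val ≠ l.val := fun e => n5 (Fin.ext e)
      have n6' : k.val ≠ l.val := fun e => n6 (Fin.ext e)
      by_cases hlm : l.val = m
      · have el : l = w := Fin.ext (by omega)
        rw [el]; exact All i j k (by omega) (by omega) (by omega) n1 n2 n4
      by_cases hkm : k.val = m
      · have ek : k = w := Fin.ext (by omega)
        rw [ek, swap_comm w l]; exact All i j l (by omega) (by omega) (by omega) n1 n3 n5
      by_cases hjm : j.val = m
      · have ej : j = w := Fin.ext (by omega)
        have q := All k l i (by omega) (by omega) (by omega) n6 (Ne.symm n2) (Ne.symm n3)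
        rw [ej]
        exact q.symm (swap_comm_of (by apply dis_val <;> omega))
      by_cases him : i.val = m
      · have ei : i = w := Fin.ext (by omega)
        have q := All k l j (by omega) (by omega) (by omega) n6 (Ne.symm n4) (Ne.symm n5)
        rw [ei, swap_comm w j]
        exact q.symm (swap_comm_of (by apply dis_val <;> omega))
      exact P i j k l (by omega) (by omega) (by omega) (by omega) ⟨n1, n2, n3, n4, n5, n6⟩
  intro σ i j k l hd
  have q := key p hp le_rfl k l i j k.isLt l.isLt i.isLt j.isLt hd.symm'
  exact (inv_iff_qrel i j k l).1 q σ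

end Birk
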