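import Pool.Agent.Work.MP_697f4c_co.Rules

/-! # What the rules do to a pair of near-bijections (MP_697f4c_co) -/

namespace Pool.Agent.Work.MP_697f4c_co

open Finset Function Equiv

variable {X : Type*} [Fintype X] [LinearOrder X]

lemma Near.update {g : X → X} {y z x : X} (hg : Near g y z) (hx : g x = y) (v : X) :
    Near (Function.update g x v) v z := by
  intro w
  have h1 := cnt_update g x v w
  have h2 := hg w
  rw [hx] at h1
  omega

lemma near_update_perm (c : Perm X) (x v : X) : Near (Function.update c x v) v (c x) := by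
  intro w
  have h1 := cnt_update c x v w
  have h2 := bij_iff.mp c.bijective w
  omega

lemma Near.other {P Q : X → X} {y z : X} (hP : Near P y z) (h : ∀ v, cnt P v + cnt Q v = 2) :
    Near Q z y := by
  intro w
  have h1 := hP w
  have h2 := h w
  omega

lemma Near.not_bij {g : X → X} {y z : X} (hg : Near g y z) (hyz : y ≠ z) : ¬ Bijective g := by
  intro hb
  have h1 := hg z
  have h2 := bij_iff.mp hb z
  rw [if_pos rfl, if_neg (Ne.symm hyz)] at h1
  omega

lemma len_spec {g h : X → X} {s : X} {n : ℕ}
    (hn : Bijective (ex g h (seg g h s n)) ∨ Bijective (ex h g (seg g h s n))) :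
    (Bijective (fix g h s).1 ∨ Bijective (fix g h s).2) ∧ len g h s ≤ n := by
  have hne : {n | Bijective (ex g h (seg g h s n)) ∨ Bijective (ex h g (seg g h s n))}.Nonempty :=
    ⟨n, hn⟩
  exact ⟨Nat.sInf_mem hne, Nat.sInf_le hn⟩

lemma cnt_fix (g h : X → X) (s v : X) :
    cnt (fix g h s).1 v + cnt (fix g h s).2 v = cnt g v + cnt h v :=
  cnt_ex g h _ v

lemma bijFirst_spec {q : (X → X) × (X → X)} (h : Bijective q.1 ∨ Bijective q.2) :
    Bijective (bijFirst q).1 ∧
      ∀ v, cnt (bijFirst q).1 v + cnt (bijFirst q).2 v = cnt q.1 v + cnt q.2 v := by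
  unfold bijFirst
  by_cases h1 : Bijective q.1
  · rw [if_pos h1]
    exact ⟨h1, fun v => rfl⟩
  · rw [if_neg h1]
    exact ⟨h.resolve_left h1, fun v => add_comm _ _⟩

theorem tail_spec {c : Perm X} {P Q : X → X} {y z x : X} (hP : Near P y z) (hQ : Near Q z y)
    (hyz : y ≠ z) (hx : P x = y) (hc : c x ≠ y) :
    (Bijective (cubTail P Q c x).1 ∧ Bijective (cubTail P Q c x).2.1 ∧
      Bijective (cubTail P Q c x).2.2) ∧
    (c x = z → (cubTail P Q c x).1 = update P x (c x)) ∧
    (c x ≠ z → ∃ n, 1 ≤ n ∧
      ex (cubTail P Q c x).1 (cubTail P Q c x).2.1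
        (seg (cubTail P Q c x).2.1 (cubTail P Q c x).1 x n) = update P x (c x) ∧
      ∀ w ∈ seg (cubTail P Q c x).2.1 (cubTail P Q c x).1 x n, (cubTail P Q c x).1 w ≠ c x) := by
  -- the modified third ballot
  have hc' : Near (update c x (P x)) y (c x) := by
    have := near_update_perm c x (P x)
    rwa [hx] at this ⊢
  have hP' : Near (update P x (c x)) (c x) z := hP.update hx (c x)
  have hs : update c x (P x) x = y := by rw [update_self, hx]
  obtain ⟨n0, _, _, hn0⟩ := chain_lemma (s := x) hc' hQ (Ne.symm hc) (Ne.symm hyz) hs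
  obtain ⟨hq, _⟩ := len_spec hn0
  obtain ⟨hk, hcnt⟩ := bijFirst_spec hq
  set q := bijFirst (fix (update c x (P x)) Q x) with hqdef
  have hd : Near q.2 z (c x) := by
    intro v
    have h1 := hcnt v
    have h2 := cnt_fix (update c x (P x)) Q x v
    have h3 := bij_iff.mp hk v
    have h4 := hc' v
    have h5 := hQ v
    omega
  have ht1 : (cubTail P Q c x).1 = (fix (update P x (c x)) q.2 x).1 := rfl
  have ht2 : (cubTail P Q c x).2.1 = (fix (update P x (c x)) q.2 x).2 := rfl
  have ht3 : (cubTail P Q c x).2.2 = q.1 := rfl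
  rw [ht1, ht2, ht3]
  have hsum : ∀ v, cnt (fix (update P x (c x)) q.2 x).1 v
      + cnt (fix (update P x (c x)) q.2 x).2 v = 2 := by
    intro v
    have h1 := cnt_fix (update P x (c x)) q.2 x v
    have h2 := hP' v
    have h3 := hd v
    omega
  have hboth : (Bijective (fix (update P x (c x)) q.2 x).1 ∨
      Bijective (fix (update P x (c x)) q.2 x).2) →
      Bijective (fix (update P x (c x)) q.2 x).1 ∧ Bijective (fix (update P x (c x)) q.2 x).2 := by
    rintro (h | h)
    · refine ⟨h, bij_iff.mpr fun v => ?_⟩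
      have h1 := bij_iff.mp h v
      have h2 := hsum v
      omega
    · refine ⟨bij_iff.mpr fun v => ?_, h⟩
      have h1 := bij_iff.mp h v
      have h2 := hsum v
      omega
  by_cases hcz : c x = z
  · have hbij : Bijective (update P x (c x)) := by
      rw [← near_self_iff (y := z)]
      rwa [hcz] at hP' ⊢
    have h0 : Bijective (ex (update P x (c x)) q.2 (seg (update P x (c x)) q.2 x 0)) ∨
        Bijective (ex q.2 (update P x (c x)) (seg (update P x (c x)) q.2 x 0)) := by
      left
      rw [seg_zero, ex_empty]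
      exact hbij
    obtain ⟨hf, hl⟩ := len_spec h0
    have hl0 : len (update P x (c x)) q.2 x = 0 := by omega
    refine ⟨⟨(hboth hf).1, (hboth hf).2, hk⟩, fun _ => ?_, fun h => absurd hcz h⟩
    unfold fix
    rw [hl0, seg_zero, ex_empty]
  · obtain ⟨n, hn1, hch, hn⟩ := chain_lemma (s := x) hP' hd hcz (Ne.symm hcz)
      (by rw [update_self])
    obtain ⟨hf, hl⟩ := len_spec hn
    refine ⟨⟨(hboth hf).1, (hboth hf).2, hk⟩, fun h => absurd h hcz, fun _ => ?_⟩
    set g := update P x (c x) with hg
    set d := q.2 with hdd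
    set L := len g d x with hL
    have hL1 : 1 ≤ L := by
      by_contra h
      have hL0 : L = 0 := by omega
      have h2 : (fix g d x).1 = g ∧ (fix g d x).2 = d := by
        unfold fix
        rw [← hL, hL0, seg_zero, ex_empty, ex_empty]
        exact ⟨rfl, rfl⟩
      rw [h2.1, h2.2] at hf
      rcases hf with hf | hf
      · exact hP'.not_bij hcz hf
      · exact hd.not_bij (Ne.symm hcz) hf
    have hfix1 : (fix g d x).1 = ex g d (seg g d x L) := rfl
    have hfix2 : (fix g d x).2 = ex d g (seg g d x L) := rfl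
    have hb := hboth hf
    -- the chain of the new pair is the old chain
    have hiter : ∀ i, i < L → (nxt (fix g d x).2 (fix g d x).1)^[i] x = (nxt g d)^[i] x := by
      intro i
      induction i with
      | zero => intro _; rfl
      | succ i ih =>
        intro hi
        rw [iterate_succ_apply', ih (by omega)]
        have hm1 : (nxt g d)^[i] x ∈ seg g d x L := mem_seg.mpr ⟨i, by omega, rfl⟩
        have hm2 : (nxt g d)^[i + 1] x ∈ seg g d x L := mem_seg.mpr ⟨i + 1, hi, rfl⟩
        refine hb.2.1 ?_
        rw [nxt_spec (hb.2.2 _)]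
        rw [hfix1, hfix2, ex_mem hm1, ex_mem hm2]
        exact (hch i (by omega)).symm
    have hseg : seg (fix g d x).2 (fix g d x).1 x L = seg g d x L := by
      ext w
      rw [mem_seg, mem_seg]
      constructor
      · rintro ⟨i, hi, rfl⟩
        exact ⟨i, hi, (hiter i hi).symm⟩
      · rintro ⟨i, hi, rfl⟩
        exact ⟨i, hi, hiter i hi⟩
    refine ⟨L, hL1, ?_, ?_⟩
    · rw [hseg, hfix1, hfix2, ex_ex]
    · intro w hw
      rw [hseg] at hw
      rw [hfix1, ex_mem hw]
      exact hd.miss (Ne.symm hcz) w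

end Pool.Agent.Work.MP_697f4c_co
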