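import Pool.Agent.Work.MP_697f4c_co.Sim

/-!
MP_697f4c_co, work file: all quadratic relations from the elementary ones, with a catalyst.
-/

open Equiv Equiv.Perm Finset

namespace Birk

variable {M : Type*} [AddCommMonoid M] {α : Type*} [DecidableEq α] [Fintype α]

theorem tele {F : Perm α → M} {C : M} {d : Perm α} (hd : d ≠ 1)
    (hE : ∀ (σ : Perm α) (x y : α), x ≠ y → d x = x → d y = y →
      F σ + F (σ * swap x y * d) + C = F (σ * swap x y) + F (σ * d) + C)
    (σ : Perm α) : ∀ (n : ℕ) (c : Perm α), c.support.card ≤ n → Perm.Disjoint c d →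
    ∃ K : Finset (Perm α), (∀ τ ∈ K, ∃ e : Perm α, e.support.card < c.support.card ∧
        Perm.Disjoint e d ∧ (τ = σ * e ∨ τ = σ * (e * d))) ∧
      F σ + F (σ * (c * d)) + C + ∑ τ ∈ K, F τ = F (σ * c) + F (σ * d) + C + ∑ τ ∈ K, F τ := by
  intro n
  induction n with
  | zero =>
    intro c hc hcd
    have h1 : c = 1 := by
      rw [← Perm.card_support_eq_zero]; omega
    subst h1
    refine ⟨∅, by simp, ?_⟩
    simp
  | succ n ih =>
    intro c hc hcd
    by_cases hc1 : c = 1
    · subst hc1
      refine ⟨∅, by simp, ?_⟩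
      simp
    obtain ⟨x, hx⟩ : ∃ x, c x ≠ x := by
      by_contra hcon
      push Not at hcon
      exact hc1 (Perm.ext hcon)
    set c' := swap x (c x) * c with hc'
    set y := c⁻¹ x with hy
    have hcy : c y = x := by simp [hy]
    have hyx : y ≠ x := by
      intro h
      rw [h] at hcy
      exact hx hcy
    have hsup : c'.support.card < c.support.card := Perm.card_support_swap_mul hx
    have hcc : c = c' * swap y x := by
      rw [hc', mul_assoc]
      have h1 : c * swap y x = swap (c y) (c x) * c := (Equiv.mul_swap_eq_swap_mul c y x)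
      rw [h1, hcy, ← mul_assoc, swap_mul_self, one_mul]
    have dx : d x = x := (hcd x).resolve_left hx
    have dy : d y = y := (hcd y).resolve_left (by rw [hcy]; exact Ne.symm hyx)
    have hcd' : Perm.Disjoint c' d := by
      intro z
      by_cases hz : d z = z
      · right; exact hz
      · left
        have h1 : c z = z := (hcd z).resolve_right hz
        rw [hc', Perm.mul_apply, h1]
        apply swap_apply_of_ne_of_ne
        · rintro rfl; exact hx h1
        · intro h2
          rw [h2] at h1
          exact hx (c.injective h1)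
    obtain ⟨K, hK, hEq⟩ := ih c' (by omega) hcd'
    have hcomm : swap y x * d = d * swap y x := by
      rw [Equiv.mul_swap_eq_swap_mul, dy, dx]
    have hE1 := hE (σ * c') y x hyx dy dx
    have k1 : σ * c' * swap y x * d = σ * (c * d) := by
      rw [hcc]; simp only [mul_assoc]
    have k2 : σ * c' * swap y x = σ * c := by rw [mul_assoc, ← hcc]
    have k3 : σ * c' * d = σ * (c' * d) := mul_assoc _ _ _
    rw [k1, k2, k3] at hE1
    obtain ⟨z0, hz0⟩ : ∃ z, d z ≠ z := by
      by_contra hcon
      push Not at hcon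
      exact hd (Perm.ext hcon)
    have noteq : ∀ e e' : Perm α, Perm.Disjoint e d → Perm.Disjoint e' d → e ≠ e' * d := by
      intro e e' he he' h1
      have h2 : e z0 = z0 := (he z0).resolve_right hz0
      have h3 : e' (d z0) = d z0 := (he' (d z0)).resolve_right (fun h => hz0 (d.injective h))
      rw [h1, Perm.mul_apply, h3] at h2
      exact hz0 h2
    have m1 : σ * (c' * d) ∉ K := by
      intro hm
      obtain ⟨e, he1, he2, he3 | he3⟩ := hK _ hm
      · exact noteq e c' he2 hcd' (mul_left_cancel he3).symm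
      · have h4 : c' = e := mul_right_cancel (mul_left_cancel he3)
        rw [h4] at he1
        exact lt_irrefl _ he1
    have m2 : σ * c' ∉ insert (σ * (c' * d)) K := by
      intro hm
      rw [mem_insert] at hm
      rcases hm with hm | hm
      · exact noteq c' c' hcd' hcd' (mul_left_cancel hm)
      · obtain ⟨e, he1, he2, he3 | he3⟩ := hK _ hm
        · have h4 : c' = e := mul_left_cancel he3
          rw [h4] at he1
          exact lt_irrefl _ he1
        · exact noteq c' e hcd' he2 (mul_left_cancel he3)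
    refine ⟨insert (σ * c') (insert (σ * (c' * d)) K), ?_, ?_⟩
    · intro τ hτ
      rw [mem_insert, mem_insert] at hτ
      rcases hτ with rfl | rfl | hτ
      · exact ⟨c', hsup, hcd', Or.inl rfl⟩
      · exact ⟨c', hsup, hcd', Or.inr rfl⟩
      · obtain ⟨e, he1, he2, he3⟩ := hK _ hτ
        exact ⟨e, he1.trans hsup, he2, he3⟩
    · rw [sum_insert m2, sum_insert m1]
      set S := ∑ τ ∈ K, F τ
      calc F σ + F (σ * (c * d)) + C + (F (σ * c') + (F (σ * (c' * d)) + S))
          = (F (σ * c') + F (σ * (c * d)) + C) + F σ + F (σ * (c' * d)) + S := by abel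
        _ = (F σ + F (σ * (c' * d)) + C + S) + F (σ * c) + F (σ * (c' * d)) := by rw [hE1]; abel
        _ = F (σ * c) + F (σ * d) + C + (F (σ * c') + (F (σ * (c' * d)) + S)) := by rw [hEq]; abel

/-- with all rankings as catalyst -/
theorem tele_all {F : Perm α → M} {C : M} {d : Perm α}
    (hE : ∀ (σ : Perm α) (x y : α), x ≠ y → d x = x → d y = y →
      F σ + F (σ * swap x y * d) + C = F (σ * swap x y) + F (σ * d) + C)
    (σ c : Perm α) (hcd : Perm.Disjoint c d) :
    F σ + F (σ * (c * d)) + (C + ∑ τ, F τ) = F (σ * c) + F (σ * d) + (C + ∑ τ, F τ) := by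
  by_cases hd : d = 1
  · subst hd; simp only [mul_one]; rw [add_comm (F σ)]
  obtain ⟨K, -, hK⟩ := tele hd hE σ _ c le_rfl hcd
  rw [sum_split F K]
  calc F σ + F (σ * (c * d)) + (C + (∑ τ ∈ K, F τ + ∑ τ ∈ Kᶜ, F τ))
      = (F σ + F (σ * (c * d)) + C + ∑ τ ∈ K, F τ) + ∑ τ ∈ Kᶜ, F τ := by abel
    _ = F (σ * c) + F (σ * d) + (C + (∑ τ ∈ K, F τ + ∑ τ ∈ Kᶜ, F τ)) := by rw [hK]; abel

omit [Fintype α] [DecidableEq α] in
theorem inv_app (a : Perm α) (x : α) : a⁻¹ (a x) = x := by simp

omit [Fintype α] [DecidableEq α] in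
theorem app_inv (a : Perm α) (x : α) : a (a⁻¹ x) = x := by simp

/-- the decomposition of a quadratic relation -/
theorem quad_decomp {a b a' b' : Perm α}
    (h : ∀ x y, pm a x y + pm b x y = pm a' x y + pm b' x y) :
    ∃ c d : Perm α, Perm.Disjoint c d ∧ a' = a * c ∧ b' = a * d ∧ b = a * (c * d) := by
  have hup : ∀ x, UP (a' x) (b' x) (a x) (b x) := fun x => up_of_sum (h x)
  refine ⟨a⁻¹ * a', a⁻¹ * b', ?_, by simp, by simp, ?_⟩
  · intro x
    rcases hup x with h1 | h1
    · left; rw [Perm.mul_apply, h1.1, inv_app]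
    · right; rw [Perm.mul_apply, h1.2, inv_app]
  · ext x
    have hdis : Perm.Disjoint (a⁻¹ * a') (a⁻¹ * b') := by
      intro x
      rcases hup x with h1 | h1
      · left; rw [Perm.mul_apply, h1.1, inv_app]
      · right; rw [Perm.mul_apply, h1.2, inv_app]
    by_cases hx : (a⁻¹ * b') x = x
    · have e1 : b' x = a x := by
        rw [Perm.mul_apply] at hx
        rw [← app_inv a (b' x), hx]
      have e2 : a' x = b x := by
        rcases hup x with h1 | h1
        · rw [h1.1, ← e1, h1.2]
        · exact h1.1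
      rw [Perm.mul_apply, Perm.mul_apply, hx, Perm.mul_apply, app_inv, e2]
    · have h1 : (a⁻¹ * a') ((a⁻¹ * b') x) = (a⁻¹ * b') x :=
        (hdis _).resolve_right (fun h2 => hx ((a⁻¹ * b').injective h2))
      have e2 : b' x = b x := by
        rcases hup x with h2 | h2
        · exact h2.2
        · exfalso; apply hx; rw [Perm.mul_apply, h2.2, inv_app]
      rw [Perm.mul_apply, Perm.mul_apply, h1, Perm.mul_apply, app_inv, e2]

/-- all quadratic relations hold with two layers of catalyst -/
theorem qc_of_eq {F : Perm α → M} (hQ : EQ F) : QC F (∑ σ, F σ + ∑ σ, F σ) := by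
  -- one transposition
  have h1 : ∀ (σ c : Perm α) (x y : α), x ≠ y → c x = x → c y = y →
      F σ + F (σ * swap x y * c) + ∑ τ, F τ = F (σ * swap x y) + F (σ * c) + ∑ τ, F τ := by
    intro σ c x y hxy cx cy
    have hE : ∀ (σ : Perm α) (u v : α), u ≠ v → swap x y u = u → swap x y v = v →
        F σ + F (σ * swap u v * swap x y) + 0 = F (σ * swap u v) + F (σ * swap x y) + 0 := by
      intro σ u v huv hu hv
      rw [add_zero, add_zero]
      apply hQ
      have hux : u ≠ x := by rintro rfl; rw [swap_apply_left] at hu; exact hxy hu.symm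
      have huy : u ≠ y := by rintro rfl; rw [swap_apply_right] at hu; exact hxy hu
      have hvx : v ≠ x := by rintro rfl; rw [swap_apply_left] at hv; exact hxy hv.symm
      have hvy : v ≠ y := by rintro rfl; rw [swap_apply_right] at hv; exact hxy hv
      exact ⟨huv, hux, huy, hvx, hvy, hxy⟩
    have hdis : Perm.Disjoint c (swap x y) := by
      intro z
      by_cases hz : z = x
      · left; rw [hz, cx]
      by_cases hz2 : z = y
      · left; rw [hz2, cy]
      · right; exact swap_apply_of_ne_of_ne hz hz2
    have h2 := tele_all hE σ c hdis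
    rw [zero_add] at h2
    have h3 : σ * swap x y * c = σ * (c * swap x y) := by
      rw [mul_assoc, hdis.commute.eq]
    rw [h3, h2, add_comm (F (σ * swap x y))]
  intro a b a' b' h
  obtain ⟨c, d, hcd, rfl, rfl, rfl⟩ := quad_decomp h
  exact tele_all (fun σ x y hxy dx dy => h1 σ d x y hxy dx dy) a c hcd

end Birk
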