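import Pool.Agent.Work.MP_697f4c_co.Tele

/-!
MP_697f4c_co, work file: all quadratic relations from the elementary ones, with one layer of
rankings.
-/

open Equiv Equiv.Perm Finset

namespace Birk

variable {M : Type*} [AddCommMonoid M] {α : Type*} [DecidableEq α] [Fintype α]

theorem tele2 {F : Perm α → M} {C : M} {d : Perm α} (hd : d ≠ 1) (σ : Perm α)
    (hE : ∀ (e : Perm α) (x y : α), Perm.Disjoint e d → x ≠ y → d x = x → d y = y →
      F (σ * e) + F (σ * e * swap x y * d) + C = F (σ * e * swap x y) + F (σ * e * d) + C) :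
    ∀ (n : ℕ) (c : Perm α), c.support.card ≤ n → Perm.Disjoint c d →
    ∃ K : Finset (Perm α), (∀ τ ∈ K, ∃ e : Perm α, e ≠ 1 ∧ e.support ⊆ c.support ∧
        e.support.card < c.support.card ∧
        Perm.Disjoint e d ∧ (τ = σ * e ∨ τ = σ * (e * d))) ∧
      F σ + F (σ * (c * d)) + C + ∑ τ ∈ K, F τ = F (σ * c) + F (σ * d) + C + ∑ τ ∈ K, F τ := by
  intro n
  induction n with
  | zero =>
    intro c hc hcd
    have h1 : c = 1 := by
      rw [← Perm.card_support_eq_zero]; omega
    subst h1
    refine ⟨∅, by simp, ?_⟩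
    simp
  | succ n ih =>
    intro c hc hcd
    by_cases hc1 : c = 1
    · subst hc1
      refine ⟨∅, by simp, ?_⟩
      simp
    obtain ⟨x, hx⟩ : ∃ x, c x ≠ x := by
      by_contra hcon
      push Not at hcon
      exact hc1 (Perm.ext hcon)
    set c' := swap x (c x) * c with hc'
    set y := c⁻¹ x with hy
    have hcy : c y = x := by simp [hy]
    have hyx : y ≠ x := by
      intro h
      rw [h] at hcy
      exact hx hcy
    have hsup : c'.support.card < c.support.card := Perm.card_support_swap_mul hx
    have hcc : c = c' * swap y x := by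
      rw [hc', mul_assoc]
      have h1 : c * swap y x = swap (c y) (c x) * c := (Equiv.mul_swap_eq_swap_mul c y x)
      rw [h1, hcy, ← mul_assoc, swap_mul_self, one_mul]
    have dx : d x = x := (hcd x).resolve_left hx
    have dy : d y = y := (hcd y).resolve_left (by rw [hcy]; exact Ne.symm hyx)
    have hfix : ∀ z, c z = z → c' z = z := by
      intro z h1
      rw [hc', Perm.mul_apply, h1]
      apply swap_apply_of_ne_of_ne
      · rintro rfl; exact hx h1
      · intro h2
        rw [h2] at h1
        exact hx (c.injective h1)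
    have hsubs : c'.support ⊆ c.support := by
      intro z hz
      rw [mem_support] at hz ⊢
      exact fun h => hz (hfix z h)
    have hcd' : Perm.Disjoint c' d := by
      intro z
      by_cases hz : d z = z
      · right; exact hz
      · left; exact hfix z ((hcd z).resolve_right hz)
    by_cases hc'1 : c' = 1
    · refine ⟨∅, by simp, ?_⟩
      have h1 := hE 1 y x (Perm.disjoint_one_left d) hyx dy dx
      rw [hc'1, one_mul] at hcc
      rw [hcc]
      simpa [mul_assoc] using h1
    obtain ⟨K, hK, hEq⟩ := ih c' (by omega) hcd'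
    have hE1 := hE c' y x hcd' hyx dy dx
    have k1 : σ * c' * swap y x * d = σ * (c * d) := by
      rw [hcc]; simp only [mul_assoc]
    have k2 : σ * c' * swap y x = σ * c := by rw [mul_assoc, ← hcc]
    have k3 : σ * c' * d = σ * (c' * d) := mul_assoc _ _ _
    rw [k1, k2, k3] at hE1
    obtain ⟨z0, hz0⟩ : ∃ z, d z ≠ z := by
      by_contra hcon
      push Not at hcon
      exact hd (Perm.ext hcon)
    have noteq : ∀ e e' : Perm α, Perm.Disjoint e d → Perm.Disjoint e' d → e ≠ e' * d := by
      intro e e' he he' h1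
      have h2 : e z0 = z0 := (he z0).resolve_right hz0
      have h3 : e' (d z0) = d z0 := (he' (d z0)).resolve_right (fun h => hz0 (d.injective h))
      rw [h1, Perm.mul_apply, h3] at h2
      exact hz0 h2
    have m1 : σ * (c' * d) ∉ K := by
      intro hm
      obtain ⟨e, he0, he01, he1, he2, he3 | he3⟩ := hK _ hm
      · exact noteq e c' he2 hcd' (mul_left_cancel he3).symm
      · have h4 : c' = e := mul_right_cancel (mul_left_cancel he3)
        rw [h4] at he1
        exact lt_irrefl _ he1
    have m2 : σ * c' ∉ insert (σ * (c' * d)) K := by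
      intro hm
      rw [mem_insert] at hm
      rcases hm with hm | hm
      · exact noteq c' c' hcd' hcd' (mul_left_cancel hm)
      · obtain ⟨e, he0, he01, he1, he2, he3 | he3⟩ := hK _ hm
        · have h4 : c' = e := mul_left_cancel he3
          rw [h4] at he1
          exact lt_irrefl _ he1
        · exact noteq c' e hcd' he2 (mul_left_cancel he3)
    refine ⟨insert (σ * c') (insert (σ * (c' * d)) K), ?_, ?_⟩
    · intro τ hτ
      rw [mem_insert, mem_insert] at hτ
      rcases hτ with rfl | rfl | hτ
      · exact ⟨c', hc'1, hsubs, hsup, hcd', Or.inl rfl⟩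
      · exact ⟨c', hc'1, hsubs, hsup, hcd', Or.inr rfl⟩
      · obtain ⟨e, he0, he01, he1, he2, he3⟩ := hK _ hτ
        exact ⟨e, he0, he01.trans hsubs, he1.trans hsup, he2, he3⟩
    · rw [sum_insert m2, sum_insert m1]
      set S := ∑ τ ∈ K, F τ
      calc F σ + F (σ * (c * d)) + C + (F (σ * c') + (F (σ * (c' * d)) + S))
          = (F (σ * c') + F (σ * (c * d)) + C) + F σ + F (σ * (c' * d)) + S := by abel
        _ = (F σ + F (σ * (c' * d)) + C + S) + F (σ * c) + F (σ * (c' * d)) := by rw [hE1]; abel
        _ = F (σ * c) + F (σ * d) + C + (F (σ * c') + (F (σ * (c' * d)) + S)) := by rw [hEq]; abel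

/-- one of the two permutations is a transposition -/
theorem tele_swap {F : Perm α → M} (hQ : EQ F) (σ c : Perm α) {x y : α} (hxy : x ≠ y)
    (cx : c x = x) (cy : c y = y) :
    ∃ K : Finset (Perm α), (∀ τ ∈ K, ∃ f : Perm α, f ≠ 1 ∧ f.support ⊆ c.support ∧
        f.support.card < c.support.card ∧
        Perm.Disjoint f (swap x y) ∧ (τ = σ * f ∨ τ = σ * (f * swap x y))) ∧
      F σ + F (σ * (c * swap x y)) + ∑ τ ∈ K, F τ
        = F (σ * c) + F (σ * swap x y) + ∑ τ ∈ K, F τ := by
  have hd : swap x y ≠ 1 := by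
    intro h
    have h2 : swap x y x = x := by rw [h]; rfl
    rw [swap_apply_left] at h2
    exact hxy h2.symm
  have hE : ∀ (e : Perm α) (u v : α), Perm.Disjoint e (swap x y) → u ≠ v → swap x y u = u →
      swap x y v = v →
      F (σ * e) + F (σ * e * swap u v * swap x y) + 0
        = F (σ * e * swap u v) + F (σ * e * swap x y) + 0 := by
    intro e u v _ huv hu hv
    rw [add_zero, add_zero]
    apply hQ
    have hux : u ≠ x := by rintro rfl; rw [swap_apply_left] at hu; exact hxy hu.symm
    have huy : u ≠ y := by rintro rfl; rw [swap_apply_right] at hu; exact hxy hu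
    have hvx : v ≠ x := by rintro rfl; rw [swap_apply_left] at hv; exact hxy hv.symm
    have hvy : v ≠ y := by rintro rfl; rw [swap_apply_right] at hv; exact hxy hv
    exact ⟨huv, hux, huy, hvx, hvy, hxy⟩
  have hdis : Perm.Disjoint c (swap x y) := by
    intro z
    by_cases hz : z = x
    · left; rw [hz, cx]
    by_cases hz2 : z = y
    · left; rw [hz2, cy]
    · right; exact swap_apply_of_ne_of_ne hz hz2
  obtain ⟨K, hK, hEq⟩ := tele2 hd σ hE _ c le_rfl hdis
  refine ⟨K, hK, ?_⟩
  rwa [add_zero, add_zero] at hEq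

open Classical in
/-- all quadratic relations hold with one layer of rankings -/
theorem qc_of_eq2 {F : Perm α → M} (hQ : EQ F) : QC F (∑ σ, F σ) := by
  intro a b a' b' h
  obtain ⟨c, D, hcd, rfl, rfl, rfl⟩ := quad_decomp h
  by_cases hD : D = 1
  · subst hD; simp only [mul_one]; rw [add_comm (F a)]
  set G : Finset (Perm α) := univ.filter fun τ => ∃ e f : Perm α, Perm.Disjoint e D ∧ f ≠ 1 ∧
    f.support ⊆ D.support ∧ f.support.card < D.support.card ∧ τ = a * (e * f) with hG
  have hE : ∀ (e : Perm α) (x y : α), Perm.Disjoint e D → x ≠ y → D x = x → D y = y →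
      F (a * e) + F (a * e * swap x y * D) + ∑ τ ∈ G, F τ
        = F (a * e * swap x y) + F (a * e * D) + ∑ τ ∈ G, F τ := by
    intro e x y he hxy hx hy
    obtain ⟨K, hK, hEq⟩ := tele_swap hQ (a * e) D hxy hx hy
    have hdis : Perm.Disjoint D (swap x y) := by
      intro z
      by_cases hz : z = x
      · left; rw [hz, hx]
      by_cases hz2 : z = y
      · left; rw [hz2, hy]
      · right; exact swap_apply_of_ne_of_ne hz hz2
    have hKG : K ⊆ G := by
      intro τ hτ
      rw [hG, mem_filter]
      refine ⟨mem_univ _, ?_⟩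
      obtain ⟨f, hf0, hf1, hf2, hf3, hf4 | hf4⟩ := hK τ hτ
      · exact ⟨e, f, he, hf0, hf1, hf2, by rw [hf4, mul_assoc]⟩
      · refine ⟨e * swap x y, f, he.mul_left hdis.symm, hf0, hf1, hf2, ?_⟩
        rw [hf4, hf3.commute.eq]; simp only [mul_assoc]
    have hcomm : a * e * swap x y * D = a * e * (D * swap x y) := by
      rw [mul_assoc (a * e), hdis.commute.eq]
    rw [hcomm, ← sum_sdiff hKG]
    calc F (a * e) + F (a * e * (D * swap x y)) + (∑ τ ∈ G \ K, F τ + ∑ τ ∈ K, F τ)
        = (F (a * e) + F (a * e * (D * swap x y)) + ∑ τ ∈ K, F τ) + ∑ τ ∈ G \ K, F τ := by abel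
      _ = F (a * e * swap x y) + F (a * e * D) + (∑ τ ∈ G \ K, F τ + ∑ τ ∈ K, F τ) := by
          rw [hEq]; abel
  obtain ⟨K, hK, hEq⟩ := tele2 hD a hE _ c le_rfl hcd
  have hdisj : Disjoint G K := by
    rw [Finset.disjoint_left]
    intro τ hτG hτK
    rw [hG, mem_filter] at hτG
    obtain ⟨-, e', f, he', hf0, hf1, hf2, rfl⟩ := hτG
    obtain ⟨e, he0, he1, he2, he3, h4 | h4⟩ := hK _ hτK
    · have h5 : e' * f = e := mul_left_cancel h4
      obtain ⟨z, hz⟩ : ∃ z, f z ≠ z := by
        by_contra hcon
        push Not at hcon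
        exact hf0 (Perm.ext hcon)
      have hz1 : D z ≠ z := mem_support.1 (hf1 (mem_support.2 hz))
      have hz2 : D (f z) ≠ f z :=
        mem_support.1 (hf1 (mem_support.2 (fun h => hz (f.injective h))))
      have h6 : e' (f z) = f z := (he' _).resolve_right hz2
      have h7 : e z = z := (he3 _).resolve_right hz1
      rw [← h5, Perm.mul_apply, h6] at h7
      exact hz h7
    · have h5 : e' * f = e * D := mul_left_cancel h4
      obtain ⟨z, hz1, hz2⟩ : ∃ z ∈ D.support, z ∉ f.support := by
        by_contra hcon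
        push Not at hcon
        have := card_le_card (show D.support ⊆ f.support from hcon)
        omega
      have z1 : D z ≠ z := mem_support.1 hz1
      have z2 : f z = z := notMem_support.1 hz2
      have z3 : D (D z) ≠ D z := fun h => z1 (D.injective h)
      have h6 : e' z = z := (he' _).resolve_right z1
      have h7 : e (D z) = D z := (he3 _).resolve_right z3
      have h8 : (e' * f) z = (e * D) z := by rw [h5]
      rw [Perm.mul_apply, Perm.mul_apply, z2, h6, h7] at h8
      exact z1 h8.symm
  have hsplit := sum_split F (G ∪ K)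
  rw [sum_union hdisj] at hsplit
  rw [hsplit]
  set R := ∑ σ ∈ (G ∪ K)ᶜ, F σ
  calc F a + F (a * (c * D)) + (∑ σ ∈ G, F σ + ∑ σ ∈ K, F σ + R)
      = (F a + F (a * (c * D)) + ∑ σ ∈ G, F σ + ∑ σ ∈ K, F σ) + R := by abel
    _ = (F (a * c) + F (a * D) + ∑ σ ∈ G, F σ + ∑ σ ∈ K, F σ) + R := by rw [hEq]
    _ = F (a * c) + F (a * D) + (∑ σ ∈ G, F σ + ∑ σ ∈ K, F σ + R) := by abel

end Birk
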