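import Pool.Agent.Work.MP_697f4c_co.Tele2

/-!
MP_697f4c_co, work file: quadratic relations from the elementary ones, with a set of catalysts
which avoids given rankings.
-/

open Equiv Equiv.Perm Finset

namespace Birk

variable {M : Type*} [AddCommMonoid M] {α : Type*} [DecidableEq α] [Fintype α]

open Classical in
/-- a quadratic relation with catalysts -/
theorem quad_cat {F : Perm α → M} (hQ : EQ F) (a : Perm α) {c D : Perm α}
    (hcd : Perm.Disjoint c D) (hD : D ≠ 1) :
    ∃ L : Finset (Perm α), a * D ∉ L ∧ a * (c * D) ∉ L ∧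
      (∀ τ ∈ L, ∀ u v, D u = u → D v ≠ v → τ u ≠ a v) ∧
      F a + F (a * (c * D)) + ∑ τ ∈ L, F τ = F (a * c) + F (a * D) + ∑ τ ∈ L, F τ := by
  set G : Finset (Perm α) := univ.filter fun τ => ∃ e f : Perm α, Perm.Disjoint e D ∧ f ≠ 1 ∧
    f.support ⊆ D.support ∧ f.support.card < D.support.card ∧ τ = a * (e * f) with hG
  have hE : ∀ (e : Perm α) (x y : α), Perm.Disjoint e D → x ≠ y → D x = x → D y = y →
      F (a * e) + F (a * e * swap x y * D) + ∑ τ ∈ G, F τ
        = F (a * e * swap x y) + F (a * e * D) + ∑ τ ∈ G, F τ := by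
    intro e x y he hxy hx hy
    obtain ⟨K, hK, hEq⟩ := tele_swap hQ (a * e) D hxy hx hy
    have hdis : Perm.Disjoint D (swap x y) := by
      intro z
      by_cases hz : z = x
      · left; rw [hz, hx]
      by_cases hz2 : z = y
      · left; rw [hz2, hy]
      · right; exact swap_apply_of_ne_of_ne hz hz2
    have hKG : K ⊆ G := by
      intro τ hτ
      rw [hG, mem_filter]
      refine ⟨mem_univ _, ?_⟩
      obtain ⟨f, hf0, hf1, hf2, hf3, hf4 | hf4⟩ := hK τ hτ
      · exact ⟨e, f, he, hf0, hf1, hf2, by rw [hf4, mul_assoc]⟩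
      · refine ⟨e * swap x y, f, he.mul_left hdis.symm, hf0, hf1, hf2, ?_⟩
        rw [hf4, hf3.commute.eq]; simp only [mul_assoc]
    have hcomm : a * e * swap x y * D = a * e * (D * swap x y) := by
      rw [mul_assoc (a * e), hdis.commute.eq]
    rw [hcomm, ← sum_sdiff hKG]
    calc F (a * e) + F (a * e * (D * swap x y)) + (∑ τ ∈ G \ K, F τ + ∑ τ ∈ K, F τ)
        = (F (a * e) + F (a * e * (D * swap x y)) + ∑ τ ∈ K, F τ) + ∑ τ ∈ G \ K, F τ := by abel
      _ = F (a * e * swap x y) + F (a * e * D) + (∑ τ ∈ G \ K, F τ + ∑ τ ∈ K, F τ) := by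
          rw [hEq]; abel
  obtain ⟨K, hK, hEq⟩ := tele2 hD a hE _ c le_rfl hcd
  -- an element of `G` is determined by its second factor on the support of `D`
  have keyG : ∀ e' e f g : Perm α, Perm.Disjoint e' D → Perm.Disjoint e D →
      f.support ⊆ D.support → (∀ z, D z ≠ z → D (g z) ≠ g z) → e' * f = e * g →
      ∀ z, D z ≠ z → f z = g z := by
    intro e' e f g he' he hf hg h z hz
    have hfz : D (f z) ≠ f z := by
      by_cases h1 : f z = z
      · rw [h1]; exact hz
      · exact mem_support.1 (hf (mem_support.2 (fun h => h1 (f.injective h))))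
    have h1 : e' (f z) = f z := (he' _).resolve_right hfz
    have h2 : e (g z) = g z := (he _).resolve_right (hg z hz)
    have h3 : (e' * f) z = (e * g) z := by rw [h]
    rw [Perm.mul_apply, Perm.mul_apply, h1, h2] at h3
    exact h3
  have notG : ∀ e g : Perm α, Perm.Disjoint e D → (g = 1 ∨ g = D) → a * (e * g) ∉ G := by
    intro e g he hg hm
    rw [hG, mem_filter] at hm
    obtain ⟨-, e', f, he', hf0, hf1, hf2, h3⟩ := hm
    have h4 : e' * f = e * g := (mul_left_cancel h3).symm
    have hgz : ∀ z, D z ≠ z → D (g z) ≠ g z := by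
      intro z hz
      rcases hg with rfl | rfl
      · exact hz
      · exact fun h => hz (g.injective h)
    have h5 := keyG e' e f g he' he hf1 hgz h4
    rcases hg with rfl | rfl
    · apply hf0
      ext z
      by_cases hz : D z = z
      · have : z ∉ f.support := fun h => (mem_support.1 (hf1 h)) hz
        rw [notMem_support.1 this]; rfl
      · exact h5 z hz
    · have : g.support ⊆ f.support := by
        intro z hz
        rw [mem_support] at hz ⊢
        rw [h5 z hz]; exact hz
      have := card_le_card this
      omega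
  obtain ⟨z0, hz0⟩ : ∃ z, D z ≠ z := by
    by_contra hcon
    push Not at hcon
    exact hD (Perm.ext hcon)
  have notD : ∀ e e' : Perm α, Perm.Disjoint e D → Perm.Disjoint e' D → e ≠ e' * D := by
    intro e e' he he' h1
    have h2 : e z0 = z0 := (he z0).resolve_right hz0
    have h3 : e' (D z0) = D z0 := (he' (D z0)).resolve_right (fun h => hz0 (D.injective h))
    rw [h1, Perm.mul_apply, h3] at h2
    exact hz0 h2
  have hdisj : Disjoint G K := by
    rw [Finset.disjoint_left]
    intro τ hτG hτK
    obtain ⟨e, he0, he1, he2, he3, h4 | h4⟩ := hK _ hτK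
    · have := notG e 1 he3 (Or.inl rfl)
      rw [mul_one, ← h4] at this
      exact this hτG
    · have := notG e D he3 (Or.inr rfl)
      rw [← h4] at this
      exact this hτG
  refine ⟨G ∪ K, ?_, ?_, ?_, ?_⟩
  · rw [mem_union, not_or]
    constructor
    · have := notG 1 D (Perm.disjoint_one_left D) (Or.inr rfl)
      rwa [one_mul] at this
    · intro hm
      obtain ⟨e, he0, he1, he2, he3, h4 | h4⟩ := hK _ hm
      · exact notD e 1 he3 (Perm.disjoint_one_left D) (by rw [one_mul]; exact (mul_left_cancel h4).symm)
      · apply he0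
        have h5 := mul_left_cancel h4
        exact (mul_eq_right.1 h5.symm)
  · rw [mem_union, not_or]
    constructor
    · exact notG c D hcd (Or.inr rfl)
    · intro hm
      obtain ⟨e, he0, he1, he2, he3, h4 | h4⟩ := hK _ hm
      · exact notD e c he3 hcd (mul_left_cancel h4).symm
      · have h5 : c = e := mul_right_cancel (mul_left_cancel h4)
        rw [h5] at he2
        exact lt_irrefl _ he2
  · intro τ hτ u v hu hv
    have huv : u ≠ v := by rintro rfl; exact hv hu
    have key : ∀ e : Perm α, Perm.Disjoint e D → e u ≠ v := by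
      intro e he h
      have h2 : e v = v := (he v).resolve_right hv
      rw [← h2] at h
      exact huv (e.injective h)
    rw [mem_union] at hτ
    rcases hτ with hτ | hτ
    · rw [hG, mem_filter] at hτ
      obtain ⟨-, e, f, he, hf0, hf1, hf2, rfl⟩ := hτ
      have hfu : f u = u := by
        have : u ∉ f.support := fun h => (mem_support.1 (hf1 h)) hu
        exact notMem_support.1 this
      rw [Perm.mul_apply, Perm.mul_apply, hfu]
      exact fun h => key e he (a.injective h)
    · obtain ⟨e, he0, he1, he2, he3, rfl | rfl⟩ := hK _ hτ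
      · rw [Perm.mul_apply]; exact fun h => key e he3 (a.injective h)
      · rw [Perm.mul_apply, Perm.mul_apply, hu]; exact fun h => key e he3 (a.injective h)
  · rw [sum_union hdisj, ← add_assoc, ← add_assoc]
    exact hEq

end Birk
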