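import Pool.Agent.Work.MP_697f4c_co.Canon

/-!
MP_697f4c_co, work file: one transition of the walk which turns a ranking of a survey into a
prescribed ranking.
-/

open Equiv Finset

namespace Birk

variable {α : Type*} [DecidableEq α] [Fintype α]

omit [Fintype α] in
theorem up_of_ind {u v w z : α} (h : ∀ y, (if u = y then (1 : ℤ) else 0) + (if v = y then 1 else 0)
    = (if w = y then 1 else 0) + (if z = y then 1 else 0)) : UP u v w z := by
  unfold UP
  by_cases h1 : u = w
  · left
    refine ⟨h1, ?_⟩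
    have h2 := h v
    rw [h1] at h2
    simp only [if_true] at h2
    by_contra hne
    rw [if_neg (Ne.symm hne)] at h2
    omega
  · right
    have h2 := h u
    rw [if_pos rfl, if_neg (Ne.symm h1)] at h2
    have hz : z = u := by
      by_contra hne
      rw [if_neg hne] at h2
      have : (0 : ℤ) ≤ if v = u then 1 else 0 := by split_ifs <;> norm_num
      omega
    refine ⟨hz.symm, ?_⟩
    have h3 := h v
    rw [if_pos rfl, ← hz] at h3
    by_contra hne
    rw [if_neg (Ne.symm hne)] at h3
    omega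

/-- a cycle move -/
def CycMv (a b a' b' : Perm α) : Prop :=
  (∀ x y, pm a x y + pm b x y = pm a' x y + pm b' x y) ∧ (a⁻¹ * a').IsCycle

/-- an arc move -/
def ArcMv (a b s a' b' s' : Perm α) : Prop :=
  (∀ x y, pm a x y + pm b x y + pm s x y = pm a' x y + pm b' x y + pm s' x y) ∧
  ∃ (r r' : Perm α) (x0 x1 : α), x0 ≠ x1 ∧ Can a b r x0 ∧ Can a' b' r' x0 ∧
    UP (a x1) (b x1) (r x0) (r x1) ∧ s x1 ≠ r x0 ∧ s x1 ≠ r x1 ∧ r' x0 = s x1 ∧ s' x0 = s x0 ∧
    UP (r' x1) (s' x1) (r x0) (r x1) ∧
    (∀ x, x ≠ x0 → x ≠ x1 → UP (r' x) (s' x) (r x) (s x)) ∧ (s⁻¹ * s').IsCycle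

/-- one step between multisets of rankings -/
def Rm (U V : Multiset (Perm α)) : Prop :=
  (∃ W a b a' b', CycMv a b a' b' ∧ U = a ::ₘ b ::ₘ W ∧ V = a' ::ₘ b' ::ₘ W) ∨
  (∃ W a b s a' b' s', ArcMv a b s a' b' s' ∧ U = a ::ₘ b ::ₘ s ::ₘ W ∧
    V = a' ::ₘ b' ::ₘ s' ::ₘ W)

/-- sum of permutation matrices -/
def tot (W : Multiset (Perm α)) (x y : α) : ℤ := (W.map fun s => pm s x y).sum

omit [Fintype α] in
theorem tot_cons (s : Perm α) (W : Multiset (Perm α)) (x y : α) :
    tot (s ::ₘ W) x y = pm s x y + tot W x y := by simp [tot]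

omit [Fintype α] in
theorem tot_zero (x y : α) : tot (0 : Multiset (Perm α)) x y = 0 := by simp [tot]

omit [Fintype α] in
theorem tot_nonneg (W : Multiset (Perm α)) (x y : α) : 0 ≤ tot W x y := by
  induction W using Multiset.induction_on with
  | empty => rw [tot_zero]
  | cons s W ih => rw [tot_cons]; have := pm_nonneg s x y; omega

omit [Fintype α] in
theorem exists_of_tot {W : Multiset (Perm α)} {x y : α} (h : 0 < tot W x y) :
    ∃ s ∈ W, s x = y := by
  induction W using Multiset.induction_on with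
  | empty => rw [tot_zero] at h; exact absurd h (lt_irrefl _)
  | cons s W ih =>
    rw [tot_cons] at h
    by_cases hs : s x = y
    · exact ⟨s, Multiset.mem_cons_self _ _, hs⟩
    · have : pm s x y = 0 := by unfold pm; rw [if_neg hs]
      rw [this, zero_add] at h
      obtain ⟨t, ht, h2⟩ := ih h
      exact ⟨t, Multiset.mem_cons_of_mem ht, h2⟩

omit [Fintype α] in
theorem mu_nonneg (x0 y0 x y : α) : 0 ≤ mu x0 y0 x y := by unfold mu; split_ifs <;> norm_num

omit [Fintype α] in
theorem pm_sub_mu (σ : Perm α) (x0 x y : α) : 0 ≤ pm σ x y - mu x0 (σ x0) x y := by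
  unfold pm mu
  by_cases h : x = x0 ∧ y = σ x0
  · obtain ⟨rfl, rfl⟩ := h; simp
  · rw [if_neg h]; split_ifs <;> norm_num

/-- the exchange of `(x0, r x0), (x1, s x1)` for `(x0, s x1), (x1, r x0)` -/
theorem exch (r s : Perm α) {x0 x1 : α} (h01 : x1 ≠ x0) (hy : s x1 ≠ r x0) (hr : r x1 ≠ s x1) :
    ∃ r' s' : Perm α,
      (∀ x y, pm r' x y + pm s' x y = pm r x y + pm s x y - rect x0 x1 (r x0) (s x1) x y) ∧
      r' x0 = s x1 ∧ s' x0 = s x0 ∧ UP (r' x1) (s' x1) (r x0) (r x1) ∧
      (∀ x, x ≠ x0 → x ≠ x1 → UP (r' x) (s' x) (r x) (s x)) ∧ (s⁻¹ * s').IsCycle := by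
  set y0 := r x0 with hy0
  set y1 := s x1 with hy1
  set D : α → α → ℤ := fun x y => pm r x y + pm s x y - rect x0 x1 y0 y1 x y with hD
  have D0 : ∀ x y, 0 ≤ D x y := by
    intro x y
    have e : D x y = (pm r x y - mu x0 y0 x y) + (pm s x y - mu x1 y1 x y)
        + mu x0 y1 x y + mu x1 y0 x y := by
      simp only [hD]; unfold rect; ring
    rw [e]
    have h1 := pm_sub_mu r x0 x y
    have h2 := pm_sub_mu s x1 x y
    have h3 := mu_nonneg x0 y1 x y
    have h4 := mu_nonneg x1 y0 x y
    rw [← hy0] at h1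
    rw [← hy1] at h2
    omega
  have Dr : ∀ x, ∑ y, D x y = 2 := by
    intro x
    simp only [hD]
    rw [sum_sub_distrib, sum_add_distrib, pm_row, pm_row, rect_row]; norm_num
  have Dc : ∀ y, ∑ x, D x y = 2 := by
    intro y
    simp only [hD]
    rw [sum_sub_distrib, sum_add_distrib, pm_col, pm_col, rect_col]; norm_num
  -- rows of `D`
  have Dx0 : ∀ y, D x0 y = (if y1 = y then 1 else 0) + (if s x0 = y then 1 else 0) := by
    intro y
    simp only [hD]
    unfold rect mu pm
    simp only [true_and, Ne.symm h01, false_and, if_false]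
    by_cases ha : y0 = y
    · subst ha
      rw [← hy0]
      simp only [if_true, if_neg hy, if_neg (Ne.symm hy)]
      ring
    · rw [← hy0, if_neg ha, if_neg (Ne.symm ha)]
      by_cases hb : y1 = y
      · subst hb; simp only [if_true]; ring
      · rw [if_neg hb, if_neg (Ne.symm hb)]; ring
  have Dx1 : ∀ y, D x1 y = (if y0 = y then 1 else 0) + (if r x1 = y then 1 else 0) := by
    intro y
    simp only [hD]
    unfold rect mu pm
    simp only [true_and, h01, false_and, if_false]
    by_cases ha : y0 = y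
    · subst ha
      rw [← hy1]
      simp only [if_true, if_neg hy, if_neg (Ne.symm hy)]
      ring
    · rw [if_neg ha, if_neg (Ne.symm ha)]
      by_cases hb : y1 = y
      · subst hb; rw [← hy1]; simp only [if_true]; ring
      · rw [← hy1, if_neg hb, if_neg (Ne.symm hb)]; ring
  have Dx : ∀ x, x ≠ x0 → x ≠ x1 → ∀ y, D x y = pm r x y + pm s x y := by
    intro x h0 h1 y
    simp only [hD]
    unfold rect mu
    simp only [h0, h1, false_and, if_false]
    ring
  obtain ⟨r0, s0, hrs, hr0⟩ : ∃ r0 s0 : Perm α, (∀ x y, pm r0 x y + pm s0 x y = D x y) ∧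
      r0 x0 = y1 := by
    obtain ⟨c, d, hcd⟩ := konig2 D D0 Dr Dc
    have h1 := hcd x0 y1
    rw [Dx0 y1] at h1
    simp only [if_true] at h1
    by_cases hc : c x0 = y1
    · exact ⟨c, d, hcd, hc⟩
    · refine ⟨d, c, fun x y => by rw [← hcd x y]; ring, ?_⟩
      by_contra hd
      unfold pm at h1
      rw [if_neg hc, if_neg hd] at h1
      have : (0 : ℤ) ≤ if s x0 = y1 then 1 else 0 := by split_ifs <;> norm_num
      omega
  have hs0 : s0 x0 = s x0 := by
    have h1 := hrs x0 (s0 x0)
    rw [Dx0, pm_self] at h1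
    unfold pm at h1
    rw [hr0] at h1
    by_contra hne
    rw [if_neg (Ne.symm hne)] at h1
    omega
  have hs1 : s0 x1 ≠ y1 := by
    intro h
    have h1 := hrs x1 y1
    rw [Dx1, if_neg (Ne.symm hy), if_neg hr] at h1
    have h2 := pm_nonneg r0 x1 y1
    have h3 : pm s0 x1 y1 = 1 := by unfold pm; rw [if_pos h]
    omega
  set c := (s⁻¹ * s0).cycleOf x1 with hc
  have hcx : ∀ x, (s * c) x = s0 x ∨ ((s * c) x = s x ∧ x ≠ x1) := by
    intro x
    rw [Perm.mul_apply, hc, Perm.cycleOf_apply]
    by_cases hsc : (s⁻¹ * s0).SameCycle x1 x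
    · rw [if_pos hsc]; left; simp
    · rw [if_neg hsc]; right
      refine ⟨rfl, ?_⟩
      rintro rfl
      exact hsc (Perm.SameCycle.refl _ _)
  have hsx0 : (s * c) x0 = s x0 := by
    rcases hcx x0 with h | h
    · rw [h, hs0]
    · exact h.1
  obtain ⟨r', hr'⟩ := konig1 (fun x y => D x y - pm (s * c) x y) (by
    intro x y
    show 0 ≤ D x y - pm (s * c) x y
    by_cases hxy : (s * c) x = y
    · have h1 : 1 ≤ D x y := by
        rcases hcx x with h2 | ⟨h2, h3⟩
        · rw [← hrs x y]
          have h4 : pm s0 x y = 1 := by unfold pm; rw [if_pos (by rw [← h2, hxy])]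
          have h5 := pm_nonneg r0 x y
          omega
        · have hsy : s x = y := by rw [← h2, hxy]
          by_cases hx0 : x = x0
          · subst hx0
            rw [Dx0, if_pos hsy]
            have : (0 : ℤ) ≤ if y1 = y then 1 else 0 := by split_ifs <;> norm_num
            omega
          · rw [Dx x hx0 h3]
            have h4 : pm s x y = 1 := by unfold pm; rw [if_pos hsy]
            have h5 := pm_nonneg r x y
            omega
      have := pm_le_one (s * c) x y
      omega
    · unfold pm; rw [if_neg hxy]; simpa using D0 x y) (by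
    intro x
    rw [sum_sub_distrib, Dr, pm_row]; norm_num) (by
    intro y
    rw [sum_sub_distrib, Dc, pm_col]; norm_num)
  have hsum : ∀ x y, pm r' x y + pm (s * c) x y = D x y := by
    intro x y
    rw [← hr' x y]; ring
  refine ⟨r', s * c, hsum, ?_, hsx0, ?_, ?_, ?_⟩
  · have h1 := hsum x0 y1
    rw [Dx0 y1] at h1
    simp only [if_true] at h1
    have h2 : pm (s * c) x0 y1 = if s x0 = y1 then 1 else 0 := by unfold pm; rw [hsx0]
    rw [h2] at h1
    exact pm_pos (by omega)
  · apply up_of_ind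
    intro y
    have h1 := hsum x1 y
    rw [Dx1] at h1
    exact h1
  · intro x h0 h1
    apply up_of_ind
    intro y
    have h2 := hsum x y
    rw [Dx x h0 h1] at h2
    exact h2
  · have e : s⁻¹ * (s * c) = c := by rw [← mul_assoc, inv_mul_cancel, one_mul]
    rw [e, hc]
    apply Perm.isCycle_cycleOf
    rw [Perm.mul_apply]
    intro h
    apply hs1
    rw [hy1]
    calc s0 x1 = s (s⁻¹ (s0 x1)) := by simp
      _ = s x1 := by rw [h]

end Birk
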